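import Pool.Agent.H60.GQ.Basic

/-!
Project GQ (MP_a3aa3c_co), module Counts: the standard cardinalities of a generalized quadrangle.

Proof plan.
* `card_points`: fix a line `l` (exists, since `P` is nonempty). The points off `l` correspond to
  triples (q on l, line m ≠ l through q, point r ≠ q on m) (projection axiom: existence and
  uniqueness), so |P| = (s+1) + (s+1) * t * s.
* `card_lines`: apply `card_points` to `h.dual`.
* `nbr_card`: the points ≠ p collinear with p are the disjoint union over the t+1 lines through p
  of the s other points of the line.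
* `common_card`: r ↦ the line p r is a bijection of the common neighbours onto the lines through p
  (inverse: projection of q; note q is on no line through p).
* `noncol_card`: complement of {p} ∪ neighbours, from `card_points`.
-/

namespace H60GQ

universe u v

variable {P : Type u} {L : Type v} {I : P → L → Prop} {s t : ℕ}

private lemma Counts_conv {α : Type*} [Fintype α] (p : α → Prop) [DecidablePred p] :
    {x | p x}.ncard = (Finset.univ.filter p).card := by
  rw [Set.ncard_eq_toFinset_card', Set.toFinset_ofPred]

private lemma Counts_erase [Finite P] (h : IsGQ I s t) {q : P} {m : L} (hq : I q m) :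
    {p | I p m ∧ p ≠ q}.ncard = s := by
  have h1 : {p | I p m ∧ p ≠ q} = {p | I p m} \ {q} := by
    ext x
    simp
  rw [h1, Set.ncard_sdiff_singleton_of_mem (by exact hq), h.line_card]
  rfl

theorem IsGQ.card_points [Finite P] [Finite L] [Nonempty P] (h : IsGQ I s t) :
    Nat.card P = (s + 1) * (s * t + 1) := by
  classical
  have := Fintype.ofFinite P
  have := Fintype.ofFinite L
  obtain ⟨p0⟩ := (inferInstance : Nonempty P)
  obtain ⟨l, -⟩ := h.exists_line p0
  have hon : (Finset.univ.filter (fun p => I p l)).card = s + 1 := by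
    rw [← Counts_conv, h.line_card]
  let pairs : Finset (Sigma fun _ : P => L) := (Finset.univ.filter (fun p => I p l)).sigma
    (fun q => Finset.univ.filter (fun m => I q m ∧ m ≠ l))
  have hpairs : pairs.card = (s + 1) * t := by
    rw [Finset.card_sigma, Finset.sum_const_nat (m := t), hon]
    intro q hq
    rw [← Counts_conv (fun m => I q m ∧ m ≠ l)]
    exact Counts_erase h.dual (Finset.mem_filter.1 hq).2
  have hoff : (Finset.univ.filter (fun p => ¬ I p l)) =
      pairs.biUnion (fun x => Finset.univ.filter (fun p => I p x.2 ∧ p ≠ x.1)) := by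
    ext p
    simp only [Finset.mem_filter, Finset.mem_univ, true_and, Finset.mem_biUnion, pairs,
      Finset.mem_sigma]
    constructor
    · intro hp
      obtain ⟨q, m, h1, h2, h3⟩ := h.exists_proj hp
      refine ⟨⟨q, m⟩, ⟨h1, h3, ?_⟩, h2, ?_⟩
      · rintro rfl
        exact hp h2
      · rintro rfl
        exact hp h1
    · rintro ⟨⟨q, m⟩, ⟨h1, h3, h4⟩, h2, h5⟩ hp
      exact h4 (h.unique p q m l h5 h2 h3 hp h1)
  have hoffc : (Finset.univ.filter (fun p => ¬ I p l)).card = (s + 1) * t * s := by
    rw [hoff, Finset.card_biUnion, Finset.sum_const_nat (m := s), hpairs]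
    · rintro ⟨q, m⟩ hx
      simp only [pairs, Finset.mem_sigma, Finset.mem_filter, Finset.mem_univ, true_and] at hx
      rw [← Counts_conv (fun p => I p m ∧ p ≠ q)]
      exact Counts_erase h hx.2.1
    · rintro ⟨q, m⟩ hx ⟨q', m'⟩ hy hne
      simp only [pairs, Finset.mem_coe, Finset.mem_sigma, Finset.mem_filter, Finset.mem_univ,
        true_and] at hx hy
      rw [Function.onFun, Finset.disjoint_left]
      intro p hp hp'
      simp only [Finset.mem_filter, Finset.mem_univ, true_and] at hp hp'
      apply hne
      have hpl : ¬ I p l := by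
        intro hpl
        exact hx.2.2 (h.unique p q m l hp.2 hp.1 hx.2.1 hpl hx.1)
      obtain ⟨e1, e2⟩ := h.proj_unique hpl hx.1 hp.1 hx.2.1 hy.1 hp'.1 hy.2.1
      rw [e1, e2]
  have hsum := Finset.card_filter_add_card_filter_not (s := (Finset.univ : Finset P))
    (fun p => I p l)
  rw [hon, hoffc] at hsum
  rw [Nat.card_eq_fintype_card, ← Finset.card_univ, ← hsum]
  ring

theorem IsGQ.card_lines [Finite P] [Finite L] [Nonempty P] (h : IsGQ I s t) :
    Nat.card L = (t + 1) * (s * t + 1) := by
  obtain ⟨p0⟩ := (inferInstance : Nonempty P)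
  obtain ⟨l, -⟩ := h.exists_line p0
  have : Nonempty L := ⟨l⟩
  rw [h.dual.card_points]
  ring

theorem IsGQ.nbr_card [Finite P] [Finite L] (h : IsGQ I s t) (p : P) :
    {q | q ≠ p ∧ Col I p q}.ncard = s * (t + 1) := by
  classical
  have := Fintype.ofFinite P
  have := Fintype.ofFinite L
  have hl : (Finset.univ.filter (fun l => I p l)).card = t + 1 := by
    rw [← Counts_conv, h.point_card]
  have h1 : (Finset.univ.filter (fun q => q ≠ p ∧ Col I p q)) =
      (Finset.univ.filter (fun l => I p l)).biUnion
        (fun l => Finset.univ.filter (fun q => I q l ∧ q ≠ p)) := by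
    ext q
    simp only [Finset.mem_filter, Finset.mem_univ, true_and, Finset.mem_biUnion]
    constructor
    · rintro ⟨hne, l, h1, h2⟩
      exact ⟨l, h1, h2, hne⟩
    · rintro ⟨l, h1, h2, hne⟩
      exact ⟨hne, l, h1, h2⟩
  rw [Counts_conv (fun q => q ≠ p ∧ Col I p q), h1, Finset.card_biUnion,
    Finset.sum_const_nat (m := s), hl]
  · ring
  · intro l hx
    rw [← Counts_conv (fun q => I q l ∧ q ≠ p)]
    exact Counts_erase h (Finset.mem_filter.1 hx).2
  · intro l hx l' hy hne
    simp only [Finset.mem_coe, Finset.mem_filter, Finset.mem_univ, true_and] at hx hy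
    rw [Function.onFun, Finset.disjoint_left]
    intro q hq hq'
    simp only [Finset.mem_filter, Finset.mem_univ, true_and] at hq hq'
    exact hne (h.unique q p l l' hq.2 hq.1 hx hq'.1 hy)

theorem IsGQ.common_card [Finite P] [Finite L] (h : IsGQ I s t) {p q : P} (hpq : ¬ Col I p q) :
    {r | Col I p r ∧ Col I q r}.ncard = t + 1 := by
  classical
  have := Fintype.ofFinite P
  have := Fintype.ofFinite L
  have hl : (Finset.univ.filter (fun l => I p l)).card = t + 1 := by
    rw [← Counts_conv, h.point_card]
  have h1 : (Finset.univ.filter (fun r => Col I p r ∧ Col I q r)) =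
      (Finset.univ.filter (fun l => I p l)).biUnion
        (fun l => Finset.univ.filter (fun r => I r l ∧ Col I q r)) := by
    ext r
    simp only [Finset.mem_filter, Finset.mem_univ, true_and, Finset.mem_biUnion]
    constructor
    · rintro ⟨⟨l, h1, h2⟩, h3⟩
      exact ⟨l, h1, h2, h3⟩
    · rintro ⟨l, h1, h2, h3⟩
      exact ⟨⟨l, h1, h2⟩, h3⟩
  rw [Counts_conv (fun r => Col I p r ∧ Col I q r), h1, Finset.card_biUnion,
    Finset.sum_const_nat (m := 1), hl]
  · ring
  · intro l hx
    have hpl : I p l := (Finset.mem_filter.1 hx).2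
    have hql : ¬ I q l := fun hql => hpq ⟨l, hpl, hql⟩
    obtain ⟨r, hr, hu⟩ := h.exists_unique_col hql
    rw [Finset.card_eq_one]
    refine ⟨r, ?_⟩
    ext x
    simp only [Finset.mem_filter, Finset.mem_univ, true_and, Finset.mem_singleton]
    constructor
    · intro hx
      exact hu x hx
    · rintro rfl
      exact hr
  · intro l hx l' hy hne
    simp only [Finset.mem_coe, Finset.mem_filter, Finset.mem_univ, true_and] at hx hy
    rw [Function.onFun, Finset.disjoint_left]
    intro r hr hr'
    simp only [Finset.mem_filter, Finset.mem_univ, true_and] at hr hr'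
    have hne' : r ≠ p := by
      rintro rfl
      exact hpq hr.2.symm
    exact hne (h.unique r p l l' hne' hr.1 hx hr'.1 hy)

theorem IsGQ.noncol_card [Finite P] [Finite L] (h : IsGQ I s t) (p : P) :
    {q | ¬ Col I p q}.ncard = s ^ 2 * t := by
  classical
  have := Fintype.ofFinite P
  have := Fintype.ofFinite L
  have : Nonempty P := ⟨p⟩
  have h1 := h.nbr_card p
  rw [Counts_conv (fun q => q ≠ p ∧ Col I p q)] at h1
  have h2 : (Finset.univ.filter (fun q => Col I p q)) =
      insert p (Finset.univ.filter (fun q => q ≠ p ∧ Col I p q)) := by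
    ext q
    simp only [Finset.mem_filter, Finset.mem_univ, true_and, Finset.mem_insert]
    constructor
    · intro hq
      by_cases hqp : q = p
      · exact Or.inl hqp
      · exact Or.inr ⟨hqp, hq⟩
    · rintro (rfl | hq)
      · exact h.col_refl q
      · exact hq.2
  have h3 : (Finset.univ.filter (fun q => Col I p q)).card = s * (t + 1) + 1 := by
    rw [h2, Finset.card_insert_of_notMem (by simp), h1]
  have hsum := Finset.card_filter_add_card_filter_not (s := (Finset.univ : Finset P))
    (fun q => Col I p q)
  have hP := h.card_points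
  rw [Nat.card_eq_fintype_card, ← Finset.card_univ] at hP
  rw [h3, hP] at hsum
  rw [Counts_conv (fun q => ¬ Col I p q)]
  have h4 : (s + 1) * (s * t + 1) = s * (t + 1) + 1 + s ^ 2 * t := by ring
  omega

end H60GQ
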