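import Pool.Agent.H60.GQ.W22Basic2

/-!
Project GQ (MP_a3aa3c_co), module AlphaLines: lines with two α points.

`two_alpha`: let N ∉ L' contain α k b and α l c, (k, b) ≠ (l, c). Then k, l are disjoint (`αα_meet`;
k ≠ l since otherwise N = ψ k). N has 5 points z1 = α k b, z2 = α l c, z3, z4, z5, none in P'
(`α_line`); by `ext_part` the sets T z are pairwise disjoint; T z1 = lineSet k, T z2 = lineSet l
(`T_α`), the others are lines (`T_α`) or triads (`T_B`). Apply `F1`.
First case: z3, z4, z5 are α points (a line set is not a triad: its points are collinear) on lines m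
with Spr k l m. Second case: one of them is an α point on the line m with Reg k l m and the two
others are H points.

`dichotomy`. For k, l disjoint call (k, l) reg if for all b, c with α k b, α l c collinear the line
through them contains an α m d with Reg k l m; by `two_alpha` otherwise it contains α points of all
three m with Spr k l m (for that b). It does not depend on b: if α k b ~ α l c ~ α m d pairwise
collinear (they are on one line by no_triangle) then, by the perfect matchings `αα_skew`, the other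
points α k !b, α l !c, α m !d are pairwise collinear as well.
Both cannot happen for the same (k, l): the α points on the line m with Reg k l m and on a line n
with Spr k l n would be on the same line N, but m, n meet (`F9`, `αα_meet`).
Let G k l : Prop := α's of k, l, m pairwise collinear for the m with Reg k l m. If Reg k l m then
G k l ↔ G k m ↔ G l m (same triple). If Spr k l n then G k l ↔ G k n: if ¬ G k l then the line through
α k b, α l c contains an α point of n, so the line through the α points of k, n contains one of l,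
with Spr k n l, so ¬ G k n by the exclusion above (and conversely).
Hence for fixed k, G k l is the same for all l disjoint from k (`F6`), then G is constant (`F7`).
If G holds always: first alternative. If G never holds: second one (for Spr k l m and α k b ~ α l c,
α k b ~ α m d: the line through α k b, α l c contains an α m d', and d' = d by `αα_skew`).
-/

namespace H60GQ

universe u v

open Finset Classical

variable {P : Type u} {L : Type v} {I : P → L → Prop} {t : ℕ} {P' : Set P} {L' : Set L}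

private theorem AlphaLines_inj : ∀ m m' : Fin 15, lineSet m = lineSet m' → m = m' := by
  decide +kernel

private theorem AlphaLines_not : ∀ m : Fin 15, ¬ IsTriad (lineSet m) := by
  decide +kernel

private theorem AlphaLines_ne : ∀ m : Fin 15, (lineSet m).card = 3 := by
  decide +kernel

theorem W22.two_alpha [Finite P] [Finite L] (h : IsGQ I 4 t) (ht : 2 ≤ t)
    (hs : SubGQ I P' L' 2 2) (w : W22 I P' L') {k l : Fin 15} {b c : Bool} {N : L}
    (hkl : ¬ (k = l ∧ b = c)) (h1 : I (w.α k b) N) (h2 : I (w.α l c) N) (hN : N ∉ L') :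
    skew22 k l = true ∧
      ((∃ m d, Reg k l m ∧ I (w.α m d) N ∧
          (∀ x, I x N → x ≠ w.α k b → x ≠ w.α l c → x ≠ w.α m d → w.IsH x)) ∨
        ((∀ x, I x N → w.IsA x) ∧ ∀ m, Spr k l m → ∃ d, I (w.α m d) N)) := by
  have hne : k ≠ l := by
    rintro rfl
    have hbc : b ≠ c := fun hc => hkl ⟨rfl, hc⟩
    have h3 : w.α k b ≠ w.α k c := fun hc => hbc (w.α_inj _ _ _ _ hc).2
    have h4 : N = w.ψ k := h.unique _ _ _ _ h3 h1 h2 ((w.pts k _).mpr (Or.inr ⟨b, rfl⟩))
      ((w.pts k _).mpr (Or.inr ⟨c, rfl⟩))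
    exact hN ((w.memL N).mpr ⟨k, h4⟩)
  have hsk : skew22 k l = true := by
    by_contra hc
    exact w.αα_meet h hs hne (by simpa using hc) b c ⟨N, h1, h2⟩
  refine ⟨hsk, ?_⟩
  have hφ : ∀ i, ¬ I (w.φ i) N := fun i => w.α_line h hs h1 hN i
  have hNP : ∀ x, I x N → x ∉ P' := by
    intro x hx hxP
    obtain ⟨i, rfl⟩ := (w.memP x).mp hxP
    exact hφ i hx
  have hdisj : ∀ x y, I x N → I y N → x ≠ y → Disjoint (w.T x) (w.T y) := by
    intro x y hx hy hxy
    rw [Finset.disjoint_left]
    intro i hi hj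
    obtain ⟨z, -, hz⟩ := w.ext_part h hφ i
    exact hxy ((hz x ⟨hx, hi⟩).trans (hz y ⟨hy, hj⟩).symm)
  have hA : ∀ x, I x N → (∃ m, w.T x = lineSet m) ∨ IsTriad (w.T x) := by
    intro x hx
    by_cases hxA : w.IsA x
    · obtain ⟨m, d, rfl⟩ := hxA
      exact Or.inl ⟨m, w.T_α h hs m d⟩
    · exact Or.inr (w.T_B h ht hs ⟨hNP x hx, hxA⟩)
  have hB : ∀ x m, I x N → w.T x = lineSet m → ∃ d, x = w.α m d := by
    intro x m hx hT
    by_cases hxA : w.IsA x
    · obtain ⟨m', d, rfl⟩ := hxA
      rw [w.T_α h hs] at hT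
      rw [AlphaLines_inj _ _ hT]
      exact ⟨d, rfl⟩
    · have h3 := w.T_B h ht hs ⟨hNP x hx, hxA⟩
      rw [hT] at h3
      exact absurd h3 (AlphaLines_not m)
  have hC : ∀ x, I x N → IsHyp (w.T x) → w.IsH x := by
    intro x hx hT
    refine ⟨⟨hNP x hx, ?_⟩, hT⟩
    rintro ⟨m, d, rfl⟩
    rw [w.T_α h hs] at hT
    exact AlphaLines_not m hT.1
  have h12 : w.α k b ≠ w.α l c := fun hc => hkl (w.α_inj _ _ _ _ hc)
  -- the three other points
  have h5 : ({y | I y N} \ {w.α k b, w.α l c} : Set P).ncard = 3 := by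
    have h3 : ({w.α k b, w.α l c} : Set P) ⊆ {y | I y N} := by
      rintro y (rfl | hy)
      · exact h1
      · rw [Set.mem_singleton_iff] at hy
        rw [hy]
        exact h2
    have h4 := Set.ncard_sdiff_add_ncard_of_subset h3 (Set.toFinite _)
    rw [h.line_card, Set.ncard_pair h12] at h4
    omega
  rw [Set.ncard_eq_three] at h5
  obtain ⟨z3, z4, z5, h34, h35, h45, he⟩ := h5
  have hmem : ∀ y, (I y N ∧ y ≠ w.α k b ∧ y ≠ w.α l c) ↔ y = z3 ∨ y = z4 ∨ y = z5 := by
    intro y
    have h6 : y ∈ ({y | I y N} \ {w.α k b, w.α l c} : Set P) ↔ y ∈ ({z3, z4, z5} : Set P) := by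
      rw [he]
    simpa using h6
  obtain ⟨a3, b3, c3⟩ := (hmem z3).mpr (Or.inl rfl)
  obtain ⟨a4, b4, c4⟩ := (hmem z4).mpr (Or.inr (Or.inl rfl))
  obtain ⟨a5, b5, c5⟩ := (hmem z5).mpr (Or.inr (Or.inr rfl))
  have hTk := w.T_α h hs k b
  have hTl := w.T_α h hs l c
  have hd : ∀ z, I z N → z ≠ w.α k b → z ≠ w.α l c →
      Disjoint (w.T z) (lineSet k ∪ lineSet l) := by
    intro z hz h6 h7
    rw [Finset.disjoint_union_right, ← hTk, ← hTl]
    exact ⟨hdisj z _ hz h1 h6, hdisj z _ hz h2 h7⟩
  rcases F1 k l hsk (w.T z3) (w.T z4) (w.T z5) (hA z3 a3) (hA z4 a4) (hA z5 a5)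
    (hd z3 a3 b3 c3) (hd z4 a4 b4 c4) (hd z5 a5 b5 c5) (hdisj z3 z4 a3 a4 h34)
    (hdisj z3 z5 a3 a5 h35) (hdisj z4 z5 a4 a5 h45) with
    ⟨⟨m3, e3, s3⟩, ⟨m4, e4, s4⟩, ⟨m5, e5, s5⟩⟩ | ⟨m, hreg, hcase⟩
  · right
    obtain ⟨d3, rfl⟩ := hB z3 m3 a3 e3
    obtain ⟨d4, rfl⟩ := hB z4 m4 a4 e4
    obtain ⟨d5, rfl⟩ := hB z5 m5 a5 e5
    have hmm : ∀ m m' d d', I (w.α m d) N → I (w.α m' d') N → w.α m d ≠ w.α m' d' → m ≠ m' := by
      intro m m' d d' h6 h7 h8 h9
      have h10 := hdisj _ _ h6 h7 h8
      rw [w.T_α h hs, w.T_α h hs, h9, disjoint_self] at h10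
      have h11 := AlphaLines_ne m'
      rw [h10] at h11
      simp at h11
    have g34 := hmm m3 m4 d3 d4 a3 a4 h34
    have g35 := hmm m3 m5 d3 d5 a3 a5 h35
    have g45 := hmm m4 m5 d4 d5 a4 a5 h45
    refine ⟨?_, ?_⟩
    · intro x hx
      by_cases hx1 : x = w.α k b
      · exact ⟨k, b, hx1⟩
      by_cases hx2 : x = w.α l c
      · exact ⟨l, c, hx2⟩
      rcases (hmem x).mp ⟨hx, hx1, hx2⟩ with h6 | h6 | h6
      · exact ⟨m3, d3, h6⟩
      · exact ⟨m4, d4, h6⟩
      · exact ⟨m5, d5, h6⟩
    · intro m hm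
      have h6 : ({m3, m4, m5} : Finset (Fin 15)) = univ.filter (fun m => Spr k l m) := by
        refine Finset.eq_of_subset_of_card_le ?_ ?_
        · intro n hn
          simp only [Finset.mem_insert, Finset.mem_singleton] at hn
          rw [Finset.mem_filter]
          refine ⟨Finset.mem_univ _, ?_⟩
          rcases hn with rfl | rfl | rfl
          · exact s3
          · exact s4
          · exact s5
        · have h7 := F11 k l hsk
          have h8 : ({m3, m4, m5} : Finset (Fin 15)).card = 3 :=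
            Finset.card_eq_three.mpr ⟨m3, m4, m5, g34, g35, g45, rfl⟩
          rw [h8]
          refine le_of_eq ?_
          rw [← h7]
      have h7 : m ∈ ({m3, m4, m5} : Finset (Fin 15)) := by
        rw [h6, Finset.mem_filter]
        exact ⟨Finset.mem_univ _, hm⟩
      simp only [Finset.mem_insert, Finset.mem_singleton] at h7
      rcases h7 with rfl | rfl | rfl
      · exact ⟨d3, a3⟩
      · exact ⟨d4, a4⟩
      · exact ⟨d5, a5⟩
  · left
    rcases hcase with ⟨e, p1, p2⟩ | ⟨e, p1, p2⟩ | ⟨e, p1, p2⟩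
    · obtain ⟨d, rfl⟩ := hB z3 m a3 e
      refine ⟨m, d, hreg, a3, fun x hx hx1 hx2 hx3 => ?_⟩
      rcases (hmem x).mp ⟨hx, hx1, hx2⟩ with h6 | h6 | h6
      · exact absurd h6 hx3
      · rw [h6]
        exact hC z4 a4 p1
      · rw [h6]
        exact hC z5 a5 p2
    · obtain ⟨d, rfl⟩ := hB z4 m a4 e
      refine ⟨m, d, hreg, a4, fun x hx hx1 hx2 hx3 => ?_⟩
      rcases (hmem x).mp ⟨hx, hx1, hx2⟩ with h6 | h6 | h6
      · rw [h6]
        exact hC z3 a3 p1
      · exact absurd h6 hx3
      · rw [h6]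
        exact hC z5 a5 p2
    · obtain ⟨d, rfl⟩ := hB z5 m a5 e
      refine ⟨m, d, hreg, a5, fun x hx hx1 hx2 hx3 => ?_⟩
      rcases (hmem x).mp ⟨hx, hx1, hx2⟩ with h6 | h6 | h6
      · rw [h6]
        exact hC z3 a3 p1
      · rw [h6]
        exact hC z4 a4 p2
      · exact absurd h6 hx3

/-- all reguli are `closed` -/
def W22.AllReg (w : W22 I P' L') : Prop :=
  ∀ k l m b c d, Reg k l m → Col I (w.α k b) (w.α l c) → Col I (w.α k b) (w.α m d) →
    Col I (w.α l c) (w.α m d)

/-- all spreads are `closed` -/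
def W22.AllSpr (w : W22 I P' L') : Prop :=
  ∀ k l m b c d, Spr k l m → Col I (w.α k b) (w.α l c) → Col I (w.α k b) (w.α m d) →
    Col I (w.α l c) (w.α m d)

end H60GQ
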