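import Mathlib

/-!
Project GQ (MP_a3aa3c_co), helper60. Generalized quadrangles: definitions and first lemmas.
-/

namespace H60GQ

universe u v

/-- `I` is the incidence relation of a generalized quadrangle of order `(s, t)`
(points `P`, lines `L`; finiteness and nonemptiness are separate assumptions). -/
structure IsGQ {P : Type u} {L : Type v} (I : P → L → Prop) (s t : ℕ) : Prop where
  /-- every line has exactly `s + 1` points -/
  line_card : ∀ l, {p | I p l}.ncard = s + 1
  /-- every point is on exactly `t + 1` lines -/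
  point_card : ∀ p, {l | I p l}.ncard = t + 1
  /-- two distinct points are on at most one common line -/
  unique : ∀ p q l m, p ≠ q → I p l → I q l → I p m → I q m → l = m
  /-- a point not on a line is joined to exactly one point of the line, by exactly one line -/
  proj : ∀ p l, ¬ I p l → ∃! r : P × L, I r.1 l ∧ I p r.2 ∧ I r.1 r.2

/-- `P'`, `L'` form a subquadrangle of order `(s, t)`. -/
def SubGQ {P : Type u} {L : Type v} (I : P → L → Prop) (P' : Set P) (L' : Set L)
    (s t : ℕ) : Prop :=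
  P'.Nonempty ∧ IsGQ (fun (p : P') (l : L') => I p.1 l.1) s t

/-- collinearity (reflexive as soon as every point is on a line) -/
def Col {P : Type u} {L : Type v} (I : P → L → Prop) (p q : P) : Prop := ∃ l, I p l ∧ I q l

variable {P : Type u} {L : Type v} {I : P → L → Prop} {s t : ℕ}

theorem Col.symm {p q : P} (h : Col I p q) : Col I q p := by
  obtain ⟨l, h1, h2⟩ := h; exact ⟨l, h2, h1⟩

theorem col_comm {p q : P} : Col I p q ↔ Col I q p := ⟨Col.symm, Col.symm⟩

/-- the dual quadrangle -/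
theorem IsGQ.dual (h : IsGQ I s t) : IsGQ (fun (l : L) (p : P) => I p l) t s where
  line_card := h.point_card
  point_card := h.line_card
  unique := by
    intro l m p q hlm h1 h2 h3 h4
    by_contra hpq
    exact hlm (h.unique p q l m hpq h1 h3 h2 h4)
  proj := by
    intro l p hpl
    obtain ⟨⟨q, m⟩, ⟨h1, h2, h3⟩, hu⟩ := h.proj p l hpl
    refine ⟨(m, q), ⟨h2, h1, h3⟩, ?_⟩
    rintro ⟨m', q'⟩ ⟨h1', h2', h3'⟩
    have := hu (q', m') ⟨h2', h1', h3'⟩
    simp only [Prod.mk.injEq] at this ⊢
    exact ⟨this.2, this.1⟩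

theorem IsGQ.exists_proj (h : IsGQ I s t) {p : P} {l : L} (hpl : ¬ I p l) :
    ∃ q m, I q l ∧ I p m ∧ I q m := by
  obtain ⟨⟨q, m⟩, ⟨h1, h2, h3⟩, -⟩ := h.proj p l hpl
  exact ⟨q, m, h1, h2, h3⟩

theorem IsGQ.proj_unique (h : IsGQ I s t) {p : P} {l : L} (hpl : ¬ I p l) {q q' : P} {m m' : L}
    (h1 : I q l) (h2 : I p m) (h3 : I q m) (h1' : I q' l) (h2' : I p m') (h3' : I q' m') :
    q = q' ∧ m = m' := by
  obtain ⟨r, -, hu⟩ := h.proj p l hpl
  have a := hu (q, m) ⟨h1, h2, h3⟩
  have b := hu (q', m') ⟨h1', h2', h3'⟩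
  have := a.trans b.symm
  simp only [Prod.mk.injEq] at this
  exact this

/-- a point off a line is collinear with at most one point of the line -/
theorem IsGQ.col_unique (h : IsGQ I s t) {p : P} {l : L} (hpl : ¬ I p l) {q q' : P}
    (h1 : I q l) (h1' : I q' l) (c : Col I p q) (c' : Col I p q') : q = q' := by
  obtain ⟨m, h2, h3⟩ := c
  obtain ⟨m', h2', h3'⟩ := c'
  exact (h.proj_unique hpl h1 h2 h3 h1' h2' h3').1

/-- a point off a line is collinear with exactly one point of the line -/
theorem IsGQ.exists_unique_col (h : IsGQ I s t) {p : P} {l : L} (hpl : ¬ I p l) :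
    ∃! q, I q l ∧ Col I p q := by
  obtain ⟨q, m, h1, h2, h3⟩ := h.exists_proj hpl
  exact ⟨q, ⟨h1, m, h2, h3⟩, fun q' hq' => h.col_unique hpl hq'.1 h1 hq'.2 ⟨m, h2, h3⟩⟩

/-- there are no triangles -/
theorem IsGQ.no_triangle (h : IsGQ I s t) {a b c : P} {l m n : L} (hab : a ≠ b) (hac : a ≠ c)
    (hbc : b ≠ c) (h1 : I a l) (h2 : I b l) (h3 : I b m) (h4 : I c m) (h5 : I a n)
    (h6 : I c n) : l = m ∧ l = n := by
  have hcl : I c l := by
    by_contra hcl
    exact hab (h.proj_unique hcl h1 h6 h5 h2 h4 h3).1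
  exact ⟨h.unique b c l m hbc h2 hcl h3 h4, h.unique a c l n hac h1 hcl h5 h6⟩

/-- if a point `c` is collinear with two points of a line then it is on the line -/
theorem IsGQ.mem_of_col (h : IsGQ I s t) {a b c : P} {l : L} (hab : a ≠ b)
    (h1 : I a l) (h2 : I b l) (ca : Col I c a) (cb : Col I c b) : I c l := by
  by_contra hcl
  exact hab (h.col_unique hcl h1 h2 ca cb)

/-- two collinear points of a line which is known -/
theorem IsGQ.line_unique (h : IsGQ I s t) {a b : P} {l m : L} (hab : a ≠ b)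
    (h1 : I a l) (h2 : I b l) (h3 : I a m) (h4 : I b m) : l = m :=
  h.unique a b l m hab h1 h2 h3 h4

theorem IsGQ.pt_unique (h : IsGQ I s t) {a b : P} {l m : L} (hlm : l ≠ m)
    (h1 : I a l) (h2 : I b l) (h3 : I a m) (h4 : I b m) : a = b := by
  by_contra hab
  exact hlm (h.unique a b l m hab h1 h2 h3 h4)

theorem IsGQ.exists_line (h : IsGQ I s t) (p : P) : ∃ l, I p l := by
  have hne : {l | I p l}.ncard ≠ 0 := by rw [h.point_card]; omega
  have := Set.nonempty_of_ncard_ne_zero hne
  exact this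

theorem IsGQ.exists_pt (h : IsGQ I s t) (l : L) : ∃ p, I p l := h.dual.exists_line l

theorem IsGQ.col_refl (h : IsGQ I s t) (p : P) : Col I p p := by
  obtain ⟨l, hl⟩ := h.exists_line p
  exact ⟨l, hl, hl⟩

end H60GQ
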