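import Pool.Agent.H60.GQ.HermAbs

/-!
Project GQ (MP_a3aa3c_co), module C42a: Hermitian points outside a subquadrangle (P', L') of order
(4, 2) of a quadrangle of order (4, t).

* `tangent_same`: if x ≠ y are outside P' on a line m with a point p in P', then
  Ox x ∩ Ox y = {p}: p is in both; a common point q ≠ p of Ox x, Ox y is not on m (`line_one`), so
  it is collinear with two points x, y of m without being on m: contradiction (`col_unique`).
  Now use `h1`.
* `ext_one`: a line m without points of P' has 5 points x_0..x_4, none in P'; the ovoids Ox x_i are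
  pairwise disjoint (a common point q would be collinear with two points of m, q not on m). Use `h2`.
-/

namespace H60GQ

universe u v

variable {P : Type u} {L : Type v} {I : P → L → Prop} {t : ℕ} {P' : Set P} {L' : Set L}

/-- the conclusion of `hermAbs` for a given predicate -/
structure HermData (I : P → L → Prop) (P' : Set P) (L' : Set L) (Herm : Set P → Prop) : Prop where
  h1 : ∀ O O', RelOvoid I P' L' O → RelOvoid I P' L' O' → (O ∩ O').ncard = 1 → (Herm O ↔ Herm O')
  h2 : ∀ f : Fin 5 → Set P, (∀ i, RelOvoid I P' L' (f i)) →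
        (∀ i j, i ≠ j → Disjoint (f i) (f j)) → ∃! i, Herm (f i)

/-- the Hermitian points -/
def HH (I : P → L → Prop) (P' : Set P) (Herm : Set P → Prop) : Set P :=
  {x | x ∉ P' ∧ Herm (Ox I P' x)}

variable {Herm : Set P → Prop}

theorem tangent_same (h : IsGQ I 4 t) (hs : SubGQ I P' L' 4 2) (hd : HermData I P' L' Herm)
    {x y p : P} {m : L} (hp : p ∈ P') (hx : x ∉ P') (hy : y ∉ P') (h1 : I p m) (h2 : I x m)
    (h3 : I y m) : x ∈ HH I P' Herm ↔ y ∈ HH I P' Herm := by
  by_cases hxy : x = y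
  · rw [hxy]
  · have hint : Ox I P' x ∩ Ox I P' y = {p} := by
      ext q
      rw [Set.mem_singleton_iff]
      constructor
      · rintro ⟨⟨hq, c1⟩, ⟨_, c2⟩⟩
        have hqm : I q m := h.mem_of_col hxy h2 h3 c1 c2
        exact line_one h hs hx hq hp h2 hqm h1
      · rintro rfl
        exact ⟨⟨hp, m, h1, h2⟩, ⟨hp, m, h1, h3⟩⟩
    have key := hd.h1 (Ox I P' x) (Ox I P' y) (ovoid h hs hx) (ovoid h hs hy)
      (by rw [hint, Set.ncard_singleton])
    exact ⟨fun hH => ⟨hy, key.mp hH.2⟩, fun hH => ⟨hx, key.mpr hH.2⟩⟩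

theorem ext_one (h : IsGQ I 4 t) (hs : SubGQ I P' L' 4 2) (hd : HermData I P' L' Herm) {m : L}
    (hm : ∀ p ∈ P', ¬ I p m) : ∃! x, I x m ∧ x ∈ HH I P' Herm := by
  have hc : Nat.card {p | I p m} = 5 := by
    rw [Nat.card_coe_set_eq, h.line_card m]
  have hfin : Finite {p | I p m} := Nat.finite_of_card_ne_zero (by omega)
  let e : Fin 5 ≃ {p | I p m} := (Finite.equivFinOfCardEq hc).symm
  have hout : ∀ i, (e i).1 ∉ P' := fun i hi => hm _ hi (e i).2
  obtain ⟨i, hi, hu⟩ := hd.h2 (fun i => Ox I P' (e i).1) (fun i => ovoid h hs (hout i)) (by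
    intro i j hij
    rw [Set.disjoint_left]
    rintro q ⟨hq, c1⟩ ⟨_, c2⟩
    have hne : (e i).1 ≠ (e j).1 := fun h' => hij (e.injective (Subtype.ext h'))
    exact hm q hq (h.mem_of_col hne (e i).2 (e j).2 c1 c2))
  refine ⟨(e i).1, ⟨(e i).2, hout i, hi⟩, ?_⟩
  rintro x ⟨hxm, hxH⟩
  have h5 := hu (e.symm ⟨x, hxm⟩) (by
    show Herm (Ox I P' (e (e.symm ⟨x, hxm⟩)).1)
    rw [Equiv.apply_symm_apply]
    exact hxH.2)
  rw [← h5, Equiv.apply_symm_apply]

end H60GQ
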