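import Pool.Agent.H60.GQ.C42a

/-!
Project GQ (MP_a3aa3c_co), module C42b: 5 |HH| = |P \ P'| when t > 8.

Count pairs (x, m), x ∉ P', m a line through x without points of P' (`external line`).
Each x ∉ P' is on t + 1 - 9 = t - 8 external lines (`external_card`, s t' + 1 = 9); each external
line has 5 points, all outside P'; so 5 |Λ| = (t - 8) |P \ P'|. Each external line has exactly one
point in HH (`ext_one`): |Λ| = (t - 8) |HH|. Divide by t - 8 > 0.

`ext_card`: |P \ P'| = 20 t - 40: |P| = 5 (4 t + 1) (`card_points`), |P'| = 45 (`card_pts`).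
-/

namespace H60GQ

universe u v

variable {P : Type u} {L : Type v} {I : P → L → Prop} {t : ℕ} {P' : Set P} {L' : Set L}
  {Herm : Set P → Prop}

private theorem C42b_double [Finite P] [Finite L] (R : P → L → Prop) (A : Set P) (Λ : Set L)
    (a b : ℕ) (h1 : ∀ x ∈ A, {m | m ∈ Λ ∧ R x m}.ncard = a)
    (h2 : ∀ m ∈ Λ, {x | x ∈ A ∧ R x m}.ncard = b) : a * A.ncard = b * Λ.ncard := by
  classical
  have := Fintype.ofFinite P
  have := Fintype.ofFinite L
  have key := Finset.card_mul_eq_card_mul (s := A.toFinset) (t := Λ.toFinset) R (m := a) (n := b)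
    ?_ ?_
  · rw [Set.ncard_eq_toFinset_card' A, Set.ncard_eq_toFinset_card' Λ]
    rw [mul_comm a, mul_comm b]
    exact key
  · intro x hx
    rw [← h1 x (Set.mem_toFinset.1 hx), Set.ncard_eq_toFinset_card']
    congr 1
    ext m
    simp [Finset.mem_bipartiteAbove]
  · intro m hm
    rw [← h2 m (Set.mem_toFinset.1 hm), Set.ncard_eq_toFinset_card']
    congr 1
    ext x
    simp [Finset.mem_bipartiteBelow]

theorem five [Finite P] [Finite L] (h : IsGQ I 4 t) (hs : SubGQ I P' L' 4 2)
    (hd : HermData I P' L' Herm) (ht : 8 < t) : 5 * (HH I P' Herm).ncard = (P'ᶜ).ncard := by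
  have e1 : ∀ x, x ∉ P' → {m | m ∈ {m | ∀ p ∈ P', ¬ I p m} ∧ I x m}.ncard = t - 8 := by
    intro x hx
    have h1 := external_card h hs hx
    have h2 : {m | m ∈ {m | ∀ p ∈ P', ¬ I p m} ∧ I x m} = {m | I x m ∧ ∀ p ∈ P', ¬ I p m} := by
      ext m
      exact and_comm
    rw [h2]
    omega
  have k1 := C42b_double I (P'ᶜ) {m | ∀ p ∈ P', ¬ I p m} (t - 8) 5 (fun x hx => e1 x hx) ?_
  · have k2 := C42b_double I (HH I P' Herm) {m | ∀ p ∈ P', ¬ I p m} (t - 8) 1
      (fun x hx => e1 x hx.1) ?_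
    · have ht' : 0 < t - 8 := by omega
      refine Nat.eq_of_mul_eq_mul_left ht' ?_
      rw [k1, mul_left_comm, k2, one_mul]
    · intro m hm
      obtain ⟨x, ⟨hx1, hx2⟩, hx3⟩ := ext_one h hs hd hm
      rw [Set.ncard_eq_one]
      refine ⟨x, ?_⟩
      ext y
      constructor
      · rintro ⟨hy1, hy2⟩
        exact hx3 y ⟨hy2, hy1⟩
      · intro hy
        rw [Set.mem_singleton_iff] at hy
        rw [hy]
        exact ⟨hx2, hx1⟩
  · intro m hm
    have h5 : {x | x ∈ P'ᶜ ∧ I x m} = {x | I x m} := by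
      ext x
      constructor
      · rintro ⟨-, h2⟩
        exact h2
      · intro h2
        exact ⟨fun h3 => hm x h3 h2, h2⟩
    rw [h5]
    exact h.line_card m

theorem ext_card [Finite P] [Finite L] (h : IsGQ I 4 t) (hs : SubGQ I P' L' 4 2) :
    (P'ᶜ).ncard + 40 = 20 * t := by
  have h1 := Set.ncard_add_ncard_compl P'
  have h2 := hs.card_pts
  have : Nonempty P := ⟨hs.1.some⟩
  have h3 := h.card_points
  omega

end H60GQ
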