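import Pool.Agent.H60.GQ.C42a

/-!
Project GQ (MP_a3aa3c_co), module C42c: every point p of P' is collinear with exactly 24 points of HH
(when t > 8 and HH is nonempty).

Proof plan.
(0) There is x in HH with p ∉ Ox x: take x0 in HH; if p ∈ Ox x0, take q ∈ Ox x0, q ≠ p (|Ox x0| = 9,
`ovoid_card`), the line m = x0 q, and another point y ∉ P' of m (5 points on m, only q in P',
`line_one`); y is in HH by `tangent_same`, and p ∉ Ox y (else p is collinear with x0 and y on m;
p is not on m by `line_one`; contradiction `col_unique`).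
(1) Fix such an x. The lines m ∉ L' through p whose points ≠ p are in HH: call them good. A line m
through p, m ∉ L', has exactly one point p in P' (`SubGQ.line_mem`) and 4 other points, all of them
in HH or none (`tangent_same`). So the number of points of HH collinear with p is 4 * #good
(a point of HH collinear with p is on exactly one line through p, and it is not in L'
by `SubGQ.full`).
(2) #good = 6: bijection with the 6 points q ∈ Ox x not collinear with p. (Exactly 3 points of Ox x
are collinear with p: p is on 3 lines of L', each has exactly one point of Ox x, and it is ≠ p;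
different lines give different points; and a point q of Ox x collinear with p is on the line p q
which is in L' by `line_mem`. |Ox x| = 9.)
 - q ↦ : p is not on the line x q (else p, q collinear or p = q) so there is a unique point y_q of
   the line x q collinear with p; y_q ≠ q, y_q ≠ x (p ∉ Ox x); y_q ∉ P' (`line_one`), and y_q ∈ HH by
   `tangent_same` (same line as x, q in P'); the line p y_q is good.
   Injective: if q ≠ q' give the same line m then x is collinear with y_q and y_q' on m, x not on m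
   (x not collinear with p), so y_q = y_q', then the lines x q and x q' coincide (both contain x and
   y_q), contradiction with `line_one`.
 - surjective: m good, x ∉ m (p ∉ Ox x); let y be the point of m collinear with x; y ≠ p, so y ∈ HH.
   The line x y contains two points of HH, so by `ext_one` it contains a point q of P'; q ∈ Ox x.
   q is not collinear with p: otherwise q is collinear with p and y on m, so q on m
   (`mem_of_col`), then q = p by `line_mem` (m ∉ L'), so p is on the line x y: p ∈ Ox x,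
   contradiction. And y_q = y.
-/

namespace H60GQ

universe u v

variable {P : Type u} {L : Type v} {I : P → L → Prop} {t : ℕ} {P' : Set P} {L' : Set L}
  {Herm : Set P → Prop}

private theorem C42c_step0 [Finite P] [Finite L] (h : IsGQ I 4 t) (hs : SubGQ I P' L' 4 2)
    (hd : HermData I P' L' Herm) {x0 : P} (hx0 : x0 ∈ HH I P' Herm) {p : P} (hp : p ∈ P') :
    ∃ x ∈ HH I P' Herm, ¬ Col I p x := by
  by_cases hc : Col I p x0
  · have h9 : (Ox I P' x0).ncard = 4 * 2 + 1 := ovoid_card hs (ovoid h hs hx0.1)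
    obtain ⟨q, hq, hqp⟩ : ∃ q ∈ Ox I P' x0, q ≠ p := by
      by_contra hcon
      push Not at hcon
      have h1 : Ox I P' x0 ⊆ {p} := fun q hq => hcon q hq
      have h2 := Set.ncard_le_ncard h1 (Set.finite_singleton p)
      rw [h9, Set.ncard_singleton] at h2
      omega
    obtain ⟨hqP, m, hqm, hxm⟩ := hq
    have hqx : q ≠ x0 := by
      rintro rfl
      exact hx0.1 hqP
    obtain ⟨y, hym, hyq, hyx⟩ : ∃ y, I y m ∧ y ≠ q ∧ y ≠ x0 := by
      by_contra hcon
      push Not at hcon
      have h1 : {y | I y m} ⊆ {q, x0} := by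
        intro y hy
        by_cases hyq : y = q
        · exact Or.inl hyq
        · exact Or.inr (hcon y hy hyq)
      have h2 := Set.ncard_le_ncard h1 (Set.toFinite _)
      rw [h.line_card, Set.ncard_pair hqx] at h2
      omega
    have hyP : y ∉ P' := fun hy => hyq (line_one h hs hx0.1 hy hqP hxm hym hqm)
    have hyH : y ∈ HH I P' Herm := (tangent_same h hs hd hqP hx0.1 hyP hqm hxm hym).mp hx0
    refine ⟨y, hyH, fun hpy => ?_⟩
    have hpm : I p m := h.mem_of_col hyx hym hxm hpy hc
    exact hqp (line_one h hs hx0.1 hqP hp hxm hqm hpm)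
  · exact ⟨x0, hx0, hc⟩

private theorem C42c_three [Finite P] [Finite L] (h : IsGQ I 4 t) (hs : SubGQ I P' L' 4 2)
    {x p : P} (hx : x ∉ P') (hp : p ∈ P') (hpx : ¬ Col I p x) :
    {q | q ∈ Ox I P' x ∧ Col I q p}.ncard = 3 := by
  have hov := ovoid h hs hx
  have hpc := hs.pc hp
  have hpO : p ∉ Ox I P' x := fun hc => hpx hc.2
  have hf : ∀ l : L, ∃ q : P, l ∈ L' → (q ∈ Ox I P' x ∧ I q l) := by
    intro l
    by_cases hl : l ∈ L'
    · obtain ⟨q, hq, -⟩ := hov.2 l hl
      exact ⟨q, fun _ => hq⟩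
    · exact ⟨p, fun hc => absurd hc hl⟩
  choose f hf using hf
  have e : {l | l ∈ L' ∧ I p l}.ncard = {q | q ∈ Ox I P' x ∧ Col I q p}.ncard := by
    refine Set.ncard_congr (fun l _ => f l) ?_ ?_ ?_
    · rintro l ⟨hl, hpl⟩
      exact ⟨(hf l hl).1, l, (hf l hl).2, hpl⟩
    · rintro l l' ⟨hl, hpl⟩ ⟨hl', hpl'⟩ he
      have h1 := hf l hl
      have h2 := hf l' hl'
      have hne : p ≠ f l := by
        intro hc
        rw [← hc] at h1
        exact hpO h1.1
      refine h.unique p (f l) l l' hne hpl h1.2 hpl' ?_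
      rw [he]
      exact h2.2
    · rintro q ⟨hq, m, hqm, hpm⟩
      have hne : q ≠ p := by
        rintro rfl
        exact hpO hq
      have hm : m ∈ L' := hs.line_mem h hq.1 hp hne hqm hpm
      refine ⟨m, ⟨hm, hpm⟩, ?_⟩
      obtain ⟨q', -, hu⟩ := hov.2 m hm
      exact (hu _ (hf m hm)).trans (hu _ ⟨hq, hqm⟩).symm
  rw [← e, hpc]

private theorem C42c_six [Finite P] [Finite L] (h : IsGQ I 4 t) (hs : SubGQ I P' L' 4 2)
    {x p : P} (hx : x ∉ P') (hp : p ∈ P') (hpx : ¬ Col I p x) :
    {q | q ∈ Ox I P' x ∧ ¬ Col I q p}.ncard = 6 := by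
  have h9 : (Ox I P' x).ncard = 4 * 2 + 1 := ovoid_card hs (ovoid h hs hx)
  have h3 := C42c_three h hs hx hp hpx
  have hu : Ox I P' x = {q | q ∈ Ox I P' x ∧ Col I q p} ∪ {q | q ∈ Ox I P' x ∧ ¬ Col I q p} := by
    ext q
    simp only [Set.mem_union, Set.mem_ofPred_eq]
    tauto
  have hdis : Disjoint {q | q ∈ Ox I P' x ∧ Col I q p} {q | q ∈ Ox I P' x ∧ ¬ Col I q p} := by
    rw [Set.disjoint_left]
    rintro q ⟨-, h1⟩ ⟨-, h2⟩
    exact h2 h1
  have h4 := Set.ncard_union_eq hdis (Set.toFinite _) (Set.toFinite _)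
  rw [← hu, h9, h3] at h4
  omega

private theorem C42c_Nx [Finite P] [Finite L] (h : IsGQ I 4 t) (hs : SubGQ I P' L' 4 2)
    (hd : HermData I P' L' Herm) {x p : P} (hx : x ∈ HH I P' Herm) (hp : p ∈ P')
    (hpx : ¬ Col I p x) :
    {y | y ∈ HH I P' Herm ∧ Col I p y ∧ Col I x y}.ncard = 6 := by
  rw [← C42c_six h hs hx.1 hp hpx]
  have hxx : x ∉ P' := hx.1
  have hf : ∀ y : P, ∃ q : P, (y ∈ HH I P' Herm ∧ Col I p y ∧ Col I x y) →
      q ∈ P' ∧ ∃ m, I x m ∧ I y m ∧ I q m := by
    intro y
    by_cases hy : y ∈ HH I P' Herm ∧ Col I p y ∧ Col I x y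
    · obtain ⟨hyH, hpy, m, hxm, hym⟩ := hy
      have hxy : x ≠ y := by
        rintro rfl
        exact hpx hpy
      have hex : ∃ q ∈ P', I q m := by
        by_contra hcon
        push Not at hcon
        obtain ⟨w, -, hw⟩ := ext_one h hs hd hcon
        exact hxy ((hw x ⟨hxm, hx⟩).trans (hw y ⟨hym, hyH⟩).symm)
      obtain ⟨q, hq, hqm⟩ := hex
      exact ⟨q, fun _ => ⟨hq, m, hxm, hym, hqm⟩⟩
    · exact ⟨p, fun hc => absurd hc hy⟩
  choose f hf using hf
  have hnox : ∀ {m : L}, I x m → ¬ I p m := fun h1 h2 => hpx ⟨_, h2, h1⟩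
  refine Set.ncard_congr (fun y _ => f y) ?_ ?_ ?_
  · rintro y hy
    obtain ⟨hq, m, hxm, hym, hqm⟩ := hf y hy
    obtain ⟨hyH, hpy, -⟩ := hy
    refine ⟨⟨hq, m, hqm, hxm⟩, fun hc => ?_⟩
    have hne : f y ≠ y := by
      intro he
      rw [he] at hq
      exact hyH.1 hq
    exact hnox hxm (h.mem_of_col hne hqm hym hc.symm hpy)
  · rintro y y' hy hy' he
    obtain ⟨hq, m, hxm, hym, hqm⟩ := hf y hy
    obtain ⟨hq', m', hxm', hym', hqm'⟩ := hf y' hy'
    rw [← he] at hqm'
    have hne : x ≠ f y := by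
      intro hc
      rw [← hc] at hq
      exact hxx hq
    have hm : m = m' := h.unique x (f y) m m' hne hxm hqm hxm' hqm'
    subst hm
    exact h.col_unique (hnox hxm) hym hym' hy.2.1 hy'.2.1
  · rintro q ⟨⟨hq, m, hqm, hxm⟩, hqp⟩
    obtain ⟨y, ⟨hym, hpy⟩, -⟩ := h.exists_unique_col (hnox hxm)
    have hyq : y ≠ q := by
      rintro rfl
      exact hqp hpy.symm
    have hyP : y ∉ P' := fun hy => hyq (line_one h hs hxx hy hq hxm hym hqm)
    have hyH : y ∈ HH I P' Herm := (tangent_same h hs hd hq hxx hyP hqm hxm hym).mp hx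
    have hyN : y ∈ HH I P' Herm ∧ Col I p y ∧ Col I x y := ⟨hyH, hpy, m, hxm, hym⟩
    refine ⟨y, hyN, ?_⟩
    obtain ⟨hq', m', hxm', hym', hqm'⟩ := hf y hyN
    have hxy : x ≠ y := by
      rintro rfl
      exact hpx hpy
    have hm : m = m' := h.unique x y m m' hxy hxm hym hxm' hym'
    subst hm
    exact line_one h hs hxx hq' hq hxm hqm' hqm

theorem six [Finite P] [Finite L] (h : IsGQ I 4 t) (hs : SubGQ I P' L' 4 2)
    (hd : HermData I P' L' Herm) {x0 : P} (hx0 : x0 ∈ HH I P' Herm) {p : P} (hp : p ∈ P') :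
    {x | x ∈ HH I P' Herm ∧ Col I p x}.ncard = 24 := by
  classical
  obtain ⟨x, hx, hpx⟩ := C42c_step0 h hs hd hx0 hp
  have h6 := C42c_Nx h hs hd hx hp hpx
  have hxx : x ∉ P' := hx.1
  have hnox : ∀ {m : L}, I p m → ¬ I x m := fun h1 h2 => hpx ⟨_, h1, h2⟩
  -- lines through `p` with a point of `HH`
  have hline : ∀ {m : L} {y z : P}, I p m → I y m → y ∈ HH I P' Herm → I z m → z ≠ p →
      z ∈ HH I P' Herm := by
    intro m y z hpm hym hy hzm hzp
    have hzP : z ∉ P' := by
      intro hz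
      have hm : m ∈ L' := hs.line_mem h hz hp hzp hzm hpm
      exact hy.1 (hs.full h hm hym)
    exact (tangent_same h hs hd hp hy.1 hzP hpm hym hzm).mp hy
  have hf : ∀ y : P, ∃ z : P, (y ∈ HH I P' Herm ∧ Col I p y) →
      (z ∈ HH I P' Herm ∧ Col I p z ∧ Col I x z) ∧ ∃ m, I p m ∧ I y m ∧ I z m := by
    intro y
    by_cases hy : y ∈ HH I P' Herm ∧ Col I p y
    · obtain ⟨hyH, m, hpm, hym⟩ := hy
      obtain ⟨z, ⟨hzm, hxz⟩, -⟩ := h.exists_unique_col (hnox hpm)
      have hzp : z ≠ p := by
        rintro rfl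
        exact hpx hxz.symm
      exact ⟨z, fun _ => ⟨⟨hline hpm hym hyH hzm hzp, ⟨m, hpm, hzm⟩, hxz⟩, m, hpm, hym, hzm⟩⟩
    · exact ⟨p, fun hc => absurd hc hy⟩
  choose f hf using hf
  have := Fintype.ofFinite P
  rw [Set.ncard_eq_toFinset_card']
  rw [Set.ncard_eq_toFinset_card'] at h6
  rw [Finset.card_eq_sum_card_fiberwise (f := f)
    (t := {y | y ∈ HH I P' Herm ∧ Col I p y ∧ Col I x y}.toFinset)]
  · have hfib : ∀ z ∈ {y | y ∈ HH I P' Herm ∧ Col I p y ∧ Col I x y}.toFinset,
        (Finset.filter (fun y => f y = z) {x | x ∈ HH I P' Herm ∧ Col I p x}.toFinset).card = 4 := by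
      intro z hz
      rw [Set.mem_toFinset] at hz
      obtain ⟨hzH, ⟨m, hpm, hzm⟩, hxz⟩ := hz
      have hzp : z ≠ p := by
        rintro rfl
        exact hzH.1 hp
      have h5 : ({y | I y m} \ {p} : Set P).ncard = 4 := by
        rw [Set.ncard_sdiff_singleton_of_mem (show p ∈ {y | I y m} from hpm), h.line_card]
      rw [← h5, Set.ncard_eq_toFinset_card']
      congr 1
      ext y
      rw [Finset.mem_filter, Set.mem_toFinset, Set.mem_toFinset]
      constructor
      · rintro ⟨hy, he⟩
        obtain ⟨-, m', hpm', hym', hzm'⟩ := hf y hy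
        rw [he] at hzm'
        have hm : m = m' := h.unique p z m m' hzp.symm hpm hzm hpm' hzm'
        subst hm
        refine ⟨hym', ?_⟩
        rintro rfl
        exact hy.1.1 hp
      · rintro ⟨hym, hyp⟩
        have hyp' : y ≠ p := hyp
        have hyN : y ∈ HH I P' Herm ∧ Col I p y :=
          ⟨hline hpm hzm hzH hym hyp', m, hpm, hym⟩
        refine ⟨hyN, ?_⟩
        obtain ⟨⟨-, -, hxf⟩, m', hpm', hym', hfm'⟩ := hf y hyN
        have hm : m = m' := h.unique p y m m' hyp'.symm hpm hym hpm' hym'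
        subst hm
        exact h.col_unique (hnox hpm) hfm' hzm hxf hxz
    rw [Finset.sum_congr rfl hfib, Finset.sum_const, h6]
    rfl
  · intro y hy
    rw [Finset.mem_coe, Set.mem_toFinset] at hy ⊢
    exact (hf y hy).1

end H60GQ
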