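import Pool.Agent.H60.GQ.Sub

/-!
Project GQ (MP_a3aa3c_co), module CaseSpr0: `closure42` (proof plan in CaseSpr.lean).
-/

namespace H60GQ

universe u v

open Finset Classical

variable {P : Type u} {L : Type v} {I : P → L → Prop} {t : ℕ} {P' : Set P} {L' : Set L}

private theorem caseSpr0_pr [Finite P] [Finite L] (h : IsGQ I 4 t) {Q : Set P} {K : Set L}
    (hK : ∀ l ∈ K, ∀ x, I x l → x ∈ Q) (hq : ∀ x ∈ Q, {l | l ∈ K ∧ I x l}.ncard = 3)
    (hQ : Q.ncard = 45) {p : P} (hp : p ∈ Q) {l : L} (hl : l ∈ K) (hpl : ¬ I p l) :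
    ∃ q ∈ Q, ∃ m ∈ K, I q l ∧ I p m ∧ I q m := by
  have : Fintype P := Fintype.ofFinite P
  have : Fintype L := Fintype.ofFinite L
  set T : Finset P := univ.filter (fun x => I x l) with hT
  set M : P → Finset L := fun x => univ.filter (fun m => (m ∈ K ∧ I x m) ∧ m ≠ l) with hM
  set Z : P → L → Finset P := fun x m => univ.filter (fun z => I z m ∧ z ≠ x) with hZ
  have memT : ∀ x, x ∈ T ↔ I x l := fun x => by rw [hT, mem_filter]; simp
  have memM : ∀ x m, m ∈ M x ↔ (m ∈ K ∧ I x m) ∧ m ≠ l := fun x m => by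
    rw [hM, mem_filter]; simp
  have memZ : ∀ x m z, z ∈ Z x m ↔ I z m ∧ z ≠ x := fun x m z => by
    rw [hZ, mem_filter]; simp
  have cardT : T.card = 5 := by
    have h1 := h.line_card l
    have h2 : {p | I p l} = (T : Set P) := by
      ext x
      rw [mem_coe, memT]
      rfl
    rw [h2, Set.ncard_coe_finset] at h1
    exact h1
  have cardM : ∀ x ∈ T, (M x).card = 2 := by
    intro x hx
    rw [memT] at hx
    have h1 := hq x (hK l hl x hx)
    have h2 : {m | m ∈ K ∧ I x m} = ((insert l (M x) : Finset L) : Set L) := by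
      ext m
      rw [mem_coe, mem_insert, memM]
      constructor
      · rintro ⟨h3, h4⟩
        by_cases hm : m = l
        · exact Or.inl hm
        · exact Or.inr ⟨⟨h3, h4⟩, hm⟩
      · rintro (rfl | h3)
        · exact ⟨hl, hx⟩
        · exact h3.1
    rw [h2, Set.ncard_coe_finset, card_insert_of_notMem] at h1
    · omega
    · rw [memM]
      exact fun h3 => h3.2 rfl
  have cardZ : ∀ x m, I x m → (Z x m).card = 4 := by
    intro x m hxm
    have h1 := h.line_card m
    have h2 : {z | I z m} = ((insert x (Z x m) : Finset P) : Set P) := by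
      ext z
      rw [mem_coe, mem_insert, memZ]
      constructor
      · intro h3
        by_cases hz : z = x
        · exact Or.inl hz
        · exact Or.inr ⟨h3, hz⟩
      · rintro (rfl | h3)
        · exact hxm
        · exact h3.1
    rw [h2, Set.ncard_coe_finset, card_insert_of_notMem] at h1
    · omega
    · rw [memZ]
      exact fun h3 => h3.2 rfl
  -- points of `Z x m` are off `l`
  have offl : ∀ x ∈ T, ∀ m ∈ M x, ∀ z ∈ Z x m, ¬ I z l := by
    intro x hx m hm z hz hzl
    rw [memT] at hx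
    rw [memM] at hm
    rw [memZ] at hz
    exact hm.2 (h.line_unique hz.2 hz.1 hm.1.2 hzl hx)
  set D : Finset P := T.biUnion (fun x => (M x).biUnion (fun m => Z x m)) with hD
  have cardD : D.card = 40 := by
    rw [hD, card_biUnion]
    · have e1 : ∀ x ∈ T, ((M x).biUnion (fun m => Z x m)).card = 8 := by
        intro x hx
        rw [card_biUnion]
        · have e2 : ∀ m ∈ M x, (Z x m).card = 4 := fun m hm =>
            cardZ x m ((memM x m).mp hm).1.2
          rw [sum_congr rfl e2, sum_const, cardM x hx, smul_eq_mul]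
        · intro m hm m' hm' hne
          rw [mem_coe] at hm hm'
          show Disjoint (Z x m) (Z x m')
          rw [Finset.disjoint_left]
          intro z hz hz'
          rw [memZ] at hz hz'
          rw [memM] at hm hm'
          exact hne (h.line_unique hz.2 hz.1 hm.1.2 hz'.1 hm'.1.2)
      rw [sum_congr rfl e1, sum_const, cardT, smul_eq_mul]
    · intro x hx y hy hxy
      rw [mem_coe] at hx hy
      show Disjoint ((M x).biUnion (fun m => Z x m)) ((M y).biUnion (fun m => Z y m))
      rw [Finset.disjoint_left]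
      intro z hz hz'
      rw [mem_biUnion] at hz hz'
      obtain ⟨m, hm, hzm⟩ := hz
      obtain ⟨m', hm', hzm'⟩ := hz'
      apply offl x hx m hm z hzm
      rw [memT] at hx hy
      rw [memM] at hm hm'
      rw [memZ] at hzm hzm'
      exact h.mem_of_col hxy hx hy ⟨m, hzm.1, hm.1.2⟩ ⟨m', hzm'.1, hm'.1.2⟩
  have hdis : Disjoint T D := by
    rw [Finset.disjoint_left]
    intro z hz hz'
    rw [hD, mem_biUnion] at hz'
    obtain ⟨x, hx, hz'⟩ := hz'
    rw [mem_biUnion] at hz'
    obtain ⟨m, hm, hz'⟩ := hz'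
    exact offl x hx m hm z hz' ((memT z).mp hz)
  have hsub : ((T ∪ D : Finset P) : Set P) ⊆ Q := by
    intro z hz
    rw [mem_coe, mem_union] at hz
    rcases hz with hz | hz
    · exact hK l hl z ((memT z).mp hz)
    · rw [hD, mem_biUnion] at hz
      obtain ⟨x, hx, hz⟩ := hz
      rw [mem_biUnion] at hz
      obtain ⟨m, hm, hz⟩ := hz
      exact hK m ((memM x m).mp hm).1.1 z ((memZ x m z).mp hz).1
  have heq : ((T ∪ D : Finset P) : Set P) = Q := by
    apply Set.eq_of_subset_of_ncard_le hsub _ (Set.toFinite _)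
    rw [hQ, Set.ncard_coe_finset, card_union_of_disjoint hdis, cardT, cardD]
  rw [← heq, mem_coe, mem_union] at hp
  rcases hp with hp | hp
  · exact absurd ((memT p).mp hp) hpl
  · rw [hD, mem_biUnion] at hp
    obtain ⟨x, hx, hp⟩ := hp
    rw [mem_biUnion] at hp
    obtain ⟨m, hm, hp⟩ := hp
    rw [memT] at hx
    rw [memM] at hm
    rw [memZ] at hp
    exact ⟨x, hK l hl x hx, m, hm.1.1, hx, hp.1, hm.1.2⟩

theorem closure42 [Finite P] [Finite L] (h : IsGQ I 4 t) {Q : Set P} {K : Set L}
    (hK : ∀ l ∈ K, ∀ x, I x l → x ∈ Q) (hq : ∀ x ∈ Q, {l | l ∈ K ∧ I x l}.ncard = 3)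
    (hQ : Q.ncard = 45) : SubGQ I Q K 4 2 := by
  refine SubGQ.mk' h ?_ ?_ hq ?_
  · apply Set.nonempty_of_ncard_ne_zero
    omega
  · intro l hl
    have h1 : {p | p ∈ Q ∧ I p l} = {p | I p l} := by
      ext p
      exact ⟨fun h2 => h2.2, fun h2 => ⟨hK l hl p h2, h2⟩⟩
    rw [h1]
    exact h.line_card l
  · intro p hp l hl hpl
    exact caseSpr0_pr h hK hq hQ hp hl hpl

end H60GQ
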