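import Pool.Agent.H60.GQ.Dicho
import Pool.Agent.H60.GQ.CaseSpr0

/-!
Project GQ (MP_a3aa3c_co), module CaseSpr: if all spreads are closed then the 15 + 30 points form a
subquadrangle of order (4, 2).

* `closure42`: use `SubGQ.mk'`. Line count: all 5 points of a line of K are in Q. Point count: hq.
  Projection: let x ∈ Q, l ∈ K, x ∉ l. 5 |K| = 3 |Q| = 135 (count flags), so |K| = 27. The 3 lines
  of K through x have 12 further points, each on 2 further lines of K; these 24 lines do not contain
  x and are different (a line not through x has at most one point collinear with x, by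
  `col_unique`, and the point determines the line through x). 24 = 27 - 3, so l is one of them.
* `caseSpr`: Q = P' ∪ {α k b}, K = L' ∪ {N | N ∉ L' and N contains two different α points}.
  |Q| = 15 + 30. All points of a line N ∈ K \ L' are α points: take two α points α k b, α l c on N;
  in the first case of `two_alpha` there would be m, d with Reg k l m and α m d on N; but AllReg
  fails for this triple: by AllSpr (`w.AllSpr`) for n with Spr k l n (`F11`) the α point α n d' on
  the line n collinear with α k b is collinear with α l c, so it is on N (`no_triangle`), and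
  α m d, α n d' on N contradict `F9` + `αα_meet`.
  φ i is on 3 lines of L' (point22_card) and on no other line of K (`α_line`).
  α k b is on ψ k and on exactly two other lines of K: the α points ≠ α k b not on ψ k collinear
  with α k b are exactly one for each of the 8 lines l disjoint from k (`F8`, `αα_skew`, `αα_meet`);
  each line N ∈ K \ L' through α k b contains 4 of them (all points of N are α points), each of them
  is on exactly one such line; so there are 2 such lines.
-/

namespace H60GQ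

universe u v

open Finset Classical

variable {P : Type u} {L : Type v} {I : P → L → Prop} {t : ℕ} {P' : Set P} {L' : Set L}

private theorem CaseSpr_allA [Finite P] [Finite L] (h : IsGQ I 4 t) (ht : 2 ≤ t)
    (hs : SubGQ I P' L' 2 2) (w : W22 I P' L') (hw : w.AllSpr) {k l : Fin 15} {b c : Bool} {N : L}
    (hne : w.α k b ≠ w.α l c) (h1 : I (w.α k b) N) (h2 : I (w.α l c) N) (hN : N ∉ L') :
    ∀ x, I x N → w.IsA x := by
  have hkl : ¬ (k = l ∧ b = c) := by
    rintro ⟨rfl, rfl⟩
    exact hne rfl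
  obtain ⟨hsk, hcase⟩ := w.two_alpha h ht hs hkl h1 h2 hN
  rcases hcase with ⟨m, d, hreg, hm, -⟩ | ⟨hA, -⟩
  · exfalso
    have hne' : (univ.filter (fun m => Spr k l m)).Nonempty := by
      rw [← Finset.card_pos, F11 k l hsk]
      norm_num
    obtain ⟨n, hn⟩ := hne'
    have hspr : Spr k l n := (Finset.mem_filter.mp hn).2
    obtain ⟨d', hd', -⟩ := w.αα_skew h hs hspr.2.1 b
    have hcol : Col I (w.α k b) (w.α l c) := ⟨N, h1, h2⟩
    have hcol2 := hw k l n b c d' hspr hcol hd'
    have hnN : I (w.α n d') N := h.mem_of_col hne h1 h2 hd'.symm hcol2.symm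
    obtain ⟨h3, h4⟩ := F9 k l m n hreg hspr
    exact w.αα_meet h hs h4 h3 d d' ⟨N, hm, hnN⟩
  · exact hA

/-- an α point is on a line of `L'` only if it is its own line -/
private theorem CaseSpr_psi (w : W22 I P' L') {k m : Fin 15} {b : Bool}
    (h1 : I (w.α k b) (w.ψ m)) : k = m := by
  rcases (w.pts m _).mp h1 with ⟨i, -, hi⟩ | ⟨b', hb'⟩
  · exact absurd ((w.memP _).mpr ⟨i, hi⟩) (w.α_not k b)
  · exact (w.α_inj _ _ _ _ hb').1

private theorem CaseSpr_alpha_psi (w : W22 I P' L') (k : Fin 15) (b : Bool) :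
    I (w.α k b) (w.ψ k) := (w.pts k _).mpr (Or.inr ⟨b, rfl⟩)

private def CaseSpr_K (w : W22 I P' L') : Set L :=
  {N | N ∉ L' ∧ ∃ k b l c, w.α k b ≠ w.α l c ∧ I (w.α k b) N ∧ I (w.α l c) N}

private theorem CaseSpr_two [Finite P] [Finite L] (h : IsGQ I 4 t) (ht : 2 ≤ t)
    (hs : SubGQ I P' L' 2 2) (w : W22 I P' L') (hw : w.AllSpr) (k : Fin 15) (b : Bool) :
    {N | N ∈ CaseSpr_K w ∧ I (w.α k b) N}.ncard = 2 := by
  set NN : Set L := {N | N ∈ CaseSpr_K w ∧ I (w.α k b) N} with hNN
  have hfin : NN.Finite := Set.toFinite _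
  have hex : ∀ l : Fin 15, ∃ c : Bool, skew22 k l = true →
      (Col I (w.α k b) (w.α l c) ∧ ∀ c', Col I (w.α k b) (w.α l c') → c' = c) := by
    intro l
    by_cases hkl : skew22 k l = true
    · obtain ⟨c, hc1, hc2⟩ := w.αα_skew h hs hkl b
      exact ⟨c, fun _ => ⟨hc1, hc2⟩⟩
    · exact ⟨true, fun hh => absurd hh hkl⟩
  choose c hc using hex
  set Z : Finset P := (univ.filter (fun m => skew22 k m = true)).image (fun l => w.α l (c l))
    with hZ
  have hZcard : Z.card = 8 := by
    rw [hZ, Finset.card_image_of_injective _ (fun l l' hll => (w.α_inj _ _ _ _ hll).1), F8 k]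
  set pt : L → Finset P := fun N => (h.fin_line N).toFinset.erase (w.α k b) with hpt
  have hptcard : ∀ N ∈ hfin.toFinset, (pt N).card = 4 := by
    intro N hN
    have hN' : I (w.α k b) N := ((Set.Finite.mem_toFinset hfin).mp hN).2
    rw [hpt]
    rw [Finset.card_erase_of_mem (by simpa using hN')]
    have := h.line_card N
    rw [Set.ncard_eq_toFinset_card _ (h.fin_line N)] at this
    omega
  have hZeq : Z = hfin.toFinset.biUnion pt := by
    ext z
    rw [hZ, Finset.mem_image, Finset.mem_biUnion]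
    constructor
    · rintro ⟨l, hl, rfl⟩
      have hkl : skew22 k l = true := (Finset.mem_filter.mp hl).2
      have hlk : l ≠ k := by
        rintro rfl
        rw [skew22_irrefl] at hkl
        exact Bool.false_ne_true hkl
      obtain ⟨⟨N, hN1, hN2⟩, -⟩ := hc l hkl
      have hne : w.α k b ≠ w.α l (c l) := fun hh => hlk (w.α_inj _ _ _ _ hh).1.symm
      refine ⟨N, ?_, ?_⟩
      · rw [Set.Finite.mem_toFinset]
        refine ⟨⟨?_, k, b, l, c l, hne, hN1, hN2⟩, hN1⟩
        intro hNL
        obtain ⟨m, rfl⟩ := (w.memL N).mp hNL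
        have e1 := CaseSpr_psi w hN1
        have e2 := CaseSpr_psi w hN2
        exact hlk (e2.trans e1.symm)
      · rw [hpt]
        simp only [Finset.mem_erase, Set.Finite.mem_toFinset, Set.mem_setOf_eq]
        exact ⟨hne.symm, hN2⟩
    · rintro ⟨N, hN, hz⟩
      rw [Set.Finite.mem_toFinset] at hN
      obtain ⟨⟨hNL, k1, b1, l1, c1, hne1, hi1, hi2⟩, hN1⟩ := hN
      rw [hpt] at hz
      simp only [Finset.mem_erase, Set.Finite.mem_toFinset, Set.mem_setOf_eq] at hz
      obtain ⟨l, d, rfl⟩ := CaseSpr_allA h ht hs w hw hne1 hi1 hi2 hNL z hz.2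
      have hcol : Col I (w.α k b) (w.α l d) := ⟨N, hN1, hz.2⟩
      have hlk : k ≠ l := by
        rintro rfl
        apply hNL
        have := h.line_unique hz.1 hz.2 hN1 (CaseSpr_alpha_psi w k d) (CaseSpr_alpha_psi w k b)
        rw [this]
        exact (w.memL _).mpr ⟨k, rfl⟩
      have hsk : skew22 k l = true := by
        by_contra hh
        rw [Bool.not_eq_true] at hh
        exact w.αα_meet h hs hlk hh b d hcol
      refine ⟨l, Finset.mem_filter.mpr ⟨Finset.mem_univ _, hsk⟩, ?_⟩
      rw [(hc l hsk).2 d hcol]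
  have hdis : ∀ x ∈ hfin.toFinset, ∀ y ∈ hfin.toFinset, x ≠ y → Disjoint (pt x) (pt y) := by
    intro x hx y hy hxy
    rw [Finset.disjoint_left]
    intro z hz1 hz2
    rw [hpt] at hz1 hz2
    simp only [Finset.mem_erase, Set.Finite.mem_toFinset, Set.mem_setOf_eq] at hz1 hz2
    rw [Set.Finite.mem_toFinset] at hx hy
    exact hxy (h.line_unique hz1.1 hz1.2 hx.2 hz2.2 hy.2)
  have hcard := Finset.card_biUnion hdis
  rw [← hZeq, hZcard, Finset.sum_congr rfl hptcard, Finset.sum_const, smul_eq_mul] at hcard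
  rw [Set.ncard_eq_toFinset_card _ hfin]
  omega

theorem caseSpr [Finite P] [Finite L] (h : IsGQ I 4 t) (ht : 2 ≤ t)
    (hs : SubGQ I P' L' 2 2) (w : W22 I P' L') (hw : w.AllSpr) : ∃ Q K, SubGQ I Q K 4 2 := by
  refine ⟨P' ∪ {x | w.IsA x}, L' ∪ CaseSpr_K w, closure42 h ?_ ?_ ?_⟩
  · rintro l (hl | hl) x hx
    · obtain ⟨k, rfl⟩ := (w.memL l).mp hl
      rcases (w.pts k x).mp hx with ⟨i, -, hi⟩ | ⟨b, hb⟩
      · exact Or.inl ((w.memP _).mpr ⟨i, hi⟩)
      · exact Or.inr ⟨k, b, hb⟩
    · obtain ⟨hNL, k1, b1, l1, c1, hne1, hi1, hi2⟩ := hl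
      exact Or.inr (CaseSpr_allA h ht hs w hw hne1 hi1 hi2 hNL x hx)
  · rintro x (hx | hx)
    · have heq : {l | l ∈ L' ∪ CaseSpr_K w ∧ I x l} = {l | l ∈ L' ∧ I x l} := by
        ext l
        constructor
        · rintro ⟨hl | hl, hxl⟩
          · exact ⟨hl, hxl⟩
          · exfalso
            obtain ⟨hNL, k1, b1, l1, c1, hne1, hi1, hi2⟩ := hl
            obtain ⟨i, rfl⟩ := (w.memP x).mp hx
            exact w.α_line h hs hi1 hNL i hxl
        · rintro ⟨hl, hxl⟩
          exact ⟨Or.inl hl, hxl⟩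
      rw [heq, hs.pc hx]
    · obtain ⟨k, b, rfl⟩ := hx
      have heq : {l | l ∈ L' ∪ CaseSpr_K w ∧ I (w.α k b) l} =
          insert (w.ψ k) {N | N ∈ CaseSpr_K w ∧ I (w.α k b) N} := by
        ext l
        constructor
        · rintro ⟨hl | hl, hxl⟩
          · obtain ⟨m, rfl⟩ := (w.memL l).mp hl
            have := CaseSpr_psi w hxl
            subst this
            exact Or.inl rfl
          · exact Or.inr ⟨hl, hxl⟩
        · rintro (rfl | ⟨hl, hxl⟩)
          · exact ⟨Or.inl ((w.memL _).mpr ⟨k, rfl⟩), CaseSpr_alpha_psi w k b⟩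
          · exact ⟨Or.inr hl, hxl⟩
      rw [heq, Set.ncard_insert_of_notMem _ (Set.toFinite _), CaseSpr_two h ht hs w hw k b]
      rintro ⟨⟨hNL, -⟩, -⟩
      exact hNL ((w.memL _).mpr ⟨k, rfl⟩)
  · have hrange : {x | w.IsA x} = Set.range (fun p : Fin 15 × Bool => w.α p.1 p.2) := by
      ext x
      constructor
      · rintro ⟨k, b, rfl⟩
        exact ⟨(k, b), rfl⟩
      · rintro ⟨⟨k, b⟩, rfl⟩
        exact ⟨k, b, rfl⟩
    have hinj : Function.Injective (fun p : Fin 15 × Bool => w.α p.1 p.2) := by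
      rintro ⟨k, b⟩ ⟨k', b'⟩ hh
      obtain ⟨rfl, rfl⟩ := w.α_inj _ _ _ _ hh
      rfl
    have hcardA : {x | w.IsA x}.ncard = 30 := by
      rw [hrange, ← Set.image_univ, Set.ncard_image_of_injective _ hinj, Set.ncard_univ,
        Nat.card_eq_fintype_card]
      rfl
    have hdis : Disjoint P' {x | w.IsA x} := by
      rw [Set.disjoint_left]
      rintro x hx ⟨k, b, rfl⟩
      exact w.α_not k b hx
    rw [Set.ncard_union_eq hdis (Set.toFinite _) (Set.toFinite _), hcardA, hs.card_pts]


end H60GQ
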