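import Pool.Agent.H60.GQ.Lab

/-!
Project GQ (MP_a3aa3c_co), part 2, module Coreg: regular lines, coregular points.

`exists_perpperp`: let (l, m) be a regular pair of lines (not concurrent), n ∈ {l,m}^⊥, y on n. Then
there is a line k ∈ {l,m}^⊥⊥ through y.
Proof: {l,m}^⊥ has s + 1 ≥ 2 lines (each point of l is joined to exactly one point of m), pairwise
not concurrent (no triangles); let n' ≠ n be another one. Each k ∈ {l,m}^⊥⊥ meets n in exactly one point
(k ≠ n because k meets n' and n does not). The map k ↦ k ∩ n is injective: if k ≠ k' meet n in the same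
point q then k, k' meet n' in different points (two lines have at most one common point) and we get a
triangle q, k ∩ n', k' ∩ n'. So its image has s + 1 elements (`RegularPair`), hence it is all of n.
-/

namespace H60GQ

universe u v

variable {P : Type u} {L : Type v} {I : P → L → Prop} {s t : ℕ}

/-- the lines concurrent with `l` and `m` -/
def LPerp (I : P → L → Prop) (l m : L) : Set L := {n | Meet I n l ∧ Meet I n m}

/-- the lines concurrent with all lines of `LPerp I l m` -/
def LPerpPerp (I : P → L → Prop) (l m : L) : Set L := {k | ∀ n ∈ LPerp I l m, Meet I k n}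

/-- the pair of non-concurrent lines `(l, m)` is regular -/
def RegularPair (I : P → L → Prop) (s : ℕ) (l m : L) : Prop := (LPerpPerp I l m).ncard = s + 1

/-- `l` is a regular line -/
def RegularLine (I : P → L → Prop) (s : ℕ) (l : L) : Prop :=
  ∀ m, ¬ Meet I l m → RegularPair I s l m

/-- `p` is a coregular point: all lines through `p` are regular -/
def Coregular (I : P → L → Prop) (s : ℕ) (p : P) : Prop := ∀ l, I p l → RegularLine I s l

private theorem Coreg_perp_unique (h : IsGQ I s t) {l m n n' : L} {p : P} (hlm : ¬ Meet I l m)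
    (hn : n ∈ LPerp I l m) (hn' : n' ∈ LPerp I l m) (hp : I p n) (hp' : I p n') : n = n' := by
  obtain ⟨⟨a, ha, ha'⟩, b, hb, hb'⟩ := hn
  obtain ⟨⟨c, hc, hc'⟩, d, hd, hd'⟩ := hn'
  by_cases hl : I p l
  · have hm : ¬ I p m := fun e => hlm ⟨p, hl, e⟩
    exact (h.proj_unique hm hb' hp hb hd' hp' hd).2
  · exact (h.proj_unique hl ha' hp ha hc' hp' hc).2

theorem exists_perpperp (h : IsGQ I s t) (hs : 1 ≤ s) {l m n : L} (hlm : ¬ Meet I l m)
    (hr : RegularPair I s l m) (hn : n ∈ LPerp I l m) {y : P} (hy : I y n) :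
    ∃ k ∈ LPerpPerp I l m, I y k := by
  classical
  -- another line of the perp
  obtain ⟨⟨a, ha, ha'⟩, b, hb, hb'⟩ := id hn
  obtain ⟨a', ha1, ha2⟩ : ∃ a', I a' l ∧ a' ≠ a := by
    have h1 : 1 < {p | I p l}.ncard := by rw [h.line_card]; omega
    obtain ⟨c, hc, hca⟩ := Set.exists_ne_of_one_lt_ncard h1 a
    exact ⟨c, hc, hca⟩
  have ham : ¬ I a' m := fun e => hlm ⟨a', ha1, e⟩
  obtain ⟨b', n', h1, h2, h3⟩ := h.exists_proj ham
  have hn' : n' ∈ LPerp I l m := ⟨⟨a', h2, ha1⟩, b', h3, h1⟩
  have hnn : n ≠ n' := by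
    rintro rfl
    have := h.unique a a' n l ha2.symm ha h2 ha' ha1
    subst this
    exact hlm ⟨b, hb, hb'⟩
  have hmeet : ∀ q, I q n → ¬ I q n' := fun q hq hq' => hnn (Coreg_perp_unique h hlm hn hn' hq hq')
  have key := Set.surj_on_of_inj_on_of_ncard_le (s := LPerpPerp I l m) (t := {p | I p n})
    (fun k hk => (hk n hn).choose) (fun k hk => (hk n hn).choose_spec.2)
    (by
      intro k k' hk hk' e
      have q1 := (hk n hn).choose_spec
      have q2 := (hk' n hn).choose_spec
      rw [← e] at q2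
      have q3 := hmeet _ q1.2
      obtain ⟨r, r1, r2⟩ := hk n' hn'
      obtain ⟨r', r1', r2'⟩ := hk' n' hn'
      exact (h.proj_unique q3 r2 q1.1 r1 r2' q2.1 r1').2)
    (by rw [hr, h.line_card]) (Set.finite_of_ncard_ne_zero (by rw [h.line_card]; omega))
  obtain ⟨k, hk, e⟩ := key y hy
  refine ⟨k, hk, ?_⟩
  rw [e]
  exact (hk n hn).choose_spec.1

end H60GQ
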