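import Pool.Agent.H60.GQ.Parity

/-!
Project GQ (MP_a3aa3c_co), part 2, module CoregOdd: s even, t odd: no coregular point.

Proof plan. Let p be coregular. Take a line through p, a point u ≠ p on it, two different lines
l1, l2 through u other than the line p u (t + 1 ≥ 3), and a point z ≠ u on l1. For the s points
z' ≠ u of l2: p, z, z' are pairwise non-collinear (no triangles). `line_sum`:
∑_{z'} c(p, z, z') = s + t: the common neighbours of p and z are u and t further points w; u is
collinear with all s points z'; each w ≠ u is not on l2 (no triangle; w is collinear with p, and the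
only point of l2 collinear with p is u) and is collinear with exactly one point of l2, which is not u
(u, w are both collinear with p and z: `no_triangle`), so with exactly one z'.
By `parity` all c(p, z, z') are even (t + 1 is even), so s + t is even: contradiction.
-/

namespace H60GQ

universe u v

variable {P : Type u} {L : Type v} {I : P → L → Prop} {s t : ℕ}

theorem coreg_odd [Finite P] [Finite L] (h : IsGQ I s t) (hs : 1 ≤ s) (ht : 2 ≤ t) (hse : Even s)
    (hto : Odd t) (p : P) : ¬ Coregular I s p := by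
  classical
  intro hc
  obtain ⟨l0, hp0⟩ := h.exists_line p
  -- the point u
  have h1 : 1 < {q | I q l0}.ncard := by rw [h.line_card]; omega
  obtain ⟨u, hu0, hup⟩ := Set.exists_ne_of_one_lt_ncard h1 p
  have hu0' : I u l0 := hu0
  -- the lines l1 and l2
  have h2 : ({l | I u l} \ {l0}).ncard = t := by
    rw [Set.ncard_sdiff_singleton_of_mem (show l0 ∈ {l | I u l} from hu0'), h.point_card]
    rfl
  have h3 : 1 < ({l | I u l} \ {l0}).ncard := by rw [h2]; omega
  obtain ⟨l1, ⟨hu1, hl1⟩, l2, ⟨hu2, hl2⟩, hl12⟩ := (Set.one_lt_ncard (Set.toFinite _)).1 h3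
  have hu1' : I u l1 := hu1
  have hu2' : I u l2 := hu2
  have hl1' : l1 ≠ l0 := hl1
  have hl2' : l2 ≠ l0 := hl2
  -- the point z
  have h4 : 1 < {q | I q l1}.ncard := by rw [h.line_card]; omega
  obtain ⟨z, hz1, hzu⟩ := Set.exists_ne_of_one_lt_ncard h4 u
  have hz1' : I z l1 := hz1
  -- non-collinearity
  have hnp : ∀ {l : L} {x : P}, I u l → l ≠ l0 → I x l → x ≠ u → ¬ Col I p x := by
    rintro l x hul hl hx hxu hcol
    have hup' := h.mem_of_col hup.symm hp0 hu0' hcol.symm
    have hxu' : Col I x u := ⟨l, hx, hul⟩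
    have h5 := hup' hxu'
    exact hl (h.line_unique hxu hx hul h5 hu0')
  have hpz : ¬ Col I p z := hnp hu1' hl1' hz1' hzu
  have hzz : ∀ {x : P}, I x l2 → x ≠ u → ¬ Col I z x := by
    intro x hx hxu hcol
    have h5 : I z l2 := h.mem_of_col hxu hx hu2' hcol ⟨l1, hz1', hu1'⟩
    exact hl12 (h.line_unique hzu hz1' hu1' h5 hu2')
  obtain ⟨Z, hZ⟩ : ∃ Z : Finset P, ∀ x, x ∈ Z ↔ I x l2 ∧ x ≠ u :=
    ⟨(Set.toFinite {x | I x l2 ∧ x ≠ u}).toFinset, fun x => by
      rw [Set.Finite.mem_toFinset]; rfl⟩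
  obtain ⟨W, hW⟩ : ∃ W : Finset P, ∀ x, x ∈ W ↔ Col I p x ∧ Col I z x :=
    ⟨(Set.toFinite {x | Col I p x ∧ Col I z x}).toFinset, fun x => by
      rw [Set.Finite.mem_toFinset]; rfl⟩
  have hZc : Z.card = s := by
    rw [← Set.ncard_coe_finset]
    have e : (Z : Set P) = {x | I x l2} \ {u} := by
      ext x
      rw [Finset.mem_coe, hZ]
      rfl
    rw [e, Set.ncard_sdiff_singleton_of_mem (show u ∈ {x | I x l2} from hu2'), h.line_card]
    rfl
  have hWc : W.card = t + 1 := by
    rw [← Set.ncard_coe_finset, ← h.common_card hpz]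
    congr 1
    ext x
    rw [Finset.mem_coe, hW]
    rfl
  have key := Finset.sum_card_bipartiteAbove_eq_sum_card_bipartiteBelow (fun a b => Col I a b)
    (s := Z) (t := W)
  have hev : Even (∑ a ∈ Z, (Finset.bipartiteAbove (fun a b => Col I a b) W a).card) := by
    apply Finset.even_sum
    intro a ha
    rw [hZ] at ha
    have h5 := parity h hs hc hpz (hnp hu2' hl2' ha.1 ha.2) (hzz ha.1 ha.2)
    have e : {w | Col I p w ∧ Col I z w ∧ Col I a w}.ncard =
        (Finset.bipartiteAbove (fun a b => Col I a b) W a).card := by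
      rw [← Set.ncard_coe_finset]
      congr 1
      ext x
      rw [Finset.mem_coe, Finset.bipartiteAbove, Finset.mem_filter, hW]
      exact ⟨fun h6 => ⟨⟨h6.1, h6.2.1⟩, h6.2.2⟩, fun h6 => ⟨h6.1.1, h6.1.2, h6.2⟩⟩
    rw [e] at h5
    have h6 : Even (t + 1) := hto.add_one
    exact (Nat.even_add.1 h5).2 h6
  have hu : u ∈ W := by
    rw [hW]
    exact ⟨⟨l0, hp0, hu0'⟩, ⟨l1, hz1', hu1'⟩⟩
  have h7 : (Finset.bipartiteBelow (fun a b => Col I a b) Z u).card = s := by
    rw [← hZc]
    congr 1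
    rw [Finset.bipartiteBelow, Finset.filter_eq_self]
    intro a ha
    rw [hZ] at ha
    exact ⟨l2, ha.1, hu2'⟩
  have h8 : ∀ w ∈ W.erase u, (Finset.bipartiteBelow (fun a b => Col I a b) Z w).card = 1 := by
    intro w hw
    rw [Finset.mem_erase, hW] at hw
    obtain ⟨hwu, hpw, hzw⟩ := hw
    have hwl2 : ¬ I w l2 := fun h9 => hnp hu2' hl2' h9 hwu hpw
    obtain ⟨x, ⟨hx1, hx2⟩, hx3⟩ := h.exists_unique_col hwl2
    rw [Finset.card_eq_one]
    refine ⟨x, ?_⟩
    ext y
    rw [Finset.bipartiteBelow, Finset.mem_filter, hZ, Finset.mem_singleton]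
    constructor
    · rintro ⟨⟨hy1, _⟩, hy3⟩
      exact hx3 y ⟨hy1, hy3.symm⟩
    · rintro rfl
      refine ⟨⟨hx1, ?_⟩, hx2.symm⟩
      rintro rfl
      have h9 : I w l0 := h.mem_of_col hup.symm hp0 hu0' hpw.symm hx2
      have h10 : I w l1 := h.mem_of_col hzu hz1' hu1' hzw.symm hx2
      exact hl1' (h.line_unique hwu h10 hu1' h9 hu0')
  rw [key, ← Finset.add_sum_erase _ _ hu, h7, Finset.sum_congr rfl h8, Finset.sum_const,
    Finset.card_erase_of_mem hu, hWc, smul_eq_mul, mul_one] at hev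
  have h11 : Odd (s + (t + 1 - 1)) := hse.add_odd hto
  exact (Nat.not_even_iff_odd.2 h11) hev

end H60GQ
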