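import Pool.Agent.H60.GQ.AlphaLines

/-!
Project GQ (MP_a3aa3c_co), module Dicho: `dichotomy` (proof plan in AlphaLines.lean).
-/

namespace H60GQ

universe u v

open Finset Classical

variable {P : Type u} {L : Type v} {I : P → L → Prop} {t : ℕ} {P' : Set P} {L' : Set L}

private def DG (w : W22 I P' L') (k l : Fin 15) : Prop :=
  ∀ m b c d, Reg k l m → Col I (w.α k b) (w.α l c) → Col I (w.α k b) (w.α m d) →
    Col I (w.α l c) (w.α m d)

private def DH (w : W22 I P' L') (k l : Fin 15) : Prop :=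
  ∀ m b c d, Spr k l m → Col I (w.α k b) (w.α l c) → Col I (w.α k b) (w.α m d) →
    Col I (w.α l c) (w.α m d)

private theorem Dicho_ne {k l : Fin 15} (hkl : skew22 k l = true) : k ≠ l := by
  rintro rfl
  rw [skew22_irrefl] at hkl
  exact Bool.noConfusion hkl

private theorem Dicho_notmem (w : W22 I P' L') {k l : Fin 15} (hkl : k ≠ l) {b c : Bool} {N : L}
    (h1 : I (w.α k b) N) (h2 : I (w.α l c) N) : N ∉ L' := by
  intro hN
  obtain ⟨j, rfl⟩ := (w.memL N).1 hN
  have key : ∀ (k' : Fin 15) (b' : Bool), I (w.α k' b') (w.ψ j) → k' = j := by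
    intro k' b' hI
    rcases (w.pts j _).1 hI with ⟨i, -, hi⟩ | ⟨b'', hb⟩
    · exact absurd ((w.memP _).2 ⟨i, hi⟩) (w.α_not k' b')
    · exact (w.α_inj _ _ _ _ hb).1
  exact hkl ((key k b h1).trans (key l c h2).symm)

private theorem Dicho_uniq (h : IsGQ I 4 t) (hs : SubGQ I P' L' 2 2) (w : W22 I P' L')
    {k l : Fin 15} (hkl : skew22 k l = true) {b c c' : Bool} (h1 : Col I (w.α k b) (w.α l c))
    (h2 : Col I (w.α k b) (w.α l c')) : c = c' :=
  (W22.αα_skew h hs w hkl b).unique h1 h2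

private theorem Dicho_flip (h : IsGQ I 4 t) (hs : SubGQ I P' L' 2 2) (w : W22 I P' L')
    {k l : Fin 15} (hkl : skew22 k l = true) {b c : Bool} (h1 : Col I (w.α k b) (w.α l c)) :
    Col I (w.α k (!b)) (w.α l (!c)) := by
  obtain ⟨c', hc', -⟩ := W22.αα_skew h hs w hkl (!b)
  have hlk : skew22 l k = true := by rw [skew22_symm]; exact hkl
  have h2 : c' ≠ c := by
    rintro rfl
    have := Dicho_uniq h hs w hlk h1.symm hc'.symm
    cases b <;> simp at this
  have h3 : ∀ x y : Bool, x ≠ y → x = !y := by decide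
  rw [← h3 c' c h2]
  exact hc'

/-- three pairwise collinear points of type α on disjoint lines are on one line -/
private theorem Dicho_three (h : IsGQ I 4 t) (w : W22 I P' L') {k l m : Fin 15} (hkl : k ≠ l)
    {b c d : Bool} {N : L} (h1 : I (w.α k b) N) (h2 : I (w.α l c) N)
    (h3 : Col I (w.α k b) (w.α m d)) (h4 : Col I (w.α l c) (w.α m d)) : I (w.α m d) N := by
  refine h.mem_of_col ?_ h1 h2 h3.symm h4.symm
  intro he
  exact hkl (w.α_inj _ _ _ _ he).1

private theorem Dicho_two [Finite P] [Finite L] (h : IsGQ I 4 t) (ht : 2 ≤ t)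
    (hs : SubGQ I P' L' 2 2) (w : W22 I P' L') {k l : Fin 15} (hkl : skew22 k l = true)
    {b c : Bool} (h1 : Col I (w.α k b) (w.α l c)) :
    (∃ m d, Reg k l m ∧ Col I (w.α k b) (w.α m d) ∧ Col I (w.α l c) (w.α m d)) ∨
      ∀ m, Spr k l m → ∃ d, Col I (w.α k b) (w.α m d) ∧ Col I (w.α l c) (w.α m d) := by
  have hne := Dicho_ne hkl
  obtain ⟨N, hN1, hN2⟩ := h1
  have hN := Dicho_notmem w hne hN1 hN2
  rcases (W22.two_alpha h ht hs w (fun hh => hne hh.1) hN1 hN2 hN).2 with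
    ⟨m, d, hr, hm, -⟩ | ⟨-, hm⟩
  · exact Or.inl ⟨m, d, hr, ⟨N, hN1, hm⟩, ⟨N, hN2, hm⟩⟩
  · right
    intro m hs'
    obtain ⟨d, hd⟩ := hm m hs'
    exact ⟨d, ⟨N, hN1, hd⟩, ⟨N, hN2, hd⟩⟩

private theorem Dicho_GH [Finite P] [Finite L] (h : IsGQ I 4 t) (ht : 2 ≤ t)
    (hs : SubGQ I P' L' 2 2) (w : W22 I P' L') {k l : Fin 15} (hkl : skew22 k l = true) :
    DG w k l ∨ DH w k l := by
  by_cases hex : ∃ b c m d, Reg k l m ∧ Col I (w.α k b) (w.α l c) ∧ Col I (w.α k b) (w.α m d) ∧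
      Col I (w.α l c) (w.α m d)
  · left
    obtain ⟨b, c, m, d, hr, h1, h2, h3⟩ := hex
    intro m' b' c' d' hr' h1' h2'
    have hm : m' = m := (reg_exists k l hkl).unique hr' hr
    subst hm
    have hkm : skew22 k m' = true := hr.2.1
    have hlm : skew22 l m' = true := hr.2.2.1
    by_cases hb : b' = b
    · subst hb
      rw [Dicho_uniq h hs w hkl h1' h1, Dicho_uniq h hs w hkm h2' h2]
      exact h3
    · have h4 : ∀ x y : Bool, x ≠ y → x = !y := by decide
      rw [h4 b' b hb] at h1' h2'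
      rw [Dicho_uniq h hs w hkl h1' (Dicho_flip h hs w hkl h1),
        Dicho_uniq h hs w hkm h2' (Dicho_flip h hs w hkm h2)]
      exact Dicho_flip h hs w hlm h3
  · right
    intro m b c d hsp h1 h2
    rcases Dicho_two h ht hs w hkl h1 with ⟨m', d', hr, h3, h4⟩ | hall
    · exact absurd ⟨b, c, m', d', hr, h1, h3, h4⟩ hex
    · obtain ⟨d', h3, h4⟩ := hall m hsp
      rw [Dicho_uniq h hs w hsp.2.1 h2 h3]
      exact h4

/-- the two alternatives exclude each other, also for the pairs `k, l` and `k, n` of a spread -/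
private theorem Dicho_excl (h : IsGQ I 4 t) (hs : SubGQ I P' L' 2 2) (w : W22 I P' L')
    {k l n : Fin 15} (hsp : Spr k l n) (h1 : DH w k l) (h2 : DG w k n) : False := by
  have hkl := hsp.1
  have hkn := hsp.2.1
  have hne := Dicho_ne hkl
  obtain ⟨c, hc, -⟩ := W22.αα_skew h hs w hkl true
  obtain ⟨e, he, -⟩ := W22.αα_skew h hs w hkn true
  have h3 := h1 n true c e hsp hc he
  obtain ⟨m, hm, -⟩ := reg_exists k n hkn
  obtain ⟨d, hd, -⟩ := W22.αα_skew h hs w hm.2.1 true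
  have h4 := h2 m true e d hm he hd
  obtain ⟨N, hN1, hN2⟩ := hc
  have h5 : I (w.α n e) N := Dicho_three h w hne hN1 hN2 he h3
  have h6 : I (w.α m d) N := Dicho_three h w (Dicho_ne hkn) hN1 h5 hd h4
  have h7 := F9 k n m l hm (spr_symm k l n hsp).2
  exact W22.αα_meet h hs w h7.2 h7.1 d c ⟨N, h6, hN2⟩

private theorem Dicho_excl0 (h : IsGQ I 4 t) (hs : SubGQ I P' L' 2 2) (w : W22 I P' L')
    {k l : Fin 15} (hkl : skew22 k l = true) (h1 : DH w k l) (h2 : DG w k l) : False := by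
  have hne := Dicho_ne hkl
  have hcard := F11 k l hkl
  obtain ⟨n, hn⟩ : (univ.filter (fun m => Spr k l m)).Nonempty := by
    apply Finset.card_pos.1
    rw [hcard]
    norm_num
  have hsp : Spr k l n := (Finset.mem_filter.1 hn).2
  obtain ⟨c, hc, -⟩ := W22.αα_skew h hs w hkl true
  obtain ⟨e, he, -⟩ := W22.αα_skew h hs w hsp.2.1 true
  have h3 := h1 n true c e hsp hc he
  obtain ⟨m, hm, -⟩ := reg_exists k l hkl
  obtain ⟨d, hd, -⟩ := W22.αα_skew h hs w hm.2.1 true
  have h4 := h2 m true c d hm hc hd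
  obtain ⟨N, hN1, hN2⟩ := hc
  have h5 : I (w.α n e) N := Dicho_three h w hne hN1 hN2 he h3
  have h6 : I (w.α m d) N := Dicho_three h w hne hN1 hN2 hd h4
  have h7 := F9 k l m n hm hsp
  exact W22.αα_meet h hs w h7.2 h7.1 d e ⟨N, h6, h5⟩

private theorem Dicho_symm (h : IsGQ I 4 t) (hs : SubGQ I P' L' 2 2) (w : W22 I P' L')
    {k l : Fin 15} (h1 : DG w k l) : DG w l k := by
  intro m b c d hr h2 h3
  have hr' := (reg_symm l k m hr).1
  obtain ⟨d', hd', -⟩ := W22.αα_skew h hs w hr'.2.1 c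
  have h4 := h1 m c b d' hr' h2.symm hd'
  rw [Dicho_uniq h hs w hr'.2.2.1 h3 h4]
  exact hd'

private theorem Dicho_reg (w : W22 I P' L') {k l m : Fin 15} (hr : Reg k l m) (h1 : DG w k l) :
    DG w k m := by
  intro m' b c d hr' h2 h3
  have hr2 := (reg_symm k l m hr).2
  have hm : m' = l := (reg_exists k m hr.2.1).unique hr' hr2
  subst hm
  exact (h1 m b d c hr h3 h2).symm

private theorem Dicho_step [Finite P] [Finite L] (h : IsGQ I 4 t) (ht : 2 ≤ t)
    (hs : SubGQ I P' L' 2 2) (w : W22 I P' L') {k l m : Fin 15} (hkl : skew22 k l = true)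
    (hkm : skew22 k m = true) (hlm : l = m ∨ skew22 l m = true) (h1 : DG w k l) : DG w k m := by
  rcases hlm with rfl | hlm
  · exact h1
  · by_cases hr : Reg k l m
    · exact Dicho_reg w hr h1
    · have hsp : Spr k l m := ⟨hkl, hkm, hlm, hr⟩
      rcases Dicho_GH h ht hs w hkm with h2 | h2
      · exact h2
      · exact (Dicho_excl h hs w (spr_symm k l m hsp).2 h2 h1).elim

private theorem Dicho_fix [Finite P] [Finite L] (h : IsGQ I 4 t) (ht : 2 ≤ t)
    (hs : SubGQ I P' L' 2 2) (w : W22 I P' L') {k m n : Fin 15} (hkm : skew22 k m = true)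
    (hkn : skew22 k n = true) (h1 : DG w k m) : DG w k n := by
  obtain ⟨a, b, ha, hb, h2, h3, h4⟩ := F6 k m n hkm hkn
  exact Dicho_step h ht hs w hb hkn h4 (Dicho_step h ht hs w ha hb h3
    (Dicho_step h ht hs w hkm ha h2 h1))

private theorem Dicho_all [Finite P] [Finite L] (h : IsGQ I 4 t) (ht : 2 ≤ t)
    (hs : SubGQ I P' L' 2 2) (w : W22 I P' L') {k l m n : Fin 15} (hkl : skew22 k l = true)
    (hmn : skew22 m n = true) (h1 : DG w k l) : DG w m n := by
  obtain ⟨a, ha1, ha2⟩ := F7 k m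
  have hma : skew22 m a = true := by rw [skew22_symm]; exact ha2
  have hak : skew22 a k = true := by rw [skew22_symm]; exact ha1
  have h2 := Dicho_symm h hs w (Dicho_fix h ht hs w hkl ha1 h1)
  have h3 := Dicho_symm h hs w (Dicho_fix h ht hs w hak ha2 h2)
  exact Dicho_fix h ht hs w hma hmn h3

theorem W22.dichotomy [Finite P] [Finite L] (h : IsGQ I 4 t) (ht : 2 ≤ t)
    (hs : SubGQ I P' L' 2 2) (w : W22 I P' L') : w.AllReg ∨ w.AllSpr := by
  by_cases hex : ∃ k l, skew22 k l = true ∧ DG w k l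
  · left
    obtain ⟨k, l, hkl, hG⟩ := hex
    intro k' l' m b c d hr h1 h2
    exact Dicho_all h ht hs w hkl hr.1 hG m b c d hr h1 h2
  · right
    intro k l m b c d hsp h1 h2
    rcases Dicho_GH h ht hs w hsp.1 with h3 | h3
    · exact absurd ⟨k, l, hsp.1, h3⟩ hex
    · exact h3 m b c d hsp h1 h2

end H60GQ
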