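import Pool.Agent.H60.GQ.Model

/-!
Project GQ (MP_a3aa3c_co), module Facts22b: finite checks F2, F3 (see Facts22a.lean for a suggestion).
-/

namespace H60GQ

open Finset

/-- masks of the triads -/
private def TRl : List ℕ :=
  [273, 529, 1041, 16401, 161, 545, 1057, 4129, 641, 4225, 16513, 1281, 4353, 16641, 4609,
    17409, 266, 2058, 4106, 8202, 98, 1058, 2082, 4130, 1090, 2114, 8258, 1282, 4354, 8450,
    3074, 12290, 140, 2060, 8204, 16396, 84, 532, 8212, 16404, 580, 2116, 8260, 644, 2180,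
    16516, 8708, 18436, 2184, 4232, 16520, 4360, 8456, 16648, 18440, 12296, 592, 1104, 8272,
    1296, 8464, 16656, 8720, 17424, 608, 1120, 2144, 672, 2208, 4256, 4640, 3104, 8768, 3136,
    4736, 18560, 17664, 12544, 12800, 19456]

/-- masks of the hyperbolic triads -/
private def HYl : List ℕ :=
  [529, 1057, 16513, 4353, 2058, 4130, 8258, 1282, 8204, 16404, 2116, 644, 4232, 16648, 1104,
    8464, 608, 2208, 12800, 19456]

/-- `x` is the mask of `T` -/
private def Rep (T : Finset (Fin 15)) (x : ℕ) : Prop :=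
  x < 32768 ∧ ∀ i : Fin 15, Nat.testBit x i.val = decide (i ∈ T)

private theorem rep_disj {T T' : Finset (Fin 15)} {x x' : ℕ} (h : Rep T x) (h' : Rep T' x')
    (hd : Disjoint T T') : x &&& x' = 0 := by
  apply Nat.eq_of_testBit_eq
  intro i
  rw [Nat.testBit_and, Nat.zero_testBit]
  by_cases hi : i < 15
  · have e := h.2 ⟨i, hi⟩
    have e' := h'.2 ⟨i, hi⟩
    simp only at e e'
    rw [e, e']
    by_cases hm : (⟨i, hi⟩ : Fin 15) ∈ T
    · have : (⟨i, hi⟩ : Fin 15) ∉ T' := Finset.disjoint_left.1 hd hm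
      simp [this]
    · simp [hm]
  · have : x < 2 ^ i := lt_of_lt_of_le h.1 (by
      calc (32768 : ℕ) = 2 ^ 15 := by norm_num
        _ ≤ 2 ^ i := Nat.pow_le_pow_right (by norm_num) (by omega))
    rw [Nat.testBit_lt_two_pow this]
    rfl

private theorem rep_triple {a b c : Fin 15} :
    Rep {a, b, c} (2 ^ a.val ||| 2 ^ b.val ||| 2 ^ c.val) := by
  constructor
  · have h : ∀ a : Fin 15, 2 ^ a.val < 2 ^ 15 := fun a =>
      Nat.pow_lt_pow_right (by norm_num) a.2
    exact Nat.or_lt_two_pow (Nat.or_lt_two_pow (h a) (h b)) (h c)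
  · intro i
    rw [Nat.testBit_or, Nat.testBit_or, Nat.testBit_two_pow, Nat.testBit_two_pow,
      Nat.testBit_two_pow]
    by_cases h1 : i = a
    · simp [h1]
    · by_cases h2 : i = b
      · simp [h2]
      · by_cases h3 : i = c
        · simp [h3]
        · have h1' : ¬ a.val = i.val := fun h => h1 (Fin.ext h.symm)
          have h2' : ¬ b.val = i.val := fun h => h2 (Fin.ext h.symm)
          have h3' : ¬ c.val = i.val := fun h => h3 (Fin.ext h.symm)
          simp [h1, h2, h3, h1', h2', h3']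

private theorem tr_mem : ∀ a b c : Fin 15, a ≠ b → a ≠ c → b ≠ c → col22 a b = false →
    col22 a c = false → col22 b c = false →
    (2 ^ a.val ||| 2 ^ b.val ||| 2 ^ c.val) ∈ TRl := by
  decide +kernel

private theorem hy_mem : ∀ a b c : Fin 15, a ≠ b → a ≠ c → b ≠ c → col22 a b = false →
    col22 a c = false → col22 b c = false →
    ((2 ^ a.val ||| 2 ^ b.val ||| 2 ^ c.val) ∈ HYl ↔
      (Finset.univ.filter (fun d => col22 a d = true ∧ col22 b d = true ∧
        col22 c d = true)).card = 3) := by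
  decide +kernel

private theorem triad_rep (T : Finset (Fin 15)) (h : IsTriad T) :
    ∃ x ∈ TRl, Rep T x ∧ (x ∈ HYl ↔ IsHyp T) := by
  obtain ⟨hc, hn⟩ := h
  obtain ⟨a, b, c, hab, hac, hbc, rfl⟩ := Finset.card_eq_three.1 hc
  have n1 := hn a (by simp) b (by simp) hab
  have n2 := hn a (by simp) c (by simp) hac
  have n3 := hn b (by simp) c (by simp) hbc
  refine ⟨_, tr_mem a b c hab hac hbc n1 n2 n3, rep_triple, ?_⟩
  rw [hy_mem a b c hab hac hbc n1 n2 n3]
  have e : (Finset.univ.filter (fun d => ∀ x ∈ ({a, b, c} : Finset (Fin 15)),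
      col22 x d = true)) = Finset.univ.filter (fun d => col22 a d = true ∧ col22 b d = true ∧
        col22 c d = true) := by
    apply Finset.filter_congr
    intro d _
    simp
  unfold IsHyp
  rw [e]
  exact ⟨fun h => ⟨⟨hc, hn⟩, h⟩, fun h => h.2⟩

private theorem rep_inter {T T' : Finset (Fin 15)} {x x' : ℕ} {p : Fin 15} (h : Rep T x)
    (h' : Rep T' x') (hd : T ∩ T' = {p}) : x &&& x' = 2 ^ p.val := by
  apply Nat.eq_of_testBit_eq
  intro i
  rw [Nat.testBit_and, Nat.testBit_two_pow]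
  by_cases hi : i < 15
  · have e := h.2 ⟨i, hi⟩
    have e' := h'.2 ⟨i, hi⟩
    simp only at e e'
    rw [e, e']
    have hm : ((⟨i, hi⟩ : Fin 15) ∈ T ∧ (⟨i, hi⟩ : Fin 15) ∈ T') ↔ p.val = i := by
      rw [← Finset.mem_inter, hd, Finset.mem_singleton, Fin.ext_iff]
      exact eq_comm
    by_cases h1 : (⟨i, hi⟩ : Fin 15) ∈ T
    · by_cases h2 : (⟨i, hi⟩ : Fin 15) ∈ T'
      · have h3 := hm.1 ⟨h1, h2⟩
        simp [h1, h2, h3]
      · have h3 : ¬ p.val = i := fun h => h2 (hm.2 h).2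
        simp [h2, h3]
    · have h3 : ¬ p.val = i := fun h => h1 (hm.2 h).1
      simp [h1, h3]
  · have : x < 2 ^ i := lt_of_lt_of_le h.1 (by
      calc (32768 : ℕ) = 2 ^ 15 := by norm_num
        _ ≤ 2 ^ i := Nat.pow_le_pow_right (by norm_num) (by omega))
    rw [Nat.testBit_lt_two_pow this]
    have h3 : ¬ p.val = i := by have := p.2; omega
    simp [h3]

private def ok2b (A : List ℕ) : Bool :=
  A.all fun x4 => A.all fun x5 => x4 &&& x5 != 0

private def chk2 (x1 : ℕ) : Bool :=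
  HYl.all fun x2 => (x1 &&& x2 != 0) || HYl.all fun x3 => (x1 &&& x3 != 0) ||
    ((x2 &&& x3 != 0) || ok2b (TRl.filter fun x => x &&& (x1 ||| x2 ||| x3) == 0))

private theorem chk2_all : ∀ x1 ∈ HYl, chk2 x1 = true := by
  decide +kernel

/-- F2: a partition in triads has at most two hyperbolic members -/
theorem F2 (T1 T2 T3 T4 T5 : Finset (Fin 15)) (h1 : IsHyp T1) (h2 : IsHyp T2) (h3 : IsHyp T3)
    (h4 : IsTriad T4) (h5 : IsTriad T5) (d12 : Disjoint T1 T2) (d13 : Disjoint T1 T3)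
    (d14 : Disjoint T1 T4) (d15 : Disjoint T1 T5) (d23 : Disjoint T2 T3) (d24 : Disjoint T2 T4)
    (d25 : Disjoint T2 T5) (d34 : Disjoint T3 T4) (d35 : Disjoint T3 T5) (d45 : Disjoint T4 T5) :
    False := by
  obtain ⟨x1, m1, r1, y1⟩ := triad_rep T1 h1.1
  obtain ⟨x2, m2, r2, y2⟩ := triad_rep T2 h2.1
  obtain ⟨x3, m3, r3, y3⟩ := triad_rep T3 h3.1
  obtain ⟨x4, m4, r4, y4⟩ := triad_rep T4 h4
  obtain ⟨x5, m5, r5, y5⟩ := triad_rep T5 h5
  have hx1 := y1.2 h1
  have hx2 := y2.2 h2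
  have hx3 := y3.2 h3
  have e12 := rep_disj r1 r2 d12
  have e13 := rep_disj r1 r3 d13
  have e23 := rep_disj r2 r3 d23
  have e41 := rep_disj r4 r1 d14.symm
  have e42 := rep_disj r4 r2 d24.symm
  have e43 := rep_disj r4 r3 d34.symm
  have e51 := rep_disj r5 r1 d15.symm
  have e52 := rep_disj r5 r2 d25.symm
  have e53 := rep_disj r5 r3 d35.symm
  have e45 := rep_disj r4 r5 d45
  have hc := chk2_all x1 hx1
  unfold chk2 at hc
  rw [List.all_eq_true] at hc
  have hc2 := hc x2 hx2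
  rw [e12] at hc2
  simp only [bne_self_eq_false, Bool.false_or, List.all_eq_true] at hc2
  have hc3 := hc2 x3 hx3
  rw [e13, e23] at hc3
  simp only [bne_self_eq_false, Bool.false_or] at hc3
  unfold ok2b at hc3
  rw [List.all_eq_true] at hc3
  have f4 : x4 &&& (x1 ||| x2 ||| x3) = 0 := by
    rw [Nat.and_or_distrib_left, Nat.and_or_distrib_left, e41, e42, e43]
    rfl
  have f5 : x5 &&& (x1 ||| x2 ||| x3) = 0 := by
    rw [Nat.and_or_distrib_left, Nat.and_or_distrib_left, e51, e52, e53]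
    rfl
  have hc4 := hc3 x4 (List.mem_filter.2 ⟨m4, by simp [f4]⟩)
  rw [List.all_eq_true] at hc4
  have hc5 := hc4 x5 (List.mem_filter.2 ⟨m5, by simp [f5]⟩)
  rw [e45] at hc5
  simp at hc5

private def ok3 (p : ℕ) (A : List ℕ) : Bool :=
  A.all fun x2 => A.all fun x3 => (x2 &&& x3 != p) || A.all fun x4 => (x2 &&& x4 != p) ||
    ((x3 &&& x4 != p) || (HYl.contains x2 || (HYl.contains x3 || HYl.contains x4)))

private def chk3 (p : ℕ) : Bool :=
  HYl.all fun x1 => ok3 p (TRl.filter fun x => x1 &&& x == p)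

private theorem chk3_all : ∀ p : Fin 15, chk3 (2 ^ p.val) = true := by
  decide +kernel

/-- F3: four triads through a point, pairwise disjoint otherwise, the first one hyperbolic: then
another one is hyperbolic -/
theorem F3 (p : Fin 15) (T1 T2 T3 T4 : Finset (Fin 15)) (h1 : IsHyp T1) (h2 : IsTriad T2)
    (h3 : IsTriad T3) (h4 : IsTriad T4) (d12 : T1 ∩ T2 = {p}) (d13 : T1 ∩ T3 = {p})
    (d14 : T1 ∩ T4 = {p}) (d23 : T2 ∩ T3 = {p}) (d24 : T2 ∩ T4 = {p}) (d34 : T3 ∩ T4 = {p}) :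
    IsHyp T2 ∨ IsHyp T3 ∨ IsHyp T4 := by
  obtain ⟨x1, m1, r1, y1⟩ := triad_rep T1 h1.1
  obtain ⟨x2, m2, r2, y2⟩ := triad_rep T2 h2
  obtain ⟨x3, m3, r3, y3⟩ := triad_rep T3 h3
  obtain ⟨x4, m4, r4, y4⟩ := triad_rep T4 h4
  have hx1 := y1.2 h1
  have e12 := rep_inter r1 r2 d12
  have e13 := rep_inter r1 r3 d13
  have e14 := rep_inter r1 r4 d14
  have e23 := rep_inter r2 r3 d23
  have e24 := rep_inter r2 r4 d24
  have e34 := rep_inter r3 r4 d34
  have hc := chk3_all p
  unfold chk3 at hc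
  rw [List.all_eq_true] at hc
  have hc1 := hc x1 hx1
  unfold ok3 at hc1
  rw [List.all_eq_true] at hc1
  have hc2 := hc1 x2 (List.mem_filter.2 ⟨m2, by simp [e12]⟩)
  rw [List.all_eq_true] at hc2
  have hc3 := hc2 x3 (List.mem_filter.2 ⟨m3, by simp [e13]⟩)
  rw [e23] at hc3
  simp only [bne_self_eq_false, Bool.false_or, List.all_eq_true] at hc3
  have hc4 := hc3 x4 (List.mem_filter.2 ⟨m4, by simp [e14]⟩)
  rw [e24, e34] at hc4
  simp only [bne_self_eq_false, Bool.false_or] at hc4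
  rw [Bool.or_eq_true, Bool.or_eq_true, List.contains_iff_mem, List.contains_iff_mem,
    List.contains_iff_mem] at hc4
  rcases hc4 with h | h | h
  · exact Or.inl (y2.1 h)
  · exact Or.inr (Or.inl (y3.1 h))
  · exact Or.inr (Or.inr (y4.1 h))

end H60GQ
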