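import Pool.Agent.H60.GQ.Model

/-!
Project GQ (MP_a3aa3c_co), module Facts22c: facts on the quadrangle of order (2, 2) (finite checks, all
verified by computer).

Suggestion: encode a set T as a number `mask T = ∑ i ∈ T, 2 ^ i.val` (disjointness = `&&& = 0`,
`Nat.testBit (mask T) i ↔ i ∈ T`), let `good` be the list of the 95 masks of lines and triads
(a card-3 set is {a, b, c}: membership of the mask in the list by `decide +kernel` over a b c),
and check nested `List.all` conditions by `decide +kernel` / `rfl` (about 2 * 10^5 `&&&`).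
-/

namespace H60GQ

open Finset

private theorem Facts22c_reg : ∀ k l : Fin 15, skew22 k l = true →
    ∃ m, Reg k l m ∧ ∀ n, Reg k l n → n = m := by
  decide +kernel

/-- two disjoint lines are in exactly one regulus -/
theorem reg_exists : ∀ k l : Fin 15, skew22 k l = true → ∃! m, Reg k l m :=
  Facts22c_reg

theorem reg_symm : ∀ k l m : Fin 15, Reg k l m → Reg l k m ∧ Reg k m l := by
  decide +kernel

theorem spr_symm : ∀ k l m : Fin 15, Spr k l m → Spr l k m ∧ Spr k m l := by
  decide +kernel

private theorem Facts22c_disj (m a b c : Fin 15) :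
    Disjoint (lineSet m) ({a, b, c} : Finset (Fin 15)) ↔
      (!inc22 a m && !inc22 b m && !inc22 c m) = true := by
  rw [Finset.disjoint_right]
  simp [lineSet, Bool.and_assoc]

private theorem Facts22c_F4 : ∀ a b c : Fin 15,
    (!col22 a b && !col22 a c && !col22 b c) = true →
    (univ.filter (fun m : Fin 15 => (!inc22 a m && !inc22 b m && !inc22 c m) = true)).card = 6 := by
  decide +kernel

private theorem Facts22c_triad (T : Finset (Fin 15)) (h : IsTriad T) :
    ∃ a b c : Fin 15, T = {a, b, c} ∧ (!col22 a b && !col22 a c && !col22 b c) = true := by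
  obtain ⟨a, b, c, hab, hac, hbc, rfl⟩ := Finset.card_eq_three.1 h.1
  refine ⟨a, b, c, rfl, ?_⟩
  have h1 := h.2 a (by simp) b (by simp) hab
  have h2 := h.2 a (by simp) c (by simp) hac
  have h3 := h.2 b (by simp) c (by simp) hbc
  rw [h1, h2, h3]
  rfl

/-- F4: exactly six lines miss a triad -/
theorem F4 (T : Finset (Fin 15)) (h : IsTriad T) :
    (univ.filter (fun m => Disjoint (lineSet m) T)).card = 6 := by
  obtain ⟨a, b, c, rfl, h1⟩ := Facts22c_triad T h
  rw [← Facts22c_F4 a b c h1]
  congr 1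
  ext m
  simp only [mem_filter, mem_univ, true_and]
  exact Facts22c_disj m a b c

private def Facts22c_miss (a b c k : Fin 15) : Bool := !inc22 a k && !inc22 b k && !inc22 c k

private def Facts22c_E2 (a b c k l m : Fin 15) : Prop :=
  ∃ k' : Fin 15, Facts22c_miss a b c k' = true ∧ (k' ≠ k ∧ k' ≠ l ∧ k' ≠ m) ∧
    ∃ l' : Fin 15, Facts22c_miss a b c l' = true ∧ (l' ≠ k ∧ l' ≠ l ∧ l' ≠ m ∧ l' ≠ k') ∧
    ∃ m' : Fin 15, Facts22c_miss a b c m' = true ∧
      (m' ≠ k ∧ m' ≠ l ∧ m' ≠ m ∧ m' ≠ k' ∧ m' ≠ l') ∧ Reg k' l' m'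

private instance (a b c k l m : Fin 15) : Decidable (Facts22c_E2 a b c k l m) := by
  unfold Facts22c_E2; infer_instance

private def Facts22c_E1 (a b c : Fin 15) : Prop :=
  ∃ k : Fin 15, Facts22c_miss a b c k = true ∧
    ∃ l : Fin 15, Facts22c_miss a b c l = true ∧
    ∃ m : Fin 15, Facts22c_miss a b c m = true ∧ Reg k l m ∧ Facts22c_E2 a b c k l m

private instance (a b c : Fin 15) : Decidable (Facts22c_E1 a b c) := by
  unfold Facts22c_E1; infer_instance

private theorem Facts22c_F5 : ∀ a b c : Fin 15,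
    (!col22 a b && !col22 a c && !col22 b c) = true →
    (univ.filter (fun x : Fin 15 => (col22 a x && col22 b x && col22 c x) = true)).card = 3 →
    Facts22c_E1 a b c := by
  decide +kernel

/-- F5: the six lines missing a hyperbolic triad form two disjoint reguli -/
theorem F5 (T : Finset (Fin 15)) (h : IsHyp T) :
    ∃ k l m k' l' m' : Fin 15, Reg k l m ∧ Reg k' l' m' ∧
      (∀ n ∈ [k, l, m, k', l', m'], Disjoint (lineSet n) T) ∧ [k, l, m, k', l', m'].Nodup := by
  obtain ⟨h1, h2⟩ := h
  obtain ⟨a, b, c, rfl, h3⟩ := Facts22c_triad T h1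
  have h4 : (univ.filter (fun x : Fin 15 => (col22 a x && col22 b x && col22 c x) = true)).card =
      3 := by
    rw [← h2]
    congr 1
    ext x
    simp [and_assoc]
  obtain ⟨k, hk, l, hl, m, hm, hR, k', hk', ⟨k1, k2, k3⟩, l', hl', ⟨l1, l2, l3, l4⟩, m', hm',
    ⟨m1, m2, m3, m4, m5⟩, hR'⟩ := Facts22c_F5 a b c h3 h4
  have hne : k ≠ l ∧ k ≠ m ∧ l ≠ m := by
    obtain ⟨r1, r2, r3, -⟩ := hR
    refine ⟨?_, ?_, ?_⟩
    · rintro rfl
      rw [skew22_irrefl] at r1
      exact Bool.false_ne_true r1
    · rintro rfl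
      rw [skew22_irrefl] at r2
      exact Bool.false_ne_true r2
    · rintro rfl
      rw [skew22_irrefl] at r3
      exact Bool.false_ne_true r3
  refine ⟨k, l, m, k', l', m', hR, hR', ?_, ?_⟩
  · intro n hn
    rw [Facts22c_disj]
    simp only [List.mem_cons, List.not_mem_nil, or_false] at hn
    rcases hn with rfl | rfl | rfl | rfl | rfl | rfl <;> assumption
  · simp only [List.nodup_cons, List.mem_cons, List.not_mem_nil, or_false, not_or, List.nodup_nil,
      not_false_eq_true, and_true]
    exact ⟨⟨hne.1, hne.2.1, k1.symm, l1.symm, m1.symm⟩, ⟨hne.2.2, k2.symm, l2.symm, m2.symm⟩,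
      ⟨k3.symm, l3.symm, m3.symm⟩, ⟨l4.symm, m4.symm⟩, m5.symm⟩

/-- F6: the lines disjoint from `k` are connected by disjointness in at most three steps -/
theorem F6 : ∀ k m n : Fin 15, skew22 k m = true → skew22 k n = true →
    ∃ a b, skew22 k a = true ∧ skew22 k b = true ∧ (m = a ∨ skew22 m a = true) ∧
      (a = b ∨ skew22 a b = true) ∧ (b = n ∨ skew22 b n = true) := by
  decide +kernel

theorem F7 : ∀ k m : Fin 15, ∃ a, skew22 k a = true ∧ skew22 a m = true := by
  decide +kernel

/-- F8: the number of lines disjoint from a line is 8 -/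
theorem F8 : ∀ k : Fin 15, (univ.filter (fun m => skew22 k m = true)).card = 8 := by
  decide +kernel

theorem F9 : ∀ k l m n : Fin 15, Reg k l m → Spr k l n → skew22 m n = false ∧ m ≠ n := by
  decide +kernel

theorem F10 : ∀ k l m n : Fin 15, Spr k l m → Spr k l n → m ≠ n → Spr k m n ∧ Spr l m n := by
  decide +kernel

theorem F11 : ∀ k l : Fin 15, skew22 k l = true →
    (univ.filter (fun m => Spr k l m)).card = 3 := by
  decide +kernel

end H60GQ
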