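import Pool.Agent.H60.GQ.Model

/-!
Project GQ (MP_a3aa3c_co), module Facts22a: finite check F1 (verified by computer).

Suggestion: encode a set T as a number `mask T = ∑ i ∈ T, 2 ^ i.val` (disjointness = `&&& = 0`,
`Nat.testBit (mask T) i ↔ i ∈ T`), let `good` be the list of the 95 masks of lines and triads
(a card-3 set is {a, b, c}: membership of the mask in the list by `decide +kernel` over a b c),
and check nested `List.all` conditions by `decide +kernel` / `rfl` (about 2 * 10^5 `&&&`).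
-/

namespace H60GQ

open Finset

/-- masks of the lines -/
private def LMl : List ℕ :=
  [7, 56, 73, 146, 292, 1544, 6160, 24608, 10241, 16898, 5124, 448, 20544, 9344, 2816]

/-- masks of the triads -/
private def TRl : List ℕ :=
  [273, 529, 1041, 16401, 161, 545, 1057, 4129, 641, 4225, 16513, 1281, 4353, 16641, 4609,
    17409, 266, 2058, 4106, 8202, 98, 1058, 2082, 4130, 1090, 2114, 8258, 1282, 4354, 8450,
    3074, 12290, 140, 2060, 8204, 16396, 84, 532, 8212, 16404, 580, 2116, 8260, 644, 2180,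
    16516, 8708, 18436, 2184, 4232, 16520, 4360, 8456, 16648, 18440, 12296, 592, 1104, 8272,
    1296, 8464, 16656, 8720, 17424, 608, 1120, 2144, 672, 2208, 4256, 4640, 3104, 8768, 3136,
    4736, 18560, 17664, 12544, 12800, 19456]

/-- masks of the hyperbolic triads -/
private def HYl : List ℕ :=
  [529, 1057, 16513, 4353, 2058, 4130, 8258, 1282, 8204, 16404, 2116, 644, 4232, 16648, 1104,
    8464, 608, 2208, 12800, 19456]

private def lm (l : Fin 15) : ℕ := LMl.getD l.val 0

/-- `x` is the mask of `T` -/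
private def Rep (T : Finset (Fin 15)) (x : ℕ) : Prop :=
  x < 32768 ∧ ∀ i : Fin 15, Nat.testBit x i.val = decide (i ∈ T)

private theorem rep_disj {T T' : Finset (Fin 15)} {x x' : ℕ} (h : Rep T x) (h' : Rep T' x')
    (hd : Disjoint T T') : x &&& x' = 0 := by
  apply Nat.eq_of_testBit_eq
  intro i
  rw [Nat.testBit_and, Nat.zero_testBit]
  by_cases hi : i < 15
  · have e := h.2 ⟨i, hi⟩
    have e' := h'.2 ⟨i, hi⟩
    simp only at e e'
    rw [e, e']
    by_cases hm : (⟨i, hi⟩ : Fin 15) ∈ T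
    · have : (⟨i, hi⟩ : Fin 15) ∉ T' := Finset.disjoint_left.1 hd hm
      simp [this]
    · simp [hm]
  · have : x < 2 ^ i := lt_of_lt_of_le h.1 (by
      calc (32768 : ℕ) = 2 ^ 15 := by norm_num
        _ ≤ 2 ^ i := Nat.pow_le_pow_right (by norm_num) (by omega))
    rw [Nat.testBit_lt_two_pow this]
    rfl

private theorem rep_triple {a b c : Fin 15} :
    Rep {a, b, c} (2 ^ a.val ||| 2 ^ b.val ||| 2 ^ c.val) := by
  constructor
  · have h : ∀ a : Fin 15, 2 ^ a.val < 2 ^ 15 := fun a =>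
      Nat.pow_lt_pow_right (by norm_num) a.2
    exact Nat.or_lt_two_pow (Nat.or_lt_two_pow (h a) (h b)) (h c)
  · intro i
    rw [Nat.testBit_or, Nat.testBit_or, Nat.testBit_two_pow, Nat.testBit_two_pow,
      Nat.testBit_two_pow]
    by_cases h1 : i = a
    · simp [h1]
    · by_cases h2 : i = b
      · simp [h2]
      · by_cases h3 : i = c
        · simp [h3]
        · have h1' : ¬ a.val = i.val := fun h => h1 (Fin.ext h.symm)
          have h2' : ¬ b.val = i.val := fun h => h2 (Fin.ext h.symm)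
          have h3' : ¬ c.val = i.val := fun h => h3 (Fin.ext h.symm)
          simp [h1, h2, h3, h1', h2', h3']

private theorem tr_mem : ∀ a b c : Fin 15, a ≠ b → a ≠ c → b ≠ c → col22 a b = false →
    col22 a c = false → col22 b c = false →
    (2 ^ a.val ||| 2 ^ b.val ||| 2 ^ c.val) ∈ TRl := by
  decide +kernel

private theorem hy_mem : ∀ a b c : Fin 15, a ≠ b → a ≠ c → b ≠ c → col22 a b = false →
    col22 a c = false → col22 b c = false →
    ((2 ^ a.val ||| 2 ^ b.val ||| 2 ^ c.val) ∈ HYl ↔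
      (Finset.univ.filter (fun d => col22 a d = true ∧ col22 b d = true ∧
        col22 c d = true)).card = 3) := by
  decide +kernel

private theorem triad_rep (T : Finset (Fin 15)) (h : IsTriad T) :
    ∃ x ∈ TRl, Rep T x ∧ (x ∈ HYl ↔ IsHyp T) := by
  obtain ⟨hc, hn⟩ := h
  obtain ⟨a, b, c, hab, hac, hbc, rfl⟩ := Finset.card_eq_three.1 hc
  have n1 := hn a (by simp) b (by simp) hab
  have n2 := hn a (by simp) c (by simp) hac
  have n3 := hn b (by simp) c (by simp) hbc
  refine ⟨_, tr_mem a b c hab hac hbc n1 n2 n3, rep_triple, ?_⟩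
  rw [hy_mem a b c hab hac hbc n1 n2 n3]
  have e : (Finset.univ.filter (fun d => ∀ x ∈ ({a, b, c} : Finset (Fin 15)),
      col22 x d = true)) = Finset.univ.filter (fun d => col22 a d = true ∧ col22 b d = true ∧
        col22 c d = true) := by
    apply Finset.filter_congr
    intro d _
    simp
  unfold IsHyp
  rw [e]
  exact ⟨fun h => ⟨⟨hc, hn⟩, h⟩, fun h => h.2⟩

private theorem rep_line (m : Fin 15) : Rep (lineSet m) (lm m) := by
  have h1 : ∀ m : Fin 15, lm m < 32768 := by decide +kernel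
  have h2 : ∀ m i : Fin 15, Nat.testBit (lm m) i.val = inc22 i m := by decide +kernel
  refine ⟨h1 m, fun i => ?_⟩
  rw [h2]
  simp [lineSet]

private theorem lm_mem : ∀ m : Fin 15, lm m ∈ LMl := by decide +kernel

private theorem lm_not_hy : ∀ m : Fin 15, lm m ∉ HYl := by decide +kernel

private theorem rep_eq {T T' : Finset (Fin 15)} {x : ℕ} (h : Rep T x) (h' : Rep T' x) :
    T = T' := by
  ext i
  have e := (h.2 i).symm.trans (h'.2 i)
  simpa using e

private theorem rep_or {T T' : Finset (Fin 15)} {x x' : ℕ} (h : Rep T x) (h' : Rep T' x') :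
    Rep (T ∪ T') (x ||| x') := by
  constructor
  · exact Nat.or_lt_two_pow (n := 15) h.1 h'.1
  · intro i
    rw [Nat.testBit_or, h.2, h'.2]
    by_cases h1 : i ∈ T <;> by_cases h2 : i ∈ T' <;> simp [h1, h2]

private theorem both_rep (T : Finset (Fin 15)) (h : (∃ m, T = lineSet m) ∨ IsTriad T) :
    ∃ x ∈ LMl ++ TRl, Rep T x ∧ (x ∈ HYl → IsHyp T) := by
  rcases h with ⟨m, rfl⟩ | h
  · exact ⟨lm m, List.mem_append_left _ (lm_mem m), rep_line m,
      fun h => absurd h (lm_not_hy m)⟩
  · obtain ⟨x, h1, h2, h3⟩ := triad_rep T h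
    exact ⟨x, List.mem_append_right _ h1, h2, h3.1⟩

private def isS (k l : Fin 15) (x : ℕ) : Bool :=
  (List.finRange 15).any fun m => (x == lm m) && decide (Spr k l m)

private def concl (k l : Fin 15) (x3 x4 x5 : ℕ) : Bool :=
  (isS k l x3 && isS k l x4 && isS k l x5) ||
    (List.finRange 15).any fun m =>
      ((x3 == lm m && HYl.contains x4 && HYl.contains x5) ||
        (x4 == lm m && HYl.contains x3 && HYl.contains x5) ||
        (x5 == lm m && HYl.contains x3 && HYl.contains x4)) && decide (Reg k l m)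

private def chkA (k l : Fin 15) (A : List ℕ) : Bool :=
  A.all fun x3 => A.all fun x4 => (x3 &&& x4 != 0) ||
    A.all fun x5 => (x3 &&& x5 != 0) || ((x4 &&& x5 != 0) || concl k l x3 x4 x5)

private def chk (k l : Fin 15) : Bool :=
  chkA k l ((LMl ++ TRl).filter fun x => x &&& (lm k ||| lm l) == 0)

private theorem chk_all : ∀ k l : Fin 15, skew22 k l = true → chk k l = true := by
  decide +kernel

/-- F1: a partition of the 15 points in five lines or triads, two of which are lines -/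
theorem F1 (k l : Fin 15) (hkl : skew22 k l = true) (T3 T4 T5 : Finset (Fin 15))
    (h3 : (∃ m, T3 = lineSet m) ∨ IsTriad T3) (h4 : (∃ m, T4 = lineSet m) ∨ IsTriad T4)
    (h5 : (∃ m, T5 = lineSet m) ∨ IsTriad T5)
    (d3 : Disjoint T3 (lineSet k ∪ lineSet l)) (d4 : Disjoint T4 (lineSet k ∪ lineSet l))
    (d5 : Disjoint T5 (lineSet k ∪ lineSet l)) (d34 : Disjoint T3 T4) (d35 : Disjoint T3 T5)
    (d45 : Disjoint T4 T5) :
    ((∃ m, T3 = lineSet m ∧ Spr k l m) ∧ (∃ m, T4 = lineSet m ∧ Spr k l m) ∧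
        (∃ m, T5 = lineSet m ∧ Spr k l m)) ∨
      (∃ m, Reg k l m ∧ ((T3 = lineSet m ∧ IsHyp T4 ∧ IsHyp T5) ∨
        (T4 = lineSet m ∧ IsHyp T3 ∧ IsHyp T5) ∨ (T5 = lineSet m ∧ IsHyp T3 ∧ IsHyp T4))) := by
  obtain ⟨x3, m3, r3, y3⟩ := both_rep T3 h3
  obtain ⟨x4, m4, r4, y4⟩ := both_rep T4 h4
  obtain ⟨x5, m5, r5, y5⟩ := both_rep T5 h5
  have hKL := rep_or (rep_line k) (rep_line l)
  have e3 := rep_disj r3 hKL d3
  have e4 := rep_disj r4 hKL d4
  have e5 := rep_disj r5 hKL d5
  have e34 := rep_disj r3 r4 d34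
  have e35 := rep_disj r3 r5 d35
  have e45 := rep_disj r4 r5 d45
  have hc := chk_all k l hkl
  unfold chk chkA at hc
  rw [List.all_eq_true] at hc
  have hc3 := hc x3 (List.mem_filter.2 ⟨m3, by simp [e3]⟩)
  rw [List.all_eq_true] at hc3
  have hc4 := hc3 x4 (List.mem_filter.2 ⟨m4, by simp [e4]⟩)
  rw [e34] at hc4
  simp only [bne_self_eq_false, Bool.false_or, List.all_eq_true] at hc4
  have hc5 := hc4 x5 (List.mem_filter.2 ⟨m5, by simp [e5]⟩)
  rw [e35, e45] at hc5
  simp only [bne_self_eq_false, Bool.false_or] at hc5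
  have hS : ∀ (T : Finset (Fin 15)) (x : ℕ), Rep T x → isS k l x = true →
      ∃ m, T = lineSet m ∧ Spr k l m := by
    intro T x r hx
    unfold isS at hx
    rw [List.any_eq_true] at hx
    obtain ⟨m, -, hm⟩ := hx
    rw [Bool.and_eq_true, beq_iff_eq, decide_eq_true_eq] at hm
    obtain ⟨hm1, hm2⟩ := hm
    subst hm1
    exact ⟨m, rep_eq r (rep_line m), hm2⟩
  unfold concl at hc5
  rw [Bool.or_eq_true] at hc5
  rcases hc5 with hc5 | hc5
  · rw [Bool.and_eq_true, Bool.and_eq_true] at hc5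
    exact Or.inl ⟨hS T3 x3 r3 hc5.1.1, hS T4 x4 r4 hc5.1.2, hS T5 x5 r5 hc5.2⟩
  · rw [List.any_eq_true] at hc5
    obtain ⟨m, -, hm⟩ := hc5
    rw [Bool.and_eq_true, decide_eq_true_eq, Bool.or_eq_true, Bool.or_eq_true] at hm
    obtain ⟨hm, hR⟩ := hm
    refine Or.inr ⟨m, hR, ?_⟩
    rcases hm with (hm | hm) | hm
    · rw [Bool.and_eq_true, Bool.and_eq_true, beq_iff_eq, List.contains_iff_mem,
        List.contains_iff_mem] at hm
      obtain ⟨⟨a, b⟩, c⟩ := hm
      subst a
      exact Or.inl ⟨rep_eq r3 (rep_line m), y4 b, y5 c⟩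
    · rw [Bool.and_eq_true, Bool.and_eq_true, beq_iff_eq, List.contains_iff_mem,
        List.contains_iff_mem] at hm
      obtain ⟨⟨a, b⟩, c⟩ := hm
      subst a
      exact Or.inr (Or.inl ⟨rep_eq r4 (rep_line m), y3 b, y5 c⟩)
    · rw [Bool.and_eq_true, Bool.and_eq_true, beq_iff_eq, List.contains_iff_mem,
        List.contains_iff_mem] at hm
      obtain ⟨⟨a, b⟩, c⟩ := hm
      subst a
      exact Or.inr (Or.inr ⟨rep_eq r5 (rep_line m), y3 b, y4 c⟩)

end H60GQ
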