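import Pool.Agent.H60.GQ.SubCount

/-!
Project GQ (MP_a3aa3c_co), module Full: subquadrangles (P', L') of order (s, t') of a quadrangle of
order (s, t): every external point `x` subtends an ovoid.

Proof plan. Let x ∉ P'. No line through x is in L' (`SubGQ.full`). For l in L': x ∉ l, and the
unique point of l collinear with x (`exists_unique_col`) is in P' (`SubGQ.full`).
* `ovoid`: exactly that.
* `ovoid_card`: |O| (t' + 1) = |L'| = (t' + 1)(s t' + 1) (each p in O is on t' + 1 lines of L', each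
  line of L' has exactly one point of O).
* `line_one`: a line through x has at most one point of P' (`SubGQ.line_mem` + `SubGQ.full`).
* `tangent_card`: the points of O are on different lines through x.
* `le_of_full`: hence s t' + 1 ≤ t + 1 when there is an external point.
-/

namespace H60GQ

universe u v

variable {P : Type u} {L : Type v} {I : P → L → Prop} {s t s' t' : ℕ} {P' : Set P} {L' : Set L}

/-- the points of `P'` collinear with `x` -/
def Ox (I : P → L → Prop) (P' : Set P) (x : P) : Set P := {p | p ∈ P' ∧ Col I p x}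

/-- `O` is an ovoid of the subquadrangle -/
def RelOvoid (I : P → L → Prop) (P' : Set P) (L' : Set L) (O : Set P) : Prop :=
  O ⊆ P' ∧ ∀ l ∈ L', ∃! p, p ∈ O ∧ I p l

theorem ovoid (h : IsGQ I s t) (hs : SubGQ I P' L' s t') {x : P} (hx : x ∉ P') :
    RelOvoid I P' L' (Ox I P' x) := by
  refine ⟨fun p hp => hp.1, ?_⟩
  intro l hl
  have hxl : ¬ I x l := fun h1 => hx (hs.full h hl h1)
  obtain ⟨q, ⟨h1, h2⟩, hu⟩ := h.exists_unique_col hxl
  refine ⟨q, ⟨⟨hs.full h hl h1, h2.symm⟩, h1⟩, ?_⟩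
  rintro q' ⟨⟨h3, h4⟩, h5⟩
  exact hu q' ⟨h5, h4.symm⟩

theorem ovoid_card [Finite P] [Finite L] (hs : SubGQ I P' L' s t') {O : Set P}
    (hO : RelOvoid I P' L' O) : O.ncard = s * t' + 1 := by
  classical
  obtain ⟨Of, hOf⟩ : ∃ Of : Finset P, (Of : Set P) = O :=
    ⟨(Set.toFinite O).toFinset, Set.Finite.coe_toFinset _⟩
  obtain ⟨Lf, hLf⟩ : ∃ Lf : Finset L, (Lf : Set L) = L' :=
    ⟨(Set.toFinite L').toFinset, Set.Finite.coe_toFinset _⟩
  have key := Finset.sum_card_bipartiteAbove_eq_sum_card_bipartiteBelow I (s := Of) (t := Lf)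
  have h1 : ∀ p ∈ Of, (Finset.bipartiteAbove I Lf p).card = t' + 1 := by
    intro p hp
    have hp' : p ∈ P' := hO.1 (by rw [← hOf]; exact hp)
    rw [← hs.pc hp', ← Set.ncard_coe_finset]
    congr 1
    ext l
    simp only [Finset.bipartiteAbove, Finset.coe_filter, Set.mem_ofPred_eq]
    rw [← Finset.mem_coe, hLf]
  have h2 : ∀ l ∈ Lf, (Finset.bipartiteBelow I Of l).card = 1 := by
    intro l hl
    have hl' : l ∈ L' := by rw [← hLf]; exact hl
    obtain ⟨p, ⟨h3, h4⟩, h5⟩ := hO.2 l hl'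
    rw [Finset.card_eq_one]
    refine ⟨p, ?_⟩
    ext q
    simp only [Finset.bipartiteBelow, Finset.mem_filter, Finset.mem_singleton]
    constructor
    · rintro ⟨h6, h7⟩
      exact h5 q ⟨by rw [← hOf]; exact h6, h7⟩
    · rintro rfl
      exact ⟨by rw [← Finset.mem_coe, hOf]; exact h3, h4⟩
  rw [Finset.sum_congr rfl h1, Finset.sum_congr rfl h2, Finset.sum_const, Finset.sum_const,
    smul_eq_mul, smul_eq_mul, mul_one] at key
  have h3 : Lf.card = (t' + 1) * (s * t' + 1) := by
    rw [← hs.card_lns, ← hLf, Set.ncard_coe_finset]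
  rw [h3, mul_comm] at key
  rw [← hOf, Set.ncard_coe_finset]
  exact Nat.eq_of_mul_eq_mul_left (Nat.succ_pos t') key

theorem line_one (h : IsGQ I s t) (hs : SubGQ I P' L' s t') {x p q : P} (hx : x ∉ P')
    (hp : p ∈ P') (hq : q ∈ P') {m : L} (h1 : I x m) (h2 : I p m) (h3 : I q m) : p = q := by
  by_contra hpq
  exact hx (hs.full h (hs.line_mem h hp hq hpq h2 h3) h1)

/-- lines through `x` with a point of `P'` -/
theorem tangent_card [Finite P] [Finite L] (h : IsGQ I s t) (hs : SubGQ I P' L' s t') {x : P}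
    (hx : x ∉ P') : {m | I x m ∧ ∃ p ∈ P', I p m}.ncard = s * t' + 1 := by
  rw [← ovoid_card hs (ovoid h hs hx)]
  apply Set.ncard_congr (fun m hm => hm.2.choose)
  · intro m hm
    exact ⟨hm.2.choose_spec.1, m, hm.2.choose_spec.2, hm.1⟩
  · intro m m' hm hm' he
    have e1 := hm.2.choose_spec
    have e2 := hm'.2.choose_spec
    have he' : hm.2.choose = hm'.2.choose := he
    rw [← he'] at e2
    have hne : x ≠ hm.2.choose := by
      intro h3
      apply hx
      rw [h3]
      exact e1.1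
    exact h.unique x _ m m' hne hm.1 e1.2 hm'.1 e2.2
  · intro p hp
    obtain ⟨hp1, m, h3, h4⟩ := hp
    have hm : m ∈ {m | I x m ∧ ∃ p ∈ P', I p m} := ⟨h4, p, hp1, h3⟩
    refine ⟨m, hm, ?_⟩
    exact line_one h hs hx hm.2.choose_spec.1 hp1 h4 hm.2.choose_spec.2 h3

/-- lines through `x` without points of `P'` -/
theorem external_card [Finite P] [Finite L] (h : IsGQ I s t) (hs : SubGQ I P' L' s t') {x : P}
    (hx : x ∉ P') : {m | I x m ∧ ∀ p ∈ P', ¬ I p m}.ncard + (s * t' + 1) = t + 1 := by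
  rw [← tangent_card h hs hx, ← h.point_card x, ← Set.ncard_union_eq]
  · congr 1
    ext m
    simp only [Set.mem_union, Set.mem_ofPred_eq]
    constructor
    · rintro (h1 | h1)
      · exact h1.1
      · exact h1.1
    · intro h1
      by_cases h2 : ∃ p ∈ P', I p m
      · exact Or.inr ⟨h1, h2⟩
      · left
        refine ⟨h1, fun p hp h3 => h2 ⟨p, hp, h3⟩⟩
  · rw [Set.disjoint_left]
    rintro m ⟨-, h1⟩ ⟨-, p, hp, h2⟩
    exact h1 p hp h2

/-- a proper subquadrangle with `s' = s` has `s t' ≤ t` -/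
theorem le_of_full [Finite P] [Finite L] (h : IsGQ I s t) (hs : SubGQ I P' L' s t')
    (hs0 : 0 < s) (hne : ¬ (P' = Set.univ ∧ L' = Set.univ)) : s * t' ≤ t ∧ ∃ x, x ∉ P' := by
  have hex : ∃ x, x ∉ P' := by
    by_contra hcon
    push Not at hcon
    apply hne
    refine ⟨Set.eq_univ_of_forall hcon, Set.eq_univ_of_forall ?_⟩
    intro l
    have h1 : 1 < {p | I p l}.ncard := by rw [h.line_card]; omega
    obtain ⟨a, ha, b, hb, hab⟩ := (Set.one_lt_ncard (h.fin_line l)).1 h1
    exact hs.line_mem h (hcon a) (hcon b) hab ha hb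
  refine ⟨?_, hex⟩
  obtain ⟨x, hx⟩ := hex
  have := external_card h hs hx
  omega

end H60GQ
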