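import Pool.Agent.H60.GQ.RegLines2

/-!
Project GQ (MP_a3aa3c_co), module HLines: an H point x is on exactly two lines of NN, and on no other
line with an α point.

Proof plan. T = T x hyperbolic; 6 lines miss T (`F4`); x is collinear with exactly one α point of each
of them and with no other α point (`Bα_miss`, `Bα_meet`): `h_alpha`: exactly 6 α points.
By `F5` there are two reguli {k, l, m}, {k', l', m'} among the six lines.
Claim: x is on a line of NN containing α points of k, l, m. By AllReg and `αα_skew` the 6 α points of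
k, l, m are on two lines: N through α k true, α l c, α m d and N' through α k false, α l !c, α m !d
(pairwise collinear points are on one line, `no_triangle`; N, N' ∉ L'). x is collinear with 3 of these
6 points, so with at least two on N or at least two on N'; hence x is on N or N' (`mem_of_col`).
The two lines obtained for the two reguli are different (N has only 3 α points, `nn_pts`, and the six
lines k..m' are different). So at least 2 lines. Each line of NN through x has 3 α points (`nn_pts`),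
all collinear with x, different lines through x have no other common point, 6 / 3 = 2: at most two
lines; and then all 6 α points collinear with x are on the two lines, so any line through x with an
α point is one of them.
* `h_card`: flags (H point, line of NN): 2 |H| = 2 * 40.
-/

namespace H60GQ

universe u v

open Finset Classical

variable {P : Type u} {L : Type v} {I : P → L → Prop} {t : ℕ} {P' : Set P} {L' : Set L}

private theorem HLines_notL' (w : W22 I P' L') {x : P} (hx : w.IsB x) {N : L} (h1 : I x N) :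
    N ∉ L' := by
  intro hN
  obtain ⟨k, rfl⟩ := (w.memL N).1 hN
  rcases (w.pts k x).1 h1 with ⟨i, -, rfl⟩ | ⟨b, rfl⟩
  · exact hx.1 ((w.memP _).2 ⟨i, rfl⟩)
  · exact hx.2 ⟨k, b, rfl⟩

private theorem HLines_match (h : IsGQ I 4 t) (hs : SubGQ I P' L' 2 2) (w : W22 I P' L')
    {k l : Fin 15} (hkl : skew22 k l = true) :
    ∃ c : Bool → Bool, Function.Surjective c ∧ ∀ b, Col I (w.α k b) (w.α l (c b)) := by
  choose c hc hu using fun b => w.αα_skew h hs hkl b
  refine ⟨c, ?_, hc⟩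
  apply Finite.surjective_of_injective
  intro b b' hbb
  have hlk : skew22 l k = true := by rw [skew22_symm]; exact hkl
  obtain ⟨e, -, he⟩ := w.αα_skew h hs hlk (c b)
  have e1 := he b (hc b).symm
  have e2 := he b' (by rw [hbb]; exact (hc b').symm)
  exact e1.trans e2.symm

private theorem HLines_ne {k l : Fin 15} (w : W22 I P' L') (hkl : k ≠ l) (b c : Bool) :
    w.α k b ≠ w.α l c := fun e => hkl (w.α_inj _ _ _ _ e).1

private theorem HLines_reg (h : IsGQ I 4 t) (hs : SubGQ I P' L' 2 2)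
    (w : W22 I P' L') (hw : w.AllReg) {k l m : Fin 15} (hr : Reg k l m) (hkl : k ≠ l)
    (hkm : k ≠ m) (hlm : l ≠ m) {x : P} (hx : w.IsH x)
    (dk : Disjoint (lineSet k) (w.T x)) (dl : Disjoint (lineSet l) (w.T x))
    (dm : Disjoint (lineSet m) (w.T x)) :
    ∃ N b c d, I x N ∧ I (w.α k b) N ∧ I (w.α l c) N ∧ I (w.α m d) N := by
  obtain ⟨c, hcs, hc⟩ := HLines_match h hs w hr.1
  obtain ⟨d, hds, hd⟩ := HLines_match h hs w hr.2.1
  have hN : ∀ b, ∃ N, I (w.α k b) N ∧ I (w.α l (c b)) N ∧ I (w.α m (d b)) N := by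
    intro b
    obtain ⟨l1, h1, h2⟩ := hc b
    obtain ⟨l2, h3, h4⟩ := hd b
    obtain ⟨l3, h5, h6⟩ := hw k l m b (c b) (d b) hr (hc b) (hd b)
    obtain ⟨e1, e2⟩ := h.no_triangle (HLines_ne w hkl b (c b)) (HLines_ne w hkm b (d b))
      (HLines_ne w hlm (c b) (d b)) h1 h2 h5 h6 h3 h4
    exact ⟨l1, h1, h2, by rw [e1]; exact h6⟩
  choose N n1 n2 n3 using hN
  obtain ⟨b0, hb0, -⟩ := w.Bα_miss h hs hx.1 dk
  obtain ⟨c0, hc0, -⟩ := w.Bα_miss h hs hx.1 dl
  obtain ⟨d0, hd0, -⟩ := w.Bα_miss h hs hx.1 dm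
  obtain ⟨b1, rfl⟩ := hcs c0
  obtain ⟨b2, rfl⟩ := hds d0
  have key : ∀ b, I x (N b) → ∃ N b c d, I x N ∧ I (w.α k b) N ∧ I (w.α l c) N ∧ I (w.α m d) N :=
    fun b hb => ⟨N b, b, c b, d b, hb, n1 b, n2 b, n3 b⟩
  by_cases h01 : b0 = b1
  · subst h01
    exact key b0 (h.mem_of_col (HLines_ne w hkl b0 (c b0)) (n1 b0) (n2 b0) hb0 hc0)
  · by_cases h02 : b0 = b2
    · subst h02
      exact key b0 (h.mem_of_col (HLines_ne w hkm b0 (d b0)) (n1 b0) (n3 b0) hb0 hd0)
    · have h12 : b1 = b2 := by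
        revert h01 h02
        cases b0 <;> cases b1 <;> cases b2 <;> simp
      subst h12
      exact key b1 (h.mem_of_col (HLines_ne w hlm (c b1) (d b1)) (n2 b1) (n3 b1) hc0 hd0)

private theorem HLines_alpha [Finite P] [Finite L] (h : IsGQ I 4 t)
    (hs : SubGQ I P' L' 2 2) (w : W22 I P' L') {x : P} (hx : w.IsH x) :
    {a | w.IsA a ∧ Col I x a}.ncard = 6 := by
  have hex : ∀ m : Fin 15, ∃ b, Disjoint (lineSet m) (w.T x) →
      (Col I x (w.α m b) ∧ ∀ b', Col I x (w.α m b') → b' = b) := by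
    intro m
    by_cases hm : Disjoint (lineSet m) (w.T x)
    · obtain ⟨b, hb, hu⟩ := w.Bα_miss h hs hx.1 hm
      exact ⟨b, fun _ => ⟨hb, hu⟩⟩
    · exact ⟨true, fun hm' => absurd hm' hm⟩
  choose β hβ using hex
  have hset : {a | w.IsA a ∧ Col I x a} =
      (fun m => w.α m (β m)) ''
        ((univ.filter (fun m => Disjoint (lineSet m) (w.T x)) : Finset (Fin 15)) :
          Set (Fin 15)) := by
    ext a
    simp only [Set.mem_ofPred_eq, Set.mem_image, Finset.mem_coe, Finset.mem_filter,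
      Finset.mem_univ, true_and]
    constructor
    · rintro ⟨⟨k, b, rfl⟩, hc⟩
      by_cases hk : Disjoint (lineSet k) (w.T x)
      · refine ⟨k, hk, ?_⟩
        rw [(hβ k hk).2 b hc]
      · exact absurd hc (w.Bα_meet h hs hx.1 hk b)
    · rintro ⟨m, hm, rfl⟩
      exact ⟨⟨m, β m, rfl⟩, (hβ m hm).1⟩
  rw [hset, Set.ncard_image_of_injective, Set.ncard_coe_finset]
  · have := F4 (w.T x) hx.2.1
    rw [← this]
  · intro m m' hmm
    exact (w.α_inj _ _ _ _ hmm).1

private theorem HLines_main [Finite P] [Finite L] (h : IsGQ I 4 t) (ht : 2 ≤ t)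
    (hs : SubGQ I P' L' 2 2) (w : W22 I P' L') (hw : w.AllReg) {x : P} (hx : w.IsH x) :
    ∃ N1 N2, N1 ≠ N2 ∧ N1 ∈ w.NN ∧ N2 ∈ w.NN ∧ I x N1 ∧ I x N2 ∧
      ∀ a, w.IsA a → Col I x a → I a N1 ∨ I a N2 := by
  obtain ⟨k, l, m, k', l', m', r1, r2, hd, hnd⟩ := F5 (w.T x) hx.2
  have dk := hd k (by simp)
  have dl := hd l (by simp)
  have dm := hd m (by simp)
  have dk' := hd k' (by simp)
  have dl' := hd l' (by simp)
  have dm' := hd m' (by simp)
  simp only [List.nodup_cons, List.mem_cons, List.not_mem_nil, or_false, not_or, List.nodup_nil,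
    and_true, not_false_eq_true] at hnd
  obtain ⟨⟨hkl, hkm, hkk', hkl', hkm'⟩, ⟨hlm, hlk', hll', hlm'⟩, ⟨hmk', hml', hmm'⟩,
    ⟨hk'l', hk'm'⟩, hl'm'⟩ := hnd
  obtain ⟨N1, b, c, d, x1, a1, a2, a3⟩ := HLines_reg h hs w hw r1 hkl hkm hlm hx dk dl dm
  obtain ⟨N2, b', c', d', x2, a1', a2', a3'⟩ :=
    HLines_reg h hs w hw r2 hk'l' hk'm' hl'm' hx dk' dl' dm'
  have m1 : N1 ∈ w.NN := ⟨HLines_notL' w hx.1 x1, w.α k b, w.α l c, HLines_ne w hkl b c,
    ⟨k, b, rfl⟩, ⟨l, c, rfl⟩, a1, a2⟩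
  have m2 : N2 ∈ w.NN := ⟨HLines_notL' w hx.1 x2, w.α k' b', w.α l' c', HLines_ne w hk'l' b' c',
    ⟨k', b', rfl⟩, ⟨l', c', rfl⟩, a1', a2'⟩
  have c1 := (w.nn_pts h ht hs hw m1).1
  have c2 := (w.nn_pts h ht hs hw m2).1
  have hxA : ∀ a, w.IsA a → x ≠ a := by
    rintro a ha rfl
    exact hx.1.2 ha
  have hne : N1 ≠ N2 := by
    rintro rfl
    have hsub : (({w.α k b, w.α l c, w.α m d, w.α k' b'} : Finset P) : Set P) ⊆
        {a | w.IsA a ∧ I a N1} := by
      intro a ha
      simp only [Finset.coe_insert, Finset.coe_singleton, Set.mem_insert_iff,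
        Set.mem_singleton_iff] at ha
      rcases ha with rfl | rfl | rfl | rfl
      · exact ⟨⟨_, _, rfl⟩, a1⟩
      · exact ⟨⟨_, _, rfl⟩, a2⟩
      · exact ⟨⟨_, _, rfl⟩, a3⟩
      · exact ⟨⟨_, _, rfl⟩, a1'⟩
    have hle := Set.ncard_le_ncard hsub (Set.toFinite _)
    rw [Set.ncard_coe_finset, c1] at hle
    have h4 : ({w.α k b, w.α l c, w.α m d, w.α k' b'} : Finset P).card = 4 := by
      rw [Finset.card_insert_of_notMem, Finset.card_insert_of_notMem,
        Finset.card_insert_of_notMem, Finset.card_singleton]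
      · simp [HLines_ne w hmk' d b']
      · simp [HLines_ne w hlm c d, HLines_ne w hlk' c b']
      · simp [HLines_ne w hkl b c, HLines_ne w hkm b d, HLines_ne w hkk' b b']
    omega
  refine ⟨N1, N2, hne, m1, m2, x1, x2, ?_⟩
  have hdisj : Disjoint {a | w.IsA a ∧ I a N1} {a | w.IsA a ∧ I a N2} := by
    rw [Set.disjoint_left]
    rintro a ⟨ha, ha1⟩ ⟨-, ha2⟩
    exact hne (h.unique x a N1 N2 (hxA a ha) x1 ha1 x2 ha2)
  have hU : {a | w.IsA a ∧ I a N1} ∪ {a | w.IsA a ∧ I a N2} = {a | w.IsA a ∧ Col I x a} := by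
    apply Set.eq_of_subset_of_ncard_le _ _ (Set.toFinite _)
    · rintro a (⟨ha, ha1⟩ | ⟨ha, ha1⟩)
      · exact ⟨ha, N1, x1, ha1⟩
      · exact ⟨ha, N2, x2, ha1⟩
    · rw [HLines_alpha h hs w hx, Set.ncard_union_eq hdisj (Set.toFinite _) (Set.toFinite _), c1,
        c2]
  intro a ha hc
  have : a ∈ {a | w.IsA a ∧ I a N1} ∪ {a | w.IsA a ∧ I a N2} := by
    rw [hU]; exact ⟨ha, hc⟩
  rcases this with h1 | h1
  · exact Or.inl h1.2
  · exact Or.inr h1.2

theorem W22.h_alpha [Finite P] [Finite L] (h : IsGQ I 4 t) (ht : 2 ≤ t) (hs : SubGQ I P' L' 2 2)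
    (w : W22 I P' L') {x : P} (hx : w.IsH x) : {a | w.IsA a ∧ Col I x a}.ncard = 6 := by
  exact HLines_alpha h hs w hx

theorem W22.h_deg [Finite P] [Finite L] (h : IsGQ I 4 t) (ht : 2 ≤ t) (hs : SubGQ I P' L' 2 2)
    (w : W22 I P' L') (hw : w.AllReg) {x : P} (hx : w.IsH x) :
    {N | N ∈ w.NN ∧ I x N}.ncard = 2 := by
  obtain ⟨N1, N2, hne, m1, m2, x1, x2, hall⟩ := HLines_main h ht hs w hw hx
  have hset : {N | N ∈ w.NN ∧ I x N} = {N1, N2} := by
    ext N
    simp only [Set.mem_ofPred_eq, Set.mem_insert_iff, Set.mem_singleton_iff]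
    constructor
    · rintro ⟨⟨-, a, a', -, ha, -, haN, -⟩, hxN⟩
      have hxa : x ≠ a := by
        rintro rfl
        exact hx.1.2 ha
      rcases hall a ha ⟨N, hxN, haN⟩ with h1 | h1
      · exact Or.inl (h.unique x a N N1 hxa hxN haN x1 h1)
      · exact Or.inr (h.unique x a N N2 hxa hxN haN x2 h1)
    · rintro (rfl | rfl)
      · exact ⟨m1, x1⟩
      · exact ⟨m2, x2⟩
  rw [hset, Set.ncard_pair hne]

theorem W22.h_line [Finite P] [Finite L] (h : IsGQ I 4 t) (ht : 2 ≤ t) (hs : SubGQ I P' L' 2 2)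
    (w : W22 I P' L') (hw : w.AllReg) {x a : P} (hx : w.IsH x) (ha : w.IsA a) {N : L}
    (h1 : I x N) (h2 : I a N) : N ∈ w.NN := by
  obtain ⟨N1, N2, hne, m1, m2, x1, x2, hall⟩ := HLines_main h ht hs w hw hx
  have hxa : x ≠ a := by
    rintro rfl
    exact hx.1.2 ha
  rcases hall a ha ⟨N, h1, h2⟩ with h3 | h3
  · rw [h.unique x a N N1 hxa h1 h2 x1 h3]; exact m1
  · rw [h.unique x a N N2 hxa h1 h2 x2 h3]; exact m2

theorem W22.h_card [Finite P] [Finite L] (h : IsGQ I 4 t) (ht : 2 ≤ t) (hs : SubGQ I P' L' 2 2)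
    (w : W22 I P' L') (hw : w.AllReg) : {x | w.IsH x}.ncard = 40 := by
  have _ := Fintype.ofFinite P
  have _ := Fintype.ofFinite L
  have key := Finset.sum_card_bipartiteAbove_eq_sum_card_bipartiteBelow (fun x N => I x N)
    (s := univ.filter (fun x => w.IsH x)) (t := univ.filter (fun N => N ∈ w.NN))
  have e1 : ∀ x ∈ univ.filter (fun x => w.IsH x),
      (Finset.bipartiteAbove (fun x N => I x N) (univ.filter (fun N => N ∈ w.NN)) x).card = 2 := by
    intro x hx
    rw [Finset.mem_filter] at hx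
    rw [← w.h_deg h ht hs hw hx.2, ← Set.ncard_coe_finset]
    congr 1
    ext N
    simp [Finset.bipartiteAbove]
  have e2 : ∀ N ∈ univ.filter (fun N => N ∈ w.NN),
      (Finset.bipartiteBelow (fun x N => I x N) (univ.filter (fun x => w.IsH x)) N).card = 2 := by
    intro N hN
    rw [Finset.mem_filter] at hN
    rw [← (w.nn_pts h ht hs hw hN.2).2, ← Set.ncard_coe_finset]
    congr 1
    ext x
    simp [Finset.bipartiteBelow]
  rw [Finset.sum_congr rfl e1, Finset.sum_congr rfl e2] at key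
  simp only [Finset.sum_const, smul_eq_mul] at key
  have c1 : (univ.filter (fun N => N ∈ w.NN)).card = 40 := by
    rw [← w.nn_card h ht hs hw, ← Set.ncard_coe_finset]
    congr 1
    ext N
    simp
  have c2 : {x | w.IsH x}.ncard = (univ.filter (fun x => w.IsH x)).card := by
    rw [← Set.ncard_coe_finset]
    congr 1
    ext N
    simp
  rw [c2]
  omega

end H60GQ
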