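import Pool.Agent.H60.GQ.HLines

/-!
Project GQ (MP_a3aa3c_co), module HNbr: an H point x is collinear with exactly 9 H points y ≠ x such
that the line x y is not in NN.

Proof plan. 40 lines in NN (`nn_card`), 2 through x (`h_deg`), 38 not through x. Each of the 38
contains exactly one point z collinear with x (`exists_unique_col`), z ≠ x, z is an α point or an
H point (`nn_all`). Count pairs (z, N), N in NN not through x, z on N, z ≠ x collinear with x:
 - α points z: 6 of them (`h_alpha`), each on 4 lines of NN (`nn_deg`), exactly one of them contains x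
   (the line x z is in NN by `h_line`): 6 * 3 = 18 pairs;
 - H points z ≠ x on a line of NN with x: each of the two lines of NN through x has exactly 2
   H points (`nn_pts`), so there are 2 such z; each is on 2 lines of NN, one of them through x: 2;
 - the other H points y collinear with x (number n): both lines of NN through y miss x: 2 n pairs.
38 = 18 + 2 + 2 n, so n = 9.
-/

namespace H60GQ

universe u v

open Finset Classical

variable {P : Type u} {L : Type v} {I : P → L → Prop} {t : ℕ} {P' : Set P} {L' : Set L}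

private theorem HNbr_nc {X : Type*} [Fintype X] (p : X → Prop) [DecidablePred p] :
    {a | p a}.ncard = (univ.filter p).card := by
  rw [← Set.ncard_coe_finset]
  congr 1
  ext a
  simp

private theorem HNbr_notA (w : W22 I P' L') {z : P} (hz : w.IsH z) : ¬ w.IsA z := hz.1.2

/-- splitting the set of lines not through `x` according to the projection of `x` -/
private theorem HNbr_fiber {X Y : Type*} (S : Finset X) (T : Finset Y) (f : X → Y) (n : ℕ)
    (hf : ∀ a ∈ S, f a ∈ T) (hn : ∀ b ∈ T, (S.filter (fun a => f a = b)).card = n) :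
    S.card = T.card * n := by
  rw [Finset.card_eq_sum_card_fiberwise hf, Finset.sum_congr rfl hn, Finset.sum_const,
    smul_eq_mul]

theorem W22.h_nbr [Finite P] [Finite L] (h : IsGQ I 4 t) (ht : 2 ≤ t) (hs : SubGQ I P' L' 2 2)
    (w : W22 I P' L') (hw : w.AllReg) {x : P} (hx : w.IsH x) :
    {y | w.IsH y ∧ y ≠ x ∧ ∃ m, m ∉ w.NN ∧ I x m ∧ I y m}.ncard = 9 := by
  have := Fintype.ofFinite P
  have := Fintype.ofFinite L
  have hex : ∀ N : L, ∃ z, ¬ I x N → (I z N ∧ Col I x z) := by
    intro N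
    by_cases hN : I x N
    · exact ⟨x, fun h' => absurd hN h'⟩
    · obtain ⟨z, hz, -⟩ := h.exists_unique_col hN
      exact ⟨z, fun _ => hz⟩
  choose f hf using hex
  have hfu : ∀ N z, ¬ I x N → I z N → Col I x z → f N = z := fun N z hN hz hc =>
    h.col_unique hN (hf N hN).1 hz (hf N hN).2 hc
  set S : Finset L := univ.filter (fun N => N ∈ w.NN ∧ ¬ I x N) with hSdef
  have hS : S.card = 38 := by
    have h1 := W22.nn_card h ht hs w hw
    have h2 := W22.h_deg h ht hs w hw hx
    have h3 := Set.ncard_inter_add_ncard_sdiff_eq_ncard w.NN {N | I x N} (Set.toFinite _)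
    have h4 : w.NN ∩ {N | I x N} = {N | N ∈ w.NN ∧ I x N} := rfl
    have h5 : w.NN \ {N | I x N} = {N | N ∈ w.NN ∧ ¬ I x N} := rfl
    have h6 : {N | N ∈ w.NN ∧ ¬ I x N}.ncard = S.card := HNbr_nc _
    rw [h4, h5, h2, h1, h6] at h3
    omega
  -- lines through a point `z ≠ x` collinear with `x`
  have hmem : ∀ z, z ≠ x → Col I x z → ∀ N, (N ∈ w.NN ∧ ¬ I x N ∧ f N = z) ↔
      (N ∈ w.NN ∧ I z N ∧ ¬ I x N) := by
    intro z hz hc N
    constructor
    · rintro ⟨h1, h2, rfl⟩
      exact ⟨h1, (hf N h2).1, h2⟩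
    · rintro ⟨h1, h2, h3⟩
      exact ⟨h1, h3, hfu N z h3 h2 hc⟩
  -- three kinds
  set SA : Finset L := S.filter (fun N => w.IsA (f N)) with hSA
  set S1 : Finset L := S.filter (fun N => w.IsH (f N) ∧ ∃ m ∈ w.NN, I x m ∧ I (f N) m) with hS1
  set S2 : Finset L := S.filter (fun N => w.IsH (f N) ∧ ¬ ∃ m ∈ w.NN, I x m ∧ I (f N) m) with hS2
  have hsplit : S.card = SA.card + S1.card + S2.card := by
    have hd1 : Disjoint SA S1 := by
      rw [Finset.disjoint_left]
      intro N h1 h2
      exact HNbr_notA w (Finset.mem_filter.1 h2).2.1 (Finset.mem_filter.1 h1).2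
    have hd2 : Disjoint (SA ∪ S1) S2 := by
      rw [Finset.disjoint_left]
      intro N h1 h2
      rcases Finset.mem_union.1 h1 with h1 | h1
      · exact HNbr_notA w (Finset.mem_filter.1 h2).2.1 (Finset.mem_filter.1 h1).2
      · exact (Finset.mem_filter.1 h2).2.2 (Finset.mem_filter.1 h1).2.2
    rw [← Finset.card_union_of_disjoint hd1, ← Finset.card_union_of_disjoint hd2]
    congr 1
    ext N
    simp only [Finset.mem_union, hSA, hS1, hS2, Finset.mem_filter]
    constructor
    · intro hN
      have hN' := (Finset.mem_filter.1 hN).2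
      rcases W22.nn_all h ht hs w hw hN'.1 (hf N hN'.2).1 with h1 | h1
      · exact Or.inl (Or.inl ⟨hN, h1⟩)
      · by_cases h2 : ∃ m ∈ w.NN, I x m ∧ I (f N) m
        · exact Or.inl (Or.inr ⟨hN, h1, h2⟩)
        · exact Or.inr ⟨hN, h1, h2⟩
    · rintro ((h1 | h1) | h1)
      · exact h1.1
      · exact h1.1
      · exact h1.1
  -- α points
  have hA : SA.card = 18 := by
    have h6 := W22.h_alpha h ht hs w hx
    rw [HNbr_nc] at h6
    have := HNbr_fiber SA (univ.filter (fun a => w.IsA a ∧ Col I x a)) f 3 (by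
      intro N hN
      rw [hSA, Finset.mem_filter] at hN
      have hN' := (Finset.mem_filter.1 hN.1).2
      exact Finset.mem_filter.2 ⟨Finset.mem_univ _, hN.2, (hf N hN'.2).2⟩) (by
      intro a ha
      obtain ⟨-, ha1, ha2⟩ := Finset.mem_filter.1 ha
      have hax : a ≠ x := by
        rintro rfl
        exact HNbr_notA w hx ha1
      obtain ⟨m, hm1, hm2⟩ := ha2
      have hmN : m ∈ w.NN := W22.h_line h ht hs w hw hx ha1 hm1 hm2
      have h4 := W22.nn_deg h ht hs w hw ha1
      have e : SA.filter (fun N => f N = a) =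
          (univ.filter (fun N => N ∈ w.NN ∧ I a N)).erase m := by
        ext N
        rw [Finset.mem_filter, hSA, Finset.mem_filter, hSdef, Finset.mem_filter,
          Finset.mem_erase, Finset.mem_filter]
        constructor
        · rintro ⟨⟨⟨-, h1, h2⟩, -⟩, h3⟩
          have h5 := (hmem a hax ⟨m, hm1, hm2⟩ N).1 ⟨h1, h2, h3⟩
          refine ⟨?_, Finset.mem_univ _, h5.1, h5.2.1⟩
          rintro rfl
          exact h2 hm1
        · rintro ⟨h1, -, h2, h3⟩
          have h7 : ¬ I x N := fun hxN => h1 (h.line_unique hax h3 hxN hm2 hm1)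
          have h5 := (hmem a hax ⟨m, hm1, hm2⟩ N).2 ⟨h2, h3, h7⟩
          refine ⟨⟨⟨Finset.mem_univ _, h2, h7⟩, ?_⟩, h5.2.2⟩
          rw [h5.2.2]
          exact ha1
      rw [e, Finset.card_erase_of_mem (Finset.mem_filter.2 ⟨Finset.mem_univ _, hmN, hm2⟩),
        ← HNbr_nc, h4])
    rw [this, h6]
  -- H points on the two lines of NN through x
  have h1 : S1.card = 2 := by
    set T1 : Finset P := univ.filter (fun z => w.IsH z ∧ z ≠ x ∧ ∃ m ∈ w.NN, I x m ∧ I z m)
      with hT1
    have hc1 := HNbr_fiber S1 T1 f 1 (by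
      intro N hN
      rw [hS1, Finset.mem_filter] at hN
      have hN' := (Finset.mem_filter.1 hN.1).2
      refine Finset.mem_filter.2 ⟨Finset.mem_univ _, hN.2.1, ?_, hN.2.2⟩
      intro he
      apply hN'.2
      rw [← he]
      exact (hf N hN'.2).1) (by
      intro z hz
      obtain ⟨-, hz1, hz2, m, hmN, hm1, hm2⟩ := Finset.mem_filter.1 hz
      have h4 := W22.h_deg h ht hs w hw hz1
      have e : S1.filter (fun N => f N = z) =
          (univ.filter (fun N => N ∈ w.NN ∧ I z N)).erase m := by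
        ext N
        rw [Finset.mem_filter, hS1, Finset.mem_filter, hSdef, Finset.mem_filter,
          Finset.mem_erase, Finset.mem_filter]
        constructor
        · rintro ⟨⟨⟨-, h1, h2⟩, -⟩, h3⟩
          have h5 := (hmem z hz2 ⟨m, hm1, hm2⟩ N).1 ⟨h1, h2, h3⟩
          refine ⟨?_, Finset.mem_univ _, h5.1, h5.2.1⟩
          rintro rfl
          exact h2 hm1
        · rintro ⟨h1, -, h2, h3⟩
          have h7 : ¬ I x N := fun hxN => h1 (h.line_unique hz2 h3 hxN hm2 hm1)
          have h5 := (hmem z hz2 ⟨m, hm1, hm2⟩ N).2 ⟨h2, h3, h7⟩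
          refine ⟨⟨⟨Finset.mem_univ _, h2, h7⟩, ?_⟩, h5.2.2⟩
          rw [h5.2.2]
          exact ⟨hz1, m, hmN, hm1, hm2⟩
      rw [e, Finset.card_erase_of_mem (Finset.mem_filter.2 ⟨Finset.mem_univ _, hmN, hm2⟩),
        ← HNbr_nc, h4])
    -- the number of these points
    have hex2 : ∀ z, ∃ m, z ∈ T1 → (m ∈ w.NN ∧ I x m ∧ I z m) := by
      intro z
      by_cases hz : z ∈ T1
      · obtain ⟨-, -, -, m, hm⟩ := Finset.mem_filter.1 hz
        exact ⟨m, fun _ => hm⟩
      · obtain ⟨m, -⟩ := h.exists_line x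
        exact ⟨m, fun h' => absurd h' hz⟩
    choose g hg using hex2
    have h2 := W22.h_deg h ht hs w hw hx
    rw [HNbr_nc] at h2
    have hc2 := HNbr_fiber T1 (univ.filter (fun N => N ∈ w.NN ∧ I x N)) g 1 (by
      intro z hz
      exact Finset.mem_filter.2 ⟨Finset.mem_univ _, (hg z hz).1, (hg z hz).2.1⟩) (by
      intro m hm
      obtain ⟨-, hmN, hxm⟩ := Finset.mem_filter.1 hm
      have h3 := (W22.nn_pts h ht hs w hw hmN).2
      rw [HNbr_nc] at h3
      have e : T1.filter (fun z => g z = m) =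
          (univ.filter (fun z => w.IsH z ∧ I z m)).erase x := by
        ext z
        constructor
        · intro hz0
          obtain ⟨hz, hgz⟩ := Finset.mem_filter.1 hz0
          have hz' := (Finset.mem_filter.1 hz).2
          refine Finset.mem_erase.2 ⟨hz'.2.1, Finset.mem_filter.2
            ⟨Finset.mem_univ _, hz'.1, ?_⟩⟩
          rw [← hgz]
          exact (hg z hz).2.2
        · intro hz0
          obtain ⟨hz1, hz0⟩ := Finset.mem_erase.1 hz0
          obtain ⟨-, hz2, hz3⟩ := Finset.mem_filter.1 hz0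
          have hz : z ∈ T1 :=
            Finset.mem_filter.2 ⟨Finset.mem_univ _, hz2, hz1, m, hmN, hxm, hz3⟩
          exact Finset.mem_filter.2
            ⟨hz, h.line_unique hz1 (hg z hz).2.2 (hg z hz).2.1 hz3 hxm⟩
      rw [e, Finset.card_erase_of_mem (Finset.mem_filter.2 ⟨Finset.mem_univ _, hx, hxm⟩), h3])
    rw [hc1, hc2, h2]
  -- the other H points
  have hrest : S2.card =
      (univ.filter (fun y => w.IsH y ∧ y ≠ x ∧ ∃ m, m ∉ w.NN ∧ I x m ∧ I y m)).card * 2 := by
    apply HNbr_fiber S2 _ f 2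
    · intro N hN
      rw [hS2, Finset.mem_filter] at hN
      have hN' := (Finset.mem_filter.1 hN.1).2
      obtain ⟨m, hm1, hm2⟩ := (hf N hN'.2).2
      refine Finset.mem_filter.2 ⟨Finset.mem_univ _, hN.2.1, ?_, m, ?_, hm1, hm2⟩
      · intro he
        apply hN'.2
        rw [← he]
        exact (hf N hN'.2).1
      · intro hmN
        exact hN.2.2 ⟨m, hmN, hm1, hm2⟩
    · intro z hz
      obtain ⟨-, hz1, hz2, m, hmN, hm1, hm2⟩ := Finset.mem_filter.1 hz
      have h4 := W22.h_deg h ht hs w hw hz1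
      rw [HNbr_nc] at h4
      rw [← h4]
      congr 1
      ext N
      rw [Finset.mem_filter, hS2, Finset.mem_filter, hSdef, Finset.mem_filter,
        Finset.mem_filter]
      constructor
      · rintro ⟨⟨⟨-, h1, h2⟩, -⟩, h3⟩
        have h5 := (hmem z hz2 ⟨m, hm1, hm2⟩ N).1 ⟨h1, h2, h3⟩
        exact ⟨Finset.mem_univ _, h5.1, h5.2.1⟩
      · rintro ⟨-, h2, h3⟩
        have h7 : ¬ I x N := by
          intro hxN
          apply hmN
          rw [h.line_unique hz2 hm2 hm1 h3 hxN]
          exact h2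
        have h5 := (hmem z hz2 ⟨m, hm1, hm2⟩ N).2 ⟨h2, h3, h7⟩
        refine ⟨⟨⟨Finset.mem_univ _, h2, h7⟩, ?_⟩, h5.2.2⟩
        rw [h5.2.2]
        refine ⟨hz1, ?_⟩
        rintro ⟨m', hm'N, hm'1, hm'2⟩
        apply hmN
        rw [h.line_unique hz2 hm2 hm1 hm'2 hm'1]
        exact hm'N
  rw [HNbr_nc]
  omega

end H60GQ
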