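import Pool.Agent.H60.GQ.RegLines

/-!
Project GQ (MP_a3aa3c_co), module HTan: a line m ∉ L' through a point φ p of P' and an H point x
contains another H point; and the number of such lines through x is 3.

Proof plan. `h_tan`: m has 5 points: φ p and x1 = x, x2, x3, x4, all B points (`tan_part`), the triads
T xi contain p and meet pairwise in {p} (`tan_part`; `T_B` says they are triads); T x1 is hyperbolic;
`F3` gives another hyperbolic one.
`h_three`: x is collinear with φ i exactly for the three i ∈ T x; the lines joining are different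
(a line with two points φ i, φ j is in L' by `line_cases`, and a B point is on no line of L'), and
not in L'.
-/

namespace H60GQ

universe u v

open Finset Classical

variable {P : Type u} {L : Type v} {I : P → L → Prop} {t : ℕ} {P' : Set P} {L' : Set L}

theorem W22.h_tan [Finite P] [Finite L] (h : IsGQ I 4 t) (ht : 2 ≤ t) (hs : SubGQ I P' L' 2 2)
    (w : W22 I P' L') {x : P} (hx : w.IsH x) {p : Fin 15} {m : L} (h1 : I (w.φ p) m)
    (h2 : I x m) : ∃ y, w.IsH y ∧ y ≠ x ∧ I y m := by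
  classical
  obtain ⟨⟨hxP, hxA⟩, hxh⟩ := hx
  have hmL : m ∉ L' := by
    intro hm
    obtain ⟨k, rfl⟩ := (w.memL m).mp hm
    rcases (w.pts k x).mp h2 with ⟨i, -, rfl⟩ | ⟨b, rfl⟩
    · exact hxP ((w.memP _).mpr ⟨i, rfl⟩)
    · exact hxA ⟨k, b, rfl⟩
  have hxp : x ≠ w.φ p := by
    rintro rfl
    exact hxP ((w.memP _).mpr ⟨p, rfl⟩)
  -- the three other points
  have h5 : ({y | I y m} \ {w.φ p, x} : Set P).ncard = 3 := by
    have h3 : ({w.φ p, x} : Set P) ⊆ {y | I y m} := by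
      rintro y (rfl | hy)
      · exact h1
      · rw [Set.mem_singleton_iff] at hy
        rw [hy]
        exact h2
    have h4 := Set.ncard_sdiff_add_ncard_of_subset h3 (Set.toFinite _)
    rw [h.line_card, Set.ncard_pair hxp.symm] at h4
    omega
  rw [Set.ncard_eq_three] at h5
  obtain ⟨y2, y3, y4, h23, h24, h34, he⟩ := h5
  have hmem : ∀ y, y = y2 ∨ y = y3 ∨ y = y4 → I y m ∧ y ≠ w.φ p ∧ y ≠ x := by
    intro y hy
    have h6 : y ∈ ({y | I y m} \ {w.φ p, x} : Set P) := by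
      rw [he]
      simpa using hy
    obtain ⟨h7, h8⟩ := h6
    simp only [Set.mem_insert_iff, Set.mem_singleton_iff, not_or] at h8
    exact ⟨h7, h8.1, h8.2⟩
  obtain ⟨a2, b2, c2⟩ := hmem y2 (Or.inl rfl)
  obtain ⟨a3, b3, c3⟩ := hmem y3 (Or.inr (Or.inl rfl))
  obtain ⟨a4, b4, c4⟩ := hmem y4 (Or.inr (Or.inr rfl))
  obtain ⟨-, d12⟩ := w.tan_part h hs h1 hmL h2 a2 c2.symm hxp b2
  obtain ⟨-, d13⟩ := w.tan_part h hs h1 hmL h2 a3 c3.symm hxp b3
  obtain ⟨-, d14⟩ := w.tan_part h hs h1 hmL h2 a4 c4.symm hxp b4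
  obtain ⟨B2, d23⟩ := w.tan_part h hs h1 hmL a2 a3 h23 b2 b3
  obtain ⟨B3, d34⟩ := w.tan_part h hs h1 hmL a3 a4 h34 b3 b4
  obtain ⟨B4, d42⟩ := w.tan_part h hs h1 hmL a4 a2 h24.symm b4 b2
  have d24 : w.T y2 ∩ w.T y4 = {p} := by rw [Finset.inter_comm]; exact d42
  rcases F3 p (w.T x) (w.T y2) (w.T y3) (w.T y4) hxh (w.T_B h ht hs B2) (w.T_B h ht hs B3)
    (w.T_B h ht hs B4) d12 d13 d14 d23 d24 d34 with h6 | h6 | h6
  · exact ⟨y2, ⟨B2, h6⟩, c2, a2⟩
  · exact ⟨y3, ⟨B3, h6⟩, c3, a3⟩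
  · exact ⟨y4, ⟨B4, h6⟩, c4, a4⟩

theorem W22.h_three [Finite P] [Finite L] (h : IsGQ I 4 t) (ht : 2 ≤ t) (hs : SubGQ I P' L' 2 2)
    (w : W22 I P' L') {x : P} (hx : w.IsH x) :
    {m | I x m ∧ ∃ i, I (w.φ i) m}.ncard = 3 := by
  classical
  have hT := w.T_B h ht hs hx.1
  obtain ⟨⟨hxP, hxA⟩, -⟩ := hx
  have hmL : ∀ m, I x m → m ∉ L' := by
    intro m h2 hm
    obtain ⟨k, rfl⟩ := (w.memL m).mp hm
    rcases (w.pts k x).mp h2 with ⟨i, -, rfl⟩ | ⟨b, rfl⟩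
    · exact hxP ((w.memP _).mpr ⟨i, rfl⟩)
    · exact hxA ⟨k, b, rfl⟩
  rw [← hT.1, ← Set.ncard_coe_finset]
  have hf : ∀ m : L, ∃ i : Fin 15, (I x m ∧ ∃ i, I (w.φ i) m) → I (w.φ i) m := by
    intro m
    by_cases hm : I x m ∧ ∃ i, I (w.φ i) m
    · obtain ⟨-, i, hi⟩ := hm
      exact ⟨i, fun _ => hi⟩
    · exact ⟨0, fun hc => absurd hc hm⟩
  choose f hf using hf
  have huniq : ∀ m, I x m → ∀ i j, I (w.φ i) m → I (w.φ j) m → i = j := by
    intro m hm i j hi hj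
    by_contra hij
    obtain ⟨k, rfl, -, -⟩ := w.line_cases h hs hij hi hj
    exact hmL _ hm ((w.memL _).mpr ⟨k, rfl⟩)
  refine Set.ncard_congr (fun m _ => f m) ?_ ?_ ?_
  · intro m hm
    rw [Finset.mem_coe, w.mem_T]
    exact ⟨m, hf m hm, hm.1⟩
  · intro m m' hm hm' he
    have h3 := hf m hm
    have h4 := hf m' hm'
    rw [← he] at h4
    have hne : x ≠ w.φ (f m) := by
      intro hc
      exact hxP ((w.memP _).mpr ⟨_, hc⟩)
    exact h.unique x (w.φ (f m)) m m' hne hm.1 h3 hm'.1 h4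
  · intro i hi
    rw [Finset.mem_coe, w.mem_T] at hi
    obtain ⟨m, h3, h4⟩ := hi
    exact ⟨m, ⟨h4, i, h3⟩, huniq m h4 _ _ (hf m ⟨h4, i, h3⟩) h3⟩

end H60GQ
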