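import Pool.Agent.H60.GQ.Model

/-!
Project GQ (MP_a3aa3c_co), module HermModel: the ovoids of the quadrangle of order (4, 2).
There are 200 ovoids = exact covers of the 27 lines by points (9 points each); 40 of them are
`Hermitian`, 160 are not. Hermitian/Hermitian intersections have size 1 or 3 (9 if equal),
Hermitian/non-Hermitian intersections have size 0, 2 or 6. So with H0 a fixed Hermitian ovoid,
O is Hermitian iff |O ∩ H0| is odd.

Proof plan. Search for exact covers with numbers: `tm : List ℕ` the 45 masks (27 bits) of the lines
through the points, `pl : List (List ℕ)` the 5 points on each line;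
`search (n+1) cov ch = (pl[first uncovered line of cov]).flatMap (fun p => if tm[p] &&& cov = 0
  then search n (cov ||| tm[p]) (ch ||| 2^p) else [])`, `search 0 cov ch = [ch]`.
Completeness: if O is an ovoid, C ⊆ O, cov = mask of the lines meeting C, ch = mask of C,
|O \ C| = n, then mask O ∈ search n cov ch. (|O| = 9 because every point is on 3 lines, 27 = 3 * 9.)
Then check by `decide +kernel` on the list `search 9 0 0` of 200 numbers (popcount of `&&&`):
(1) popcount (M &&& M') ≠ 1 when M &&& H0 has odd and M' &&& H0 has even popcount;
(2) M &&& M' ≠ 0 when both have odd popcount with H0.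
`Herm O := |O ∩ H0|` odd. Second claim: the five disjoint ovoids have 45 points, so they partition
the 45 points, ∑ |f i ∩ H0| = 9 is odd, so there is an odd number of Hermitian ones, and two
Hermitian ones are never disjoint.
A Hermitian ovoid H0 (points, in the numbering of `inc42`) is given in the file as `H0list`.
-/

namespace H60GQ

open Finset

/-- a Hermitian ovoid of the model -/
def H0list : List ℕ := [0, 6, 10, 21, 24, 29, 37, 41, 43]

/-! ### tables -/

/-- masks of the lines through the points -/
private def hmT : List ℕ :=
  [4101, 8201, 16401, 32801, 65601, 134, 266, 530, 1058, 2114, 139392, 278656, 557184, 1114240,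
   135424, 2113792, 4227328, 8454400, 266752, 2105856, 16810496, 33620480, 529408, 4203520,
   16794624, 67175424, 1054720, 8398848, 33572864, 67143680, 69206020, 37748740, 25165828,
   67371016, 34078728, 17825800, 67239952, 8912912, 5242896, 33685536, 8650784, 3145760,
   16908352, 4456512, 2621504]

/-- the points of the lines -/
private def hmP : List (List ℕ) :=
  [[0, 1, 2, 3, 4], [5, 6, 7, 8, 9], [0, 5, 30, 31, 32], [1, 6, 33, 34, 35], [2, 7, 36, 37, 38],
   [3, 8, 39, 40, 41], [4, 9, 42, 43, 44], [5, 10, 11, 12, 13], [6, 14, 15, 16, 17],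
   [7, 18, 19, 20, 21], [8, 22, 23, 24, 25], [9, 26, 27, 28, 29], [0, 14, 18, 22, 26],
   [1, 10, 19, 23, 27], [2, 11, 15, 24, 28], [3, 12, 16, 20, 29], [4, 13, 17, 21, 25],
   [10, 14, 36, 39, 42], [11, 18, 33, 40, 43], [12, 22, 34, 37, 44], [13, 26, 35, 38, 41],
   [15, 19, 30, 41, 44], [16, 23, 31, 38, 43], [17, 27, 32, 37, 40], [20, 24, 32, 35, 42],
   [21, 28, 31, 34, 39], [25, 29, 30, 33, 36]]

/-- the ovoids -/
private def hmA : List ℕ :=
  [11132858270785, 11132858286114, 18966878618689, 18966878634018, 17871661171784,
   10999713255554, 8968194244648, 18726359467137, 6734811037730, 5772738564161, 2338644314626,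
   18693946868804, 17628861057160, 173980026376, 173980273160, 1136052949508, 6599385288772,
   4537734137928, 5499806322818, 5499806814276, 11012464984100, 1391604041217, 2220531975684,
   296386594312, 296386841096, 8817668555912, 6614417475713, 6614417735716, 4690272354344,
   5514839261220, 18416988588097, 9483389534242, 18146337556610, 828962542082, 9350244503682,
   9350244995140, 18176469436545, 18176469696548, 9380376383617, 721588652545, 11133110977601,
   11133110992930, 18967131325505, 18967131340834, 17871897905410, 10999954408516, 8968430716161,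
   18726604783652, 6735056078913, 5772979240994, 2339163604048, 18694398828674, 17629230531844,
   174483342608, 174483589392, 1136559948944, 6599758448770, 4538170122498, 5500246728834,
   5500247220292, 11012849927297, 1392123592752, 2221043370128, 296889910544, 296890157328,
   8818105278724, 6614795028609, 6614795288612, 4690641815809, 5515283308673, 18417373806626,
   9483841970241, 18146782355524, 829470279760, 9350684909698, 9350685401156, 18176846989441,
   18176847249444, 9380750295076, 722100060208, 8934691701832, 1375482171906, 8831662838020,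
   172882938376, 1134951466500, 1134955614724, 4674138671176, 4536628480258, 4536636803144,
   5498709479492, 8934875226370, 1375736955984, 8831799264392, 173141198096, 1135217804432,
   1135221952656, 4674266992898, 4536827977986, 4536836300872, 5498904584322, 8814414923012,
   293266802960, 8814481924356, 1117774701060, 293148689928, 8814430651528, 8814497652872,
   1117849191568, 4416375752840, 4416434675972, 825712839170, 825846925392, 9347062046788,
   688345057360, 825724637698, 9347006599298, 825858723920, 688285622786, 585198080516,
   585327773840, 17875806994472, 2345071085057, 2211914515972, 17605140219140, 2211918664196,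
   287769134600, 6605800276004, 4681650704641, 4681654894632, 4544153026600, 17875923502337,
   2345330032688, 2212180853904, 2212185002128, 17605347795080, 288031789328, 6605936660609,
   4681783447809, 4681787637800, 4544344432897, 2209766049284, 17602991752452, 17603058753796,
   148244563216, 17603007480968, 2209911689360, 17603074482312, 148193698312, 4408851697924,
   4408922382472, 18150608470052, 833363148848, 695794180609, 695861280816, 833241092609,
   18150682861697, 695802077697, 695869177904, 562645508612, 562716250256, 11063988850753,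
   18760503197730, 2272044059138, 17665269762306, 17665278085192, 8869176709378, 17695401642241,
   8899308589313, 8899312779304, 1202601366017, 11064109563938, 18760695029825, 17665469260034,
   2272314789968, 17665477582920, 8869380628552, 17695542476840, 8899441332481, 8899445522472,
   1202864062512, 2269895592450, 17663121295618, 2270029678672, 1170383872514, 2269907390978,
   2270041477200, 17663204270152, 1170463002704, 105231550984, 105361215760, 2284932172289,
   8882127675649, 1185420452353, 1185487552560, 8882076909608, 2285073924144, 1185428349441,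
   1185495449648, 90262014224, 90203005448]

/-- the Hermitian ovoids -/
private def hmH : List ℕ :=
  [11132858286114, 18966878618689, 173980273160, 5499806814276, 296386594312, 6614417735716,
   9350244503682, 18176469436545, 11133110977601, 18967131340834, 174483342608, 5500246728834,
   296890157328, 6614795028609, 9350685401156, 18176847249444, 1134955614724, 4536636803144,
   1135217804432, 4536827977986, 8814481924356, 8814430651528, 825846925392, 825724637698,
   2211914515972, 4681654894632, 2212185002128, 4681783447809, 17602991752452, 17603074482312,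
   695861280816, 695802077697, 17665269762306, 8899308589313, 17665477582920, 8899445522472,
   2269895592450, 2270041477200, 1185420452353, 1185495449648]

/-- the other ovoids -/
private def hmN : List ℕ :=
  [11132858270785, 18966878634018, 17871661171784, 10999713255554, 8968194244648, 18726359467137,
   6734811037730, 5772738564161, 2338644314626, 18693946868804, 17628861057160, 173980026376,
   1136052949508, 6599385288772, 4537734137928, 5499806322818, 11012464984100, 1391604041217,
   2220531975684, 296386841096, 8817668555912, 6614417475713, 4690272354344, 5514839261220,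
   18416988588097, 9483389534242, 18146337556610, 828962542082, 9350244995140, 18176469696548,
   9380376383617, 721588652545, 11133110992930, 18967131325505, 17871897905410, 10999954408516,
   8968430716161, 18726604783652, 6735056078913, 5772979240994, 2339163604048, 18694398828674,
   17629230531844, 174483589392, 1136559948944, 6599758448770, 4538170122498, 5500247220292,
   11012849927297, 1392123592752, 2221043370128, 296889910544, 8818105278724, 6614795288612,
   4690641815809, 5515283308673, 18417373806626, 9483841970241, 18146782355524, 829470279760,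
   9350684909698, 18176846989441, 9380750295076, 722100060208, 8934691701832, 1375482171906,
   8831662838020, 172882938376, 1134951466500, 4674138671176, 4536628480258, 5498709479492,
   8934875226370, 1375736955984, 8831799264392, 173141198096, 1135221952656, 4674266992898,
   4536836300872, 5498904584322, 8814414923012, 293266802960, 1117774701060, 293148689928,
   8814497652872, 1117849191568, 4416375752840, 4416434675972, 825712839170, 9347062046788,
   688345057360, 9347006599298, 825858723920, 688285622786, 585198080516, 585327773840,
   17875806994472, 2345071085057, 17605140219140, 2211918664196, 287769134600, 6605800276004,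
   4681650704641, 4544153026600, 17875923502337, 2345330032688, 2212180853904, 17605347795080,
   288031789328, 6605936660609, 4681787637800, 4544344432897, 2209766049284, 17603058753796,
   148244563216, 17603007480968, 2209911689360, 148193698312, 4408851697924, 4408922382472,
   18150608470052, 833363148848, 695794180609, 833241092609, 18150682861697, 695869177904,
   562645508612, 562716250256, 11063988850753, 18760503197730, 2272044059138, 17665278085192,
   8869176709378, 17695401642241, 8899312779304, 1202601366017, 11064109563938, 18760695029825,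
   17665469260034, 2272314789968, 8869380628552, 17695542476840, 8899441332481, 1202864062512,
   17663121295618, 2270029678672, 1170383872514, 2269907390978, 17663204270152, 1170463002704,
   105231550984, 105361215760, 2284932172289, 8882127675649, 1185487552560, 8882076909608,
   2285073924144, 1185428349441, 90262014224, 90203005448]

/-- the Hermitian ovoid `H0list` -/
private def hm0 : ℕ := 11133110977601

private def hmTm (p : ℕ) : ℕ := hmT.getD p 0

private def hmPt (l : ℕ) : List ℕ := hmP.getD l []

/-- number of binary digits `1` among the first `n` -/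
private def hmPc : ℕ → ℕ → ℕ
  | 0, _ => 0
  | n + 1, m => m % 2 + hmPc n (m / 2)

/-- search for the exact covers -/
private def hmS : ℕ → ℕ → ℕ → List ℕ
  | 0, _, ch => [ch]
  | n + 1, cov, ch => if Nat.testBit cov n then hmS n cov ch else
      (hmPt n).flatMap (fun p => if hmTm p &&& cov = 0 then
        hmS n (cov ||| hmTm p) (ch ||| 2 ^ p) else [])

/-! ### computations -/

private theorem hm_P1 : ∀ l : Fin 27, ∀ p : Fin 45, inc42 p l = true → p.val ∈ hmPt l.val := by
  decide +kernel

private theorem hm_P2 : ∀ l : Fin 27, ∀ p : Fin 45,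
    Nat.testBit (hmTm p.val) l.val = inc42 p l := by
  decide +kernel

private theorem hm_P3 : ∀ p : Fin 45, hmTm p.val < 2 ^ 27 := by
  decide +kernel

private theorem hm_P4 : ∀ p : Fin 45, ∃ l : Fin 27, inc42 p l = true := by
  decide +kernel

private theorem hm_search : hmS 27 0 0 = hmA := by
  decide +kernel

private theorem hm_A1 : hmA.all (fun M => (hmH.contains M && hmPc 45 (M &&& hm0) % 2 == 1) ||
    (hmN.contains M && hmPc 45 (M &&& hm0) % 2 == 0)) = true := by
  decide +kernel

private theorem hm_A2 : hmH.all (fun M => hmN.all (fun M' => hmPc 45 (M &&& M') != 1)) = true := by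
  decide +kernel

private theorem hm_A3 : hmH.all (fun M => hmH.all (fun M' => hmPc 45 (M &&& M') != 0)) = true := by
  decide +kernel

private theorem hm_A4 : hmA.all (fun M => hmPc 45 M == 9) = true := by
  decide +kernel

private theorem hm_A5 : hmPc 45 hm0 = 9 := by
  decide +kernel

/-! ### masks -/

/-- the set of points with the mask `m` -/
private def hmSet (m : ℕ) : Finset (Fin 45) := univ.filter (fun p => Nat.testBit m p.val = true)

private theorem hm_mem (m : ℕ) (p : Fin 45) : p ∈ hmSet m ↔ Nat.testBit m p.val = true := by
  simp [hmSet]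

private theorem hm_inter (m m' : ℕ) : hmSet m ∩ hmSet m' = hmSet (m &&& m') := by
  ext p
  rw [mem_inter, hm_mem, hm_mem, hm_mem, Nat.testBit_land, Bool.and_eq_true]

private theorem hm_card_aux (n : ℕ) : ∀ m : ℕ,
    (∑ p : Fin n, if Nat.testBit m p.val = true then 1 else 0) = hmPc n m := by
  induction n with
  | zero => intro m; simp [hmPc]
  | succ n ih =>
    intro m
    rw [Fin.sum_univ_succ]
    have h1 : ∀ p : Fin n, Nat.testBit m (p.succ).val = Nat.testBit (m / 2) p.val := by
      intro p
      rw [Fin.val_succ, Nat.testBit_succ]
    simp only [h1]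
    rw [ih (m / 2), show hmPc (n + 1) m = m % 2 + hmPc n (m / 2) from rfl]
    congr 1
    rw [Fin.val_zero, Nat.testBit_zero]
    rcases Nat.mod_two_eq_zero_or_one m with h | h <;> simp [h]

private theorem hm_card (m : ℕ) : (hmSet m).card = hmPc 45 m := by
  rw [← hm_card_aux 45 m, hmSet, card_filter]

/-! ### completeness of the search -/

private theorem hm_uniq {O : Finset (Fin 45)} (hO : Ov42 O) {l : Fin 27} {p q : Fin 45}
    (hp : p ∈ O) (hq : q ∈ O) (h1 : inc42 p l = true) (h2 : inc42 q l = true) : p = q := by
  have h := hO l
  rw [card_eq_one] at h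
  obtain ⟨r, hr⟩ := h
  have h3 : p ∈ O.filter (fun p => inc42 p l = true) := mem_filter.2 ⟨hp, h1⟩
  have h4 : q ∈ O.filter (fun p => inc42 p l = true) := mem_filter.2 ⟨hq, h2⟩
  rw [hr, mem_singleton] at h3 h4
  rw [h3, h4]

private theorem hm_exists {O : Finset (Fin 45)} (hO : Ov42 O) (l : Fin 27) :
    ∃ p ∈ O, inc42 p l = true := by
  have h := hO l
  rw [card_eq_one] at h
  obtain ⟨r, hr⟩ := h
  have h3 : r ∈ O.filter (fun p => inc42 p l = true) := by rw [hr]; exact mem_singleton_self r
  exact ⟨r, (mem_filter.1 h3).1, (mem_filter.1 h3).2⟩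

private theorem hm_complete {O : Finset (Fin 45)} (hO : Ov42 O) : ∀ n : ℕ, n ≤ 27 →
    ∀ cov ch : ℕ, (∀ p : Fin 45, Nat.testBit ch p.val = true → p ∈ O) →
    (∀ l : Fin 27, Nat.testBit cov l.val = true ↔
      ∃ p : Fin 45, Nat.testBit ch p.val = true ∧ inc42 p l = true) →
    (∀ l : Fin 27, n ≤ l.val → Nat.testBit cov l.val = true) →
    ∃ M ∈ hmS n cov ch, O = hmSet M := by
  intro n
  induction n with
  | zero =>
    intro _ cov ch h1 h2 h3
    refine ⟨ch, by simp [hmS], ?_⟩
    ext p
    rw [hm_mem]
    refine ⟨fun hp => ?_, h1 p⟩
    obtain ⟨l, hl⟩ := hm_P4 p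
    obtain ⟨q, hq1, hq2⟩ := (h2 l).1 (h3 l (Nat.zero_le _))
    rw [hm_uniq hO hp (h1 q hq1) hl hq2]
    exact hq1
  | succ n ih =>
    intro hn cov ch h1 h2 h3
    have hn' : n < 27 := hn
    unfold hmS
    by_cases hc : Nat.testBit cov n = true
    · rw [if_pos hc]
      refine ih (by omega) cov ch h1 h2 fun l hl => ?_
      rcases Nat.eq_or_lt_of_le hl with h | h
      · rw [← h]; exact hc
      · exact h3 l h
    · rw [if_neg hc]
      obtain ⟨p, hpO, hpl⟩ := hm_exists hO ⟨n, hn'⟩
      have hbit : ∀ q : Fin 45, Nat.testBit (ch ||| 2 ^ p.val) q.val = true ↔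
          (Nat.testBit ch q.val = true ∨ q = p) := by
        intro q
        rw [Nat.testBit_lor, Bool.or_eq_true, Nat.testBit_two_pow, decide_eq_true_iff,
          Fin.ext_iff, eq_comm (a := p.val)]
      have hdis : hmTm p.val &&& cov = 0 := by
        apply Nat.eq_of_testBit_eq
        intro i
        rw [Nat.zero_testBit, Nat.testBit_land]
        by_contra hne
        rw [Bool.not_eq_false, Bool.and_eq_true] at hne
        obtain ⟨g1, g2⟩ := hne
        have hi : i < 27 := by
          by_contra hi
          have h4 : hmTm p.val < 2 ^ i :=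
            lt_of_lt_of_le (hm_P3 p) (Nat.pow_le_pow_right (by norm_num) (by omega))
          rw [Nat.testBit_lt_two_pow h4] at g1
          exact Bool.false_ne_true g1
        have g3 : inc42 p ⟨i, hi⟩ = true := by
          rw [← hm_P2 ⟨i, hi⟩ p]
          exact g1
        obtain ⟨q, hq1, hq2⟩ := (h2 ⟨i, hi⟩).1 g2
        have h5 : p = q := hm_uniq hO hpO (h1 q hq1) g3 hq2
        exact hc ((h2 ⟨n, hn'⟩).2 ⟨p, by rw [h5]; exact hq1, hpl⟩)
      have k1 : ∀ q : Fin 45, Nat.testBit (ch ||| 2 ^ p.val) q.val = true → q ∈ O := by
        intro q hq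
        rcases (hbit q).1 hq with h | h
        · exact h1 q h
        · rw [h]; exact hpO
      have k2 : ∀ l : Fin 27, Nat.testBit (cov ||| hmTm p.val) l.val = true ↔
          ∃ q : Fin 45, Nat.testBit (ch ||| 2 ^ p.val) q.val = true ∧ inc42 q l = true := by
        intro l
        rw [Nat.testBit_lor, Bool.or_eq_true, h2 l, hm_P2 l p]
        constructor
        · rintro (⟨q, hq1, hq2⟩ | h)
          · exact ⟨q, (hbit q).2 (Or.inl hq1), hq2⟩
          · exact ⟨p, (hbit p).2 (Or.inr rfl), h⟩
        · rintro ⟨q, hq1, hq2⟩
          rcases (hbit q).1 hq1 with h | h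
          · exact Or.inl ⟨q, h, hq2⟩
          · rw [h] at hq2
            exact Or.inr hq2
      have k3 : ∀ l : Fin 27, n ≤ l.val → Nat.testBit (cov ||| hmTm p.val) l.val = true := by
        intro l hl
        rw [Nat.testBit_lor, Bool.or_eq_true]
        rcases Nat.eq_or_lt_of_le hl with h | h
        · right
          rw [hm_P2 l p]
          have h4 : (⟨n, hn'⟩ : Fin 27) = l := Fin.ext h
          rw [← h4]
          exact hpl
        · exact Or.inl (h3 l h)
      obtain ⟨M, hM, hOM⟩ := ih (by omega) (cov ||| hmTm p.val) (ch ||| 2 ^ p.val) k1 k2 k3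
      refine ⟨M, List.mem_flatMap.2 ⟨p.val, hm_P1 ⟨n, hn'⟩ p hpl, ?_⟩, hOM⟩
      simp only [if_pos hdis]
      exact hM

private theorem hm_ovoid {O : Finset (Fin 45)} (hO : Ov42 O) : ∃ M ∈ hmA, O = hmSet M := by
  rw [← hm_search]
  refine hm_complete hO 27 le_rfl 0 0 ?_ ?_ ?_
  · intro p hp
    rw [Nat.zero_testBit] at hp
    exact absurd hp Bool.false_ne_true
  · intro l
    rw [Nat.zero_testBit]
    constructor
    · intro h
      exact absurd h Bool.false_ne_true
    · rintro ⟨p, hp, -⟩
      rw [Nat.zero_testBit] at hp
      exact absurd hp Bool.false_ne_true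
  · intro l hl
    exact absurd l.isLt (by omega)

private theorem hm_type {O : Finset (Fin 45)} (hO : Ov42 O) : O.card = 9 ∧ ∃ M, O = hmSet M ∧
    ((M ∈ hmH ∧ (O ∩ hmSet hm0).card % 2 = 1) ∨ (M ∈ hmN ∧ (O ∩ hmSet hm0).card % 2 = 0)) := by
  obtain ⟨M, hM, hOM⟩ := hm_ovoid hO
  have h1 := List.all_eq_true.1 hm_A1 M hM
  have h2 := List.all_eq_true.1 hm_A4 M hM
  rw [beq_iff_eq] at h2
  have h3 : (O ∩ hmSet hm0).card = hmPc 45 (M &&& hm0) := by
    rw [hOM, hm_inter, hm_card]
  refine ⟨by rw [hOM, hm_card, h2], M, hOM, ?_⟩
  rw [h3]
  rw [Bool.or_eq_true, Bool.and_eq_true, Bool.and_eq_true, beq_iff_eq, beq_iff_eq,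
    List.contains_iff_mem, List.contains_iff_mem] at h1
  exact h1

private theorem hm_HN {M M' : ℕ} (hM : M ∈ hmH) (hM' : M' ∈ hmN) :
    (hmSet M ∩ hmSet M').card ≠ 1 := by
  have h1 := List.all_eq_true.1 (List.all_eq_true.1 hm_A2 M hM) M' hM'
  rw [hm_inter, hm_card]
  exact bne_iff_ne.1 h1

private theorem hm_HH {M M' : ℕ} (hM : M ∈ hmH) (hM' : M' ∈ hmH) :
    (hmSet M ∩ hmSet M').card ≠ 0 := by
  have h1 := List.all_eq_true.1 (List.all_eq_true.1 hm_A3 M hM) M' hM'
  rw [hm_inter, hm_card]
  exact bne_iff_ne.1 h1

theorem hermModel : ∃ Herm : Finset (Fin 45) → Prop,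
    (∀ O O', Ov42 O → Ov42 O' → (O ∩ O').card = 1 → (Herm O ↔ Herm O')) ∧
      (∀ f : Fin 5 → Finset (Fin 45), (∀ i, Ov42 (f i)) →
        (∀ i j, i ≠ j → Disjoint (f i) (f j)) → ∃! i, Herm (f i)) := by
  refine ⟨fun O => (O ∩ hmSet hm0).card % 2 = 1, ?_, ?_⟩
  · intro O O' hO hO' h
    obtain ⟨-, M, hM, hc⟩ := hm_type hO
    obtain ⟨-, M', hM', hc'⟩ := hm_type hO'
    rcases hc with ⟨h1, h2⟩ | ⟨h1, h2⟩
    · rcases hc' with ⟨h3, h4⟩ | ⟨h3, h4⟩
      · exact ⟨fun _ => h4, fun _ => h2⟩
      · exact absurd (by rw [← hM, ← hM']; exact h) (hm_HN h1 h3)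
    · rcases hc' with ⟨h3, h4⟩ | ⟨h3, h4⟩
      · exact absurd (by rw [← hM, ← hM', inter_comm]; exact h) (hm_HN h3 h1)
      · constructor
        · intro h5
          omega
        · intro h5
          omega
  · intro f hf hdis
    have huniq : ∀ i j, (f i ∩ hmSet hm0).card % 2 = 1 → (f j ∩ hmSet hm0).card % 2 = 1 →
        i = j := by
      intro i j hi hj
      by_contra hij
      obtain ⟨-, M, hM, hc⟩ := hm_type (hf i)
      obtain ⟨-, M', hM', hc'⟩ := hm_type (hf j)
      rcases hc with ⟨h1, h2⟩ | ⟨h1, h2⟩
      · rcases hc' with ⟨h3, h4⟩ | ⟨h3, h4⟩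
        · refine hm_HH h1 h3 ?_
          rw [← hM, ← hM', card_eq_zero]
          exact disjoint_iff_inter_eq_empty.1 (hdis i j hij)
        · omega
      · omega
    have hdis' : Set.PairwiseDisjoint (↑(univ : Finset (Fin 5))) f := by
      intro i _ j _ hij
      exact hdis i j hij
    have hU : univ.biUnion f = (univ : Finset (Fin 45)) := by
      rw [← card_eq_iff_eq_univ, card_biUnion (fun i _ j _ hij => hdis i j hij)]
      rw [sum_congr rfl (fun i _ => (hm_type (hf i)).1)]
      simp
    have hsum : ∑ i : Fin 5, (f i ∩ hmSet hm0).card = 9 := by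
      have h1 : (univ.biUnion (fun i => f i ∩ hmSet hm0)).card =
          ∑ i : Fin 5, (f i ∩ hmSet hm0).card := by
        apply card_biUnion
        intro i _ j _ hij
        exact (hdis i j hij).mono inter_subset_left inter_subset_left
      rw [← h1, ← biUnion_inter, hU, univ_inter, hm_card, hm_A5]
    have hex : ∃ i, (f i ∩ hmSet hm0).card % 2 = 1 := by
      by_contra hne
      push Not at hne
      have h1 : ∀ i : Fin 5, (f i ∩ hmSet hm0).card % 2 = 0 := fun i => by
        have := hne i
        omega
      have h2 : (∑ i : Fin 5, (f i ∩ hmSet hm0).card) % 2 = 0 := by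
        rw [Finset.sum_nat_mod, sum_congr rfl (fun i _ => h1 i)]
        simp
      omega
    obtain ⟨i, hi⟩ := hex
    exact ⟨i, hi, fun j hj => huniq j i hj hi⟩

end H60GQ
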