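import Pool.Agent.H60.GQ.Uniq42
import Pool.Agent.H60.GQ.HermModel
import Pool.Agent.H60.GQ.Full

/-!
Project GQ (MP_a3aa3c_co), module HermAbs: Hermitian ovoids of a subquadrangle of order (4, 2).

Proof plan: `uniq42` for the quadrangle hs.2 on the subtypes gives e : P' ≃ Fin 45, f : L' ≃ Fin 27.
For O ⊆ P' let m O := {k | (e.symm k).1 ∈ O} : Finset (Fin 45); O is a relative ovoid iff
`Ov42 (m O)`, m is compatible with intersections, cardinalities and disjointness.
`Herm O := Herm' (m O)` with Herm' from `hermModel`.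
-/

namespace H60GQ

universe u v

variable {P : Type u} {L : Type v} {I : P → L → Prop} {t : ℕ} {P' : Set P} {L' : Set L}

open Classical in
/-- the subset of the model which corresponds to `O` -/
private noncomputable def hermAbsM (e : P' ≃ Fin 45) (O : Set P) : Finset (Fin 45) :=
  Finset.univ.filter (fun k => (e.symm k).1 ∈ O)

private theorem hermAbs_mem (e : P' ≃ Fin 45) (O : Set P) (k : Fin 45) :
    k ∈ hermAbsM e O ↔ (e.symm k).1 ∈ O := by
  classical
  unfold hermAbsM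
  rw [Finset.mem_filter]
  exact ⟨fun h => h.2, fun h => ⟨Finset.mem_univ _, h⟩⟩

private theorem hermAbs_ov (e : P' ≃ Fin 45) (f : L' ≃ Fin 27)
    (hi : ∀ (p : P') (l : L'), I p.1 l.1 ↔ inc42 (e p) (f l) = true) {O : Set P}
    (hO : RelOvoid I P' L' O) : Ov42 (hermAbsM e O) := by
  intro l
  obtain ⟨p, ⟨hp, hpl⟩, hu⟩ := hO.2 (f.symm l).1 (f.symm l).2
  have hp' : p ∈ P' := hO.1 hp
  rw [Finset.card_eq_one]
  refine ⟨e ⟨p, hp'⟩, ?_⟩
  ext k
  rw [Finset.mem_filter, Finset.mem_singleton]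
  constructor
  swap
  · rintro rfl
    refine ⟨?_, ?_⟩
    · rw [hermAbs_mem, Equiv.symm_apply_apply]
      exact hp
    · have h1 := (hi ⟨p, hp'⟩ (f.symm l)).mp hpl
      rwa [Equiv.apply_symm_apply] at h1
  · rintro ⟨hk1, hk2⟩
    rw [hermAbs_mem] at hk1
    have h2 : I (e.symm k).1 (f.symm l).1 := by
      rw [hi, Equiv.apply_symm_apply, Equiv.apply_symm_apply]
      exact hk2
    have h3 := hu _ ⟨hk1, h2⟩
    have h4 : e.symm k = ⟨p, hp'⟩ := Subtype.ext h3
    rw [← h4, Equiv.apply_symm_apply]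

private theorem hermAbs_inter (e : P' ≃ Fin 45) {O O' : Set P} (hO : O ⊆ P') :
    (hermAbsM e O ∩ hermAbsM e O').card = (O ∩ O').ncard := by
  classical
  have h1 : ((fun k : Fin 45 => (e.symm k).1) '' ((hermAbsM e O ∩ hermAbsM e O' :
      Finset (Fin 45)) : Set (Fin 45))) = O ∩ O' := by
    ext p
    constructor
    · rintro ⟨k, hk, rfl⟩
      rw [Finset.mem_coe, Finset.mem_inter, hermAbs_mem, hermAbs_mem] at hk
      exact hk
    · rintro ⟨h1, h2⟩
      refine ⟨e ⟨p, hO h1⟩, ?_, ?_⟩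
      · rw [Finset.mem_coe, Finset.mem_inter, hermAbs_mem, hermAbs_mem, Equiv.symm_apply_apply]
        exact ⟨h1, h2⟩
      · show (e.symm (e ⟨p, hO h1⟩)).1 = p
        rw [Equiv.symm_apply_apply]
  rw [← h1, Set.ncard_image_of_injective, Set.ncard_coe_finset]
  intro a b hab
  exact e.symm.injective (Subtype.ext hab)

theorem hermAbs [Finite P] [Finite L] (hs : SubGQ I P' L' 4 2) : ∃ Herm : Set P → Prop,
    (∀ O O', RelOvoid I P' L' O → RelOvoid I P' L' O' → (O ∩ O').ncard = 1 →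
      (Herm O ↔ Herm O')) ∧
      (∀ f : Fin 5 → Set P, (∀ i, RelOvoid I P' L' (f i)) →
        (∀ i j, i ≠ j → Disjoint (f i) (f j)) → ∃! i, Herm (f i)) := by
  classical
  have hne : Nonempty P' := hs.1.to_subtype
  obtain ⟨e, f, hi⟩ := uniq42 hs.2
  obtain ⟨Herm', h1, h2⟩ := hermModel
  refine ⟨fun O => Herm' (hermAbsM e O), ?_, ?_⟩
  · intro O O' hO hO' hc
    exact h1 _ _ (hermAbs_ov e f hi hO) (hermAbs_ov e f hi hO')
      (by rw [hermAbs_inter e hO.1]; exact hc)
  · intro g hg hd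
    refine h2 (fun i => hermAbsM e (g i)) (fun i => hermAbs_ov e f hi (hg i)) ?_
    intro i j hij
    rw [Finset.disjoint_left]
    intro k hk hk'
    rw [hermAbs_mem] at hk hk'
    exact Set.disjoint_left.mp (hd i j hij) hk hk'

end H60GQ
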