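import Pool.Agent.H60.GQ.Counts

/-!
Project GQ (MP_a3aa3c_co), module Lab: coordinates in a quadrangle of order (s, 2).

`A`, `B` two disjoint lines, `x i` the points of `A`, `y i` the point of `B` collinear with `x i`,
`C i` the line joining them, `B' i` the third line through `x i`, `A' i` the third line through
`y i`.

Proof plan.
* `exists_lab`: take a point p, two lines A, m through p (3 lines through each point), q ≠ p on m
  (s ≥ 1), B ≠ m a line through q; A and B have no common point (no triangles).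
  `x` = enumeration of the s + 1 points of A (`Finite.equivFin` / ncard), `y i`, `C i` from
  `exists_proj`; `y` is injective (two x's collinear with the same point off A: `col_unique`) and
  surjective onto B (card). Each point is on 3 lines: `B' i`, `A' i`.
* meets: no triangles / uniqueness of lines. `m9`: x j is collinear with exactly one point of A' i
  (x j is not on A' i by m1), by one of the lines A, C j, B' j through x j; A does not meet A' i
  (m1) and C j does not (m6), so B' j meets A' i.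
-/

namespace H60GQ

universe u v

variable {P : Type u} {L : Type v} {I : P → L → Prop} {s t : ℕ}

/-- two lines have a common point -/
def Meet (I : P → L → Prop) (l m : L) : Prop := ∃ p, I p l ∧ I p m

structure Lab (I : P → L → Prop) (s : ℕ) where
  A : L
  B : L
  x : Fin (s + 1) → P
  y : Fin (s + 1) → P
  C : Fin (s + 1) → L
  A' : Fin (s + 1) → L
  B' : Fin (s + 1) → L
  disj : ¬ Meet I A B
  x_inj : Function.Injective x
  y_inj : Function.Injective y
  xA : ∀ p, I p A ↔ ∃ i, p = x i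
  yB : ∀ p, I p B ↔ ∃ i, p = y i
  lx : ∀ i l, I (x i) l ↔ l = A ∨ l = C i ∨ l = B' i
  ly : ∀ i l, I (y i) l ↔ l = B ∨ l = C i ∨ l = A' i
  AC : ∀ i, A ≠ C i
  AB' : ∀ i, A ≠ B' i
  CB' : ∀ i, C i ≠ B' i
  BC : ∀ i, B ≠ C i
  BA' : ∀ i, B ≠ A' i
  CA' : ∀ i, C i ≠ A' i

private theorem Lab_third {α : Type*} {S : Set α} (hS : S.ncard = 3) {a b : α} (ha : a ∈ S)
    (hb : b ∈ S) (hab : a ≠ b) :
    ∃ c, a ≠ c ∧ b ≠ c ∧ ∀ l, l ∈ S ↔ l = a ∨ l = b ∨ l = c := by
  obtain ⟨x, y, z, hxy, hxz, hyz, rfl⟩ := Set.ncard_eq_three.1 hS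
  have ha' : a = x ∨ a = y ∨ a = z := ha
  have hb' : b = x ∨ b = y ∨ b = z := hb
  have hm : ∀ l, l ∈ ({x, y, z} : Set α) ↔ l = x ∨ l = y ∨ l = z := fun l => Iff.rfl
  rcases ha' with rfl | rfl | rfl <;> rcases hb' with rfl | rfl | rfl
  · exact absurd rfl hab
  · exact ⟨z, hxz, hyz, fun l => by rw [hm]⟩
  · exact ⟨y, hxy, hyz.symm, fun l => by rw [hm]; tauto⟩
  · exact ⟨z, hyz, hxz, fun l => by rw [hm]; tauto⟩
  · exact absurd rfl hab
  · exact ⟨x, hxy.symm, hxz.symm, fun l => by rw [hm]; tauto⟩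
  · exact ⟨y, hyz.symm, hxy, fun l => by rw [hm]; tauto⟩
  · exact ⟨x, hxz.symm, hxy.symm, fun l => by rw [hm]; tauto⟩
  · exact absurd rfl hab

private theorem Lab_start [Nonempty P] (h : IsGQ I s 2) (hs : 1 ≤ s) :
    ∃ A B : L, ¬ Meet I A B := by
  obtain ⟨p⟩ := ‹Nonempty P›
  obtain ⟨A, m, n, hAm, _, _, hpn⟩ := Set.ncard_eq_three.1 (h.point_card p)
  have hpA : I p A := by
    have : A ∈ {l | I p l} := by rw [hpn]; exact Or.inl rfl
    exact this
  have hpm : I p m := by
    have : m ∈ {l | I p l} := by rw [hpn]; exact Or.inr (Or.inl rfl)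
    exact this
  obtain ⟨q, hqm, hqp⟩ : ∃ q, I q m ∧ q ≠ p := by
    have h1 : 1 < {r | I r m}.ncard := by rw [h.line_card]; omega
    obtain ⟨q, hq, hqp⟩ := Set.exists_ne_of_one_lt_ncard h1 p
    exact ⟨q, hq, hqp⟩
  obtain ⟨B, hqB, hBm⟩ : ∃ B, I q B ∧ B ≠ m := by
    have h1 : 1 < {l | I q l}.ncard := by rw [h.point_card]; omega
    obtain ⟨B, hB, hBm⟩ := Set.exists_ne_of_one_lt_ncard h1 m
    exact ⟨B, hB, hBm⟩
  refine ⟨A, B, ?_⟩
  rintro ⟨r, hrA, hrB⟩
  have hrp : p ≠ r := by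
    rintro rfl
    exact hBm (h.line_unique hqp hqB hrB hqm hpm)
  have hrq : q ≠ r := by
    rintro rfl
    exact hAm (h.line_unique hqp hrA hpA hqm hpm)
  have h2 := h.no_triangle hqp.symm hrp hrq hpm hqm hqB hrB hpA hrA
  exact hBm h2.1.symm

theorem exists_lab [Finite P] [Finite L] [Nonempty P] (h : IsGQ I s 2) (hs : 1 ≤ s) :
    Nonempty (Lab I s) := by
  classical
  obtain ⟨A, B, disj⟩ := Lab_start h hs
  have hcard : Nat.card {p | I p A} = s + 1 := h.line_card A
  let e := (Finite.equivFinOfCardEq hcard).symm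
  have hxA : ∀ i, I (e i).1 A := fun i => (e i).2
  have hxB : ∀ i, ¬ I (e i).1 B := fun i hi => disj ⟨_, hxA i, hi⟩
  choose y C hy hxC hyC using fun i => h.exists_proj (hxB i)
  have hyA : ∀ i, ¬ I (y i) A := fun i hi => disj ⟨_, hi, hy i⟩
  have hAC : ∀ i, A ≠ C i := fun i hi => hyA i (hi ▸ hyC i)
  have hBC : ∀ i, B ≠ C i := fun i hi => hxB i (hi ▸ hxC i)
  choose B' hAB' hCB' hlx using fun i => Lab_third (h.point_card (e i).1)
    (a := A) (b := C i) (hxA i) (hxC i) (hAC i)
  choose A' hBA' hCA' hly using fun i => Lab_third (h.point_card (y i))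
    (a := B) (b := C i) (hy i) (hyC i) (hBC i)
  refine ⟨{ A := A, B := B, x := fun i => (e i).1, y := y, C := C, A' := A', B' := B',
            disj := disj, x_inj := fun i j hij => e.injective (Subtype.ext hij),
            y_inj := fun i j hij => ?_, xA := fun p => ⟨fun hp => ?_, ?_⟩,
            yB := fun p => ⟨fun hp => ?_, ?_⟩, lx := fun i l => hlx i l,
            ly := fun i l => hly i l, AC := hAC, AB' := hAB', CB' := hCB', BC := hBC,
            BA' := hBA', CA' := hCA' }⟩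
  · have h1 : (e i).1 = (e j).1 := h.col_unique (hyA i) (hxA i) (hxA j) ⟨C i, hyC i, hxC i⟩
      ⟨C j, hij ▸ hyC j, hxC j⟩
    exact e.injective (Subtype.ext h1)
  · obtain ⟨i, hi⟩ := e.surjective ⟨p, hp⟩
    exact ⟨i, by rw [hi]⟩
  · rintro ⟨i, rfl⟩
    exact hxA i
  · have hpA : ¬ I p A := fun h1 => disj ⟨p, h1, hp⟩
    obtain ⟨r, m, hrA, hpm, hrm⟩ := h.exists_proj hpA
    obtain ⟨i, hi⟩ := e.surjective ⟨r, hrA⟩
    have hr : (e i).1 = r := by rw [hi]
    refine ⟨i, ?_⟩
    exact (h.proj_unique (hxB i) hp (hr ▸ hrm) hpm (hy i) (hxC i) (hyC i)).1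
  · rintro ⟨i, rfl⟩
    exact hy i

variable (a : Lab I s)

end H60GQ
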