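import Pool.Agent.H60.GQ.Lab

/-!
Project GQ (MP_a3aa3c_co), module LabM: which lines of a `Lab` meet (proof plan in Lab.lean).
-/

namespace H60GQ

universe u v

variable {P : Type u} {L : Type v} {I : P → L → Prop} {s t : ℕ}

variable (a : Lab I s)

/-- there are no triangles, in terms of lines -/
private theorem LabM_aux (h : IsGQ I s t) {l m m' : L} {q q' : P} (hqq : q ≠ q')
    (h1 : I q l) (h2 : I q' l) (h3 : I q m) (h4 : I q' m') (hm : l ≠ m) (hm' : l ≠ m') :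
    ¬ Meet I m m' := by
  rintro ⟨p, hp, hp'⟩
  by_cases hl : I p l
  · exact hqq ((h.pt_unique hm hl h1 hp h3).symm.trans (h.pt_unique hm' hl h2 hp' h4))
  · exact hqq (h.proj_unique hl h1 hp h3 h2 hp' h4).1

private theorem LabM_xy (a : Lab I s) (i j) : a.x i ≠ a.y j := by
  intro e
  exact a.disj ⟨a.x i, (a.xA _).2 ⟨i, rfl⟩, (a.yB _).2 ⟨j, e⟩⟩

private theorem LabM_xA (a : Lab I s) (i) : I (a.x i) a.A := (a.xA _).2 ⟨i, rfl⟩

private theorem LabM_yB (a : Lab I s) (i) : I (a.y i) a.B := (a.yB _).2 ⟨i, rfl⟩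

private theorem LabM_xC (a : Lab I s) (i) : I (a.x i) (a.C i) := (a.lx _ _).2 (Or.inr (Or.inl rfl))

private theorem LabM_xB (a : Lab I s) (i) : I (a.x i) (a.B' i) := (a.lx _ _).2 (Or.inr (Or.inr rfl))

private theorem LabM_yC (a : Lab I s) (i) : I (a.y i) (a.C i) := (a.ly _ _).2 (Or.inr (Or.inl rfl))

private theorem LabM_yA (a : Lab I s) (i) : I (a.y i) (a.A' i) := (a.ly _ _).2 (Or.inr (Or.inr rfl))

theorem Lab.m1 (h : IsGQ I s 2) (i) : ¬ Meet I (a.A' i) a.A := by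
  exact LabM_aux h (LabM_xy a i i).symm (LabM_yC a i) (LabM_xC a i) (LabM_yA a i) (LabM_xA a i)
    (a.CA' i) (a.AC i).symm

theorem Lab.m2 (h : IsGQ I s 2) (i) : ¬ Meet I (a.B' i) a.B := by
  exact LabM_aux h (LabM_xy a i i) (LabM_xC a i) (LabM_yC a i) (LabM_xB a i) (LabM_yB a i)
    (a.CB' i) (a.BC i).symm

theorem Lab.m3 (h : IsGQ I s 2) {i j} (hij : i ≠ j) : ¬ Meet I (a.A' i) (a.A' j) := by
  exact LabM_aux h (fun e => hij (a.y_inj e)) (LabM_yB a i) (LabM_yB a j) (LabM_yA a i)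
    (LabM_yA a j) (a.BA' i) (a.BA' j)

theorem Lab.m4 (h : IsGQ I s 2) {i j} (hij : i ≠ j) : ¬ Meet I (a.B' i) (a.B' j) := by
  exact LabM_aux h (fun e => hij (a.x_inj e)) (LabM_xA a i) (LabM_xA a j) (LabM_xB a i)
    (LabM_xB a j) (a.AB' i) (a.AB' j)

theorem Lab.m5 (h : IsGQ I s 2) {i j} (hij : i ≠ j) : ¬ Meet I (a.C i) (a.C j) := by
  exact LabM_aux h (fun e => hij (a.x_inj e)) (LabM_xA a i) (LabM_xA a j) (LabM_xC a i)
    (LabM_xC a j) (a.AC i) (a.AC j)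

theorem Lab.m6 (h : IsGQ I s 2) {i j} (hij : i ≠ j) : ¬ Meet I (a.A' i) (a.C j) := by
  exact LabM_aux h (fun e => hij (a.y_inj e)) (LabM_yB a i) (LabM_yB a j) (LabM_yA a i)
    (LabM_yC a j) (a.BA' i) (a.BC j)

theorem Lab.m7 (h : IsGQ I s 2) {i j} (hij : i ≠ j) : ¬ Meet I (a.B' i) (a.C j) := by
  exact LabM_aux h (fun e => hij (a.x_inj e)) (LabM_xA a i) (LabM_xA a j) (LabM_xB a i)
    (LabM_xC a j) (a.AB' i) (a.AC j)

theorem Lab.m8 (h : IsGQ I s 2) (i) : ¬ Meet I (a.A' i) (a.B' i) := by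
  exact LabM_aux h (LabM_xy a i i).symm (LabM_yC a i) (LabM_xC a i) (LabM_yA a i) (LabM_xB a i)
    (a.CA' i) (a.CB' i)

theorem Lab.m9 (h : IsGQ I s 2) {i j} (hij : i ≠ j) : Meet I (a.A' i) (a.B' j) := by
  have hx : ¬ I (a.x j) (a.A' i) := fun e => a.m1 h i ⟨a.x j, e, LabM_xA a j⟩
  obtain ⟨q, m, h1, h2, h3⟩ := h.exists_proj hx
  rcases (a.lx j m).1 h2 with rfl | rfl | rfl
  · exact (a.m1 h i ⟨q, h1, h3⟩).elim
  · exact (a.m6 h hij ⟨q, h1, h3⟩).elim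
  · exact ⟨q, h1, h3⟩

end H60GQ
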