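import Pool.Agent.H60.GQ.LabM

/-!
Project GQ (MP_a3aa3c_co), module LabSums: the lines meeting neither `A` nor `B`.

Proof plan (order (s, 2), |L| = 3 (2 s + 1)).
* `skew_card`: the lines meeting A or B are A, B, C i, A' i, B' i (3 (s+1) + 2 different lines), so
  the number of skew lines is 6 s + 3 - 2 - 3 (s + 1) = 3 s - 2.
* `skew_sum`: C i has s + 1 points, x i, y i and s - 1 others; a point w ≠ x i, y i of C i is on two
  further lines and they are skew (if such a line met A in x j, then w, x i, x j would be a triangle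
  or j = i and the line would be C i). Different points w give different lines (`m5`-type argument:
  a line ≠ C i meets C i in at most one point). So 2 (s - 1) skew lines meet C i.
* `skew_sum2`: ordered pairs i ≠ j: each of the s + 1 points of C i is collinear with exactly one
  point of C j (C i, C j disjoint, `m5`), which gives s + 1 lines meeting both; two of them are A
  and B (at x i, y i), the others are at the s - 1 other points and are skew. So the number of skew
  lines meeting C i and C j is s - 1; sum over (s + 1) s ordered pairs.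
* `meetB`, `meetA`: l skew, x i is collinear with exactly one point of l; the line is C i or B' i
  (not A) and not both.
-/

namespace H60GQ

universe u v

open Finset Classical

variable {P : Type u} {L : Type v} {I : P → L → Prop} {s t : ℕ}

/-- lines meeting neither `A` nor `B` -/
def Lab.Skew (a : Lab I s) (l : L) : Prop := ¬ Meet I l a.A ∧ ¬ Meet I l a.B

/-- number of `C i` met by `l` -/
noncomputable def Lab.n (a : Lab I s) (l : L) : ℕ := (univ.filter (fun i => Meet I l (a.C i))).card

private theorem LabSums_x (a : Lab I s) (i) : I (a.x i) a.A := (a.xA _).2 ⟨i, rfl⟩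

private theorem LabSums_y (a : Lab I s) (i) : I (a.y i) a.B := (a.yB _).2 ⟨i, rfl⟩

private theorem LabSums_xC (a : Lab I s) (i) : I (a.x i) (a.C i) := (a.lx _ _).2 (Or.inr (Or.inl rfl))

private theorem LabSums_xB' (a : Lab I s) (i) : I (a.x i) (a.B' i) :=
  (a.lx _ _).2 (Or.inr (Or.inr rfl))

private theorem LabSums_yC (a : Lab I s) (i) : I (a.y i) (a.C i) := (a.ly _ _).2 (Or.inr (Or.inl rfl))

private theorem LabSums_yA' (a : Lab I s) (i) : I (a.y i) (a.A' i) :=
  (a.ly _ _).2 (Or.inr (Or.inr rfl))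

private def LabSums_f (a : Lab I s) :
    Bool ⊕ (Fin (s + 1) ⊕ (Fin (s + 1) ⊕ Fin (s + 1))) → L :=
  Sum.elim (fun b => if b = true then a.A else a.B) (Sum.elim a.C (Sum.elim a.A' a.B'))

private theorem LabSums_inj (h : IsGQ I s 2) (a : Lab I s) :
    Function.Injective (LabSums_f a) := by
  have hAB : a.A ≠ a.B := by
    intro h0
    exact a.disj ⟨a.x 0, LabSums_x a 0, h0 ▸ LabSums_x a 0⟩
  unfold LabSums_f
  refine Function.Injective.sumElim ?_ (Function.Injective.sumElim ?_
    (Function.Injective.sumElim ?_ ?_ ?_) ?_) ?_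
  · intro b c hbc
    cases b <;> cases c <;> simp_all
  · intro i j hij
    by_contra hne
    exact a.m5 h hne ⟨a.x i, LabSums_xC a i, hij ▸ LabSums_xC a i⟩
  · intro i j hij
    by_contra hne
    exact a.m3 h hne ⟨a.y i, LabSums_yA' a i, hij ▸ LabSums_yA' a i⟩
  · intro i j hij
    by_contra hne
    exact a.m4 h hne ⟨a.x i, LabSums_xB' a i, hij ▸ LabSums_xB' a i⟩
  · intro i j hij
    exact a.m1 h i ⟨a.x j, hij ▸ LabSums_xB' a j, LabSums_x a j⟩
  · rintro i (j | j) hij
    · have hij' : a.C i = a.A' j := hij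
      by_cases hne : i = j
      · subst hne
        exact a.CA' i hij'
      · exact a.m6 h (Ne.symm hne) ⟨a.x i, hij' ▸ LabSums_xC a i, LabSums_xC a i⟩
    · have hij' : a.C i = a.B' j := hij
      by_cases hne : i = j
      · subst hne
        exact a.CB' i hij'
      · exact a.m7 h (Ne.symm hne) ⟨a.x i, hij' ▸ LabSums_xC a i, LabSums_xC a i⟩
  · intro b
    rintro (j | j | j) hij
    · cases b
      · have hij' : a.B = a.C j := hij
        exact a.BC j hij'
      · have hij' : a.A = a.C j := hij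
        exact a.AC j hij'
    · cases b
      · have hij' : a.B = a.A' j := hij
        exact a.BA' j hij'
      · have hij' : a.A = a.A' j := hij
        exact a.m1 h j ⟨a.x 0, hij' ▸ LabSums_x a 0, LabSums_x a 0⟩
    · cases b
      · have hij' : a.B = a.B' j := hij
        exact a.m2 h j ⟨a.y 0, hij' ▸ LabSums_y a 0, LabSums_y a 0⟩
      · have hij' : a.A = a.B' j := hij
        exact a.AB' j hij'

private theorem LabSums_range (a : Lab I s) (l : L) :
    ¬ a.Skew l ↔ ∃ z, LabSums_f a z = l := by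
  constructor
  · intro hl
    by_cases hA : Meet I l a.A
    · obtain ⟨p, hp, hpA⟩ := hA
      obtain ⟨i, rfl⟩ := (a.xA p).1 hpA
      rcases (a.lx i l).1 hp with rfl | rfl | rfl
      · exact ⟨Sum.inl true, rfl⟩
      · exact ⟨Sum.inr (Sum.inl i), rfl⟩
      · exact ⟨Sum.inr (Sum.inr (Sum.inr i)), rfl⟩
    · by_cases hB : Meet I l a.B
      · obtain ⟨p, hp, hpB⟩ := hB
        obtain ⟨i, rfl⟩ := (a.yB p).1 hpB
        rcases (a.ly i l).1 hp with rfl | rfl | rfl
        · exact ⟨Sum.inl false, rfl⟩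
        · exact ⟨Sum.inr (Sum.inl i), rfl⟩
        · exact ⟨Sum.inr (Sum.inr (Sum.inl i)), rfl⟩
      · exact absurd ⟨hA, hB⟩ hl
  · rintro ⟨z, rfl⟩ ⟨hA, hB⟩
    rcases z with b | i | i | i
    · cases b
      · exact hB ⟨a.y 0, LabSums_y a 0, LabSums_y a 0⟩
      · exact hA ⟨a.x 0, LabSums_x a 0, LabSums_x a 0⟩
    · exact hA ⟨a.x i, LabSums_xC a i, LabSums_x a i⟩
    · exact hB ⟨a.y i, LabSums_yA' a i, LabSums_y a i⟩
    · exact hA ⟨a.x i, LabSums_xB' a i, LabSums_x a i⟩

theorem Lab.skew_card [Finite P] [Fintype L] [Nonempty P] (h : IsGQ I s 2) (hs : 1 ≤ s)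
    (a : Lab I s) : (univ.filter (fun l => a.Skew l)).card = 3 * s - 2 := by
  have hL := h.card_lines
  rw [Nat.card_eq_fintype_card] at hL
  have h1 : univ.filter (fun l => a.Skew l) =
      univ \ (univ.map ⟨LabSums_f a, LabSums_inj h a⟩) := by
    ext l
    simp only [mem_filter, mem_univ, true_and, mem_sdiff, mem_map, Function.Embedding.coeFn_mk]
    rw [← LabSums_range, not_not]
  rw [h1, card_sdiff_of_subset (subset_univ _), card_map, card_univ, card_univ, hL]
  simp only [Fintype.card_sum, Fintype.card_bool, Fintype.card_fin]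
  omega

theorem Lab.meetB (h : IsGQ I s 2) (a : Lab I s) {l : L} (hl : a.Skew l) (i) :
    Meet I l (a.B' i) ↔ ¬ Meet I l (a.C i) := by
  have hx : ¬ I (a.x i) l := fun h0 => hl.1 ⟨a.x i, h0, LabSums_x a i⟩
  constructor
  · rintro ⟨q, hq, hq'⟩ ⟨r, hr, hr'⟩
    exact a.CB' i (h.proj_unique hx hr (LabSums_xC a i) hr' hq (LabSums_xB' a i) hq').2
  · intro hC
    obtain ⟨q, m, h1, h2, h3⟩ := h.exists_proj hx
    rcases (a.lx i m).1 h2 with rfl | rfl | rfl
    · exact absurd ⟨q, h1, h3⟩ hl.1
    · exact absurd ⟨q, h1, h3⟩ hC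
    · exact ⟨q, h1, h3⟩

theorem Lab.meetA (h : IsGQ I s 2) (a : Lab I s) {l : L} (hl : a.Skew l) (i) :
    Meet I l (a.A' i) ↔ ¬ Meet I l (a.C i) := by
  have hy : ¬ I (a.y i) l := fun h0 => hl.2 ⟨a.y i, h0, LabSums_y a i⟩
  constructor
  · rintro ⟨q, hq, hq'⟩ ⟨r, hr, hr'⟩
    exact a.CA' i (h.proj_unique hy hr (LabSums_yC a i) hr' hq (LabSums_yA' a i) hq').2
  · intro hC
    obtain ⟨q, m, h1, h2, h3⟩ := h.exists_proj hy
    rcases (a.ly i m).1 h2 with rfl | rfl | rfl
    · exact absurd ⟨q, h1, h3⟩ hl.2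
    · exact absurd ⟨q, h1, h3⟩ hC
    · exact ⟨q, h1, h3⟩


end H60GQ
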