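import Pool.Agent.H60.GQ.LabSums

/-!
Project GQ (MP_a3aa3c_co), module LabSums2 (proof plan in LabSums.lean).
-/

namespace H60GQ

universe u v

open Finset Classical

variable {P : Type u} {L : Type v} {I : P → L → Prop} {s t : ℕ}

private theorem LabSums2_xA (a : Lab I s) (i) : I (a.x i) a.A := (a.xA _).2 ⟨i, rfl⟩

private theorem LabSums2_yB (a : Lab I s) (i) : I (a.y i) a.B := (a.yB _).2 ⟨i, rfl⟩

private theorem LabSums2_xC (a : Lab I s) (i) : I (a.x i) (a.C i) :=
  (a.lx i _).2 (Or.inr (Or.inl rfl))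

private theorem LabSums2_yC (a : Lab I s) (i) : I (a.y i) (a.C i) :=
  (a.ly i _).2 (Or.inr (Or.inl rfl))

private theorem LabSums2_ne (a : Lab I s) (i) : a.x i ≠ a.y i := by
  intro e
  exact a.disj ⟨a.x i, LabSums2_xA a i, e ▸ LabSums2_yB a i⟩

/-- lines through a further point of `C i` are skew. -/
private theorem LabSums2_skew (h : IsGQ I s 2) (a : Lab I s) (i) {w : P} {l : L}
    (hw : I w (a.C i)) (hx : w ≠ a.x i) (hy : w ≠ a.y i) (hl : I w l) (hlC : l ≠ a.C i) :
    a.Skew l := by
  constructor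
  · rintro ⟨p, hpl, hpA⟩
    obtain ⟨j, rfl⟩ := (a.xA p).1 hpA
    by_cases hji : j = i
    · subst hji
      exact hlC (h.unique w (a.x j) l (a.C j) hx hl hpl hw (LabSums2_xC a j))
    · have hxx : a.x i ≠ a.x j := fun e => hji (a.x_inj e).symm
      have hwj : w ≠ a.x j := by
        intro e
        rw [e] at hw
        exact a.AC i (h.unique (a.x i) (a.x j) a.A (a.C i) hxx (LabSums2_xA a i)
          (LabSums2_xA a j) (LabSums2_xC a i) hw)
      have := h.no_triangle hx hwj hxx hw (LabSums2_xC a i) (LabSums2_xA a i)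
        (LabSums2_xA a j) hl hpl
      exact a.AC i this.1.symm
  · rintro ⟨p, hpl, hpB⟩
    obtain ⟨j, rfl⟩ := (a.yB p).1 hpB
    by_cases hji : j = i
    · subst hji
      exact hlC (h.unique w (a.y j) l (a.C j) hy hl hpl hw (LabSums2_yC a j))
    · have hyy : a.y i ≠ a.y j := fun e => hji (a.y_inj e).symm
      have hwj : w ≠ a.y j := by
        intro e
        rw [e] at hw
        exact a.BC i (h.unique (a.y i) (a.y j) a.B (a.C i) hyy (LabSums2_yB a i)
          (LabSums2_yB a j) (LabSums2_yC a i) hw)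
      have := h.no_triangle hy hwj hyy hw (LabSums2_yC a i) (LabSums2_yB a i)
        (LabSums2_yB a j) hl hpl
      exact a.BC i this.1.symm

/-- a skew line is not `C i` and meets it in a further point. -/
private theorem LabSums2_pt (a : Lab I s) (i) {w : P} {l : L}
    (hs : a.Skew l) (hl : I w l) : w ≠ a.x i ∧ w ≠ a.y i ∧ l ≠ a.C i := by
  refine ⟨?_, ?_, ?_⟩
  · intro e
    exact hs.1 ⟨w, hl, e ▸ LabSums2_xA a i⟩
  · intro e
    exact hs.2 ⟨w, hl, e ▸ LabSums2_yB a i⟩
  · intro e
    rw [e] at hs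
    exact hs.1 ⟨a.x i, LabSums2_xC a i, LabSums2_xA a i⟩

/-- the further points of `C i`. -/
private noncomputable def LabSums2_W [Fintype P] (a : Lab I s) (i : Fin (s + 1)) : Finset P :=
  univ.filter fun w => I w (a.C i) ∧ w ≠ a.x i ∧ w ≠ a.y i

private theorem LabSums2_W_card [Fintype P] (h : IsGQ I s 2) (a : Lab I s) (i : Fin (s + 1)) :
    (LabSums2_W a i).card = s - 1 := by
  have h1 : (univ.filter fun w => I w (a.C i)).card = s + 1 := by
    rw [← h.line_card (a.C i), Set.ncard_eq_toFinset_card']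
    congr 1
    ext w
    simp
  have h2 : LabSums2_W a i = ((univ.filter fun w => I w (a.C i)).erase (a.x i)).erase (a.y i) := by
    ext w
    simp only [LabSums2_W, mem_filter, mem_univ, true_and, mem_erase]
    tauto
  rw [h2, card_erase_of_mem, card_erase_of_mem, h1]
  · omega
  · simp [LabSums2_xC a i]
  · simp [LabSums2_yC a i, (LabSums2_ne a i).symm]

private theorem LabSums2_lines [Fintype L] (h : IsGQ I s 2) (w : P) :
    (univ.filter fun l => I w l).card = 3 := by
  have h1 : {l | I w l}.ncard = 3 := h.point_card w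
  rw [← h1, Set.ncard_eq_toFinset_card']
  congr 1
  ext l
  simp

private theorem LabSums2_one [Finite P] [Fintype L] (h : IsGQ I s 2) (a : Lab I s)
    (i : Fin (s + 1)) :
    ((univ.filter fun l => a.Skew l).filter fun l => Meet I l (a.C i)).card = 2 * (s - 1) := by
  have : Fintype P := Fintype.ofFinite P
  have h1 : ((univ.filter fun l => a.Skew l).filter fun l => Meet I l (a.C i)) =
      (LabSums2_W a i).biUnion fun w => univ.filter fun l => I w l ∧ l ≠ a.C i := by
    ext l
    simp only [mem_filter, mem_univ, true_and, mem_biUnion, LabSums2_W]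
    constructor
    · rintro ⟨hs, w, hwl, hwC⟩
      obtain ⟨h2, h3, h4⟩ := LabSums2_pt a i hs hwl
      exact ⟨w, ⟨hwC, h2, h3⟩, hwl, h4⟩
    · rintro ⟨w, ⟨hwC, h2, h3⟩, hwl, h4⟩
      exact ⟨LabSums2_skew h a i hwC h2 h3 hwl h4, w, hwl, hwC⟩
  rw [h1, card_biUnion]
  · have h2 : ∀ w ∈ LabSums2_W a i,
        (univ.filter fun l => I w l ∧ l ≠ a.C i).card = 2 := by
      intro w hw
      have hw' : I w (a.C i) := by
        have := hw
        simp only [LabSums2_W, mem_filter, mem_univ, true_and] at this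
        exact this.1
      have h3 : (univ.filter fun l => I w l ∧ l ≠ a.C i) =
          (univ.filter fun l => I w l).erase (a.C i) := by
        ext l
        simp only [mem_filter, mem_univ, true_and, mem_erase]
        tauto
      rw [h3, card_erase_of_mem (by simp [hw']), LabSums2_lines h w]
    rw [sum_congr rfl h2, sum_const, LabSums2_W_card h a i, smul_eq_mul, mul_comm]
  · intro w hw w' hw' hne
    simp only [LabSums2_W, mem_coe, mem_filter, mem_univ, true_and] at hw hw'
    rw [Function.onFun, disjoint_left]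
    intro l hl hl'
    simp only [mem_filter, mem_univ, true_and] at hl hl'
    exact hl.2 (h.unique w w' l (a.C i) hne hl.1 hl'.1 hw.1 hw'.1)

private theorem LabSums2_two [Finite P] [Fintype L] (h : IsGQ I s 2) (a : Lab I s)
    {i j : Fin (s + 1)} (hij : i ≠ j) :
    ((univ.filter fun l => a.Skew l).filter
      fun l => Meet I l (a.C i) ∧ Meet I l (a.C j)).card = s - 1 := by
  have : Fintype P := Fintype.ofFinite P
  have hnC : ∀ w, I w (a.C i) → ¬ I w (a.C j) := fun w h1 h2 => a.m5 h hij ⟨w, h1, h2⟩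
  have h1 : ((univ.filter fun l => a.Skew l).filter
      fun l => Meet I l (a.C i) ∧ Meet I l (a.C j)) =
      (LabSums2_W a i).biUnion fun w => univ.filter fun l => I w l ∧ Meet I l (a.C j) := by
    ext l
    simp only [mem_filter, mem_univ, true_and, mem_biUnion, LabSums2_W]
    constructor
    · rintro ⟨hs, ⟨w, hwl, hwC⟩, hm⟩
      obtain ⟨h2, h3, h4⟩ := LabSums2_pt a i hs hwl
      exact ⟨w, ⟨hwC, h2, h3⟩, hwl, hm⟩
    · rintro ⟨w, ⟨hwC, h2, h3⟩, hwl, hm⟩
      have h4 : l ≠ a.C i := by
        intro e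
        rw [e] at hm
        exact a.m5 h hij hm
      exact ⟨LabSums2_skew h a i hwC h2 h3 hwl h4, ⟨w, hwl, hwC⟩, hm⟩
  rw [h1, card_biUnion]
  · have h2 : ∀ w ∈ LabSums2_W a i,
        (univ.filter fun l => I w l ∧ Meet I l (a.C j)).card = 1 := by
      intro w hw
      have hw' : I w (a.C i) := by
        have := hw
        simp only [LabSums2_W, mem_filter, mem_univ, true_and] at this
        exact this.1
      obtain ⟨q, m, hq, hwm, hqm⟩ := h.exists_proj (hnC w hw')
      rw [card_eq_one]
      refine ⟨m, ?_⟩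
      ext l
      simp only [mem_filter, mem_univ, true_and, mem_singleton]
      constructor
      · rintro ⟨hwl, q', hq'l, hq'C⟩
        exact (h.proj_unique (hnC w hw') hq'C hwl hq'l hq hwm hqm).2
      · rintro rfl
        exact ⟨hwm, q, hqm, hq⟩
    rw [sum_congr rfl h2, sum_const, LabSums2_W_card h a i, smul_eq_mul, mul_one]
  · intro w hw w' hw' hne
    simp only [LabSums2_W, mem_coe, mem_filter, mem_univ, true_and] at hw hw'
    rw [Function.onFun, disjoint_left]
    intro l hl hl'
    simp only [mem_filter, mem_univ, true_and] at hl hl'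
    have e := h.unique w w' l (a.C i) hne hl.1 hl'.1 hw.1 hw'.1
    have hm := hl.2
    rw [e] at hm
    exact a.m5 h hij hm

theorem Lab.skew_sum [Finite P] [Fintype L] [Nonempty P] (h : IsGQ I s 2) (hs : 1 ≤ s)
    (a : Lab I s) : ∑ l ∈ univ.filter (fun l => a.Skew l), a.n l = (s + 1) * (2 * (s - 1)) := by
  have h1 : ∀ l ∈ univ.filter (fun l => a.Skew l), a.n l =
      ∑ i : Fin (s + 1), if Meet I l (a.C i) then 1 else 0 := by
    intro l _
    unfold Lab.n
    rw [card_filter]
  rw [sum_congr rfl h1, sum_comm]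
  have h2 : ∀ i ∈ (univ : Finset (Fin (s + 1))),
      (∑ l ∈ univ.filter (fun l => a.Skew l), if Meet I l (a.C i) then 1 else 0) =
        2 * (s - 1) := by
    intro i _
    rw [← card_filter]
    exact LabSums2_one h a i
  rw [sum_congr rfl h2, sum_const, card_univ, Fintype.card_fin, smul_eq_mul]

theorem Lab.skew_sum2 [Finite P] [Fintype L] [Nonempty P] (h : IsGQ I s 2) (hs : 1 ≤ s)
    (a : Lab I s) :
    ∑ l ∈ univ.filter (fun l => a.Skew l), a.n l * (a.n l - 1) = (s + 1) * s * (s - 1) := by
  have h1 : ∀ l ∈ univ.filter (fun l => a.Skew l), a.n l * (a.n l - 1) =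
      ∑ p ∈ (univ : Finset (Fin (s + 1))).offDiag,
        if Meet I l (a.C p.1) ∧ Meet I l (a.C p.2) then 1 else 0 := by
    intro l _
    unfold Lab.n
    rw [← card_filter, Nat.mul_sub, mul_one, ← offDiag_card]
    congr 1
    ext p
    simp only [mem_offDiag, mem_filter, mem_univ, true_and]
    tauto
  rw [sum_congr rfl h1, sum_comm]
  have h2 : ∀ p ∈ (univ : Finset (Fin (s + 1))).offDiag,
      (∑ l ∈ univ.filter (fun l => a.Skew l),
        if Meet I l (a.C p.1) ∧ Meet I l (a.C p.2) then 1 else 0) = s - 1 := by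
    intro p hp
    rw [← card_filter]
    exact LabSums2_two h a (mem_offDiag.1 hp).2.2
  rw [sum_congr rfl h2, sum_const, offDiag_card, card_univ, Fintype.card_fin, smul_eq_mul]
  have h3 : (s + 1) * (s + 1) - (s + 1) = (s + 1) * s := by
    rw [Nat.mul_succ (s + 1) s]
    simp
  rw [h3]

end H60GQ
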