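import Pool.Agent.H60.GQ.Lab

/-!
Project GQ (MP_a3aa3c_co), part 2, module TriadSums: for non-collinear p, y and the points z
collinear with neither p nor y, c(z) = number of common neighbours of p, y, z.

* `triad_card`: the points not collinear with p: s^2 t (`noncol_card`); among them y, and the
  (s - 1)(t + 1) points z ≠ y collinear with y (y has s (t + 1) neighbours, t + 1 of them are
  collinear with p, `nbr_card`, `common_card`).
* `triad_sum`: count pairs (w, z), w a common neighbour of p, y (t + 1, `common_card`), z collinear with w: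
  z is on one of the t - 1 lines through w other than w p, w y (w ≠ p, y and these two lines are
  different because p, y are not collinear), z ≠ w: s (t - 1) points, none collinear with p or y
  (no triangles).
* `triad_sum2`: count (w, w', z), w ≠ w' common neighbours of p, y; w, w' are not collinear (triangle with
  p: then w, w' are on a line with p and y would be on it, `mem_of_col`); they have t + 1 common
  neighbours, two of them p and y, and the other t - 1 are collinear with neither p nor y (a point z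
  collinear with w, w', p: z, w, p on a line and z, w', p on a line, so z = p).
-/

namespace H60GQ

universe u v

open Finset Classical

variable {P : Type u} {L : Type v} {I : P → L → Prop} {s t : ℕ}

/-- the number of common neighbours of `p`, `y`, `z` -/
noncomputable def cen (I : P → L → Prop) (p y z : P) : ℕ :=
  {w | Col I p w ∧ Col I y w ∧ Col I z w}.ncard

private lemma TriadSums_nc [Fintype P] (q : P → Prop) [DecidablePred q] :
    {m | q m}.ncard = (univ.filter q).card := by
  rw [← Set.ncard_coe_finset]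
  congr 1
  ext m
  simp

theorem triad_card [Fintype P] [Finite L] (h : IsGQ I s t) (hs : 1 ≤ s) {p y : P}
    (hpy : ¬ Col I p y) :
    (univ.filter (fun z => ¬ Col I p z ∧ ¬ Col I y z)).card + 1 + (s - 1) * (t + 1) =
      s ^ 2 * t := by
  have h1 := h.noncol_card p
  have h2 := h.nbr_card y
  have h3 := h.common_card hpy
  have e1 : {z | z ≠ y ∧ Col I y z} = {z | z ≠ y ∧ Col I y z ∧ ¬ Col I p z} ∪
      {z | Col I p z ∧ Col I y z} := by
    ext z
    simp only [Set.mem_setOf_eq, Set.mem_union]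
    constructor
    · rintro ⟨a, b⟩
      by_cases c : Col I p z
      · exact Or.inr ⟨c, b⟩
      · exact Or.inl ⟨a, b, c⟩
    · rintro (⟨a, b, -⟩ | ⟨a, b⟩)
      · exact ⟨a, b⟩
      · refine ⟨?_, b⟩
        rintro rfl
        exact hpy a
  have d1 : Disjoint {z | z ≠ y ∧ Col I y z ∧ ¬ Col I p z} {z | Col I p z ∧ Col I y z} := by
    rw [Set.disjoint_left]
    exact fun z hz hz' => hz.2.2 hz'.1
  rw [e1, Set.ncard_union_eq d1 (Set.toFinite _) (Set.toFinite _), h3] at h2
  have e2 : {z | ¬ Col I p z} = {z | ¬ Col I p z ∧ ¬ Col I y z} ∪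
      ({y} ∪ {z | z ≠ y ∧ Col I y z ∧ ¬ Col I p z}) := by
    ext z
    simp only [Set.mem_setOf_eq, Set.mem_union, Set.mem_singleton_iff]
    constructor
    · intro a
      by_cases b : Col I y z
      · by_cases c : z = y
        · exact Or.inr (Or.inl c)
        · exact Or.inr (Or.inr ⟨c, b, a⟩)
      · exact Or.inl ⟨a, b⟩
    · rintro (⟨a, -⟩ | rfl | ⟨-, -, a⟩)
      · exact a
      · exact hpy
      · exact a
  have d2 : Disjoint {z | ¬ Col I p z ∧ ¬ Col I y z}
      ({y} ∪ {z | z ≠ y ∧ Col I y z ∧ ¬ Col I p z}) := by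
    rw [Set.disjoint_left]
    rintro z ⟨-, a⟩ (b | b)
    · rw [Set.mem_singleton_iff] at b
      rw [b] at a
      exact a (h.col_refl y)
    · exact a b.2.1
  have d3 : Disjoint {y} {z | z ≠ y ∧ Col I y z ∧ ¬ Col I p z} := by
    rw [Set.disjoint_left]
    intro z a b
    exact b.1 a
  rw [e2, Set.ncard_union_eq d2 (Set.toFinite _) (Set.toFinite _),
    Set.ncard_union_eq d3 (Set.toFinite _) (Set.toFinite _), Set.ncard_singleton,
    TriadSums_nc (fun z => ¬ Col I p z ∧ ¬ Col I y z)] at h1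
  obtain ⟨r, rfl⟩ := Nat.exists_eq_add_of_le' hs
  rw [Nat.add_sub_cancel]
  have e3 : (r + 1) * (t + 1) = r * (t + 1) + (t + 1) := by ring
  rw [e3] at h2
  omega

/-- the points collinear with two collinear points -/
private lemma TriadSums_line [Fintype P] [Finite L] (h : IsGQ I s t) {w p : P} (hwp : w ≠ p)
    (c : Col I w p) : {z | z ≠ w ∧ Col I w z ∧ Col I p z}.ncard = s := by
  obtain ⟨l, hw, hp⟩ := c
  have e : {z | z ≠ w ∧ Col I w z ∧ Col I p z} = {z | I z l} \ {w} := by
    ext z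
    simp only [Set.mem_setOf_eq, Set.mem_diff, Set.mem_singleton_iff]
    constructor
    · rintro ⟨a, b, c⟩
      exact ⟨h.mem_of_col hwp hw hp b.symm c.symm, a⟩
    · rintro ⟨a, b⟩
      exact ⟨b, ⟨l, hw, a⟩, ⟨l, hp, a⟩⟩
  rw [e, Set.ncard_diff_singleton_of_mem (show w ∈ {z | I z l} from hw), h.line_card]
  rfl

private lemma TriadSums_one [Fintype P] [Finite L] (h : IsGQ I s t) (ht : 1 ≤ t) {p y : P}
    (hpy : ¬ Col I p y) {w : P} (hp : Col I p w) (hy : Col I y w) :
    {z | (¬ Col I p z ∧ ¬ Col I y z) ∧ Col I z w}.ncard = s * (t - 1) := by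
  have hwp : w ≠ p := by
    rintro rfl
    exact hpy hy.symm
  have hwy : w ≠ y := by
    rintro rfl
    exact hpy hp
  have h1 := h.nbr_card w
  have h2 := TriadSums_line h hwp hp.symm
  have h3 := TriadSums_line h hwy hy.symm
  have e : {z | z ≠ w ∧ Col I w z} = {z | (¬ Col I p z ∧ ¬ Col I y z) ∧ Col I z w} ∪
      ({z | z ≠ w ∧ Col I w z ∧ Col I p z} ∪ {z | z ≠ w ∧ Col I w z ∧ Col I y z}) := by
    ext z
    simp only [Set.mem_setOf_eq, Set.mem_union]
    constructor
    · rintro ⟨a, b⟩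
      by_cases c : Col I p z
      · exact Or.inr (Or.inl ⟨a, b, c⟩)
      · by_cases d : Col I y z
        · exact Or.inr (Or.inr ⟨a, b, d⟩)
        · exact Or.inl ⟨⟨c, d⟩, b.symm⟩
    · rintro (⟨⟨a, b⟩, c⟩ | ⟨a, b, -⟩ | ⟨a, b, -⟩)
      · refine ⟨?_, c.symm⟩
        rintro rfl
        exact a hp
      · exact ⟨a, b⟩
      · exact ⟨a, b⟩
  have d1 : Disjoint {z | (¬ Col I p z ∧ ¬ Col I y z) ∧ Col I z w}
      ({z | z ≠ w ∧ Col I w z ∧ Col I p z} ∪ {z | z ≠ w ∧ Col I w z ∧ Col I y z}) := by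
    rw [Set.disjoint_left]
    rintro z ⟨⟨a, b⟩, -⟩ (c | c)
    · exact a c.2.2
    · exact b c.2.2
  have d2 : Disjoint {z | z ≠ w ∧ Col I w z ∧ Col I p z} {z | z ≠ w ∧ Col I w z ∧ Col I y z} := by
    rw [Set.disjoint_left]
    rintro z ⟨a, b, c⟩ ⟨-, -, d⟩
    obtain ⟨l, hl, hl'⟩ := b
    exact hpy ⟨l, h.mem_of_col a hl' hl c hp, h.mem_of_col a hl' hl d hy⟩
  rw [e, Set.ncard_union_eq d1 (Set.toFinite _) (Set.toFinite _),
    Set.ncard_union_eq d2 (Set.toFinite _) (Set.toFinite _), h2, h3] at h1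
  obtain ⟨r, rfl⟩ := Nat.exists_eq_add_of_le' ht
  rw [Nat.add_sub_cancel]
  have e3 : s * (r + 1 + 1) = s * r + (s + s) := by ring
  rw [e3] at h1
  exact Nat.add_right_cancel h1

private lemma TriadSums_two [Fintype P] [Finite L] (h : IsGQ I s t) {p y : P}
    (hpy : ¬ Col I p y) {w w' : P} (hww : w ≠ w') (hp : Col I p w) (hy : Col I y w)
    (hp' : Col I p w') (hy' : Col I y w') :
    {z | (¬ Col I p z ∧ ¬ Col I y z) ∧ (Col I z w ∧ Col I z w')}.ncard = t - 1 := by
  have hnc : ¬ Col I w w' := by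
    rintro ⟨l, h1, h2⟩
    exact hpy ⟨l, h.mem_of_col hww h1 h2 hp hp', h.mem_of_col hww h1 h2 hy hy'⟩
  have h1 := h.common_card hnc
  have hne : p ≠ y := by
    rintro rfl
    exact hpy (h.col_refl p)
  have e : {r | Col I w r ∧ Col I w' r} =
      {z | (¬ Col I p z ∧ ¬ Col I y z) ∧ (Col I z w ∧ Col I z w')} ∪ {p, y} := by
    ext z
    simp only [Set.mem_setOf_eq, Set.mem_union, Set.mem_insert_iff, Set.mem_singleton_iff]
    constructor
    · rintro ⟨a, b⟩
      by_cases c : z = p
      · exact Or.inr (Or.inl c)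
      by_cases d : z = y
      · exact Or.inr (Or.inr d)
      refine Or.inl ⟨⟨?_, ?_⟩, a.symm, b.symm⟩
      · rintro ⟨l, h1, h2⟩
        exact hnc ⟨l, h.mem_of_col c h2 h1 a hp.symm, h.mem_of_col c h2 h1 b hp'.symm⟩
      · rintro ⟨l, h1, h2⟩
        exact hnc ⟨l, h.mem_of_col d h2 h1 a hy.symm, h.mem_of_col d h2 h1 b hy'.symm⟩
    · rintro (⟨-, a, b⟩ | rfl | rfl)
      · exact ⟨a.symm, b.symm⟩
      · exact ⟨hp.symm, hp'.symm⟩
      · exact ⟨hy.symm, hy'.symm⟩
  have d : Disjoint {z | (¬ Col I p z ∧ ¬ Col I y z) ∧ (Col I z w ∧ Col I z w')} {p, y} := by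
    rw [Set.disjoint_left]
    rintro z ⟨⟨a, b⟩, -⟩ hz
    rw [Set.mem_insert_iff, Set.mem_singleton_iff] at hz
    rcases hz with rfl | rfl
    · exact a (h.col_refl z)
    · exact b (h.col_refl z)
  rw [e, Set.ncard_union_eq d (Set.toFinite _) (Set.toFinite _), Set.ncard_pair hne] at h1
  omega

private lemma TriadSums_cen [Fintype P] (p y z : P) : cen I p y z =
    ((univ.filter (fun w => Col I p w ∧ Col I y w)).filter (fun w => Col I z w)).card := by
  unfold cen
  rw [TriadSums_nc (fun w => Col I p w ∧ Col I y w ∧ Col I z w), Finset.filter_filter]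
  congr 1
  ext w
  simp only [Finset.mem_filter, Finset.mem_univ, true_and, and_assoc]

theorem triad_sum [Fintype P] [Finite L] (h : IsGQ I s t) (ht : 1 ≤ t) {p y : P}
    (hpy : ¬ Col I p y) :
    ∑ z ∈ univ.filter (fun z => ¬ Col I p z ∧ ¬ Col I y z), cen I p y z =
      (t + 1) * (s * (t - 1)) := by
  have h1 : ∀ z, cen I p y z = ∑ w ∈ univ.filter (fun w => Col I p w ∧ Col I y w),
      if Col I z w then 1 else 0 := by
    intro z
    rw [TriadSums_cen, Finset.card_filter]
  rw [Finset.sum_congr rfl fun z _ => h1 z, Finset.sum_comm]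
  have h2 : ∀ w ∈ univ.filter (fun w => Col I p w ∧ Col I y w),
      (∑ z ∈ univ.filter (fun z => ¬ Col I p z ∧ ¬ Col I y z), if Col I z w then 1 else 0) =
        s * (t - 1) := by
    intro w hw
    rw [Finset.mem_filter] at hw
    rw [← Finset.card_filter, Finset.filter_filter]
    exact (TriadSums_nc (fun z => (¬ Col I p z ∧ ¬ Col I y z) ∧ Col I z w)).symm.trans
      (TriadSums_one h ht hpy hw.2.1 hw.2.2)
  rw [Finset.sum_congr rfl h2, Finset.sum_const, smul_eq_mul]
  congr 1
  exact (TriadSums_nc (fun w => Col I p w ∧ Col I y w)).symm.trans (h.common_card hpy)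

theorem triad_sum2 [Fintype P] [Finite L] (h : IsGQ I s t) (ht : 1 ≤ t) {p y : P}
    (hpy : ¬ Col I p y) :
    ∑ z ∈ univ.filter (fun z => ¬ Col I p z ∧ ¬ Col I y z), cen I p y z * (cen I p y z - 1) =
      (t + 1) * t * (t - 1) := by
  have h1 : ∀ z, cen I p y z * (cen I p y z - 1) =
      ∑ x ∈ (univ.filter (fun w => Col I p w ∧ Col I y w)).offDiag,
        if Col I z x.1 ∧ Col I z x.2 then 1 else 0 := by
    intro z
    rw [← Finset.card_filter, TriadSums_cen, Nat.mul_sub_one, ← Finset.offDiag_card]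
    congr 1
    ext x
    simp only [Finset.mem_offDiag, Finset.mem_filter, Finset.mem_univ, true_and]
    tauto
  rw [Finset.sum_congr rfl fun z _ => h1 z, Finset.sum_comm]
  have h2 : ∀ x ∈ (univ.filter (fun w => Col I p w ∧ Col I y w)).offDiag,
      (∑ z ∈ univ.filter (fun z => ¬ Col I p z ∧ ¬ Col I y z),
        if Col I z x.1 ∧ Col I z x.2 then 1 else 0) = t - 1 := by
    intro x hx
    rw [Finset.mem_offDiag, Finset.mem_filter, Finset.mem_filter] at hx
    obtain ⟨⟨-, a, b⟩, ⟨-, c, d⟩, e⟩ := hx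
    rw [← Finset.card_filter, Finset.filter_filter]
    exact (TriadSums_nc (fun z => (¬ Col I p z ∧ ¬ Col I y z) ∧
      (Col I z x.1 ∧ Col I z x.2))).symm.trans (TriadSums_two h hpy e a b c d)
  rw [Finset.sum_congr rfl h2, Finset.sum_const, smul_eq_mul, Finset.offDiag_card]
  have h3 : (univ.filter (fun w => Col I p w ∧ Col I y w)).card = t + 1 :=
    (TriadSums_nc (fun w => Col I p w ∧ Col I y w)).symm.trans (h.common_card hpy)
  rw [h3]
  congr 1
  have : (t + 1) * (t + 1) = (t + 1) * t + (t + 1) := by ring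
  rw [this, Nat.add_sub_cancel]

end H60GQ
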