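import Pool.Agent.H60.GQ.CoregOdd
import Pool.Agent.H60.GQ.TriadSums

/-!
Project GQ (MP_a3aa3c_co), part 2, module MainCoreg.

t = 11: `coreg_odd`. t = 12: let p be coregular, y not collinear with p (exists: `noncol_card`). For the
152 points z collinear with neither, c = cen p y z is odd (`parity`, t + 1 = 13 odd), so
(c - 3)(c - 5) ≥ 0 (integers); but the sum is ∑ c (c - 1) - 7 ∑ c + 15 * 152
= 13 * 12 * 11 - 7 * 13 * 44 + 2280 = - 8 (`triad_card`: 192 - 1 - 39 = 152, `triad_sum`,
`triad_sum2`; c (c - 1) in ℕ and ℤ).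
-/

namespace H60GQ

universe u v

variable {P : Type u} {L : Type v} {I : P → L → Prop} {t : ℕ}

theorem main_coreg [Finite P] [Finite L] (h : IsGQ I 4 t) (ht : t = 11 ∨ t = 12) (p : P) :
    ¬ Coregular I 4 p := by
  classical
  rcases ht with rfl | rfl
  · exact coreg_odd h (by norm_num) (by norm_num) (by decide) (by decide) p
  · intro hc
    have : Fintype P := Fintype.ofFinite P
    have hne : {q | ¬ Col I p q}.ncard ≠ 0 := by
      rw [h.noncol_card p]
      norm_num
    obtain ⟨y, hy⟩ := Set.nonempty_of_ncard_ne_zero hne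
    have hy' : ¬ Col I p y := hy
    have c1 := triad_card h (by norm_num) hy'
    have c2 := triad_sum h (by norm_num) hy'
    have c3 := triad_sum2 h (by norm_num) hy'
    set S := Finset.univ.filter (fun z => ¬ Col I p z ∧ ¬ Col I y z) with hS
    have hpos : ∀ z ∈ S, (0 : ℤ) ≤ (cen I p y z : ℤ) * ((cen I p y z : ℤ) - 1) -
        7 * (cen I p y z : ℤ) + 15 := by
      intro z hz
      rw [hS, Finset.mem_filter] at hz
      have hpar := parity h (by norm_num) hc hy' hz.2.1 hz.2.2
      have hodd : Even (cen I p y z + 13) := hpar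
      obtain ⟨r, hr⟩ := hodd
      have h1 : (cen I p y z : ℤ) ≤ 3 ∨ 5 ≤ (cen I p y z : ℤ) := by omega
      rcases h1 with h1 | h1
      · nlinarith
      · nlinarith
    have hsum := Finset.sum_nonneg hpos
    have e1 : ∀ z ∈ S, ((cen I p y z * (cen I p y z - 1) : ℕ) : ℤ) =
        (cen I p y z : ℤ) * ((cen I p y z : ℤ) - 1) := by
      intro z _
      rcases Nat.eq_zero_or_pos (cen I p y z) with h0 | h0
      · rw [h0]; simp
      · rw [Nat.cast_mul, Nat.cast_sub h0]; simp
    have e2 : ∑ z ∈ S, (cen I p y z : ℤ) * ((cen I p y z : ℤ) - 1) = 1716 := by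
      rw [← Finset.sum_congr rfl e1, ← Nat.cast_sum, c3]
      norm_num
    have e3 : ∑ z ∈ S, (cen I p y z : ℤ) = 572 := by
      rw [← Nat.cast_sum, c2]
      norm_num
    have e4 : (S.card : ℤ) = 152 := by
      have : S.card = 152 := by omega
      rw [this]; norm_num
    rw [Finset.sum_add_distrib, Finset.sum_sub_distrib, ← Finset.mul_sum, e2, e3,
      Finset.sum_const, nsmul_eq_mul, e4] at hsum
    norm_num at hsum

end H60GQ
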