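import Pool.Agent.H60.GQ.OvC

/-!
Project GQ (MP_a3aa3c_co), part 3, module MainOvoid: the linking numbers.

Let f be the partition of `ov_partition`. Two points x ≠ y of f i have 12 common neighbours
(`common_card`), none in f i, so 12 = ∑_{j ≠ i} nO (f j) x y.
* `link_same`: x ≠ y ∈ f i, j ≠ i: nO (f j) x y = 3. By `nO_34` for the ovoid f j all four numbers are
  3 or 4, and their sum is 12.
* `link_diff`: x ∈ f i, y ∈ f k, i ≠ k, not collinear, j ≠ i, k: nO (f j) x y = 4: the 12 common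
  neighbours are in the three ovoids f j, j ≠ i, k, and each of them contains 3 or 4 (`nO_34`).
* `link_col`: x ∈ f i, y ∈ f k, i ≠ k, collinear: the points collinear with both are those of the line
  x y; it has exactly one point in f j.
-/

namespace H60GQ

universe u v

variable {P : Type u} {L : Type v} {I : P → L → Prop} {s t : ℕ}

private theorem MainOvoid_col {O : Set P} (hO : Ovoid I O) {x y : P}
    (hx : x ∈ O) (hy : y ∈ O) (hc : Col I x y) : x = y := by
  obtain ⟨l, h1, h2⟩ := hc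
  obtain ⟨p, -, hp⟩ := hO l
  exact (hp x ⟨hx, h1⟩).trans (hp y ⟨hy, h2⟩).symm

private theorem MainOvoid_sum [Finite P] [Finite L] (h : IsGQ I 4 11) {f : Fin 5 → Set P}
    (hp : ∀ x, ∃! i, x ∈ f i) {x y : P} (hxy : ¬ Col I x y) :
    ∑ j, nO I (f j) x y = 12 := by
  classical
  have _ := Fintype.ofFinite P
  have hc := h.common_card hxy
  choose g hg hu using hp
  have h1 : {r | Col I x r ∧ Col I y r}.ncard =
      (Finset.univ.filter (fun r => Col I x r ∧ Col I y r)).card := by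
    rw [← Set.ncard_coe_finset]
    congr 1
    ext r
    simp
  rw [h1, Finset.card_eq_sum_card_fiberwise (f := g) (t := Finset.univ) (by simp)] at hc
  refine Eq.trans ?_ hc
  apply Finset.sum_congr rfl
  intro j _
  rw [nO, ← Set.ncard_coe_finset]
  congr 1
  ext r
  simp only [Set.mem_ofPred_eq, Finset.coe_filter, Finset.mem_filter, Finset.mem_univ, true_and]
  constructor
  · rintro ⟨h1, h2, h3⟩
    exact ⟨⟨h2, h3⟩, (hu r j h1).symm⟩
  · rintro ⟨⟨h2, h3⟩, rfl⟩
    exact ⟨hg r, h2, h3⟩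

private theorem MainOvoid_zero {O : Set P} (hO : Ovoid I O) {x y : P}
    (hx : x ∈ O) (hxy : ¬ Col I x y) : nO I O x y = 0 := by
  rw [nO]
  have : {p | p ∈ O ∧ Col I x p ∧ Col I y p} = ∅ := by
    rw [Set.eq_empty_iff_forall_notMem]
    rintro p ⟨h1, h2, h3⟩
    have := MainOvoid_col hO hx h1 h2
    subst this
    exact hxy h3.symm
  rw [this, Set.ncard_empty]

private theorem MainOvoid_symm (O : Set P) (x y : P) : nO I O x y = nO I O y x := by
  rw [nO, nO]
  congr 1
  ext p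
  simp only [Set.mem_ofPred_eq]
  tauto

private theorem MainOvoid_out {f : Fin 5 → Set P} (hp : ∀ x, ∃! i, x ∈ f i) {i j : Fin 5}
    (hij : j ≠ i) {x : P} (hx : x ∈ f i) : x ∉ f j := by
  intro hj
  obtain ⟨k, -, hk⟩ := hp x
  exact hij ((hk j hj).trans (hk i hx).symm)

private theorem MainOvoid_arith1 (a : Fin 5 → ℕ) (hs : ∑ j, a j = 12) (i : Fin 5)
    (h3 : ∀ j, j ≠ i → 3 ≤ a j) (j : Fin 5) (hj : j ≠ i) : a j = 3 := by
  have hb : ∀ i : Fin 5, ∑ j : Fin 5, (if j = i then 0 else 3) = 12 := by decide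
  have hle : ∀ j ∈ (Finset.univ : Finset (Fin 5)), (if j = i then 0 else 3) ≤ a j := by
    intro j _
    split_ifs with hji
    · exact Nat.zero_le _
    · exact h3 j hji
  have := (Finset.sum_eq_sum_iff_of_le hle).1 ((hb i).trans hs.symm) j (Finset.mem_univ _)
  rw [if_neg hj] at this
  exact this.symm

private theorem MainOvoid_arith2 (a : Fin 5 → ℕ) (hs : ∑ j, a j = 12) (i k : Fin 5) (hik : i ≠ k)
    (h0 : a i = 0) (h0' : a k = 0)
    (h3 : ∀ j, j ≠ i → j ≠ k → a j ≤ 4) (j : Fin 5) (hj : j ≠ i) (hk : j ≠ k) : a j = 4 := by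
  have hb : ∀ i k : Fin 5, i ≠ k → ∑ j : Fin 5, (if j = i ∨ j = k then 0 else 4) = 12 := by decide
  have hle : ∀ j ∈ (Finset.univ : Finset (Fin 5)), a j ≤ (if j = i ∨ j = k then 0 else 4) := by
    intro j _
    split_ifs with hji
    · rcases hji with rfl | rfl
      · exact h0.le
      · exact h0'.le
    · push Not at hji
      exact h3 j hji.1 hji.2
  have := (Finset.sum_eq_sum_iff_of_le hle).1 (hs.trans (hb i k hik).symm) j (Finset.mem_univ _)
  rw [if_neg (by push Not; exact ⟨hj, hk⟩)] at this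
  exact this

theorem link_same [Finite P] [Finite L] [Nonempty P] (h : IsGQ I 4 11) {f : Fin 5 → Set P}
    (hf : ∀ i, Ovoid I (f i)) (hp : ∀ x, ∃! i, x ∈ f i) {i j : Fin 5} (hij : j ≠ i) {x y : P}
    (hx : x ∈ f i) (hy : y ∈ f i) (hxy : x ≠ y) : nO I (f j) x y = 3 := by
  have hxy' : ¬ Col I x y := fun hc => hxy (MainOvoid_col (hf i) hx hy hc)
  refine MainOvoid_arith1 (fun j => nO I (f j) x y) (MainOvoid_sum h hp hxy') i
    ?_ j hij
  intro j' hj'
  rcases nO_34 h (hf j') (MainOvoid_out hp hj' hx) (MainOvoid_out hp hj' hy) hxy' with e | e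
  · exact e.ge
  · show 3 ≤ nO I (f j') x y
    omega

theorem link_diff [Finite P] [Finite L] [Nonempty P] (h : IsGQ I 4 11) {f : Fin 5 → Set P}
    (hf : ∀ i, Ovoid I (f i)) (hp : ∀ x, ∃! i, x ∈ f i) {i j k : Fin 5} (hik : i ≠ k)
    (hij : j ≠ i) (hkj : j ≠ k) {x y : P} (hx : x ∈ f i) (hy : y ∈ f k) (hxy : ¬ Col I x y) :
    nO I (f j) x y = 4 := by
  have h0 : nO I (f k) x y = 0 := by
    rw [MainOvoid_symm]
    exact MainOvoid_zero (hf k) hy (fun hc => hxy hc.symm)
  refine MainOvoid_arith2 (fun j => nO I (f j) x y) (MainOvoid_sum h hp hxy) i k hik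
    (MainOvoid_zero (hf i) hx hxy) h0 ?_ j hij hkj
  intro j' hj' hk'
  rcases nO_34 h (hf j') (MainOvoid_out hp hj' hx) (MainOvoid_out hp hk' hy) hxy with e | e
  · show nO I (f j') x y ≤ 4
    omega
  · exact e.le

theorem link_col [Finite P] [Finite L] [Nonempty P] (h : IsGQ I 4 11) {f : Fin 5 → Set P}
    (hf : ∀ i, Ovoid I (f i)) (hp : ∀ x, ∃! i, x ∈ f i) {i j k : Fin 5} (hik : i ≠ k)
    (hij : j ≠ i) (hkj : j ≠ k) {x y : P} (hx : x ∈ f i) (hy : y ∈ f k) (hxy : Col I x y) :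
    nO I (f j) x y = 1 := by
  have hne : x ≠ y := by
    rintro rfl
    obtain ⟨m, -, hm⟩ := hp x
    exact hik ((hm i hx).trans (hm k hy).symm)
  obtain ⟨l, h1, h2⟩ := hxy
  obtain ⟨p, ⟨hp1, hp2⟩, hp3⟩ := hf j l
  rw [nO]
  have : {p | p ∈ f j ∧ Col I x p ∧ Col I y p} = {p} := by
    ext q
    simp only [Set.mem_ofPred_eq, Set.mem_singleton_iff]
    constructor
    · rintro ⟨g1, g2, g3⟩
      exact hp3 q ⟨g1, h.mem_of_col hne h1 h2 g2.symm g3.symm⟩
    · rintro rfl
      exact ⟨hp1, ⟨l, h1, hp2⟩, ⟨l, h2, hp2⟩⟩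
  rw [this, Set.ncard_singleton]

/-- a quadrangle of order (4, 11) with an ovoid is partitioned in five ovoids, and they form a linked
system of symmetric designs with parameters (45, 12, 3) -/
theorem main_ovoid [Finite P] [Finite L] [Nonempty P] (h : IsGQ I 4 11) {O : Set P}
    (hO : Ovoid I O) : ∃ f : Fin 5 → Set P, f 0 = O ∧ (∀ i, Ovoid I (f i)) ∧
      (∀ x, ∃! i, x ∈ f i) ∧
      (∀ i j x y, j ≠ i → x ∈ f i → y ∈ f i → x ≠ y → nO I (f j) x y = 3) ∧
      (∀ i j k x y, i ≠ k → j ≠ i → j ≠ k → x ∈ f i → y ∈ f k → ¬ Col I x y →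
        nO I (f j) x y = 4) ∧
      (∀ i j k x y, i ≠ k → j ≠ i → j ≠ k → x ∈ f i → y ∈ f k → Col I x y →
        nO I (f j) x y = 1) := by
  obtain ⟨f, h0, hf, hp, -⟩ := ov_partition h hO
  exact ⟨f, h0, hf, hp, fun i j x y hij hx hy hxy => link_same h hf hp hij hx hy hxy,
    fun i j k x y hik hij hkj hx hy hxy => link_diff h hf hp hik hij hkj hx hy hxy,
    fun i j k x y hik hij hkj hx hy hxy => link_col h hf hp hik hij hkj hx hy hxy⟩

end H60GQ
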