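import Pool.Agent.H60.GQ.C42b
import Pool.Agent.H60.GQ.C42c

/-!
Project GQ (MP_a3aa3c_co), module No42: a quadrangle of order (4, t) with 8 < t < 32 has no
subquadrangle of order (4, 2).

Proof: `hermAbs` gives Herm, `HermData`. `ext_card`: |P \ P'| = 20 t - 40 > 0, so by `five` HH is
nonempty. Count pairs (x, p), x in HH, p in Ox x: 9 |HH| = 45 * 24 (`ovoid`, `ovoid_card`, `six`,
|P'| = 45 by `card_pts`), so |HH| = 120 and 600 = 20 t - 40, t = 32.
-/

namespace H60GQ

universe u v

variable {P : Type u} {L : Type v} {I : P → L → Prop} {t : ℕ} {P' : Set P} {L' : Set L}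

theorem no42 [Finite P] [Finite L] (h : IsGQ I 4 t) (h8 : 8 < t) (h32 : t < 32) :
    ¬ SubGQ I P' L' 4 2 := by
  classical
  intro hs
  obtain ⟨Herm, H1, H2⟩ := hermAbs hs
  have hd : HermData I P' L' Herm := ⟨H1, H2⟩
  have h5 := five h hs hd h8
  have he := ext_card h hs
  have hne : (HH I P' Herm).ncard ≠ 0 := by omega
  obtain ⟨x0, hx0⟩ := Set.nonempty_of_ncard_ne_zero hne
  have h45 : P'.ncard = 45 := hs.card_pts
  have key := Finset.sum_card_bipartiteAbove_eq_sum_card_bipartiteBelow
    (s := (Set.toFinite (HH I P' Herm)).toFinset) (t := (Set.toFinite P').toFinset)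
    (fun x p => Col I p x)
  have h1 : ∀ x ∈ (Set.toFinite (HH I P' Herm)).toFinset,
      ((Set.toFinite P').toFinset.bipartiteAbove (fun x p => Col I p x) x).card = 9 := by
    intro x hx
    have hx' : x ∈ HH I P' Herm := by simpa using hx
    have h2 : (Ox I P' x).ncard = 9 := ovoid_card hs (ovoid h hs hx'.1)
    rw [← h2, Set.ncard_eq_toFinset_card _ (Set.toFinite (Ox I P' x))]
    congr 1
    ext p
    simp [Finset.mem_bipartiteAbove, Ox]
  have h2 : ∀ p ∈ (Set.toFinite P').toFinset,
      ((Set.toFinite (HH I P' Herm)).toFinset.bipartiteBelow (fun x p => Col I p x) p).card =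
        24 := by
    intro p hp
    have hp' : p ∈ P' := by simpa using hp
    have h3 := six h hs hd hx0 hp'
    rw [← h3, Set.ncard_eq_toFinset_card _
      (Set.toFinite {x | x ∈ HH I P' Herm ∧ Col I p x})]
    congr 1
    ext x
    simp [Finset.mem_bipartiteBelow]
  rw [Finset.sum_congr rfl h1, Finset.sum_congr rfl h2, Finset.sum_const, Finset.sum_const,
    ← Set.ncard_eq_toFinset_card, ← Set.ncard_eq_toFinset_card, h45, smul_eq_mul,
    smul_eq_mul] at key
  omega

end H60GQ
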