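import Pool.Agent.H60.GQ.Counts

/-!
Project GQ (MP_a3aa3c_co), module No43: there is no generalized quadrangle of order (4, 3).

Proof (integrality of the multiplicities). |P| = 5 * 13 = 65. Let A be the 65 × 65 rational
adjacency matrix (A p q = 1 iff p ≠ q collinear), J the all-one matrix.
A^2 p q = number of r ≠ p, q collinear with both: 16 if p = q, 3 if p ≠ q collinear (the other
points of the line; no triangles), 4 if not collinear (`common_card`). So
A^2 = 16 I + 3 A + 4 (J - I - A), i.e. A^2 + A = 12 I + 4 J, and A J = J A = 16 J.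
Hence E = (1/7) (A + 4 I - (4/13) J) satisfies E^2 = E, and trace E = (65 * 4 - (4/13) * 65)/7 = 240/7
is not an integer; but the trace of an idempotent matrix over ℚ is its rank
(`LinearMap.IsProj.trace`, `LinearMap.IsIdempotentElem.isProj_range`, `Matrix.toLin'`), contradiction.
-/

namespace H60GQ

universe u v

variable {P : Type u} {L : Type v} {I : P → L → Prop}

private theorem No43_trace {n : Type*} [Fintype n] [DecidableEq n] (E : Matrix n n ℚ)
    (hE : E * E = E) : ∃ k : ℕ, Matrix.trace E = k := by
  have h1 : IsIdempotentElem (Matrix.toLin' E) := by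
    change Matrix.toLin' E * Matrix.toLin' E = Matrix.toLin' E
    rw [Module.End.mul_eq_comp, ← Matrix.toLin'_mul, hE]
  have h2 := LinearMap.IsIdempotentElem.isProj_range _ h1
  have h3 := h2.trace
  rw [Matrix.trace_toLin'_eq] at h3
  exact ⟨_, h3⟩

open Classical in
private theorem No43_count [Fintype P] (p q : P) :
    (∑ r, (if p ≠ r ∧ Col I p r then (1 : ℚ) else 0) * (if r ≠ q ∧ Col I r q then (1 : ℚ) else 0))
      = ({r | (p ≠ r ∧ Col I p r) ∧ (r ≠ q ∧ Col I r q)}.ncard : ℚ) := by
  rw [Set.ncard_eq_toFinset_card', Set.toFinset_ofPred, Finset.card_filter]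
  push_cast
  apply Finset.sum_congr rfl
  intro r _
  by_cases h1 : p ≠ r ∧ Col I p r <;> by_cases h2 : r ≠ q ∧ Col I r q <;> simp [h1, h2]

theorem no43 [Finite P] [Finite L] [Nonempty P] (h : IsGQ I 4 3) : False := by
  classical
  have := Fintype.ofFinite P
  have hcard : Fintype.card P = 65 := by
    have := h.card_points
    rw [Nat.card_eq_fintype_card] at this
    omega
  obtain ⟨A, hA⟩ : ∃ A : Matrix P P ℚ, ∀ p q, A p q = if p ≠ q ∧ Col I p q then 1 else 0 :=
    ⟨fun p q => if p ≠ q ∧ Col I p q then 1 else 0, fun _ _ => rfl⟩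
  obtain ⟨J, hJ⟩ : ∃ J : Matrix P P ℚ, ∀ p q, J p q = 1 := ⟨fun _ _ => 1, fun _ _ => rfl⟩
  have hdiag : ∀ p, {q | p ≠ q ∧ Col I p q}.ncard = 16 := by
    intro p
    have := h.nbr_card p
    have e : {q | p ≠ q ∧ Col I p q} = {q | q ≠ p ∧ Col I p q} := by
      ext q
      simp only [Set.mem_ofPred_eq, ne_comm]
    rw [e, this]
  have hAA : A * A = (12 : ℚ) • (1 : Matrix P P ℚ) + (4 : ℚ) • J - A := by
    ext p q
    rw [Matrix.mul_apply]
    have h0 := No43_count (I := I) p q
    simp only [hA]
    rw [h0]
    simp only [Matrix.add_apply, Matrix.sub_apply, Matrix.smul_apply, Matrix.one_apply, hJ, hA,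
      smul_eq_mul]
    by_cases hpq : p = q
    · subst hpq
      have e : {r | (p ≠ r ∧ Col I p r) ∧ (r ≠ p ∧ Col I r p)} = {r | p ≠ r ∧ Col I p r} := by
        ext r
        simp only [Set.mem_ofPred_eq]
        constructor
        · exact fun hh => hh.1
        · exact fun hh => ⟨hh, hh.1.symm, hh.2.symm⟩
      rw [e, hdiag p]
      norm_num
    · by_cases hc : Col I p q
      · obtain ⟨l, hl, hl'⟩ := hc
        have e : {r | (p ≠ r ∧ Col I p r) ∧ (r ≠ q ∧ Col I r q)} = {r | I r l} \ {p, q} := by
          ext r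
          simp only [Set.mem_ofPred_eq, Set.mem_sdiff, Set.mem_insert_iff, Set.mem_singleton_iff,
            not_or]
          constructor
          · rintro ⟨⟨a1, a2⟩, a3, a4⟩
            exact ⟨h.mem_of_col hpq hl hl' a2.symm a4, fun e => a1 e.symm, a3⟩
          · rintro ⟨a1, a2, a3⟩
            exact ⟨⟨fun e => a2 e.symm, l, hl, a1⟩, a3, l, a1, hl'⟩
        have hcd : ({r | I r l} \ {p, q}).ncard = 3 := by
          rw [Set.ncard_sdiff (by
            intro r hr
            simp only [Set.mem_insert_iff, Set.mem_singleton_iff] at hr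
            rcases hr with rfl | rfl
            · exact hl
            · exact hl'), h.line_card, Set.ncard_pair hpq]
        rw [e, hcd]
        have hc' : Col I p q := ⟨l, hl, hl'⟩
        simp only [hpq, hc', if_false, ne_eq, not_false_eq_true, and_self, if_true]
        norm_num
      · have e : {r | (p ≠ r ∧ Col I p r) ∧ (r ≠ q ∧ Col I r q)} =
            {r | Col I p r ∧ Col I q r} := by
          ext r
          simp only [Set.mem_ofPred_eq]
          constructor
          · rintro ⟨⟨_, a2⟩, _, a4⟩
            exact ⟨a2, a4.symm⟩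
          · rintro ⟨a1, a2⟩
            refine ⟨⟨?_, a1⟩, ?_, a2.symm⟩
            · rintro rfl
              exact hc a2.symm
            · rintro rfl
              exact hc a1
        rw [e, h.common_card hc]
        simp only [hpq, hc, if_false, and_false]
        norm_num
  have hrow : ∀ p, ∑ q, A p q = 16 := by
    intro p
    have e : ({q | p ≠ q ∧ Col I p q}.ncard : ℚ) = ∑ q, A p q := by
      rw [Set.ncard_eq_toFinset_card', Set.toFinset_ofPred, Finset.card_filter]
      push_cast
      apply Finset.sum_congr rfl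
      intro r _
      rw [hA]
    rw [← e, hdiag p]
    norm_num
  have hsymm : ∀ p q, A p q = A q p := by
    intro p q
    simp only [hA]
    have : (p ≠ q ∧ Col I p q) ↔ (q ≠ p ∧ Col I q p) :=
      ⟨fun hh => ⟨hh.1.symm, hh.2.symm⟩, fun hh => ⟨hh.1.symm, hh.2.symm⟩⟩
    simp only [this]
  have hAJ : A * J = (16 : ℚ) • J := by
    ext p q
    rw [Matrix.mul_apply]
    simp only [hJ, mul_one, Matrix.smul_apply, smul_eq_mul]
    exact hrow p
  have hJA : J * A = (16 : ℚ) • J := by
    ext p q
    rw [Matrix.mul_apply]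
    simp only [hJ, one_mul, mul_one, Matrix.smul_apply, smul_eq_mul]
    rw [← hrow q]
    exact Finset.sum_congr rfl fun r _ => hsymm r q
  have hJJ : J * J = (65 : ℚ) • J := by
    ext p q
    rw [Matrix.mul_apply]
    simp only [hJ, mul_one, Matrix.smul_apply, smul_eq_mul, Finset.sum_const, Finset.card_univ,
      hcard, nsmul_eq_mul]
    norm_num
  set E : Matrix P P ℚ := (1 / 7 : ℚ) • (A + (4 : ℚ) • (1 : Matrix P P ℚ) - (4 / 13 : ℚ) • J)
    with hEdef
  have hE : E * E = E := by
    rw [hEdef]
    simp only [smul_mul_assoc, mul_smul_comm, add_mul, mul_add, sub_mul, mul_sub, one_mul,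
      mul_one, hAA, hAJ, hJA, hJJ]
    module
  obtain ⟨k, hk⟩ := No43_trace E hE
  have htr : Matrix.trace E = 240 / 7 := by
    rw [hEdef, Matrix.trace_smul, Matrix.trace_sub, Matrix.trace_add, Matrix.trace_smul,
      Matrix.trace_smul, Matrix.trace_one, hcard]
    have t1 : Matrix.trace A = 0 := by
      rw [Matrix.trace]
      apply Finset.sum_eq_zero
      intro p _
      simp [hA]
    have t2 : Matrix.trace J = 65 := by
      rw [Matrix.trace]
      simp [hJ, hcard]
    rw [t1, t2]
    norm_num
  rw [htr] at hk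
  have h7 : (240 : ℚ) = 7 * k := by
    rw [← hk]
    norm_num
  have h8 : (240 : ℕ) = 7 * k := by exact_mod_cast h7
  omega

end H60GQ
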