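import Pool.Agent.H60.GQ.No22
import Pool.Agent.H60.GQ.Dicho
import Pool.Agent.H60.GQ.CaseSpr
import Pool.Agent.H60.GQ.No42
import Pool.Agent.H60.GQ.No43

/-!
Project GQ (MP_a3aa3c_co), helper60: a generalized quadrangle of order (4, 11) or (4, 12) has no
proper thick subquadrangle.
-/

namespace H60GQ

universe u v

variable {P : Type u} {L : Type v} {I : P → L → Prop} {s t s' t' : ℕ} {P' : Set P} {L' : Set L}

theorem main_sub [Finite P] [Finite L] (h : IsGQ I 4 t) (ht : t = 11 ∨ t = 12)
    (hs : SubGQ I P' L' s' t') (h2 : 2 ≤ s') (h2' : 2 ≤ t') :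
    P' = Set.univ ∧ L' = Set.univ := by
  by_contra hne
  have hsle := hs.s_le h
  rcases Nat.lt_or_ge s' 4 with hlt | hge
  · obtain ⟨rfl, rfl⟩ := params_lt h ht hs h2 hlt h2'
    obtain ⟨w⟩ := exists_W22 h hs
    rcases w.dichotomy h (by omega) hs with hw | hw
    · exact caseReg h ht hs w hw
    · obtain ⟨Q, K, hQ⟩ := caseSpr h (by omega) hs w hw
      exact no42 h (by omega) (by omega) hQ
  · obtain rfl : s' = 4 := by omega
    obtain ⟨hle, -⟩ := le_of_full h hs (by norm_num) hne
    have ht' : t' = 2 ∨ t' = 3 := by omega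
    rcases ht' with rfl | rfl
    · exact no42 h (by omega) (by omega) hs
    · have := hs.nonempty_sub
      exact no43 hs.2

end H60GQ
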