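import Mathlib

/-!
Project GQ (MP_a3aa3c_co), helper60: tables of the quadrangles of order (4, 2) and (2, 2).

Order (4, 2), lines (27): 0 = A, 1 = B, 2+i = C_i, 7+i = A_i, 12+i = B_i (i < 5),
17.. = D_ij in the order 01 02 03 04 12 13 14 23 24 34.
Points (45): i = x_i on A, C_i, B_i;  5+i = y_i on B, C_i, A_i;
10 + 4 i + (j or j - 1) = z_ij on A_i, B_j, D_ij (i ≠ j);
30.. = w on C_k, D_ij, D_lm ({i,j,k,l,m} = {0..4}).

Order (2, 2), lines (15): 0 = A, 1 = B, 2+i = C_i, 5+i = A_i, 8+i = B_i (i < 3), 11 = D, 12+k = D_k.
Points (15): i = x_i on A, C_i, B_i; 3+i = y_i on B, C_i, A_i; 6+k = w_k on C_k, D, D_k;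
9.. = z_ij on A_i, B_j, D_k ({i,j,k} = {0,1,2}) for ij = 01 02 10 12 20 21.
-/

namespace H60GQ

/-- incidence table of order (4, 2): bit `27 * p + l` -/
def T42 : ℕ := 11020096030407378676925666621117366078056488375019685700784745605106632724335599328042857527024426126905782908602439358259023254903373444309875780464207856936429204947213169578096350361205062856329088411339910640708468765670230132371481207076091389483474777163609415069944023689055800342953149726077607446071020831558692728315678644212891514212040505569688728637445

/-- incidence table of order (2, 2): bit `15 * p + l` -/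
def T22 : ℕ := 7793540250814331335635670354091949172042049002709092056933339529477

/-- collinearity table of order (2, 2): bit `15 * p + q` -/
def C22 : ℕ := 48185060963079602075582075414192982921161247900450017397754921986127

/-- disjointness of lines of order (2, 2): bit `15 * l + m` -/
def S22 : ℕ := 22141322377122109983942632151724818475960585209421823947580721133794

/-- incidence of the quadrangle of order (4, 2) -/
def inc42 (p : Fin 45) (l : Fin 27) : Bool := Nat.testBit T42 (27 * p.val + l.val)

/-- incidence of the quadrangle of order (2, 2) -/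
def inc22 (p : Fin 15) (l : Fin 15) : Bool := Nat.testBit T22 (15 * p.val + l.val)

/-- collinearity of points (2, 2) (reflexive) -/
def col22 (p q : Fin 15) : Bool := Nat.testBit C22 (15 * p.val + q.val)

/-- disjointness of lines (2, 2) -/
def skew22 (l m : Fin 15) : Bool := Nat.testBit S22 (15 * l.val + m.val)

theorem col22_iff : ∀ p q : Fin 15, col22 p q = true ↔ ∃ l, inc22 p l = true ∧ inc22 q l = true := by
  decide +kernel

theorem skew22_iff : ∀ l m : Fin 15, skew22 l m = true ↔
    ∀ p, ¬ (inc22 p l = true ∧ inc22 p m = true) := by
  decide +kernel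

theorem col22_symm : ∀ p q : Fin 15, col22 p q = col22 q p := by decide +kernel

theorem skew22_symm : ∀ p q : Fin 15, skew22 p q = skew22 q p := by decide +kernel

theorem skew22_irrefl : ∀ p : Fin 15, skew22 p p = false := by decide +kernel

/-- every line has 3 points, every point is on 3 lines (2, 2) -/
theorem line22_card : ∀ l : Fin 15, (Finset.univ.filter (fun p => inc22 p l = true)).card = 3 := by
  decide +kernel

theorem point22_card : ∀ p : Fin 15, (Finset.univ.filter (fun l => inc22 p l = true)).card = 3 := by
  decide +kernel

/-- two points are on at most one line (2, 2) -/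
theorem unique22 : ∀ p q l m : Fin 15, p ≠ q → inc22 p l = true → inc22 q l = true →
    inc22 p m = true → inc22 q m = true → l = m := by
  decide +kernel

/-- the point set of a line (2, 2) -/
def lineSet (l : Fin 15) : Finset (Fin 15) := Finset.univ.filter (fun p => inc22 p l = true)

/-- three pairwise non-collinear points -/
def IsTriad (T : Finset (Fin 15)) : Prop :=
  T.card = 3 ∧ ∀ a ∈ T, ∀ b ∈ T, a ≠ b → col22 a b = false

/-- a triad with three centres (a hyperbolic line) -/
def IsHyp (T : Finset (Fin 15)) : Prop :=
  IsTriad T ∧ (Finset.univ.filter (fun c => ∀ a ∈ T, col22 a c = true)).card = 3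

/-- `k, l, m` pairwise disjoint with three common transversals (a regulus) -/
def Reg (k l m : Fin 15) : Prop :=
  skew22 k l = true ∧ skew22 k m = true ∧ skew22 l m = true ∧
    (Finset.univ.filter (fun n => skew22 n k = false ∧ skew22 n l = false ∧ skew22 n m = false ∧
      n ≠ k ∧ n ≠ l ∧ n ≠ m)).card = 3

/-- `k, l, m` pairwise disjoint, not a regulus (then in a common spread) -/
def Spr (k l m : Fin 15) : Prop :=
  skew22 k l = true ∧ skew22 k m = true ∧ skew22 l m = true ∧ ¬ Reg k l m

instance (k l m : Fin 15) : Decidable (Reg k l m) := by unfold Reg; infer_instance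

instance (k l m : Fin 15) : Decidable (Spr k l m) := by unfold Spr; infer_instance

instance (T : Finset (Fin 15)) : Decidable (IsTriad T) := by unfold IsTriad; infer_instance

instance (T : Finset (Fin 15)) : Decidable (IsHyp T) := by unfold IsHyp; infer_instance

/-- ovoids of the quadrangle of order (4, 2) -/
def Ov42 (O : Finset (Fin 45)) : Prop :=
  ∀ l : Fin 27, (O.filter (fun p => inc42 p l = true)).card = 1

end H60GQ
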