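import Pool.Agent.H60.GQ.LabSums2

/-!
Project GQ (MP_a3aa3c_co), module N42: the skew lines for s = 4 and s = 2.

* `n42`: s = 4: 10 skew lines, ∑ n = 30, ∑ n (n - 1) = 60, so ∑ (n - 3)^2 = 0.
* `n22`: s = 2: 4 skew lines, ∑ n = 6, ∑ n (n - 1) = 6, n ≤ 3. n = 2 is impossible: then l meets
  C i, C j and (for the third index k) A' k and B' k (`meetA`, `meetB`); l has only 3 points, the
  points on C i and C j are different (`m5`) and are not on A' k, B' k (`m6`, `m7`), so the third
  point is on A' k and B' k, contradicting `m8`. So (n - 1)(n - 3) ≥ 0 and the sum of these is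
  12 - 4 * 6 + 3 * 4 = 0: n ∈ {1, 3}, and exactly one line has n = 3.
* `pairs42`: s = 4, l skew, n = 3: i ≠ j the two indices with C i, C j not met; l meets A' i, B' i,
  A' j, B' j (`meetA`, `meetB`); the 3 points on the C's are different and not on these lines
  (`m5`, `m6`, `m7`), so l has exactly 2 further points; the point of l on A' i is not on B' i
  (`m8`) and not on A' j (`m3`), etc.: one point is on A' i and B' j, the other on A' j and B' i.
* `pairs22`: the same for s = 2, n = 1.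
-/

namespace H60GQ

universe u v

open Finset Classical

variable {P : Type u} {L : Type v} {I : P → L → Prop}

private lemma N42_cast (n : ℕ) : ((n * (n - 1) : ℕ) : ℤ) = (n : ℤ) * ((n : ℤ) - 1) := by
  rcases Nat.eq_zero_or_pos n with rfl | hn
  · simp
  · push_cast [Nat.cast_sub hn]
    ring

theorem Lab.n42 [Finite P] [Finite L] [Nonempty P] (h : IsGQ I 4 2) (a : Lab I 4) {l : L}
    (hl : a.Skew l) : a.n l = 3 := by
  have := Fintype.ofFinite L
  have h1 := Lab.skew_card h (by norm_num) a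
  have h2 := Lab.skew_sum h (by norm_num) a
  have h3 := Lab.skew_sum2 h (by norm_num) a
  have h1' : (∑ l ∈ univ.filter (fun l => a.Skew l), (1 : ℤ)) = 10 := by
    rw [Finset.sum_const, h1]; norm_num
  have h2' : (∑ l ∈ univ.filter (fun l => a.Skew l), (a.n l : ℤ)) = 30 := by
    rw [← Nat.cast_sum, h2]; norm_num
  have h3' : (∑ l ∈ univ.filter (fun l => a.Skew l), ((a.n l : ℤ) * ((a.n l : ℤ) - 1))) = 60 := by
    have e : (∑ l ∈ univ.filter (fun l => a.Skew l), ((a.n l : ℤ) * ((a.n l : ℤ) - 1))) =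
        ((∑ l ∈ univ.filter (fun l => a.Skew l), a.n l * (a.n l - 1) : ℕ) : ℤ) := by
      rw [Nat.cast_sum]
      exact Finset.sum_congr rfl (fun l _ => (N42_cast (a.n l)).symm)
    rw [e, h3]; norm_num
  have hs : ∑ l ∈ univ.filter (fun l => a.Skew l), ((a.n l : ℤ) - 3) ^ 2 = 0 := by
    have e : ∑ l ∈ univ.filter (fun l => a.Skew l), ((a.n l : ℤ) - 3) ^ 2 =
        ∑ l ∈ univ.filter (fun l => a.Skew l), ((a.n l : ℤ) * ((a.n l : ℤ) - 1)) -
          5 * ∑ l ∈ univ.filter (fun l => a.Skew l), (a.n l : ℤ) +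
          9 * ∑ l ∈ univ.filter (fun l => a.Skew l), (1 : ℤ) := by
      rw [Finset.mul_sum, Finset.mul_sum, ← Finset.sum_sub_distrib, ← Finset.sum_add_distrib]
      exact Finset.sum_congr rfl (fun l _ => by ring)
    rw [e, h1', h2', h3']; norm_num
  have hz := (Finset.sum_eq_zero_iff_of_nonneg (fun l _ => sq_nonneg ((a.n l : ℤ) - 3))).1 hs l
    (Finset.mem_filter.2 ⟨Finset.mem_univ _, hl⟩)
  have hz' : (a.n l : ℤ) - 3 = 0 := pow_eq_zero_iff (two_ne_zero) |>.1 hz
  omega

private lemma N42_ne2 [Finite P] (h : IsGQ I 2 2) (a : Lab I 2) {l : L}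
    (hl : a.Skew l) : a.n l ≠ 2 := by
  intro hn
  unfold Lab.n at hn
  obtain ⟨i, j, hij, hs⟩ := Finset.card_eq_two.1 hn
  have hk : ∀ i j : Fin (2 + 1), ∃ k, k ≠ i ∧ k ≠ j := by decide
  obtain ⟨k, hki, hkj⟩ := hk i j
  have hi : Meet I l (a.C i) := by
    have : i ∈ univ.filter (fun i => Meet I l (a.C i)) := by rw [hs]; simp
    exact (Finset.mem_filter.1 this).2
  have hj : Meet I l (a.C j) := by
    have : j ∈ univ.filter (fun i => Meet I l (a.C i)) := by rw [hs]; simp
    exact (Finset.mem_filter.1 this).2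
  have hkn : ¬ Meet I l (a.C k) := by
    intro hm
    have : k ∈ univ.filter (fun i => Meet I l (a.C i)) :=
      Finset.mem_filter.2 ⟨Finset.mem_univ _, hm⟩
    rw [hs] at this
    simp only [Finset.mem_insert, Finset.mem_singleton] at this
    rcases this with e | e
    · exact hki e
    · exact hkj e
  obtain ⟨pa, pa1, pa2⟩ := (Lab.meetA h a hl k).2 hkn
  obtain ⟨pb, pb1, pb2⟩ := (Lab.meetB h a hl k).2 hkn
  obtain ⟨pi, pi1, pi2⟩ := hi
  obtain ⟨pj, pj1, pj2⟩ := hj
  have e1 : pi ≠ pj := by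
    rintro rfl
    exact a.m5 h hij ⟨_, pi2, pj2⟩
  have e2 : pi ≠ pa := by
    rintro rfl
    exact a.m6 h hki ⟨_, pa2, pi2⟩
  have e3 : pi ≠ pb := by
    rintro rfl
    exact a.m7 h hki ⟨_, pb2, pi2⟩
  have e4 : pj ≠ pa := by
    rintro rfl
    exact a.m6 h hkj ⟨_, pa2, pj2⟩
  have e5 : pj ≠ pb := by
    rintro rfl
    exact a.m7 h hkj ⟨_, pb2, pj2⟩
  have e6 : pa ≠ pb := by
    rintro rfl
    exact a.m8 h k ⟨_, pa2, pb2⟩
  have hc : ({pi, pj, pa, pb} : Finset P).card = 4 := by
    rw [Finset.card_insert_of_notMem (by simp [e1, e2, e3]),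
      Finset.card_insert_of_notMem (by simp [e4, e5]),
      Finset.card_insert_of_notMem (by simp [e6]), Finset.card_singleton]
  have hsub : (({pi, pj, pa, pb} : Finset P) : Set P) ⊆ {p | I p l} := by
    intro p hp
    simp only [Finset.coe_insert, Finset.coe_singleton, Set.mem_insert_iff,
      Set.mem_singleton_iff] at hp
    rcases hp with rfl | rfl | rfl | rfl
    · exact pi1
    · exact pj1
    · exact pa1
    · exact pb1
  have hle := Set.ncard_le_ncard hsub (Set.toFinite _)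
  rw [Set.ncard_coe_finset, hc, h.line_card] at hle
  omega

theorem Lab.n22 [Finite P] [Finite L] [Nonempty P] (h : IsGQ I 2 2) (a : Lab I 2) :
    (∀ l, a.Skew l → a.n l = 1 ∨ a.n l = 3) ∧ ∃! l, a.Skew l ∧ a.n l = 3 := by
  have := Fintype.ofFinite L
  have h1 := Lab.skew_card h (by norm_num) a
  have h2 := Lab.skew_sum h (by norm_num) a
  have h3 := Lab.skew_sum2 h (by norm_num) a
  have h1' : (∑ l ∈ univ.filter (fun l => a.Skew l), (1 : ℤ)) = 4 := by
    rw [Finset.sum_const, h1]; norm_num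
  have h2' : (∑ l ∈ univ.filter (fun l => a.Skew l), (a.n l : ℤ)) = 6 := by
    rw [← Nat.cast_sum, h2]; norm_num
  have h3' : (∑ l ∈ univ.filter (fun l => a.Skew l), ((a.n l : ℤ) * ((a.n l : ℤ) - 1))) = 6 := by
    have e : (∑ l ∈ univ.filter (fun l => a.Skew l), ((a.n l : ℤ) * ((a.n l : ℤ) - 1))) =
        ((∑ l ∈ univ.filter (fun l => a.Skew l), a.n l * (a.n l - 1) : ℕ) : ℤ) := by
      rw [Nat.cast_sum]
      exact Finset.sum_congr rfl (fun l _ => (N42_cast (a.n l)).symm)
    rw [e, h3]; norm_num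
  have hle : ∀ l, a.n l ≤ 3 := by
    intro l
    unfold Lab.n
    refine (Finset.card_le_univ _).trans ?_
    simp
  have hnn : ∀ l ∈ univ.filter (fun l => a.Skew l), 0 ≤ ((a.n l : ℤ) - 1) * ((a.n l : ℤ) - 3) := by
    intro l hl
    have hl' := (Finset.mem_filter.1 hl).2
    have ha := hle l
    have hb := N42_ne2 h a hl'
    have hc : a.n l = 0 ∨ a.n l = 1 ∨ a.n l = 3 := by omega
    rcases hc with e | e | e <;> rw [e] <;> norm_num
  have hs : ∑ l ∈ univ.filter (fun l => a.Skew l), ((a.n l : ℤ) - 1) * ((a.n l : ℤ) - 3) = 0 := by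
    have e : ∑ l ∈ univ.filter (fun l => a.Skew l), ((a.n l : ℤ) - 1) * ((a.n l : ℤ) - 3) =
        ∑ l ∈ univ.filter (fun l => a.Skew l), ((a.n l : ℤ) * ((a.n l : ℤ) - 1)) -
          3 * ∑ l ∈ univ.filter (fun l => a.Skew l), (a.n l : ℤ) +
          3 * ∑ l ∈ univ.filter (fun l => a.Skew l), (1 : ℤ) := by
      rw [Finset.mul_sum, Finset.mul_sum, ← Finset.sum_sub_distrib, ← Finset.sum_add_distrib]
      exact Finset.sum_congr rfl (fun l _ => by ring)
    rw [e, h1', h2', h3']; norm_num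
  have h13 : ∀ l, a.Skew l → a.n l = 1 ∨ a.n l = 3 := by
    intro l hl
    have hz := (Finset.sum_eq_zero_iff_of_nonneg hnn).1 hs l
      (Finset.mem_filter.2 ⟨Finset.mem_univ _, hl⟩)
    rcases mul_eq_zero.1 hz with e | e
    · left; omega
    · right; omega
  refine ⟨h13, ?_⟩
  -- exactly one
  have hcount : (univ.filter (fun l => a.Skew l ∧ a.n l = 3)).card = 1 := by
    have e : ∑ l ∈ univ.filter (fun l => a.Skew l), ((a.n l : ℤ) - 1) =
        ∑ l ∈ univ.filter (fun l => a.Skew l), (if a.n l = 3 then (2 : ℤ) else 0) := by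
      refine Finset.sum_congr rfl ?_
      intro l hl
      rcases h13 l (Finset.mem_filter.1 hl).2 with e | e
      · rw [e]; norm_num
      · rw [e]; norm_num
    rw [Finset.sum_sub_distrib, h1', h2', ← Finset.sum_filter, Finset.sum_const,
      Finset.filter_filter] at e
    simp only [nsmul_eq_mul] at e
    omega
  obtain ⟨l, hl⟩ := Finset.card_eq_one.1 hcount
  have hmem : ∀ m, (a.Skew m ∧ a.n m = 3) ↔ m = l := by
    intro m
    have h4 : m ∈ univ.filter (fun l => a.Skew l ∧ a.n l = 3) ↔ m ∈ ({l} : Finset L) := by rw [hl]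
    simpa using h4
  exact ⟨l, (hmem l).2 rfl, fun m hm => (hmem m).1 hm⟩

end H60GQ
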