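import Pool.Agent.H60.GQ.N42

/-!
Project GQ (MP_a3aa3c_co), module N42p: `pairs42`, `pairs22` (proof plan in N42.lean).
-/

namespace H60GQ

universe u v

open Finset Classical

variable {P : Type u} {L : Type v} {I : P → L → Prop}

private theorem N42p_gen {s : ℕ} [Finite P] (h : IsGQ I s 2) (hs : 1 ≤ s) (a : Lab I s) {l : L}
    (hl : a.Skew l) (hn : a.n l = s - 1) : ∃ i j, i ≠ j ∧
      (∀ k, Meet I l (a.C k) ↔ (k ≠ i ∧ k ≠ j)) ∧
      (∃ p, I p l ∧ I p (a.A' i) ∧ I p (a.B' j)) ∧ ∃ p, I p l ∧ I p (a.A' j) ∧ I p (a.B' i) := by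
  have hcard : (univ.filter (fun k => ¬ Meet I l (a.C k))).card = 2 := by
    have h1 := Finset.card_filter_add_card_filter_not (s := (Finset.univ : Finset (Fin (s + 1))))
      (fun k => Meet I l (a.C k))
    rw [Finset.card_univ, Fintype.card_fin] at h1
    unfold Lab.n at hn
    omega
  obtain ⟨i, j, hij, hset⟩ := Finset.card_eq_two.1 hcard
  have hmem : ∀ k, ¬ Meet I l (a.C k) ↔ (k = i ∨ k = j) := by
    intro k
    have := Finset.ext_iff.1 hset k
    simpa using this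
  have hi : ¬ Meet I l (a.C i) := (hmem i).2 (Or.inl rfl)
  have hj : ¬ Meet I l (a.C j) := (hmem j).2 (Or.inr rfl)
  obtain ⟨ai, hai1, hai2⟩ := (a.meetA h hl i).2 hi
  obtain ⟨aj, haj1, haj2⟩ := (a.meetA h hl j).2 hj
  obtain ⟨bi, hbi1, hbi2⟩ := (a.meetB h hl i).2 hi
  obtain ⟨bj, hbj1, hbj2⟩ := (a.meetB h hl j).2 hj
  have hex : ∀ k, k ≠ i ∧ k ≠ j → ∃ p, I p l ∧ I p (a.C k) := by
    intro k hk
    by_contra hno
    rcases (hmem k).1 hno with h' | h'
    · exact hk.1 h'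
    · exact hk.2 h'
  have : Nonempty P := ⟨ai⟩
  choose! q hq using hex
  let f : Fin (s + 1) → P := fun k => if k = i then ai else if k = j then aj else q k
  have fi : f i = ai := by simp [f]
  have fj : f j = aj := by simp [f, hij.symm]
  have fk : ∀ k, k ≠ i → k ≠ j → f k = q k := by
    intro k h1 h2; simp [f, h1, h2]
  have hfl : ∀ k, I (f k) l := by
    intro k
    by_cases h1 : k = i
    · subst h1; rw [fi]; exact hai1
    · by_cases h2 : k = j
      · subst h2; rw [fj]; exact haj1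
      · rw [fk k h1 h2]; exact (hq k ⟨h1, h2⟩).1
  have hinj : Function.Injective f := by
    intro k k' hkk
    by_contra hne
    by_cases h1 : k = i
    · subst h1
      by_cases h2 : k' = j
      · subst h2
        rw [fi, fj] at hkk
        exact a.m3 h hij ⟨ai, hai2, hkk ▸ haj2⟩
      · have h3 : k' ≠ k := fun h => hne h.symm
        rw [fi, fk k' h3 h2] at hkk
        exact a.m6 h (Ne.symm h3) ⟨ai, hai2, hkk ▸ (hq k' ⟨h3, h2⟩).2⟩
    · by_cases h2 : k = j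
      · subst h2
        by_cases h3 : k' = i
        · subst h3
          rw [fi, fj] at hkk
          exact a.m3 h hij ⟨ai, hai2, hkk ▸ haj2⟩
        · have h4 : k' ≠ k := fun h => hne h.symm
          rw [fj, fk k' h3 h4] at hkk
          exact a.m6 h (Ne.symm h4) ⟨aj, haj2, hkk ▸ (hq k' ⟨h3, h4⟩).2⟩
      · rw [fk k h1 h2] at hkk
        by_cases h3 : k' = i
        · subst h3
          rw [fi] at hkk
          exact a.m6 h (Ne.symm h1) ⟨ai, hai2, hkk ▸ (hq k ⟨h1, h2⟩).2⟩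
        · by_cases h4 : k' = j
          · subst h4
            rw [fj] at hkk
            exact a.m6 h (Ne.symm h2) ⟨aj, haj2, hkk ▸ (hq k ⟨h1, h2⟩).2⟩
          · rw [fk k' h3 h4] at hkk
            exact a.m5 h hne ⟨q k, (hq k ⟨h1, h2⟩).2, hkk ▸ (hq k' ⟨h3, h4⟩).2⟩
  have hrange : Set.range f = {p | I p l} := by
    apply Set.eq_of_subset_of_ncard_le
    · rintro _ ⟨k, rfl⟩; exact hfl k
    · rw [h.line_card l, ← Set.image_univ, Set.ncard_image_of_injective _ hinj,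
        Set.ncard_univ, Nat.card_eq_fintype_card, Fintype.card_fin]
    · exact Set.toFinite _
  have hbj : bj = ai := by
    have : bj ∈ Set.range f := by rw [hrange]; exact hbj1
    obtain ⟨k, hk⟩ := this
    by_cases h1 : k = i
    · subst h1; rw [← hk, fi]
    · exfalso
      by_cases h2 : k = j
      · subst h2
        rw [fj] at hk
        exact a.m8 h k ⟨aj, haj2, hk ▸ hbj2⟩
      · rw [fk k h1 h2] at hk
        exact a.m7 h (Ne.symm h2) ⟨bj, hbj2, hk ▸ (hq k ⟨h1, h2⟩).2⟩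
  have hbi : bi = aj := by
    have : bi ∈ Set.range f := by rw [hrange]; exact hbi1
    obtain ⟨k, hk⟩ := this
    by_cases h1 : k = j
    · subst h1; rw [← hk, fj]
    · exfalso
      by_cases h2 : k = i
      · subst h2
        rw [fi] at hk
        exact a.m8 h k ⟨ai, hai2, hk ▸ hbi2⟩
      · rw [fk k h2 h1] at hk
        exact a.m7 h (Ne.symm h2) ⟨bi, hbi2, hk ▸ (hq k ⟨h2, h1⟩).2⟩
  refine ⟨i, j, hij, ?_, ⟨ai, hai1, hai2, hbj ▸ hbj2⟩, ⟨aj, haj1, haj2, hbi ▸ hbi2⟩⟩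
  intro k
  have := hmem k
  tauto

theorem Lab.pairs42 [Finite P] [Finite L] [Nonempty P] (h : IsGQ I 4 2) (a : Lab I 4) {l : L}
    (hl : a.Skew l) : ∃ i j, i ≠ j ∧ (∀ k, Meet I l (a.C k) ↔ (k ≠ i ∧ k ≠ j)) ∧
      (∃ p, I p l ∧ I p (a.A' i) ∧ I p (a.B' j)) ∧ ∃ p, I p l ∧ I p (a.A' j) ∧ I p (a.B' i) :=
  N42p_gen h (by norm_num) a hl (a.n42 h hl)

theorem Lab.pairs22 [Finite P] [Finite L] [Nonempty P] (h : IsGQ I 2 2) (a : Lab I 2) {l : L}
    (hl : a.Skew l) (h1 : a.n l = 1) :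
    ∃ i j, i ≠ j ∧ (∀ k, Meet I l (a.C k) ↔ (k ≠ i ∧ k ≠ j)) ∧
      (∃ p, I p l ∧ I p (a.A' i) ∧ I p (a.B' j)) ∧ ∃ p, I p l ∧ I p (a.A' j) ∧ I p (a.B' i) :=
  N42p_gen h (by norm_num) a hl h1

end H60GQ
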