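import Pool.Agent.H60.GQ.No22a

/-!
Project GQ (MP_a3aa3c_co), module No22: the case where all reguli are closed is impossible for
t = 11, 12.

Proof plan. For an H point x: it is on t + 1 lines: 2 in NN (`h_deg`), 3 with a point of P'
(`h_three`), and all other lines through x contain no α point (`h_line`) and no point of P', so they
are in OO: t - 4 lines (`h_oo`; the three kinds are disjoint: a line of NN has no point of P' by
`α_line`).
`h_oo_nbr`: among the 9 H points y ≠ x with the line x y not in NN (`h_nbr`), at least 3 are on the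
lines through x with a point of P' (one on each of the three, `h_tan`; different lines through x
have no other common point), so at most 6 H points y ≠ x are on a line of OO with x.
Let n_m be the number of H points on m ∈ OO, n_m ≤ 2 (`oo_two`).
∑_m n_m = 40 (t - 4) (`h_card`, `h_oo`). ∑_m n_m (n_m - 1) = number of ordered pairs (x, y) of
different H points on a common line of OO ≤ 40 * 6 = 240 (`h_oo_nbr`). For n ≤ 2:
2 n ≤ 2 + n (n - 1), so 80 (t - 4) ≤ 2 |OO| + 240. By `oo_card` |OO| = 4 (t - 4)(t - 6):
t = 11: |OO| = 140, 560 ≤ 520, false; t = 12: |OO| = 192, 640 ≤ 624, false.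
-/

namespace H60GQ

universe u v

open Finset Classical

variable {P : Type u} {L : Type v} {I : P → L → Prop} {t : ℕ} {P' : Set P} {L' : Set L}

private lemma No22_ncard {α : Type*} [Fintype α] (p : α → Prop) :
    {x | p x}.ncard = (univ.filter p).card := by
  rw [← Set.ncard_coe_finset]
  congr 1
  ext x
  simp

theorem caseReg [Finite P] [Finite L] (h : IsGQ I 4 t) (ht : t = 11 ∨ t = 12)
    (hs : SubGQ I P' L' 2 2) (w : W22 I P' L') (hw : w.AllReg) : False := by
  have _ := Fintype.ofFinite P
  have _ := Fintype.ofFinite L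
  have ht4 : 4 ≤ t := by omega
  have ht2 : 2 ≤ t := by omega
  set H : Finset P := univ.filter (fun x => w.IsH x) with hHdef
  set O : Finset L := univ.filter (fun m => m ∈ w.OO) with hOdef
  have hH : H.card = 40 := by
    rw [← W22.h_card h ht2 hs w hw, No22_ncard]
  have hO : O.card = w.OO.ncard := by
    have := No22_ncard (fun m => m ∈ w.OO)
    rw [← this]
    rfl
  have hOc := W22.oo_card h ht4 hs w hw
  rw [← hO] at hOc
  set n : L → ℕ := fun m => (H.filter (fun x => I x m)).card with hn
  have hn2 : ∀ m ∈ O, n m ≤ 2 := by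
    intro m hm
    have hm' : m ∈ w.OO := (mem_filter.mp hm).2
    have h1 := W22.oo_two h ht2 hs w hm'
    rw [No22_ncard] at h1
    refine le_trans (le_of_eq ?_) h1
    show (H.filter (fun x => I x m)).card = _
    congr 1
    ext x
    simp [hHdef]
  -- first sum
  have hx1 : ∀ x ∈ H, (O.filter (fun m => I x m)).card = t - 4 := by
    intro x hx
    have hx' : w.IsH x := (mem_filter.mp hx).2
    have h1 := W22.h_oo h ht4 hs w hw hx'
    rw [No22_ncard] at h1
    rw [← h1]
    congr 1
    ext m
    simp [hOdef]
  have hs1 : ∑ m ∈ O, n m = 40 * (t - 4) := by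
    have h1 : ∑ m ∈ O, (H.filter (fun x => I x m)).card =
        ∑ x ∈ H, (O.filter (fun m => I x m)).card := by
      simp only [card_filter]
      rw [sum_comm]
    show ∑ m ∈ O, (H.filter (fun x => I x m)).card = _
    rw [h1, sum_congr rfl hx1, sum_const, hH, smul_eq_mul]
  -- second sum
  have hx2 : ∀ x ∈ H, ∑ m ∈ O.filter (fun m => I x m), (n m - 1) ≤ 6 := by
    intro x hx
    have hx' : w.IsH x := (mem_filter.mp hx).2
    have h1 := W22.h_oo_nbr h ht4 hs w hw hx'
    rw [No22_ncard] at h1
    refine le_trans ?_ h1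
    have h2 : ∀ m ∈ O.filter (fun m => I x m), n m - 1 =
        ((H.filter (fun y => I y m)).erase x).card := by
      intro m hm
      have hxm : I x m := (mem_filter.mp hm).2
      rw [card_erase_of_mem (mem_filter.mpr ⟨hx, hxm⟩)]
    rw [sum_congr rfl h2, ← card_biUnion]
    · apply card_le_card
      intro y hy
      obtain ⟨m, hm, hym⟩ := mem_biUnion.mp hy
      obtain ⟨hyx, hym'⟩ := mem_erase.mp hym
      have hm1 := mem_filter.mp hm
      have hy1 := mem_filter.mp hym'
      have hfin : w.IsH y ∧ y ≠ x ∧ ∃ m ∈ w.OO, I x m ∧ I y m :=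
        ⟨(mem_filter.mp hy1.1).2, hyx, m, (mem_filter.mp hm1.1).2, hm1.2, hy1.2⟩
      simp only [mem_filter, mem_univ, true_and]
      exact hfin
    · intro m hm m' hm' hne
      rw [Function.onFun, disjoint_left]
      intro y hy hy'
      obtain ⟨hyx, hym⟩ := mem_erase.mp hy
      obtain ⟨_, hym'⟩ := mem_erase.mp hy'
      exact hne (h.unique x y m m' (Ne.symm hyx) (mem_filter.mp hm).2 (mem_filter.mp hym).2
        (mem_filter.mp hm').2 (mem_filter.mp hym').2)
  have hs2 : ∑ m ∈ O, n m * (n m - 1) ≤ 40 * 6 := by
    have h1 : ∑ m ∈ O, n m * (n m - 1) = ∑ x ∈ H, ∑ m ∈ O.filter (fun m => I x m), (n m - 1) := by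
      have h2 : ∀ m, n m * (n m - 1) = ∑ x ∈ H, if I x m then (n m - 1) else 0 := by
        intro m
        rw [← sum_filter, sum_const, smul_eq_mul]
      rw [sum_congr rfl (fun m _ => h2 m), sum_comm]
      refine sum_congr rfl fun x _ => ?_
      exact (sum_filter _ _).symm
    rw [h1]
    refine (sum_le_sum hx2).trans ?_
    rw [sum_const, hH, smul_eq_mul]
  have hs3 : ∑ m ∈ O, 2 * n m ≤ ∑ m ∈ O, (2 + n m * (n m - 1)) := by
    apply sum_le_sum
    intro m hm
    have h1 := hn2 m hm
    generalize n m = a at h1 ⊢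
    interval_cases a <;> norm_num
  rw [← mul_sum, hs1, sum_add_distrib, sum_const, smul_eq_mul] at hs3
  rcases ht with rfl | rfl
  · norm_num at hOc hs3
    omega
  · norm_num at hOc hs3
    omega

end H60GQ
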