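import Pool.Agent.H60.GQ.OLines

/-!
Project GQ (MP_a3aa3c_co), module OLines2: `oo_two` (proof plan in OLines.lean).
-/

namespace H60GQ

universe u v

open Finset Classical

variable {P : Type u} {L : Type v} {I : P → L → Prop} {t : ℕ} {P' : Set P} {L' : Set L}

theorem W22.oo_two [Finite P] [Finite L] (h : IsGQ I 4 t) (ht : 2 ≤ t) (hs : SubGQ I P' L' 2 2)
    (w : W22 I P' L') {m : L} (hm : m ∈ w.OO) : {x | w.IsH x ∧ I x m}.ncard ≤ 2 := by
  by_contra hc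
  push Not at hc
  obtain ⟨hm1, hm2⟩ := hm
  -- all the points of `m` are B points
  have hB : ∀ x, I x m → w.IsB x := by
    intro x hx
    refine ⟨?_, fun ha => hm2 x ha hx⟩
    intro hxP
    obtain ⟨i, rfl⟩ := (w.memP x).1 hxP
    exact hm1 i hx
  have hT : ∀ x, I x m → IsTriad (w.T x) := fun x hx => w.T_B h ht hs (hB x hx)
  have hd : ∀ x y, I x m → I y m → x ≠ y → Disjoint (w.T x) (w.T y) := by
    intro x y hx hy hxy
    rw [Finset.disjoint_left]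
    intro i hix hiy
    exact hxy ((w.ext_part h hm1 i).unique ⟨hx, hix⟩ ⟨hy, hiy⟩)
  -- three H points
  obtain ⟨S, hS, hS3⟩ := Set.exists_subset_card_eq (s := {x | w.IsH x ∧ I x m}) (n := 3) hc
  obtain ⟨x1, x2, x3, h12, h13, h23, rfl⟩ := Set.ncard_eq_three.1 hS3
  have e1 := hS (show x1 ∈ ({x1, x2, x3} : Set P) by simp)
  have e2 := hS (show x2 ∈ ({x1, x2, x3} : Set P) by simp)
  have e3 := hS (show x3 ∈ ({x1, x2, x3} : Set P) by simp)
  -- the two other points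
  have hsub : ({x1, x2, x3} : Set P) ⊆ {x | I x m} := fun x hx => (hS hx).2
  have h2 : ({x | I x m} \ ({x1, x2, x3} : Set P)).ncard = 2 := by
    rw [Set.ncard_sdiff hsub (Set.toFinite _), h.line_card, hS3]
  obtain ⟨x4, x5, h45, hx45⟩ := Set.ncard_eq_two.1 h2
  have e4 : x4 ∈ {x | I x m} \ ({x1, x2, x3} : Set P) := by rw [hx45]; simp
  have e5 : x5 ∈ {x | I x m} \ ({x1, x2, x3} : Set P) := by rw [hx45]; simp
  obtain ⟨e4, f4⟩ := e4
  obtain ⟨e5, f5⟩ := e5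
  simp only [Set.mem_insert_iff, Set.mem_singleton_iff, not_or] at f4 f5
  obtain ⟨f41, f42, f43⟩ := f4
  obtain ⟨f51, f52, f53⟩ := f5
  exact F2 (w.T x1) (w.T x2) (w.T x3) (w.T x4) (w.T x5) e1.1.2 e2.1.2 e3.1.2 (hT x4 e4) (hT x5 e5)
    (hd _ _ e1.2 e2.2 h12) (hd _ _ e1.2 e3.2 h13) (hd _ _ e1.2 e4 (Ne.symm f41))
    (hd _ _ e1.2 e5 (Ne.symm f51)) (hd _ _ e2.2 e3.2 h23) (hd _ _ e2.2 e4 (Ne.symm f42))
    (hd _ _ e2.2 e5 (Ne.symm f52)) (hd _ _ e3.2 e4 (Ne.symm f43)) (hd _ _ e3.2 e5 (Ne.symm f53))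
    (hd _ _ e4 e5 h45)

end H60GQ
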