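import Pool.Agent.H60.GQ.HNbr
import Pool.Agent.H60.GQ.HTan
import Pool.Agent.H60.GQ.OLines2

/-!
Project GQ (MP_a3aa3c_co), module No22a: `h_oo`, `h_oo_nbr` (proof plan in No22.lean).
-/

namespace H60GQ

universe u v

open Finset Classical

variable {P : Type u} {L : Type v} {I : P → L → Prop} {t : ℕ} {P' : Set P} {L' : Set L}

/-- a line of `NN` contains no point of `P'` -/
theorem No22a_nn_φ [Finite P] [Finite L] (h : IsGQ I 4 t) (ht : 4 ≤ t) (hs : SubGQ I P' L' 2 2)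
    (w : W22 I P' L') (hw : w.AllReg) {N : L} (hN : N ∈ w.NN) (i : Fin 15) : ¬ I (w.φ i) N := by
  intro hi
  have hmem : w.φ i ∈ P' := (w.memP _).2 ⟨i, rfl⟩
  rcases w.nn_all h (by omega) hs hw hN hi with ⟨k, b, hk⟩ | hH
  · rw [hk] at hmem
    exact w.α_not k b hmem
  · exact hH.1.1 hmem

/-- a line of `NN` is not in `OO` -/
theorem No22a_nn_oo (w : W22 I P' L') {N : L} (hN : N ∈ w.NN) : N ∉ w.OO := by
  intro hO
  obtain ⟨-, a, a', -, ha, -, h1, -⟩ := hN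
  exact hO.2 a ha h1

theorem W22.h_oo [Finite P] [Finite L] (h : IsGQ I 4 t) (ht : 4 ≤ t) (hs : SubGQ I P' L' 2 2)
    (w : W22 I P' L') (hw : w.AllReg) {x : P} (hx : w.IsH x) :
    {m | m ∈ w.OO ∧ I x m}.ncard = t - 4 := by
  set A1 : Set L := {N | N ∈ w.NN ∧ I x N} with hA1
  set A2 : Set L := {m | I x m ∧ ∃ i, I (w.φ i) m} with hA2
  set A3 : Set L := {m | m ∈ w.OO ∧ I x m} with hA3
  have h1 : A1.ncard = 2 := w.h_deg h (by omega) hs hw hx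
  have h2 : A2.ncard = 3 := w.h_three h (by omega) hs hx
  have hun : (A1 ∪ A2) ∪ A3 = {m | I x m} := by
    ext m
    constructor
    · rintro ((hm | hm) | hm)
      · exact hm.2
      · exact hm.1
      · exact hm.2
    · intro hm
      by_cases hφ : ∃ i, I (w.φ i) m
      · exact Or.inl (Or.inr ⟨hm, hφ⟩)
      · by_cases ha : ∃ a, w.IsA a ∧ I a m
        · obtain ⟨a, ha1, ha2⟩ := ha
          exact Or.inl (Or.inl ⟨w.h_line h (by omega) hs hw hx ha1 hm ha2, hm⟩)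
        · refine Or.inr ⟨⟨fun i hi => hφ ⟨i, hi⟩, fun a ha1 ha2 => ha ⟨a, ha1, ha2⟩⟩, hm⟩
  have hd1 : Disjoint A1 A2 := by
    rw [Set.disjoint_left]
    rintro m hm1 ⟨-, i, hi⟩
    exact No22a_nn_φ h ht hs w hw hm1.1 i hi
  have hd2 : Disjoint (A1 ∪ A2) A3 := by
    rw [Set.disjoint_left]
    rintro m (hm1 | ⟨-, i, hi⟩) hm3
    · exact No22a_nn_oo w hm1.1 hm3.1
    · exact hm3.1.1 i hi
  have h3 : ((A1 ∪ A2) ∪ A3).ncard = t + 1 := by
    rw [hun]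
    exact h.point_card x
  rw [Set.ncard_union_eq hd2 (Set.toFinite _) (Set.toFinite _),
    Set.ncard_union_eq hd1 (Set.toFinite _) (Set.toFinite _), h1, h2] at h3
  omega

theorem W22.h_oo_nbr [Finite P] [Finite L] (h : IsGQ I 4 t) (ht : 4 ≤ t)
    (hs : SubGQ I P' L' 2 2) (w : W22 I P' L') (hw : w.AllReg) {x : P} (hx : w.IsH x) :
    {y | w.IsH y ∧ y ≠ x ∧ ∃ m ∈ w.OO, I x m ∧ I y m}.ncard ≤ 6 := by
  set B : Set P := {y | w.IsH y ∧ y ≠ x ∧ ∃ m, m ∉ w.NN ∧ I x m ∧ I y m} with hB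
  set C : Set P := {y | w.IsH y ∧ y ≠ x ∧ ∃ m ∈ w.OO, I x m ∧ I y m} with hC
  set A2 : Set L := {m | I x m ∧ ∃ i, I (w.φ i) m} with hA2
  have hBc : B.ncard = 9 := w.h_nbr h (by omega) hs hw hx
  have h2 : A2.ncard = 3 := w.h_three h (by omega) hs hx
  have hCB : C ⊆ B := by
    rintro y ⟨hy1, hy2, m, hm, h3, h4⟩
    exact ⟨hy1, hy2, m, fun hN => No22a_nn_oo w hN hm, h3, h4⟩
  have hex : ∀ m : L, ∃ y : P, m ∈ A2 → w.IsH y ∧ y ≠ x ∧ I y m := by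
    intro m
    by_cases hm : m ∈ A2
    · obtain ⟨h3, i, hi⟩ := hm
      obtain ⟨y, hy⟩ := w.h_tan h (by omega) hs hx hi h3
      exact ⟨y, fun _ => hy⟩
    · exact ⟨x, fun hm' => absurd hm' hm⟩
  choose g hg using hex
  have hinj : Set.InjOn g A2 := by
    intro m hm m' hm' he
    obtain ⟨-, hne, h3⟩ := hg m hm
    obtain ⟨-, -, h4⟩ := hg m' hm'
    rw [← he] at h4
    exact h.unique (g m) x m m' hne h3 hm.1 h4 hm'.1
  have hsub : g '' A2 ⊆ B \ C := by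
    rintro _ ⟨m, hm, rfl⟩
    obtain ⟨hH, hne, h3⟩ := hg m hm
    obtain ⟨h4, i, hi⟩ := hm
    refine ⟨⟨hH, hne, m, fun hN => No22a_nn_φ h ht hs w hw hN i hi, h4, h3⟩, ?_⟩
    rintro ⟨-, -, m', hm', h5, h6⟩
    have he : m = m' := h.unique (g m) x m m' hne h3 h4 h6 h5
    subst he
    exact hm'.1 i hi
  have h3 : (g '' A2).ncard ≤ (B \ C).ncard := Set.ncard_le_ncard hsub (Set.toFinite _)
  rw [Set.ncard_image_of_injOn hinj, h2, Set.ncard_sdiff hCB (Set.toFinite _), hBc] at h3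
  omega

end H60GQ
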