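import Pool.Agent.H60.GQ.RegLines2

/-!
Project GQ (MP_a3aa3c_co), module OLines: the lines without points of P' and without α points.

* `oo_card`: |OO| + 15 + 15 (t - 2) + 40 + 30 (t - 4) = |L| = (t + 1) (4 t + 1) (`card_lines`).
  The lines are of five disjoint kinds: the 15 lines of L'; the lines m ∉ L' with a point of P'
  (exactly one, `line_cases`): each φ i is on t + 1 lines, 3 of them in L', so 15 (t - 2) (written
  15 (t + 1 - 3)); the 40 lines of NN (`nn_card`); the lines ∉ L' with exactly one α point: each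
  α point is on t + 1 lines: ψ k, 4 in NN (`nn_deg`) and t - 4 others, which contain no other α point
  (30 (t + 1 - 5)); a line ∉ L' with an α point has no point of P' (`α_line`); and OO.
* `oo_two`: m in OO contains at most two H points: m has 5 points, all B points, the triads are
  pairwise disjoint (`ext_part`), if three are hyperbolic: `F2`.
-/

namespace H60GQ

universe u v

open Finset Classical

variable {P : Type u} {L : Type v} {I : P → L → Prop} {t : ℕ} {P' : Set P} {L' : Set L}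

/-- the lines without points of `P'` and without α points -/
def W22.OO (w : W22 I P' L') : Set L := {m | (∀ i, ¬ I (w.φ i) m) ∧ ∀ a, w.IsA a → ¬ I a m}

private lemma OLines_nc [Fintype L] (p : L → Prop) [DecidablePred p] :
    {m | p m}.ncard = (univ.filter p).card := by
  rw [← Set.ncard_coe_finset]
  congr 1
  ext m
  simp

/-- every line is of exactly one kind -/
private lemma OLines_key [Finite P] [Finite L] (h : IsGQ I 4 t) (hs : SubGQ I P' L' 2 2)
    (w : W22 I P' L') (m : L) :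
    (if m ∈ w.OO then 1 else 0) + (if m ∈ L' then 1 else 0) +
      (univ.filter (fun i : Fin 15 => m ∉ L' ∧ I (w.φ i) m)).card +
      (if m ∈ w.NN then 1 else 0) +
      (univ.filter (fun kb : Fin 15 × Bool => m ∉ L' ∧ m ∉ w.NN ∧ I (w.α kb.1 kb.2) m)).card
        = 1 := by
  by_cases hm : m ∈ L'
  · -- a line of the subquadrangle
    obtain ⟨k, rfl⟩ := (w.memL m).1 hm
    have h1 : w.ψ k ∉ w.OO := by
      intro h2
      exact h2.2 (w.α k true) ⟨k, true, rfl⟩ ((w.pts k _).2 (Or.inr ⟨true, rfl⟩))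
    have h2 : w.ψ k ∉ w.NN := fun h2 => h2.1 hm
    have h3 : (univ.filter (fun i : Fin 15 => w.ψ k ∉ L' ∧ I (w.φ i) (w.ψ k))) = ∅ := by
      rw [Finset.filter_eq_empty_iff]
      exact fun i _ h4 => h4.1 hm
    have h4 : (univ.filter (fun kb : Fin 15 × Bool => w.ψ k ∉ L' ∧ w.ψ k ∉ w.NN ∧
        I (w.α kb.1 kb.2) (w.ψ k))) = ∅ := by
      rw [Finset.filter_eq_empty_iff]
      exact fun i _ h4 => h4.1 hm
    rw [if_neg h1, if_pos hm, if_neg h2, h3, h4]
    rfl
  by_cases hφ : ∃ i, I (w.φ i) m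
  · -- a line with a point of P'
    obtain ⟨i, hi⟩ := hφ
    have h1 : m ∉ w.OO := fun h2 => h2.1 i hi
    have hα : ∀ k b, ¬ I (w.α k b) m := fun k b h2 => w.α_line h hs h2 hm i hi
    have h2 : m ∉ w.NN := by
      rintro ⟨-, a, a', -, ⟨k, b, rfl⟩, -, h3, -⟩
      exact hα k b h3
    have h3 : (univ.filter (fun i : Fin 15 => m ∉ L' ∧ I (w.φ i) m)) = {i} := by
      ext j
      rw [Finset.mem_filter, Finset.mem_singleton]
      constructor
      · rintro ⟨-, -, hj⟩
        by_contra hji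
        obtain ⟨k, hk, -⟩ := w.line_cases h hs hji hj hi
        exact hm ((w.memL m).2 ⟨k, hk⟩)
      · rintro rfl
        exact ⟨Finset.mem_univ _, hm, hi⟩
    have h4 : (univ.filter (fun kb : Fin 15 × Bool => m ∉ L' ∧ m ∉ w.NN ∧
        I (w.α kb.1 kb.2) m)) = ∅ := by
      rw [Finset.filter_eq_empty_iff]
      exact fun kb _ h4 => hα _ _ h4.2.2
    rw [if_neg h1, if_neg hm, if_neg h2, h3, h4]
    rfl
  have h3 : (univ.filter (fun i : Fin 15 => m ∉ L' ∧ I (w.φ i) m)) = ∅ := by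
    rw [Finset.filter_eq_empty_iff]
    exact fun i _ h4 => hφ ⟨i, h4.2⟩
  by_cases hN : m ∈ w.NN
  · have h1 : m ∉ w.OO := by
      intro h1
      obtain ⟨-, a, a', -, ha, -, h4, -⟩ := hN
      exact h1.2 a ha h4
    have h4 : (univ.filter (fun kb : Fin 15 × Bool => m ∉ L' ∧ m ∉ w.NN ∧
        I (w.α kb.1 kb.2) m)) = ∅ := by
      rw [Finset.filter_eq_empty_iff]
      exact fun kb _ h4 => h4.2.1 hN
    rw [if_neg h1, if_neg hm, if_pos hN, h3, h4]
    rfl
  by_cases hα : ∃ k b, I (w.α k b) m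
  · obtain ⟨k, b, hkb⟩ := hα
    have h1 : m ∉ w.OO := fun h1 => h1.2 _ ⟨k, b, rfl⟩ hkb
    have h4 : (univ.filter (fun kb : Fin 15 × Bool => m ∉ L' ∧ m ∉ w.NN ∧
        I (w.α kb.1 kb.2) m)) = {(k, b)} := by
      ext ⟨l, c⟩
      rw [Finset.mem_filter, Finset.mem_singleton]
      constructor
      · rintro ⟨-, -, -, h5⟩
        by_contra h6
        apply hN
        refine ⟨hm, w.α k b, w.α l c, ?_, ⟨k, b, rfl⟩, ⟨l, c, rfl⟩, hkb, h5⟩
        intro h7
        obtain ⟨rfl, rfl⟩ := w.α_inj _ _ _ _ h7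
        exact h6 rfl
      · intro h5
        rw [h5]
        exact ⟨Finset.mem_univ _, hm, hN, hkb⟩
    rw [if_neg h1, if_neg hm, if_neg hN, h3, h4]
    rfl
  · have h1 : m ∈ w.OO := by
      refine ⟨fun i hi => hφ ⟨i, hi⟩, ?_⟩
      rintro a ⟨k, b, rfl⟩ h2
      exact hα ⟨k, b, h2⟩
    have h4 : (univ.filter (fun kb : Fin 15 × Bool => m ∉ L' ∧ m ∉ w.NN ∧
        I (w.α kb.1 kb.2) m)) = ∅ := by
      rw [Finset.filter_eq_empty_iff]
      exact fun kb _ h4 => hα ⟨_, _, h4.2.2⟩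
    rw [if_pos h1, if_neg hm, if_neg hN, h3, h4]
    rfl

/-- the lines outside `L'` through a point of `P'` -/
private lemma OLines_φ [Finite L] (h : IsGQ I 4 t) (ht : 4 ≤ t) (hs : SubGQ I P' L' 2 2)
    (w : W22 I P' L') (i : Fin 15) : {m | m ∉ L' ∧ I (w.φ i) m}.ncard = t - 2 := by
  have h1 := h.point_card (w.φ i)
  have h2 := hs.pc ((w.memP (w.φ i)).2 ⟨i, rfl⟩)
  have h3 : {m | I (w.φ i) m} = {m | m ∉ L' ∧ I (w.φ i) m} ∪ {m | m ∈ L' ∧ I (w.φ i) m} := by
    ext m
    simp only [Set.mem_setOf_eq, Set.mem_union]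
    tauto
  have h4 : Disjoint {m | m ∉ L' ∧ I (w.φ i) m} {m | m ∈ L' ∧ I (w.φ i) m} := by
    rw [Set.disjoint_left]
    exact fun m hm hm' => hm.1 hm'.1
  rw [h3, Set.ncard_union_eq h4 (Set.toFinite _) (Set.toFinite _)] at h1
  omega

/-- the lines outside `L'` and `NN` through an α point -/
private lemma OLines_α [Finite P] [Finite L] (h : IsGQ I 4 t) (ht : 4 ≤ t)
    (hs : SubGQ I P' L' 2 2) (w : W22 I P' L') (hw : w.AllReg) (k : Fin 15) (b : Bool) :
    {m | m ∉ L' ∧ m ∉ w.NN ∧ I (w.α k b) m}.ncard = t - 4 := by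
  have h1 := h.point_card (w.α k b)
  have h2 := w.nn_deg h (by omega) hs hw (a := w.α k b) ⟨k, b, rfl⟩
  have hk : I (w.α k b) (w.ψ k) := (w.pts k _).2 (Or.inr ⟨b, rfl⟩)
  have hkL : w.ψ k ∈ L' := (w.memL _).2 ⟨k, rfl⟩
  have h3 : {m | I (w.α k b) m} = {m | m ∉ L' ∧ m ∉ w.NN ∧ I (w.α k b) m} ∪
      ({N | N ∈ w.NN ∧ I (w.α k b) N} ∪ {w.ψ k}) := by
    ext m
    simp only [Set.mem_setOf_eq, Set.mem_union, Set.mem_singleton_iff]
    constructor
    · intro hm
      by_cases h4 : m ∈ L'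
      · right; right
        by_contra h5
        exact w.α_not k b (hs.pt_mem h h4 hkL h5 hm hk)
      · by_cases h5 : m ∈ w.NN
        · exact Or.inr (Or.inl ⟨h5, hm⟩)
        · exact Or.inl ⟨h4, h5, hm⟩
    · rintro (h4 | h4 | rfl)
      · exact h4.2.2
      · exact h4.2
      · exact hk
  have h4 : Disjoint {m | m ∉ L' ∧ m ∉ w.NN ∧ I (w.α k b) m}
      ({N | N ∈ w.NN ∧ I (w.α k b) N} ∪ {w.ψ k}) := by
    rw [Set.disjoint_left]
    rintro m ⟨h5, h6, -⟩ (h7 | h7)
    · exact h6 h7.1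
    · rw [Set.mem_singleton_iff] at h7
      rw [h7] at h5
      exact h5 hkL
  have h5 : Disjoint {N | N ∈ w.NN ∧ I (w.α k b) N} {w.ψ k} := by
    rw [Set.disjoint_left]
    rintro m ⟨h5, -⟩ h7
    rw [Set.mem_singleton_iff] at h7
    rw [h7] at h5
    exact h5.1 hkL
  rw [h3, Set.ncard_union_eq h4 (Set.toFinite _) (Set.toFinite _),
    Set.ncard_union_eq h5 (Set.toFinite _) (Set.toFinite _), h2, Set.ncard_singleton] at h1
  omega

theorem W22.oo_card [Finite P] [Finite L] (h : IsGQ I 4 t) (ht : 4 ≤ t) (hs : SubGQ I P' L' 2 2)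
    (w : W22 I P' L') (hw : w.AllReg) :
    w.OO.ncard + 15 + 15 * (t - 2) + 40 + 30 * (t - 4) = (t + 1) * (4 * t + 1) := by
  have hfin : Fintype L := Fintype.ofFinite L
  have hne : Nonempty P := ⟨w.φ 0⟩
  have hL := h.card_lines
  rw [Nat.card_eq_fintype_card] at hL
  have hsum : ∑ m : L, ((if m ∈ w.OO then 1 else 0) + (if m ∈ L' then 1 else 0) +
      (univ.filter (fun i : Fin 15 => m ∉ L' ∧ I (w.φ i) m)).card +
      (if m ∈ w.NN then 1 else 0) +
      (univ.filter (fun kb : Fin 15 × Bool => m ∉ L' ∧ m ∉ w.NN ∧ I (w.α kb.1 kb.2) m)).card)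
        = Fintype.card L := by
    rw [Finset.sum_congr rfl fun m _ => OLines_key h hs w m]
    simp
  rw [Finset.sum_add_distrib, Finset.sum_add_distrib, Finset.sum_add_distrib,
    Finset.sum_add_distrib] at hsum
  have e1 : ∑ m : L, (if m ∈ w.OO then 1 else 0) = w.OO.ncard := by
    rw [← Finset.card_filter]
    exact (OLines_nc (fun m => m ∈ w.OO)).symm
  have e2 : ∑ m : L, (if m ∈ L' then 1 else 0) = 15 := by
    rw [← Finset.card_filter]
    exact (OLines_nc (fun m => m ∈ L')).symm.trans hs.card_lns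
  have e4 : ∑ m : L, (if m ∈ w.NN then 1 else 0) = 40 := by
    rw [← Finset.card_filter]
    exact (OLines_nc (fun m => m ∈ w.NN)).symm.trans (w.nn_card h (by omega) hs hw)
  have e3 : ∑ m : L, (univ.filter (fun i : Fin 15 => m ∉ L' ∧ I (w.φ i) m)).card =
      15 * (t - 2) := by
    have h1 : ∀ m : L, (univ.filter (fun i : Fin 15 => m ∉ L' ∧ I (w.φ i) m)).card =
        ∑ i : Fin 15, if m ∉ L' ∧ I (w.φ i) m then 1 else 0 := fun m => Finset.card_filter _ _
    rw [Finset.sum_congr rfl fun m _ => h1 m, Finset.sum_comm]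
    have h2 : ∀ i : Fin 15, (∑ m : L, if m ∉ L' ∧ I (w.φ i) m then 1 else 0) = t - 2 := by
      intro i
      rw [← Finset.card_filter]
      exact (OLines_nc (fun m => m ∉ L' ∧ I (w.φ i) m)).symm.trans (OLines_φ h ht hs w i)
    rw [Finset.sum_congr rfl fun i _ => h2 i, Finset.sum_const, Finset.card_univ,
      Fintype.card_fin, smul_eq_mul]
  have e5 : ∑ m : L, (univ.filter (fun kb : Fin 15 × Bool => m ∉ L' ∧ m ∉ w.NN ∧
      I (w.α kb.1 kb.2) m)).card = 30 * (t - 4) := by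
    have h1 : ∀ m : L, (univ.filter (fun kb : Fin 15 × Bool => m ∉ L' ∧ m ∉ w.NN ∧
        I (w.α kb.1 kb.2) m)).card =
        ∑ kb : Fin 15 × Bool, if m ∉ L' ∧ m ∉ w.NN ∧ I (w.α kb.1 kb.2) m then 1 else 0 :=
      fun m => Finset.card_filter _ _
    rw [Finset.sum_congr rfl fun m _ => h1 m, Finset.sum_comm]
    have h2 : ∀ kb : Fin 15 × Bool,
        (∑ m : L, if m ∉ L' ∧ m ∉ w.NN ∧ I (w.α kb.1 kb.2) m then 1 else 0) = t - 4 := by
      intro kb
      rw [← Finset.card_filter]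
      exact (OLines_nc (fun m => m ∉ L' ∧ m ∉ w.NN ∧ I (w.α kb.1 kb.2) m)).symm.trans
        (OLines_α h ht hs w hw kb.1 kb.2)
    rw [Finset.sum_congr rfl fun i _ => h2 i, Finset.sum_const, Finset.card_univ,
      Fintype.card_prod, Fintype.card_fin, Fintype.card_bool, smul_eq_mul]
  rw [e1, e2, e3, e4, e5] at hsum
  rw [← hL]
  exact hsum

end H60GQ
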