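import Pool.Agent.H60.GQ.Counts

/-!
Project GQ (MP_a3aa3c_co), part 3, module OvA: an ovoid O in a quadrangle of order (4, 11).

`nO x y` = number of points of O collinear with x and y. Facts: |O| = 45 (each of the 540 lines has
one point of O, each point is on 12 lines), two different points of O are not collinear, a point
x ∉ O is collinear with exactly 12 points of O (`ov_nbr`).
Proof of `nO_34`, `n3` (x ∉ O): let Y = {y ∉ O, y not collinear with x}.
 |Y| = 176 - 33 = 143 (`noncol_card`: 4^2 * 11 = 176; 45 - 12 = 33 points of O are not collinear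
 with x).
 ∑_Y nO x y = 12 * 44 = 528: for p ∈ O collinear with x the 48 neighbours of p are outside O, those
 collinear with x are x and the 3 other points of the line p x.
 ∑_Y nO x y (nO x y - 1) = 12 * 11 * 11: for p ≠ q ∈ O collinear with x: the 12 common neighbours of
 p, q are outside O, one is x, and the 11 others are not collinear with x (no triangles).
 Hence ∑_Y (nO - 3)(nO - 4) = 1452 - 6 * 528 + 12 * 143 = 0, and all terms are ≥ 0 (integers).
 With n3 + n4 = 143, 3 n3 + 4 n4 = 528: n3 = 44.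
-/

namespace H60GQ

universe u v

variable {P : Type u} {L : Type v} {I : P → L → Prop} {s t : ℕ}

/-- `O` is an ovoid: every line contains exactly one point of `O` -/
def Ovoid (I : P → L → Prop) (O : Set P) : Prop := ∀ l, ∃! p, p ∈ O ∧ I p l

/-- number of points of `O` collinear with `x` and `y` -/
noncomputable def nO (I : P → L → Prop) (O : Set P) (x y : P) : ℕ :=
  {p | p ∈ O ∧ Col I x p ∧ Col I y p}.ncard

theorem ov_card [Finite P] [Finite L] [Nonempty P] (h : IsGQ I 4 11) {O : Set P}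
    (hO : Ovoid I O) : O.ncard = 45 := by
  classical
  have : Fintype P := Fintype.ofFinite P
  have : Fintype L := Fintype.ofFinite L
  set F : Finset P := Finset.univ.filter (fun p => p ∈ O) with hF
  have hFO : (F : Set P) = O := by
    ext p
    rw [Finset.mem_coe, hF, Finset.mem_filter]
    simp
  have hdc := Finset.sum_card_bipartiteAbove_eq_sum_card_bipartiteBelow (s := F)
    (t := (Finset.univ : Finset L)) I
  have e1 : ∀ p ∈ F, ((Finset.univ : Finset L).bipartiteAbove I p).card = 12 := by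
    intro p _
    have h1 := h.point_card p
    have h2 : {l | I p l} = (((Finset.univ : Finset L).bipartiteAbove I p : Finset L) : Set L) := by
      ext l
      rw [Finset.mem_coe, Finset.mem_bipartiteAbove]
      simp
    rw [h2, Set.ncard_coe_finset] at h1
    exact h1
  have e2 : ∀ l ∈ (Finset.univ : Finset L), (F.bipartiteBelow I l).card = 1 := by
    intro l _
    obtain ⟨p, ⟨hp, hpl⟩, hu⟩ := hO l
    rw [Finset.card_eq_one]
    refine ⟨p, ?_⟩
    ext q
    rw [Finset.mem_bipartiteBelow, Finset.mem_singleton, hF, Finset.mem_filter]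
    constructor
    · rintro ⟨⟨_, hq⟩, hql⟩
      exact hu q ⟨hq, hql⟩
    · rintro rfl
      exact ⟨⟨Finset.mem_univ _, hp⟩, hpl⟩
  rw [Finset.sum_congr rfl e1, Finset.sum_congr rfl e2, Finset.sum_const, Finset.sum_const,
    Finset.card_univ, smul_eq_mul, smul_eq_mul, mul_one] at hdc
  have h3 := h.card_lines
  rw [Nat.card_eq_fintype_card] at h3
  rw [← hFO, Set.ncard_coe_finset]
  omega

private theorem ovA_col_eq (h : IsGQ I 4 11) {O : Set P} (hO : Ovoid I O) {p q : P} (hp : p ∈ O)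
    (hq : q ∈ O) (c : Col I p q) : p = q := by
  obtain ⟨l, h1, h2⟩ := c
  exact (hO l).unique ⟨hp, h1⟩ ⟨hq, h2⟩

theorem ov_nbr [Finite P] [Finite L] (h : IsGQ I 4 11) {O : Set P} (hO : Ovoid I O) {x : P}
    (hx : x ∉ O) : {p | p ∈ O ∧ Col I x p}.ncard = 12 := by
  classical
  have hpc : {l | I x l}.ncard = 12 := h.point_card x
  rw [← hpc]
  symm
  have hex : ∀ l, ∃ p, p ∈ O ∧ I p l := fun l => (hO l).exists
  choose φ hφ1 hφ2 using hex
  refine Set.ncard_congr (fun l _ => φ l) ?_ ?_ ?_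
  · intro l hl
    exact ⟨hφ1 l, l, hl, hφ2 l⟩
  · intro l m hl hm hlm
    have hlm' : φ l = φ m := hlm
    have hne : x ≠ φ l := fun e => hx (e ▸ hφ1 l)
    have h3 : I (φ l) m := by
      rw [hlm']
      exact hφ2 m
    exact h.line_unique hne hl (hφ2 l) hm h3
  · rintro p ⟨hp, l, h1, h2⟩
    exact ⟨l, h1, (hO l).unique ⟨hφ1 l, hφ2 l⟩ ⟨hp, h2⟩⟩

/-- points of `Y` collinear with `p` -/
private theorem ovA_first [Finite P] [Finite L] (h : IsGQ I 4 11) {O : Set P} (hO : Ovoid I O)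
    {x : P} (hx : x ∉ O) {p : P} (hp : p ∈ O) (hxp : Col I x p) :
    {y | (y ∉ O ∧ ¬ Col I x y) ∧ Col I y p}.ncard = 44 := by
  classical
  obtain ⟨l, hxl, hpl⟩ := hxp
  have hne : x ≠ p := fun e => hx (e ▸ hp)
  have h1 := h.nbr_card p
  have h2 : {q | q ≠ p ∧ Col I p q} =
      {y | (y ∉ O ∧ ¬ Col I x y) ∧ Col I y p} ∪ ({y | I y l} \ {p}) := by
    ext y
    rw [Set.mem_union, Set.mem_sdiff, Set.mem_singleton_iff]
    constructor
    · rintro ⟨hyp, c⟩
      by_cases hcx : Col I x y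
      · right
        refine ⟨?_, hyp⟩
        show I y l
        exact h.mem_of_col hne hxl hpl hcx.symm c.symm
      · left
        exact ⟨⟨fun hy => hyp (ovA_col_eq h hO hy hp c.symm), hcx⟩, c.symm⟩
    · rintro (⟨⟨hy, _⟩, c⟩ | ⟨hyl, hyp⟩)
      · exact ⟨fun e => hy (e ▸ hp), c.symm⟩
      · exact ⟨hyp, l, hpl, hyl⟩
  have h3 : Disjoint {y | (y ∉ O ∧ ¬ Col I x y) ∧ Col I y p} ({y | I y l} \ {p}) := by
    rw [Set.disjoint_left]
    rintro y ⟨⟨_, hcx⟩, _⟩ ⟨hyl, _⟩
    exact hcx ⟨l, hxl, hyl⟩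
  rw [h2, Set.ncard_union_eq h3 (Set.toFinite _) (Set.toFinite _),
    Set.ncard_sdiff_singleton_of_mem (show p ∈ {y | I y l} from hpl), h.line_card l] at h1
  omega

private theorem ovA_second [Finite P] [Finite L] (h : IsGQ I 4 11) {O : Set P} (hO : Ovoid I O)
    {x : P} (hx : x ∉ O) {p q : P} (hp : p ∈ O) (hxp : Col I x p) (hq : q ∈ O) (hxq : Col I x q)
    (hpq : p ≠ q) :
    {y | (y ∉ O ∧ ¬ Col I x y) ∧ (Col I y p ∧ Col I y q)}.ncard = 11 := by
  classical
  have hncol : ¬ Col I p q := fun c => hpq (ovA_col_eq h hO hp hq c)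
  have h1 := h.common_card hncol
  have h2 : {r | Col I p r ∧ Col I q r} =
      insert x {y | (y ∉ O ∧ ¬ Col I x y) ∧ (Col I y p ∧ Col I y q)} := by
    ext y
    rw [Set.mem_insert_iff]
    constructor
    · rintro ⟨c1, c2⟩
      by_cases hyx : y = x
      · exact Or.inl hyx
      · right
        refine ⟨⟨?_, ?_⟩, c1.symm, c2.symm⟩
        · intro hy
          have e := ovA_col_eq h hO hp hy c1
          rw [← e] at c2
          exact hncol c2.symm
        · rintro ⟨m, hxm, hym⟩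
          have hxp' : Col I p x := hxp.symm
          have hxq' : Col I q x := hxq.symm
          have i1 : I p m := h.mem_of_col hyx hym hxm c1 hxp'
          have i2 : I q m := h.mem_of_col hyx hym hxm c2 hxq'
          exact hncol ⟨m, i1, i2⟩
    · rintro (rfl | ⟨_, c1, c2⟩)
      · exact ⟨hxp.symm, hxq.symm⟩
      · exact ⟨c1.symm, c2.symm⟩
  have h3 : x ∉ {y | (y ∉ O ∧ ¬ Col I x y) ∧ (Col I y p ∧ Col I y q)} := by
    rintro ⟨⟨_, hc⟩, _⟩
    exact hc (h.col_refl x)
  rw [h2, Set.ncard_insert_of_notMem h3 (Set.toFinite _)] at h1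
  omega

private theorem ovA_Y [Finite P] [Finite L] (h : IsGQ I 4 11) {O : Set P} (hO : Ovoid I O)
    {x : P} (hx : x ∉ O) : {y | y ∉ O ∧ ¬ Col I x y}.ncard = 143 := by
  classical
  have : Nonempty P := ⟨x⟩
  have h1 := h.noncol_card x
  have h2 := ov_card h hO
  have h3 := ov_nbr h hO hx
  have h4 : O = {p | p ∈ O ∧ Col I x p} ∪ {p | p ∈ O ∧ ¬ Col I x p} := by
    ext p
    constructor
    · intro hp
      by_cases c : Col I x p
      · exact Or.inl ⟨hp, c⟩
      · exact Or.inr ⟨hp, c⟩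
    · rintro (hp | hp)
      · exact hp.1
      · exact hp.1
  have h5 : Disjoint {p | p ∈ O ∧ Col I x p} {p | p ∈ O ∧ ¬ Col I x p} := by
    rw [Set.disjoint_left]
    rintro p ⟨_, c⟩ ⟨_, c'⟩
    exact c' c
  have h6 : {p | ¬ Col I x p} = {p | p ∈ O ∧ ¬ Col I x p} ∪ {y | y ∉ O ∧ ¬ Col I x y} := by
    ext p
    constructor
    · intro hp
      by_cases c : p ∈ O
      · exact Or.inl ⟨c, hp⟩
      · exact Or.inr ⟨c, hp⟩
    · rintro (hp | hp)
      · exact hp.2
      · exact hp.2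
  have h7 : Disjoint {p | p ∈ O ∧ ¬ Col I x p} {y | y ∉ O ∧ ¬ Col I x y} := by
    rw [Set.disjoint_left]
    rintro p ⟨c, _⟩ ⟨c', _⟩
    exact c' c
  rw [h6, Set.ncard_union_eq h7 (Set.toFinite _) (Set.toFinite _)] at h1
  rw [h4, Set.ncard_union_eq h5 (Set.toFinite _) (Set.toFinite _)] at h2
  omega

/-- the three sums -/
private theorem ovA_sums [Finite P] [Finite L] (h : IsGQ I 4 11) {O : Set P} (hO : Ovoid I O)
    {x : P} (hx : x ∉ O) : ∃ Y : Finset P, (∀ y, y ∈ Y ↔ y ∉ O ∧ ¬ Col I x y) ∧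
      Y.card = 143 ∧ ∑ y ∈ Y, (nO I O x y : ℤ) = 528 ∧ ∑ y ∈ Y, (nO I O x y : ℤ) ^ 2 = 1980 := by
  classical
  have : Fintype P := Fintype.ofFinite P
  have : Fintype L := Fintype.ofFinite L
  obtain ⟨Y, memY⟩ : ∃ Y : Finset P, ∀ y, y ∈ Y ↔ y ∉ O ∧ ¬ Col I x y :=
    ⟨Finset.univ.filter (fun y => y ∉ O ∧ ¬ Col I x y), fun y => by
      rw [Finset.mem_filter]; simp⟩
  obtain ⟨N, memN⟩ : ∃ N : Finset P, ∀ y, y ∈ N ↔ y ∈ O ∧ Col I x y :=
    ⟨Finset.univ.filter (fun p => p ∈ O ∧ Col I x p), fun y => by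
      rw [Finset.mem_filter]; simp⟩
  have cY : Y.card = 143 := by
    rw [← ovA_Y h hO hx, ← Set.ncard_coe_finset]
    congr 1
    ext y
    rw [Finset.mem_coe, memY]
    rfl
  have cN : N.card = 12 := by
    rw [← ov_nbr h hO hx, ← Set.ncard_coe_finset]
    congr 1
    ext y
    rw [Finset.mem_coe, memN]
    rfl
  have hc : ∀ y, nO I O x y = (N.filter (fun p => Col I y p)).card := by
    intro y
    unfold nO
    rw [← Set.ncard_coe_finset]
    congr 1
    ext p
    rw [Finset.mem_coe, Finset.mem_filter, memN]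
    constructor
    · rintro ⟨h1, h2, h3⟩
      exact ⟨⟨h1, h2⟩, h3⟩
    · rintro ⟨⟨h1, h2⟩, h3⟩
      exact ⟨h1, h2, h3⟩
  have f1 : ∀ p ∈ N, (Y.filter (fun y => Col I y p)).card = 44 := by
    intro p hp
    rw [memN] at hp
    rw [← ovA_first h hO hx hp.1 hp.2, ← Set.ncard_coe_finset]
    congr 1
    ext y
    rw [Finset.mem_coe, Finset.mem_filter, memY]
    rfl
  have f2 : ∀ p ∈ N, ∀ q ∈ N, p ≠ q →
      (Y.filter (fun y => Col I y p ∧ Col I y q)).card = 11 := by
    intro p hp q hq hpq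
    rw [memN] at hp hq
    rw [← ovA_second h hO hx hp.1 hp.2 hq.1 hq.2 hpq, ← Set.ncard_coe_finset]
    congr 1
    ext y
    rw [Finset.mem_coe, Finset.mem_filter, memY]
    rfl
  refine ⟨Y, memY, cY, ?_, ?_⟩
  · have d1 := Finset.sum_card_bipartiteAbove_eq_sum_card_bipartiteBelow (s := Y) (t := N)
      (fun y p => Col I y p)
    have d2 : ∑ y ∈ Y, (nO I O x y) = 528 := by
      have e1 : ∑ y ∈ Y, (nO I O x y) = ∑ y ∈ Y, (N.bipartiteAbove (fun y p => Col I y p) y).card :=
        Finset.sum_congr rfl fun y _ => hc y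
      rw [e1, d1]
      have e2 : ∀ p ∈ N, (Y.bipartiteBelow (fun y p => Col I y p) p).card = 44 := fun p hp => f1 p hp
      rw [Finset.sum_congr rfl e2, Finset.sum_const, cN, smul_eq_mul]
    exact_mod_cast d2
  · have d1 := Finset.sum_card_bipartiteAbove_eq_sum_card_bipartiteBelow (s := Y) (t := N ×ˢ N)
      (fun y (pq : P × P) => Col I y pq.1 ∧ Col I y pq.2)
    have d2 : ∑ y ∈ Y, (nO I O x y) ^ 2 = 1980 := by
      have e1 : ∑ y ∈ Y, (nO I O x y) ^ 2 = ∑ y ∈ Y,
          ((N ×ˢ N).bipartiteAbove (fun y (pq : P × P) => Col I y pq.1 ∧ Col I y pq.2) y).card := by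
        refine Finset.sum_congr rfl fun y _ => ?_
        have e3 : (N ×ˢ N).bipartiteAbove (fun y (pq : P × P) => Col I y pq.1 ∧ Col I y pq.2) y =
            (N.filter (fun p => Col I y p)) ×ˢ (N.filter (fun p => Col I y p)) := by
          ext pq
          simp only [Finset.mem_bipartiteAbove, Finset.mem_product, Finset.mem_filter]
          tauto
        rw [e3, Finset.card_product, hc y, sq]
      rw [e1, d1, Finset.sum_product]
      have e2 : ∀ p ∈ N, ∑ q ∈ N, (Y.bipartiteBelow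
          (fun y (pq : P × P) => Col I y pq.1 ∧ Col I y pq.2) (p, q)).card = 165 := by
        intro p hp
        rw [← Finset.add_sum_erase N _ hp]
        have g1 : (Y.bipartiteBelow
          (fun y (pq : P × P) => Col I y pq.1 ∧ Col I y pq.2) (p, p)).card = 44 := by
          rw [← f1 p hp]
          congr 1
          ext y
          simp only [Finset.mem_bipartiteBelow, Finset.mem_filter]
          tauto
        have g2 : ∀ q ∈ N.erase p, (Y.bipartiteBelow
          (fun y (pq : P × P) => Col I y pq.1 ∧ Col I y pq.2) (p, q)).card = 11 := by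
          intro q hq
          rw [Finset.mem_erase] at hq
          exact f2 p hp q hq.2 hq.1.symm
        rw [g1, Finset.sum_congr rfl g2, Finset.sum_const, Finset.card_erase_of_mem hp, cN,
          smul_eq_mul]
      rw [Finset.sum_congr rfl e2, Finset.sum_const, cN, smul_eq_mul]
    exact_mod_cast d2

private theorem ovA_all [Finite P] [Finite L] (h : IsGQ I 4 11) {O : Set P} (hO : Ovoid I O)
    {x : P} (hx : x ∉ O) : ∃ Y : Finset P, (∀ y, y ∈ Y ↔ y ∉ O ∧ ¬ Col I x y) ∧
      Y.card = 143 ∧ ∑ y ∈ Y, (nO I O x y : ℤ) = 528 ∧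
      ∀ y ∈ Y, nO I O x y = 3 ∨ nO I O x y = 4 := by
  obtain ⟨Y, memY, cY, s1, s2⟩ := ovA_sums h hO hx
  refine ⟨Y, memY, cY, s1, ?_⟩
  have hs : ∑ y ∈ Y, (((nO I O x y : ℤ) - 3) * ((nO I O x y : ℤ) - 4)) = 0 := by
    have e : ∀ y ∈ Y, (((nO I O x y : ℤ) - 3) * ((nO I O x y : ℤ) - 4)) =
        (nO I O x y : ℤ) ^ 2 - 7 * (nO I O x y : ℤ) + 12 := fun y _ => by ring
    rw [Finset.sum_congr rfl e, Finset.sum_add_distrib, Finset.sum_sub_distrib, ← Finset.mul_sum,
      s1, s2, Finset.sum_const, cY]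
    norm_num
  have hnn : ∀ y ∈ Y, 0 ≤ (((nO I O x y : ℤ) - 3) * ((nO I O x y : ℤ) - 4)) := by
    intro y _
    rcases le_or_gt ((nO I O x y : ℤ)) 3 with h1 | h1
    · nlinarith
    · have h2 : (4 : ℤ) ≤ nO I O x y := h1
      nlinarith
  intro y hy
  have h0 := (Finset.sum_eq_zero_iff_of_nonneg hnn).mp hs y hy
  rcases mul_eq_zero.mp h0 with h1 | h1
  · left
    omega
  · right
    omega

theorem nO_34 [Finite P] [Finite L] (h : IsGQ I 4 11) {O : Set P} (hO : Ovoid I O) {x y : P}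
    (hx : x ∉ O) (hy : y ∉ O) (hxy : ¬ Col I x y) : nO I O x y = 3 ∨ nO I O x y = 4 := by
  obtain ⟨Y, memY, _, _, hall⟩ := ovA_all h hO hx
  exact hall y ((memY y).mpr ⟨hy, hxy⟩)

theorem n3 [Finite P] [Finite L] (h : IsGQ I 4 11) {O : Set P} (hO : Ovoid I O) {x : P}
    (hx : x ∉ O) : {y | y ∉ O ∧ ¬ Col I x y ∧ nO I O x y = 3}.ncard = 44 := by
  classical
  obtain ⟨Y, memY, cY, s1, hall⟩ := ovA_all h hO hx
  have h1 : {y | y ∉ O ∧ ¬ Col I x y ∧ nO I O x y = 3} =
      ((Y.filter (fun y => nO I O x y = 3) : Finset P) : Set P) := by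
    ext y
    rw [Finset.mem_coe, Finset.mem_filter, memY]
    constructor
    · rintro ⟨h1, h2, h3⟩
      exact ⟨⟨h1, h2⟩, h3⟩
    · rintro ⟨⟨h1, h2⟩, h3⟩
      exact ⟨h1, h2, h3⟩
  rw [h1, Set.ncard_coe_finset]
  have h2 : ∑ y ∈ Y, (nO I O x y : ℤ) = ∑ y ∈ Y, (4 - if nO I O x y = 3 then (1 : ℤ) else 0) := by
    refine Finset.sum_congr rfl fun y hy => ?_
    rcases hall y hy with h3 | h3
    · rw [h3, if_pos rfl]
      norm_num
    · rw [h3, if_neg (by norm_num)]
      norm_num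
  rw [s1, Finset.sum_sub_distrib, Finset.sum_const, cY, ← Finset.sum_filter, Finset.sum_const,
    nsmul_eq_mul, nsmul_eq_mul, mul_one] at h2
  push_cast at h2
  omega

end H60GQ
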