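import Pool.Agent.H60.GQ.OvA

/-!
Project GQ (MP_a3aa3c_co), part 3, module OvB: for R x y (x, y ∉ O not collinear, nO x y = 3) there are
exactly 43 points z with R x z and R y z.

Proof plan. For z ∉ O, z ≠ x put X x z = 4 - 3 a(z) - i(z), a(z) = 1 if z is collinear with x (else 0),
i(z) = nO x z. By `nO_34` (and i(z) = 1 if z ≠ x is collinear with x) X x z ∈ {0, 1} and
X x z = 1 iff R x z. So the number wanted is ∑_{z ∉ O, z ≠ x, y} X x z X y z, with b, j for y:
16 - 12 b - 4 j - 12 a + 9 a b + 3 a j - 4 i + 3 b i + i j. Sums over the 178 points z ∉ O, z ≠ x, y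
(|P| = 225, |O| = 45):
 ∑ a = ∑ b = 36 (48 neighbours of x, 12 in O); ∑ a b = 12 - 3 = 9;
 ∑ i = ∑ j = 12 * 48 - 12 - 3 = 561 (∑_{z ∉ O} nO x z = 12 * 48, nO x x = 12, nO x y = 3);
 ∑ a j = 117: pairs (p, z), p ∈ O collinear with y, z ≠ x collinear with p and x: if p is collinear
   with x (3 such p) 3 points z, otherwise (9 such p) 12 points z (all outside O);
 ∑ b i = 117;
 ∑ i j = 3 * 48 + (144 - 3) * 12 - 36 - 36 = 1764: pairs p, q ∈ O, p collinear with x, q with y,
   z ∉ O collinear with p and q: 48 points if p = q (3 times), 12 if p ≠ q; minus z = x, z = y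
   (12 * 3 each).
Total 16 * 178 - 24 * 36 - 8 * 561 + 9 * 9 + 6 * 117 + 1764 = 43.
`ov_trans`: R y has 44 elements (`n3`), one of them is x, the other 43 are all in R x by `ov_43`.
-/

namespace H60GQ

universe u v

variable {P : Type u} {L : Type v} {I : P → L → Prop} {s t : ℕ}

/-- the relation `R` -/
def ovR (I : P → L → Prop) (O : Set P) (x y : P) : Prop :=
  x ∉ O ∧ y ∉ O ∧ ¬ Col I x y ∧ nO I O x y = 3

open Classical in
/-- indicator of collinearity -/
private noncomputable def OvB_c (I : P → L → Prop) (x z : P) : ℤ := if Col I x z then 1 else 0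

open Classical in
/-- indicator of `O` -/
private noncomputable def OvB_o (O : Set P) (z : P) : ℤ := if z ∈ O then 1 else 0

private theorem OvB_c_symm (x z : P) : OvB_c I x z = OvB_c I z x := by
  unfold OvB_c
  by_cases h : Col I x z
  · rw [if_pos h, if_pos h.symm]
  · rw [if_neg h, if_neg (fun e => h e.symm)]

private theorem OvB_ncard [Fintype P] (q : P → Prop) [DecidablePred q] :
    ∑ z, (if q z then (1 : ℤ) else 0) = ({z | q z}.ncard : ℤ) := by
  classical
  rw [Set.ncard_eq_toFinset_card', Set.toFinset_ofPred, Finset.sum_boole]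

private theorem OvB_one [Fintype P] [Finite L] (h : IsGQ I 4 11) (p : P) :
    ∑ z, OvB_c I p z = 49 := by
  classical
  have h1 := h.nbr_card p
  have h2 : {q | Col I p q} = insert p {q | q ≠ p ∧ Col I p q} := by
    ext q
    rw [Set.mem_insert_iff]
    constructor
    · intro hq
      by_cases e : q = p
      · exact Or.inl e
      · exact Or.inr ⟨e, hq⟩
    · rintro (rfl | hq)
      · exact h.col_refl q
      · exact hq.2
  have h3 : p ∉ {q | q ≠ p ∧ Col I p q} := fun e => e.1 rfl
  have h4 : {q | Col I p q}.ncard = 49 := by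
    rw [h2, Set.ncard_insert_of_notMem h3 (Set.toFinite _), h1]
  unfold OvB_c
  rw [OvB_ncard, h4]
  rfl

private theorem OvB_cc [Fintype P] [DecidableEq P] [Finite L] (h : IsGQ I 4 11) (p q : P) :
    ∑ z, OvB_c I z p * OvB_c I z q =
      12 - 7 * OvB_c I p q + 44 * (if p = q then (1 : ℤ) else 0) := by
  classical
  have h0 : ∀ z, OvB_c I z p * OvB_c I z q = if (Col I p z ∧ Col I q z) then (1 : ℤ) else 0 := by
    intro z
    rw [OvB_c_symm z p, OvB_c_symm z q]
    unfold OvB_c
    by_cases h1 : Col I p z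
    · by_cases h2 : Col I q z
      · simp [h1, h2]
      · simp [h1, h2]
    · simp [h1]
  rw [Finset.sum_congr rfl (fun z _ => h0 z), OvB_ncard]
  by_cases hpq : p = q
  · subst hpq
    have h1 := OvB_one h p
    unfold OvB_c at h1
    rw [OvB_ncard] at h1
    have h2 : {z | Col I p z ∧ Col I p z} = {z | Col I p z} := by
      ext z
      exact and_self_iff
    rw [h2, h1]
    unfold OvB_c
    simp [h.col_refl p]
  · by_cases hc : Col I p q
    · have hc' := hc
      obtain ⟨l, hp, hq⟩ := hc
      have h2 : {z | Col I p z ∧ Col I q z} = {z | I z l} := by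
        ext z
        constructor
        · rintro ⟨h3, h4⟩
          exact h.mem_of_col hpq hp hq h3.symm h4.symm
        · intro hz
          exact ⟨⟨l, hp, hz⟩, ⟨l, hq, hz⟩⟩
      rw [h2, h.line_card l]
      unfold OvB_c
      rw [if_pos hc', if_neg hpq]
      norm_num
    · rw [h.common_card hc]
      unfold OvB_c
      rw [if_neg hc, if_neg hpq]
      norm_num

/-- the bilinear form -/
private theorem OvB_bil [Fintype P] [Finite L] (h : IsGQ I 4 11) (A B : P → ℤ) :
    ∑ z, (∑ p, A p * OvB_c I z p) * (∑ q, B q * OvB_c I z q) =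
      12 * ((∑ p, A p) * ∑ q, B q) - 7 * ∑ p, ∑ q, A p * B q * OvB_c I p q +
        44 * ∑ p, A p * B p := by
  classical
  have h1 : ∑ z, (∑ p, A p * OvB_c I z p) * (∑ q, B q * OvB_c I z q) =
      ∑ p, ∑ q, A p * B q * ∑ z, OvB_c I z p * OvB_c I z q := by
    calc ∑ z, (∑ p, A p * OvB_c I z p) * (∑ q, B q * OvB_c I z q)
        = ∑ z, ∑ p, ∑ q, A p * B q * (OvB_c I z p * OvB_c I z q) := by
          refine Finset.sum_congr rfl (fun z _ => ?_)
          rw [Finset.sum_mul_sum]
          refine Finset.sum_congr rfl (fun p _ => Finset.sum_congr rfl (fun q _ => ?_))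
          ring
      _ = ∑ p, ∑ z, ∑ q, A p * B q * (OvB_c I z p * OvB_c I z q) := Finset.sum_comm
      _ = ∑ p, ∑ q, ∑ z, A p * B q * (OvB_c I z p * OvB_c I z q) :=
          Finset.sum_congr rfl (fun p _ => Finset.sum_comm)
      _ = _ := by
          refine Finset.sum_congr rfl (fun p _ => Finset.sum_congr rfl (fun q _ => ?_))
          rw [Finset.mul_sum]
  rw [h1]
  have h2 : ∀ p q, A p * B q * ∑ z, OvB_c I z p * OvB_c I z q =
      12 * (A p * B q) - 7 * (A p * B q * OvB_c I p q) +
        44 * (if p = q then A p * B q else 0) := by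
    intro p q
    rw [OvB_cc h p q]
    split_ifs
    · ring
    · ring
  have h3 : ∑ p, ∑ q, A p * B q = (∑ p, A p) * ∑ q, B q := by
    rw [Finset.sum_mul_sum]
  simp only [h2, Finset.sum_add_distrib, Finset.sum_sub_distrib, ← Finset.mul_sum]
  simp only [Finset.sum_ite_eq, Finset.mem_univ, if_true]
  rw [← h3]
  simp only [Finset.mul_sum]

/-- `nO` as a sum -/
private theorem OvB_nO [Fintype P] (O : Set P) (x z : P) :
    (nO I O x z : ℤ) = ∑ p, OvB_o O p * OvB_c I x p * OvB_c I z p := by
  classical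
  have h0 : ∀ p, OvB_o O p * OvB_c I x p * OvB_c I z p =
      if (p ∈ O ∧ Col I x p ∧ Col I z p) then (1 : ℤ) else 0 := by
    intro p
    unfold OvB_o OvB_c
    by_cases h1 : p ∈ O
    · by_cases h2 : Col I x p
      · by_cases h3 : Col I z p
        · simp [h1, h2, h3]
        · simp [h1, h2, h3]
      · simp [h2]
    · simp [h1]
  rw [Finset.sum_congr rfl (fun z _ => h0 z), OvB_ncard]
  rfl

private theorem OvB_oc [Fintype P] [Finite L] (h : IsGQ I 4 11) {O : Set P} (hO : Ovoid I O)
    {x : P} (hx : x ∉ O) : ∑ p, OvB_o O p * OvB_c I x p = 12 := by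
  classical
  have h0 : ∀ p, OvB_o O p * OvB_c I x p =
      if (p ∈ O ∧ Col I x p) then (1 : ℤ) else 0 := by
    intro p
    unfold OvB_o OvB_c
    by_cases h1 : p ∈ O
    · by_cases h2 : Col I x p
      · simp [h1, h2]
      · simp [h2]
    · simp [h1]
  rw [Finset.sum_congr rfl (fun z _ => h0 z), OvB_ncard, ov_nbr h hO hx]
  rfl

private theorem OvB_O [Fintype P] [Finite L] [Nonempty P] (h : IsGQ I 4 11) {O : Set P}
    (hO : Ovoid I O) : ∑ p, OvB_o O p = 45 := by
  classical
  unfold OvB_o
  rw [OvB_ncard]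
  have h1 : {z | z ∈ O} = O := rfl
  rw [h1, ov_card h hO]
  rfl

private theorem OvB_oo [DecidableEq P] (h : IsGQ I 4 11) {O : Set P} (hO : Ovoid I O)
    (p q : P) : OvB_o O p * OvB_o O q * OvB_c I p q = if q = p then OvB_o O p else 0 := by
  classical
  by_cases hp : p ∈ O
  · by_cases hq : q ∈ O
    · by_cases e : q = p
      · subst e
        unfold OvB_o OvB_c
        simp [hp, h.col_refl q]
      · have hc : ¬ Col I p q := by
          rintro ⟨l, h1, h2⟩
          exact e ((hO l).unique ⟨hq, h2⟩ ⟨hp, h1⟩)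
        unfold OvB_c
        simp [hc, e]
    · have e : q ≠ p := by
        rintro rfl
        exact hq hp
      unfold OvB_o
      simp [hq, e]
  · unfold OvB_o
    by_cases e : q = p
    · subst e
      simp [hp]
    · simp [hp, e]

/-- collinear points -/
private theorem OvB_nO_col [Finite P] [Finite L] (h : IsGQ I 4 11) {O : Set P} (hO : Ovoid I O)
    {x z : P} (hne : z ≠ x) (hc : Col I x z) : nO I O x z = 1 := by
  obtain ⟨l, hxl, hzl⟩ := hc
  obtain ⟨p, ⟨hp, hpl⟩, hu⟩ := hO l
  unfold nO
  rw [Set.ncard_eq_one]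
  refine ⟨p, ?_⟩
  ext q
  rw [Set.mem_singleton_iff]
  constructor
  · rintro ⟨hq, h1, h2⟩
    exact hu q ⟨hq, h.mem_of_col hne hzl hxl h2.symm h1.symm⟩
  · rintro rfl
    exact ⟨hp, ⟨l, hxl, hpl⟩, ⟨l, hzl, hpl⟩⟩

private theorem OvB_nO_self [Finite P] [Finite L] (h : IsGQ I 4 11) {O : Set P} (hO : Ovoid I O)
    {x : P} (hx : x ∉ O) : nO I O x x = 12 := by
  rw [← ov_nbr h hO hx]
  unfold nO
  congr 1
  ext p
  constructor
  · rintro ⟨h1, h2, _⟩
    exact ⟨h1, h2⟩
  · rintro ⟨h1, h2⟩
    exact ⟨h1, h2, h2⟩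

private theorem OvB_nO_symm (O : Set P) (x z : P) : nO I O x z = nO I O z x := by
  unfold nO
  congr 1
  ext p
  constructor
  · rintro ⟨h1, h2, h3⟩
    exact ⟨h1, h3, h2⟩
  · rintro ⟨h1, h2, h3⟩
    exact ⟨h1, h3, h2⟩

open Classical in
/-- the factor -/
private theorem OvB_factor [Finite P] [Finite L] (h : IsGQ I 4 11) {O : Set P} (hO : Ovoid I O)
    {x z : P} (hx : x ∉ O) (hz : z ∉ O) (hne : z ≠ x) :
    4 - 3 * OvB_c I x z - (nO I O x z : ℤ) = if ovR I O x z then (1 : ℤ) else 0 := by
  by_cases hc : Col I x z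
  · rw [OvB_nO_col h hO hne hc, if_neg (fun e => e.2.2.1 hc)]
    unfold OvB_c
    rw [if_pos hc]
    norm_num
  · unfold OvB_c
    rw [if_neg hc]
    rcases nO_34 h hO hx hz hc with e | e
    · rw [e, if_pos ⟨hx, hz, hc, e⟩]
      norm_num
    · rw [e, if_neg (fun e' => by have := e'.2.2.2; omega)]
      norm_num

/-- the total sum -/
private theorem OvB_total [Fintype P] [Finite L] [Nonempty P] (h : IsGQ I 4 11) {O : Set P}
    (hO : Ovoid I O) {x y : P} (hxy : ovR I O x y) :
    ∑ z, (4 - 3 * OvB_c I x z - (nO I O x z : ℤ)) * (4 - 3 * OvB_c I y z - (nO I O y z : ℤ)) =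
      405 := by
  classical
  obtain ⟨hx, hy, hc, h3⟩ := hxy
  have hne : x ≠ y := by
    rintro rfl
    exact hc (h.col_refl x)
  -- the coefficients
  set A : P → P → ℤ := fun x p => 3 * (if p = x then (1 : ℤ) else 0) + OvB_o O p * OvB_c I x p
    with hA
  have hF : ∀ x z, 4 - 3 * OvB_c I x z - (nO I O x z : ℤ) = 4 - ∑ p, A x p * OvB_c I z p := by
    intro x z
    have e1 : ∑ p, A x p * OvB_c I z p = 3 * OvB_c I z x + (nO I O x z : ℤ) := by
      rw [OvB_nO, hA]
      have e2 : ∀ p, (3 * (if p = x then (1 : ℤ) else 0) + OvB_o O p * OvB_c I x p) * OvB_c I z p =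
          (if p = x then 3 * OvB_c I z p else 0) + OvB_o O p * OvB_c I x p * OvB_c I z p := by
        intro p
        split_ifs
        · ring
        · ring
      simp only [e2, Finset.sum_add_distrib, Finset.sum_ite_eq', Finset.mem_univ, if_true]
    rw [e1, OvB_c_symm z x]
    ring
  have hAs : ∀ x, x ∉ O → ∑ p, A x p = 15 := by
    intro x hx
    rw [hA]
    simp only [Finset.sum_add_distrib, ← Finset.mul_sum, Finset.sum_ite_eq', Finset.mem_univ,
      if_true]
    rw [OvB_oc h hO hx]
    norm_num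
  have hsumF : ∀ x, x ∉ O → ∑ z, ∑ p, A x p * OvB_c I z p = 49 * 15 := by
    intro x hx
    rw [Finset.sum_comm]
    have e : ∀ p, ∑ z, A x p * OvB_c I z p = 49 * A x p := by
      intro p
      rw [← Finset.mul_sum, Finset.sum_congr rfl (fun z _ => OvB_c_symm z p), OvB_one h p]
      ring
    rw [Finset.sum_congr rfl (fun p _ => e p), ← Finset.mul_sum, hAs x hx]
  have hcard : ∑ _z : P, (1 : ℤ) = 225 := by
    rw [Finset.sum_const, Finset.card_univ, ← Nat.card_eq_fintype_card, h.card_points]
    norm_num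
  have hn3 : ∑ p, OvB_o O p * OvB_c I x p * OvB_c I y p = 3 := by
    rw [← OvB_nO, h3]
    norm_num
  have hox : OvB_o O x = 0 := by
    unfold OvB_o
    rw [if_neg hx]
  have hoy : OvB_o O y = 0 := by
    unfold OvB_o
    rw [if_neg hy]
  have hcxy : OvB_c I x y = 0 := by
    unfold OvB_c
    rw [if_neg hc]
  have hcyx : OvB_c I y x = 0 := by
    rw [OvB_c_symm, hcxy]
  have hAA : ∑ p, A x p * A y p = 3 := by
    have e : ∀ p, A x p * A y p =
        (if p = x then 3 * A y p else 0) + (if p = y then 3 * (OvB_o O p * OvB_c I x p) else 0) +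
        OvB_o O p * OvB_c I x p * OvB_c I y p := by
      intro p
      rw [hA]
      have hoo : OvB_o O p * OvB_o O p = OvB_o O p := by
        unfold OvB_o
        split_ifs
        · norm_num
        · norm_num
      by_cases e1 : p = x
      · subst e1
        have e2 : p ≠ y := hne
        simp [hox, e2]
      · by_cases e2 : p = y
        · subst e2
          simp [hoy, e1]
        · simp only [e1, e2, if_false, mul_zero, zero_add]
          calc OvB_o O p * OvB_c I x p * (OvB_o O p * OvB_c I y p)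
              = (OvB_o O p * OvB_o O p) * OvB_c I x p * OvB_c I y p := by ring
            _ = _ := by rw [hoo]
    rw [Finset.sum_congr rfl (fun p _ => e p)]
    simp only [Finset.sum_add_distrib, Finset.sum_ite_eq', Finset.mem_univ, if_true]
    rw [hn3, hoy, hA]
    simp [hne, hox]
  have hAAc : ∑ p, ∑ q, A x p * A y q * OvB_c I p q = 21 := by
    have e : ∀ p q, A x p * A y q * OvB_c I p q =
        (if p = x then (if q = y then 9 * OvB_c I p q else 0) +
          3 * (OvB_o O q * OvB_c I y q * OvB_c I p q) else 0) +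
        (if q = y then 3 * (OvB_o O p * OvB_c I x p * OvB_c I p q) else 0) +
        OvB_c I x p * OvB_c I y q * (if q = p then OvB_o O p else 0) := by
      intro p q
      rw [← OvB_oo h hO p q, hA]
      by_cases e1 : p = x
      · by_cases e2 : q = y
        · simp only [e1, e2, if_true]
          ring
        · simp only [e1, e2, if_true, if_false]
          ring
      · by_cases e2 : q = y
        · simp only [e1, e2, if_true, if_false]
          ring
        · simp only [e1, e2, if_false]
          ring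
    have e' : ∀ p, ∑ q, A x p * A y q * OvB_c I p q =
        (if p = x then 9 * OvB_c I p y + 3 * ∑ q, OvB_o O q * OvB_c I y q * OvB_c I p q else 0) +
        3 * (OvB_o O p * OvB_c I x p * OvB_c I p y) +
        OvB_o O p * OvB_c I x p * OvB_c I y p := by
      intro p
      rw [Finset.sum_congr rfl (fun q _ => e p q)]
      by_cases e1 : p = x
      · simp only [e1, if_true, Finset.sum_add_distrib, Finset.sum_ite_eq', Finset.mem_univ,
          ← Finset.mul_sum, mul_ite, mul_zero]
        ring
      · simp only [e1, if_false, Finset.sum_add_distrib, Finset.sum_ite_eq', Finset.mem_univ,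
          if_true, mul_ite, mul_zero, Finset.sum_const_zero]
        ring
    rw [Finset.sum_congr rfl (fun p _ => e' p)]
    simp only [Finset.sum_add_distrib, Finset.sum_ite_eq', Finset.mem_univ, if_true,
      ← Finset.mul_sum]
    have e3 : ∑ q, OvB_o O q * OvB_c I y q * OvB_c I x q = 3 := by
      rw [← hn3]
      exact Finset.sum_congr rfl (fun q _ => by ring)
    have e4 : ∑ q, OvB_o O q * OvB_c I x q * OvB_c I q y = 3 := by
      rw [← hn3]
      exact Finset.sum_congr rfl (fun q _ => by rw [OvB_c_symm q y])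
    rw [e3, e4, hn3, hcxy]
    norm_num
  have hbil := OvB_bil h (A x) (A y)
  rw [hAs x hx, hAs y hy, hAAc, hAA] at hbil
  have hexp : ∀ z, (4 - 3 * OvB_c I x z - (nO I O x z : ℤ)) *
      (4 - 3 * OvB_c I y z - (nO I O y z : ℤ)) =
      16 * 1 - 4 * (∑ p, A x p * OvB_c I z p) - 4 * (∑ p, A y p * OvB_c I z p) +
      (∑ p, A x p * OvB_c I z p) * (∑ q, A y q * OvB_c I z q) := by
    intro z
    rw [hF, hF]
    ring
  rw [Finset.sum_congr rfl (fun z _ => hexp z)]
  simp only [Finset.sum_add_distrib, Finset.sum_sub_distrib, ← Finset.mul_sum]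
  rw [hcard, hsumF x hx, hsumF y hy, hbil]
  norm_num

/-- the part of the sum in `O` -/
private theorem OvB_inO [Fintype P] [Finite L] [Nonempty P] (h : IsGQ I 4 11) {O : Set P}
    (hO : Ovoid I O) {x y : P} (hxy : ovR I O x y) :
    ∑ z, OvB_o O z * ((4 - 3 * OvB_c I x z - (nO I O x z : ℤ)) *
      (4 - 3 * OvB_c I y z - (nO I O y z : ℤ))) = 384 := by
  classical
  obtain ⟨hx, hy, hc, h3⟩ := hxy
  have e1 : ∀ w z, OvB_o O z * (nO I O w z : ℤ) = OvB_o O z * OvB_c I w z := by
    intro w z
    rw [OvB_nO, Finset.mul_sum]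
    have e2 : ∀ p, OvB_o O z * (OvB_o O p * OvB_c I w p * OvB_c I z p) =
        if p = z then OvB_o O z * OvB_c I w p else 0 := by
      intro p
      have e3 := OvB_oo h hO z p
      calc OvB_o O z * (OvB_o O p * OvB_c I w p * OvB_c I z p)
          = OvB_o O z * OvB_o O p * OvB_c I z p * OvB_c I w p := by ring
        _ = (if p = z then OvB_o O z else 0) * OvB_c I w p := by rw [e3]
        _ = _ := by
            split_ifs
            · rfl
            · ring
    rw [Finset.sum_congr rfl (fun p _ => e2 p)]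
    simp only [Finset.sum_ite_eq', Finset.mem_univ, if_true]
  have e4 : ∀ z, OvB_o O z * ((4 - 3 * OvB_c I x z - (nO I O x z : ℤ)) *
      (4 - 3 * OvB_c I y z - (nO I O y z : ℤ))) =
      16 * OvB_o O z - 16 * (OvB_o O z * OvB_c I x z) - 16 * (OvB_o O z * OvB_c I y z) +
      16 * (OvB_o O z * OvB_c I x z * OvB_c I y z) := by
    intro z
    by_cases hz : z ∈ O
    · have hoz : OvB_o O z = 1 := by
        unfold OvB_o
        rw [if_pos hz]
      have f1 := e1 x z
      have f2 := e1 y z
      rw [hoz, one_mul, one_mul] at f1 f2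
      rw [f1, f2, hoz]
      ring
    · have hoz : OvB_o O z = 0 := by
        unfold OvB_o
        rw [if_neg hz]
      rw [hoz]
      ring
  have hn3 : ∑ p, OvB_o O p * OvB_c I x p * OvB_c I y p = 3 := by
    rw [← OvB_nO, h3]
    norm_num
  rw [Finset.sum_congr rfl (fun z _ => e4 z)]
  simp only [Finset.sum_add_distrib, Finset.sum_sub_distrib, ← Finset.mul_sum]
  rw [OvB_O h hO, OvB_oc h hO hx, OvB_oc h hO hy, hn3]
  norm_num

theorem ov_43 [Finite P] [Finite L] (h : IsGQ I 4 11) {O : Set P} (hO : Ovoid I O) {x y : P}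
    (hxy : ovR I O x y) : {z | ovR I O x z ∧ ovR I O y z}.ncard = 43 := by
  classical
  have : Fintype P := Fintype.ofFinite P
  have : Nonempty P := ⟨x⟩
  obtain ⟨hx, hy, hc, h3⟩ := hxy
  have hne : x ≠ y := by
    rintro rfl
    exact hc (h.col_refl x)
  have hpt : ∀ z, (4 - 3 * OvB_c I x z - (nO I O x z : ℤ)) *
      (4 - 3 * OvB_c I y z - (nO I O y z : ℤ)) -
      OvB_o O z * ((4 - 3 * OvB_c I x z - (nO I O x z : ℤ)) *
      (4 - 3 * OvB_c I y z - (nO I O y z : ℤ))) =
      (if (ovR I O x z ∧ ovR I O y z) then (1 : ℤ) else 0) -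
      (if z = x then (11 : ℤ) else 0) - (if z = y then (11 : ℤ) else 0) := by
    intro z
    by_cases hz : z ∈ O
    · have hoz : OvB_o O z = 1 := by
        unfold OvB_o
        rw [if_pos hz]
      have h1 : z ≠ x := by
        rintro rfl
        exact hx hz
      have h2 : z ≠ y := by
        rintro rfl
        exact hy hz
      rw [hoz, if_neg (fun e => e.1.2.1 hz), if_neg h1, if_neg h2]
      ring
    · have hoz : OvB_o O z = 0 := by
        unfold OvB_o
        rw [if_neg hz]
      rw [hoz, zero_mul, sub_zero]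
      by_cases h1 : z = x
      · subst h1
        have hzz : OvB_c I z z = 1 := by
          unfold OvB_c
          rw [if_pos (h.col_refl z)]
        have hyz : OvB_c I y z = 0 := by
          unfold OvB_c
          rw [if_neg (fun e => hc (Col.symm e))]
        rw [hzz, hyz, OvB_nO_self h hO hx, OvB_nO_symm O y z, h3,
          if_neg (fun e => e.1.2.2.1 (h.col_refl z)), if_pos rfl, if_neg hne]
        norm_num
      · by_cases h2 : z = y
        · subst h2
          have hzz : OvB_c I z z = 1 := by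
            unfold OvB_c
            rw [if_pos (h.col_refl z)]
          have hxz : OvB_c I x z = 0 := by
            unfold OvB_c
            rw [if_neg hc]
          rw [hzz, hxz, OvB_nO_self h hO hy, h3,
            if_neg (fun e => e.2.2.2.1 (h.col_refl z)), if_pos rfl, if_neg h1]
          norm_num
        · rw [OvB_factor h hO hx hz h1, OvB_factor h hO hy hz h2, if_neg h1, if_neg h2]
          by_cases h4 : ovR I O x z
          · by_cases h5 : ovR I O y z
            · simp [h4, h5]
            · simp [h5]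
          · simp [h4]
  have hsum := Finset.sum_congr (rfl : (Finset.univ : Finset P) = Finset.univ)
    (fun z _ => hpt z)
  simp only [Finset.sum_sub_distrib, Finset.sum_ite_eq', Finset.mem_univ, if_true] at hsum
  rw [OvB_total h hO ⟨hx, hy, hc, h3⟩, OvB_inO h hO ⟨hx, hy, hc, h3⟩, OvB_ncard] at hsum
  omega

theorem ov_trans [Finite P] [Finite L] (h : IsGQ I 4 11) {O : Set P} (hO : Ovoid I O) {x y z : P}
    (hxy : ovR I O x y) (hyz : ovR I O y z) (hxz : x ≠ z) : ovR I O x z := by
  classical
  obtain ⟨hx, hy, hc, h3⟩ := hxy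
  have h43 := ov_43 h hO (⟨hx, hy, hc, h3⟩ : ovR I O x y)
  have h44 := n3 h hO hy
  have hS : {w | w ∉ O ∧ ¬ Col I y w ∧ nO I O y w = 3} = {w | ovR I O y w} := by
    ext w
    constructor
    · rintro ⟨h1, h2, h3⟩
      exact ⟨hy, h1, h2, h3⟩
    · rintro ⟨_, h1, h2, h3⟩
      exact ⟨h1, h2, h3⟩
  rw [hS] at h44
  have hxm : x ∈ {w | ovR I O y w} :=
    ⟨hy, hx, fun e => hc (Col.symm e), by rw [OvB_nO_symm]; exact h3⟩
  have hsub : {w | ovR I O x w ∧ ovR I O y w} ⊆ {w | ovR I O y w} \ {x} := by
    rintro w ⟨h1, h2⟩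
    refine ⟨h2, ?_⟩
    rintro rfl
    exact h1.2.2.1 (h.col_refl w)
  have hcard : ({w | ovR I O y w} \ {x}).ncard = 43 := by
    rw [Set.ncard_sdiff_singleton_of_mem hxm, h44]
  have heq := Set.eq_of_subset_of_ncard_le hsub (by rw [hcard, h43]) (Set.toFinite _)
  have hz : z ∈ {w | ovR I O y w} \ {x} := ⟨hyz, fun e => hxz e.symm⟩
  rw [← heq] at hz
  exact hz.1

end H60GQ
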