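import Pool.Agent.H60.GQ.OvB

/-!
Project GQ (MP_a3aa3c_co), part 3, module OvC: the partition in five ovoids.

* `ov_of_card`: 45 pairwise non-collinear points of a quadrangle of order (4, 11) form an ovoid: each
  line has at most one of them, 45 * 12 = 540 = number of lines (`card_lines`).
* `ov_partition`: x ≈ y iff x = y or `ovR x y` is an equivalence relation on the complement of O (180
  points) with classes of 45 pairwise non-collinear points (`n3`, `ov_trans`, symmetry of nO), so
  there are 4 classes, all ovoids. f 0 = O, f 1, ..., f 4 the classes.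
-/

namespace H60GQ

universe u v

variable {P : Type u} {L : Type v} {I : P → L → Prop} {s t : ℕ}

theorem ov_of_card [Finite P] [Finite L] [Nonempty P] (h : IsGQ I 4 11) {O : Set P}
    (h1 : O.ncard = 45) (h2 : ∀ x ∈ O, ∀ y ∈ O, x ≠ y → ¬ Col I x y) : Ovoid I O := by
  classical
  have := Fintype.ofFinite P
  have := Fintype.ofFinite L
  have hL : Fintype.card L = 540 := by
    rw [← Nat.card_eq_fintype_card, h.card_lines]
  have hO : O.toFinset.card = 45 := by
    rw [← Set.ncard_eq_toFinset_card', h1]
  have hb : (O.toFinset.biUnion (fun p => Finset.univ.filter (fun l => I p l))).card = 540 := by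
    rw [Finset.card_biUnion, Finset.sum_const_nat (m := 12), hO]
    · intro p _
      have h3 := h.point_card p
      rw [Set.ncard_eq_toFinset_card', Set.toFinset_ofPred] at h3
      exact h3
    · intro p hp q hq hpq
      rw [Function.onFun, Finset.disjoint_left]
      intro l hl hl'
      simp only [Finset.mem_filter, Finset.mem_univ, true_and] at hl hl'
      simp only [Finset.mem_coe, Set.mem_toFinset] at hp hq
      exact h2 p hp q hq hpq ⟨l, hl, hl'⟩
  have hu := Finset.eq_univ_of_card _ (hb.trans hL.symm)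
  intro l
  have hl : l ∈ O.toFinset.biUnion (fun p => Finset.univ.filter (fun l => I p l)) := by
    rw [hu]
    exact Finset.mem_univ _
  simp only [Finset.mem_biUnion, Set.mem_toFinset, Finset.mem_filter, Finset.mem_univ,
    true_and] at hl
  obtain ⟨p, hp, hpl⟩ := hl
  refine ⟨p, ⟨hp, hpl⟩, ?_⟩
  rintro q ⟨hq, hql⟩
  by_contra hne
  exact h2 q hq p hp hne ⟨l, hql, hpl⟩

/-- the class of `x` -/
private def OvC_S (I : P → L → Prop) (O : Set P) (x : P) : Set P := {y | y = x ∨ ovR I O x y}

private lemma OvC_nO (O : Set P) (x y : P) : nO I O x y = nO I O y x := by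
  unfold nO
  congr 1
  ext p
  simp only [Set.mem_ofPred_eq]
  tauto

private lemma OvC_symm {O : Set P} {x y : P} (h : ovR I O x y) : ovR I O y x := by
  obtain ⟨h1, h2, h3, h4⟩ := h
  exact ⟨h2, h1, fun c => h3 c.symm, by rw [OvC_nO]; exact h4⟩

private lemma OvC_Ssymm {O : Set P} {x y : P} (h : y ∈ OvC_S I O x) : x ∈ OvC_S I O y := by
  rcases h with h | h
  · exact Or.inl h.symm
  · exact Or.inr (OvC_symm h)

private lemma OvC_Strans [Finite P] [Finite L] (h : IsGQ I 4 11) {O : Set P}
    (hO : Ovoid I O) {x y z : P} (h1 : y ∈ OvC_S I O x) (h2 : z ∈ OvC_S I O y) :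
    z ∈ OvC_S I O x := by
  rcases h1 with rfl | h1
  · exact h2
  rcases h2 with rfl | h2
  · exact Or.inr h1
  by_cases hxz : x = z
  · exact Or.inl hxz.symm
  · exact Or.inr (ov_trans h hO h1 h2 hxz)

private lemma OvC_SO {O : Set P} {x y : P} (hx : x ∉ O) (h : y ∈ OvC_S I O x) : y ∉ O := by
  rcases h with rfl | h
  · exact hx
  · exact h.2.1

private lemma OvC_Scard [Finite P] [Finite L] (h : IsGQ I 4 11) {O : Set P}
    (hO : Ovoid I O) {x : P} (hx : x ∉ O) : (OvC_S I O x).ncard = 45 := by
  have h1 : OvC_S I O x = insert x {y | y ∉ O ∧ ¬ Col I x y ∧ nO I O x y = 3} := by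
    ext y
    simp only [OvC_S, ovR, Set.mem_ofPred_eq, Set.mem_insert_iff]
    tauto
  rw [h1, Set.ncard_insert_of_notMem _ (Set.toFinite _), n3 h hO hx]
  intro hm
  exact hm.2.1 (h.col_refl x)

private lemma OvC_Sov [Finite P] [Finite L] [Nonempty P] (h : IsGQ I 4 11) {O : Set P}
    (hO : Ovoid I O) {x : P} (hx : x ∉ O) : Ovoid I (OvC_S I O x) := by
  refine ov_of_card h (OvC_Scard h hO hx) ?_
  intro y hy z hz hyz
  rcases OvC_Strans h hO (OvC_Ssymm hy) hz with e | e
  · exact absurd e.symm hyz
  · exact e.2.2.1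

private lemma OvC_exists [Finite P] [Finite L] [Nonempty P] (h : IsGQ I 4 11) {O : Set P}
    (hO : Ovoid I O) (n : ℕ) (hn : n ≤ 4) : ∃ g : Fin n → P, (∀ i, g i ∉ O) ∧
      (∀ i j, g i ∈ OvC_S I O (g j) → i = j) := by
  classical
  have := Fintype.ofFinite P
  have hP : Fintype.card P = 225 := by
    rw [← Nat.card_eq_fintype_card, h.card_points]
  induction n with
  | zero => exact ⟨Fin.elim0, fun i => i.elim0, fun i => i.elim0⟩
  | succ n ih =>
    obtain ⟨g, hg1, hg2⟩ := ih (by omega)
    have hc : (O.toFinset ∪ Finset.univ.biUnion (fun i => (OvC_S I O (g i)).toFinset)).card <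
        (Finset.univ : Finset P).card := by
      have h1 : O.toFinset.card = 45 := by
        rw [← Set.ncard_eq_toFinset_card', ov_card h hO]
      have h2 : (Finset.univ.biUnion (fun i => (OvC_S I O (g i)).toFinset)).card ≤ n * 45 := by
        refine Finset.card_biUnion_le.trans ?_
        rw [Finset.sum_const_nat (m := 45)]
        · simp
        · intro i _
          rw [← Set.ncard_eq_toFinset_card', OvC_Scard h hO (hg1 i)]
      have h3 := Finset.card_union_le O.toFinset
        (Finset.univ.biUnion (fun i => (OvC_S I O (g i)).toFinset))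
      rw [Finset.card_univ, hP]
      omega
    obtain ⟨x, -, hx⟩ := Finset.exists_mem_notMem_of_card_lt_card hc
    simp only [Finset.mem_union, Set.mem_toFinset, Finset.mem_biUnion, Finset.mem_univ, true_and,
      not_or, not_exists] at hx
    refine ⟨Fin.cons x g, ?_, ?_⟩
    · intro i
      refine Fin.cases ?_ ?_ i
      · exact hx.1
      · intro k
        exact hg1 k
    · intro i j
      refine Fin.cases ?_ ?_ i
      · refine Fin.cases ?_ ?_ j
        · intro _
          rfl
        · intro k hk
          exact absurd hk (hx.2 k)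
      · intro k
        refine Fin.cases ?_ ?_ j
        · intro hk
          exact absurd (OvC_Ssymm hk) (hx.2 k)
        · intro l hl
          rw [hg2 k l hl]

theorem ov_partition [Finite P] [Finite L] [Nonempty P] (h : IsGQ I 4 11) {O : Set P}
    (hO : Ovoid I O) : ∃ f : Fin 5 → Set P, f 0 = O ∧ (∀ i, Ovoid I (f i)) ∧
      (∀ x, ∃! i, x ∈ f i) ∧
      ∀ i, i ≠ 0 → ∀ x ∈ f i, ∀ y, y ∉ O → ¬ Col I x y → (y ∈ f i ↔ nO I O x y = 3) := by
  classical
  have := Fintype.ofFinite P
  have hP : Fintype.card P = 225 := by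
    rw [← Nat.card_eq_fintype_card, h.card_points]
  obtain ⟨g, hg1, hg2⟩ := OvC_exists h hO 4 le_rfl
  have hc : (O.toFinset ∪ Finset.univ.biUnion (fun i => (OvC_S I O (g i)).toFinset)).card =
      Fintype.card P := by
    have h1 : O.toFinset.card = 45 := by
      rw [← Set.ncard_eq_toFinset_card', ov_card h hO]
    have h2 : (Finset.univ.biUnion (fun i => (OvC_S I O (g i)).toFinset)).card = 4 * 45 := by
      rw [Finset.card_biUnion, Finset.sum_const_nat (m := 45)]
      · simp
      · intro i _
        rw [← Set.ncard_eq_toFinset_card', OvC_Scard h hO (hg1 i)]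
      · intro i _ j _ hij
        rw [Function.onFun, Finset.disjoint_left]
        intro z hz hz'
        rw [Set.mem_toFinset] at hz hz'
        exact hij (hg2 i j (OvC_Strans h hO hz' (OvC_Ssymm hz)))
    rw [Finset.card_union_of_disjoint, h1, h2, hP]
    rw [Finset.disjoint_left]
    intro z hz hz'
    simp only [Set.mem_toFinset, Finset.mem_biUnion, Finset.mem_univ, true_and] at hz hz'
    obtain ⟨i, hi⟩ := hz'
    exact OvC_SO (hg1 i) hi hz
  have hu := Finset.eq_univ_of_card _ hc
  have hcov : ∀ x, x ∈ O ∨ ∃ i, x ∈ OvC_S I O (g i) := by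
    intro x
    have hx : x ∈ O.toFinset ∪ Finset.univ.biUnion (fun i => (OvC_S I O (g i)).toFinset) := by
      rw [hu]
      exact Finset.mem_univ _
    simpa only [Finset.mem_union, Set.mem_toFinset, Finset.mem_biUnion, Finset.mem_univ,
      true_and] using hx
  refine ⟨Fin.cons O (fun i => OvC_S I O (g i)), rfl, ?_, ?_, ?_⟩
  · intro i
    refine Fin.cases ?_ ?_ i
    · exact hO
    · intro k
      exact OvC_Sov h hO (hg1 k)
  · intro x
    rcases hcov x with hx | ⟨i, hi⟩
    · refine ⟨0, hx, ?_⟩
      intro j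
      refine Fin.cases ?_ ?_ j
      · intro _
        rfl
      · intro k hk
        exact absurd hx (OvC_SO (hg1 k) hk)
    · refine ⟨i.succ, hi, ?_⟩
      intro j
      refine Fin.cases ?_ ?_ j
      · intro hx
        exact absurd hx (OvC_SO (hg1 i) hi)
      · intro k hk
        have e : k = i := hg2 k i (OvC_Strans h hO hi (OvC_Ssymm hk))
        rw [e]
  · intro i
    refine Fin.cases ?_ ?_ i
    · intro h0
      exact absurd rfl h0
    · intro k _ x hx y hy hxy
      have hx' : x ∈ OvC_S I O (g k) := hx
      have hxO := OvC_SO (hg1 k) hx'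
      constructor
      · intro hy'
        rcases OvC_Strans h hO (OvC_Ssymm hx') hy' with e | e
        · exact absurd (e ▸ h.col_refl x) hxy
        · exact e.2.2.2
      · intro hn
        exact OvC_Strans h hO hx' (Or.inr ⟨hxO, hy, hxy, hn⟩)

end H60GQ
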