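import Pool.Agent.H60.GQ.SubCount2

/-!
Project GQ (MP_a3aa3c_co), module Params: which orders (s', t') with s' < 4 are possible for a thick
subquadrangle of a quadrangle of order (4, 11) or (4, 12); for (2, 2) every point of `Beta` is
collinear with exactly 3 points of P'.

Proof: `beta_card`, `beta_sum1`, `beta_sum2`, `SubGQ.card_pts`, `SubGQ.card_lns`, `IsGQ.card_points`
(P is nonempty), `SubGQ.t_le`.
* `kk_three`: |P'| = 15, |L'| = 15, |P| = 5 (4 t + 1), so |Beta| = 20 t - 40, ∑ k = 60 (t - 2),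
  ∑ k (k - 1) = 120 (t - 2), hence ∑ (k - 3)^2 = 0 (work in ℤ).
* `params_lt`: 3 * ... : (∑ k)^2 ≤ |Beta| * ∑ k^2 (`sq_sum_le_card_mul_sum_sq` /
  `inner_mul_le_norm_mul_norm`), `interval_cases` on t' and s'.
-/

namespace H60GQ

universe u v

variable {P : Type u} {L : Type v} {I : P → L → Prop} {s t s' t' : ℕ} {P' : Set P} {L' : Set L}

open Classical in
private lemma Params_card [Fintype P] (B : Set P) :
    (Finset.univ.filter (fun x => x ∈ B)).card = B.ncard := by
  rw [← Set.ncard_coe_finset]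
  congr 1
  ext x
  simp

private lemma Params_sq (k : ℕ) : k ^ 2 = k * (k - 1) + k := by
  cases k with
  | zero => rfl
  | succ n => simp only [Nat.add_sub_cancel]; ring

theorem kk_three [Finite P] [Finite L] (h : IsGQ I 4 t) (ht : 2 ≤ t) (hs : SubGQ I P' L' 2 2) {x : P}
    (hx : x ∈ Beta I P' L') : kk I P' x = 3 := by
  classical
  have := Fintype.ofFinite P
  have : Nonempty P := ⟨x⟩
  have h1 := beta_card h hs
  have h2 := beta_sum1 h hs
  have h3 := beta_sum2 h hs
  rw [h.card_points, hs.card_pts, hs.card_lns] at h1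
  rw [hs.card_pts] at h2 h3
  obtain ⟨n, rfl⟩ := Nat.exists_eq_add_of_le ht
  rw [Nat.add_sub_cancel_left] at h2 h3
  have hc := Params_card (Beta I P' L')
  have hB : ((Finset.univ.filter (fun x => x ∈ Beta I P' L')).card : ℤ) = 20 * n := by
    rw [hc]; push_cast [← @Nat.cast_inj ℤ] at h1 ⊢; linarith
  have hS1 : ∑ x ∈ Finset.univ.filter (fun x => x ∈ Beta I P' L'), (kk I P' x : ℤ) = 60 * n := by
    have := congrArg (Nat.cast : ℕ → ℤ) h2
    push_cast at this
    rw [this]; ring
  have hS2 : ∑ x ∈ Finset.univ.filter (fun x => x ∈ Beta I P' L'),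
      ((kk I P' x * (kk I P' x - 1) : ℕ) : ℤ) = 120 * n := by
    have := congrArg (Nat.cast : ℕ → ℤ) h3
    rw [Nat.cast_sum] at this
    rw [this]; push_cast; ring
  have hz : ∑ x ∈ Finset.univ.filter (fun x => x ∈ Beta I P' L'), ((kk I P' x : ℤ) - 3) ^ 2 = 0 := by
    have e : ∀ y : P, ((kk I P' y : ℤ) - 3) ^ 2
        = ((kk I P' y * (kk I P' y - 1) : ℕ) : ℤ) - 5 * (kk I P' y : ℤ) + 9 := by
      intro y
      have := congrArg (Nat.cast : ℕ → ℤ) (Params_sq (kk I P' y))
      rw [Nat.cast_add, Nat.cast_pow] at this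
      linarith [this, sq_nonneg (kk I P' y : ℤ)]
    rw [Finset.sum_congr rfl (fun y _ => e y), Finset.sum_add_distrib, Finset.sum_sub_distrib,
      ← Finset.mul_sum, hS1, hS2, Finset.sum_const, nsmul_eq_mul, hB]
    ring
  have hx' := (Finset.sum_eq_zero_iff_of_nonneg (fun y _ => sq_nonneg _)).1 hz x
    (Finset.mem_filter.2 ⟨Finset.mem_univ _, hx⟩)
  have := pow_eq_zero_iff (two_ne_zero) |>.1 hx'
  omega

theorem params_lt [Finite P] [Finite L] (h : IsGQ I 4 t) (ht : t = 11 ∨ t = 12)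
    (hs : SubGQ I P' L' s' t') (h2 : 2 ≤ s') (h3 : s' < 4) (h4 : 2 ≤ t') : s' = 2 ∧ t' = 2 := by
  classical
  have := Fintype.ofFinite P
  have : Nonempty P := by obtain ⟨p, -⟩ := hs.1; exact ⟨p⟩
  have ha := beta_card h hs
  have hb := beta_sum1 h hs
  have hc := beta_sum2 h hs
  have hd := hs.t_le h
  rw [h.card_points, hs.card_pts, hs.card_lns] at ha
  rw [hs.card_pts] at hb hc
  have hB := Params_card (Beta I P' L')
  have hCS := sq_sum_le_card_mul_sum_sq (s := Finset.univ.filter (fun x => x ∈ Beta I P' L'))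
    (f := fun x => kk I P' x)
  have hsq : ∑ x ∈ Finset.univ.filter (fun x => x ∈ Beta I P' L'), kk I P' x ^ 2
      = ∑ x ∈ Finset.univ.filter (fun x => x ∈ Beta I P' L'), kk I P' x * (kk I P' x - 1)
      + ∑ x ∈ Finset.univ.filter (fun x => x ∈ Beta I P' L'), kk I P' x := by
    rw [← Finset.sum_add_distrib]
    exact Finset.sum_congr rfl (fun y _ => Params_sq _)
  rw [hsq, hb, hc, hB] at hCS
  generalize (Beta I P' L').ncard = B at *
  clear hb hc hsq hB hs
  rcases ht with rfl | rfl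
  · interval_cases s' <;> interval_cases t' <;> first | exact ⟨rfl, rfl⟩ | (exfalso; norm_num at * <;> omega)
  · interval_cases s' <;> interval_cases t' <;> first | exact ⟨rfl, rfl⟩ | (exfalso; norm_num at * <;> omega)

end H60GQ
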