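import Pool.Agent.H60.GQ.Coreg

/-!
Project GQ (MP_a3aa3c_co), part 2, module Parity (Payne-Thas 1.5.2): if p is coregular and p, y, z are
pairwise non-collinear then the number of points collinear with p, y and z has the same parity as
t + 1.

Proof plan. Each line L through p contains exactly one point u(L) collinear with y and exactly one
point u'(L) collinear with z (y, z are not on L). The common neighbours of p, y, z correspond to the
lines L with u(L) = u'(L) (each is on exactly one line through p). Let N be the set of the other lines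
through p; t + 1 = |N| + c. We show |N| even by a fixed point free involution f on N
(`Finset.sum_involution` in ZMod 2, or `Finset.card_involution`-type lemmas).
For L in N let M = line y u, N' = line z u' (both meet L; y ≠ u since y is not collinear with p, ...),
K = the line through z meeting M (z is not on M because z, y are not collinear; `exists_proj`),
v = K ∩ M; f L = the line through p meeting K (p is not on K since p, z are not collinear).
 - L and K are not concurrent: if q on both: q = u' (`col_unique`); v ≠ u (else z is collinear with u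
   and u = u'); then u, v, u' is a triangle (u, v on M; v, u' on K; u, u' on L): contradiction.
 - M, N' and f L are in LPerp I L K.
 - {L, K} is a regular pair, so by `exists_perpperp` (n = M) there is Y through y in LPerpPerp I L K;
   Y meets N' and f L.
 - f L ≠ L (f L meets K). f L in N: the point of f L collinear with z is the one on K, the point of
   f L collinear with y is the one on Y; if they were equal, K and Y both go through a point w of f L
   and both meet M (K in v, Y in y): w not on M? (w, y, v pairwise collinear), by `no_triangle`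
   Y = K or w = ..., which gives y, z collinear; contradiction.
 - f (f L) = L: for f L the line through y is Y (unique line through y meeting f L), the line through z
   meeting Y is N' (z on N', N' meets Y), and the line through p meeting N' is L.
-/

namespace H60GQ

universe u v

variable {P : Type u} {L : Type v} {I : P → L → Prop} {s t : ℕ}

/-- the relation defining the involution -/
private def Parity_R (I : P → L → Prop) (p y z : P) (l l' : L) : Prop :=
  I p l ∧ I p l' ∧ ∃ M K, I y M ∧ Meet I M l ∧ I z K ∧ Meet I K M ∧ Meet I K l'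

/-- the lines through `p` which carry no common neighbour of `y` and `z` -/
private def Parity_N (I : P → L → Prop) (p y z : P) : Set L :=
  {l | I p l ∧ ¬ ∃ w, I w l ∧ Col I y w ∧ Col I z w}

private theorem Parity_off {p y : P} (h1 : ¬ Col I p y) {l : L} (hl : I p l) : ¬ I y l :=
  fun hy => h1 ⟨l, hl, hy⟩

private theorem Parity_fun (h : IsGQ I s t) {p y z : P} (h1 : ¬ Col I p y) (h2 : ¬ Col I p z)
    (h3 : ¬ Col I y z) {l l' l'' : L} (a : Parity_R I p y z l l') (b : Parity_R I p y z l l'') :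
    l' = l'' := by
  obtain ⟨hpl, hpl', M, K, hyM, ⟨u, huM, hul⟩, hzK, ⟨v, hvK, hvM⟩, ⟨w, hwK, hwl'⟩⟩ := a
  obtain ⟨-, hpl'', M', K', hyM', ⟨u', huM', hul'⟩, hzK', ⟨v', hvK', hvM'⟩, ⟨w', hwK', hwl''⟩⟩ := b
  have e1 : M = M' := (h.proj_unique (Parity_off h1 hpl) hul hyM huM hul' hyM' huM').2
  subst e1
  have hzM : ¬ I z M := fun hz => h3 ⟨M, hyM, hz⟩
  have e2 : K = K' := (h.proj_unique hzM hvM hzK hvK hvM' hzK' hvK').2
  subst e2
  have hpK : ¬ I p K := fun hp => h2 ⟨K, hp, hzK⟩
  exact (h.proj_unique hpK hwK hpl' hwl' hwK' hpl'' hwl'').2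

private theorem Parity_step (h : IsGQ I s t) (hs : 1 ≤ s) {p y z : P}
    (hc : Coregular I s p) (h1 : ¬ Col I p y) (h2 : ¬ Col I p z) (h3 : ¬ Col I y z)
    {l : L} (hl : l ∈ Parity_N I p y z) :
    ∃ l' ∈ Parity_N I p y z, Parity_R I p y z l l' ∧ Parity_R I p y z l' l ∧ l' ≠ l := by
  obtain ⟨hpl, hno⟩ := hl
  have hyl : ¬ I y l := Parity_off h1 hpl
  have hzl : ¬ I z l := Parity_off h2 hpl
  obtain ⟨u, M, hul, hyM, huM⟩ := h.exists_proj hyl
  have hzM : ¬ I z M := fun hz => h3 ⟨M, hyM, hz⟩
  obtain ⟨v, K, hvM, hzK, hvK⟩ := h.exists_proj hzM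
  have hyK : ¬ I y K := fun hy => h3 ⟨K, hy, hzK⟩
  have hpK : ¬ I p K := fun hp => h2 ⟨K, hp, hzK⟩
  obtain ⟨w, l', hwK, hpl', hwl'⟩ := h.exists_proj hpK
  have hMK : M ≠ K := fun e => hzM (e ▸ hzK)
  have hnu : ∀ x, I x l → I x M → ¬ Col I z x := fun x hx hxM hz =>
    hno ⟨x, hx, ⟨M, hyM, hxM⟩, hz⟩
  -- claim 1
  have hnm : ¬ Meet I l K := by
    rintro ⟨q, hql, hqK⟩
    have hvu : v ≠ u := by
      rintro rfl
      exact hnu v hul huM ⟨K, hzK, hvK⟩
    have hqu : q ≠ u := by
      rintro rfl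
      exact hnu q hul huM ⟨K, hzK, hqK⟩
    have hvq : v ≠ q := by
      rintro rfl
      exact hnu v hql hvM ⟨K, hzK, hvK⟩
    -- u, v on M; v, q on K; u, q on l
    exact hMK (h.no_triangle hvu.symm hqu.symm hvq huM hvM hvK hqK hul hql).1
  have hreg : RegularPair I s l K := hc l hpl K hnm
  have hMperp : M ∈ LPerp I l K := ⟨⟨u, huM, hul⟩, ⟨v, hvM, hvK⟩⟩
  obtain ⟨Y, hY, hyY⟩ := exists_perpperp h hs hnm hreg hMperp hyM
  have hl'perp : l' ∈ LPerp I l K := ⟨⟨p, hpl', hpl⟩, ⟨w, hwl', hwK⟩⟩
  obtain ⟨u', N', hul', hzN', huN'⟩ := h.exists_proj hzl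
  have hN'perp : N' ∈ LPerp I l K := ⟨⟨u', huN', hul'⟩, ⟨z, hzN', hzK⟩⟩
  have hR : Parity_R I p y z l l' :=
    ⟨hpl, hpl', M, K, hyM, ⟨u, huM, hul⟩, hzK, ⟨v, hvK, hvM⟩, ⟨w, hwK, hwl'⟩⟩
  obtain ⟨g, hgY, hgN⟩ := hY N' hN'perp
  have hR' : Parity_R I p y z l' l :=
    ⟨hpl', hpl, Y, N', hyY, hY l' hl'perp, hzN', ⟨g, hgN, hgY⟩, ⟨u', huN', hul'⟩⟩
  refine ⟨l', ⟨hpl', ?_⟩, hR, hR', ?_⟩
  · rintro ⟨x, hxl', hyx, hzx⟩
    have hyl' : ¬ I y l' := Parity_off h1 hpl'
    have hzl' : ¬ I z l' := Parity_off h2 hpl'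
    have e1 : x = w := h.col_unique hzl' hxl' hwl' hzx ⟨K, hzK, hwK⟩
    subst e1
    obtain ⟨x1, hx1Y, hx1l'⟩ := hY l' hl'perp
    have e2 : x = x1 := h.col_unique hyl' hxl' hx1l' hyx ⟨Y, hyY, hx1Y⟩
    subst e2
    have hyv : y ≠ v := by
      rintro rfl
      exact hyK hvK
    have hyx' : y ≠ x := by
      rintro rfl
      exact hyK hwK
    have hvx : v ≠ x := by
      rintro rfl
      -- v is on M and l'
      have hpu : p ≠ u := by
        rintro rfl
        exact h1 ⟨M, huM, hyM⟩
      have hpv : p ≠ v := by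
        rintro rfl
        exact h1 ⟨M, hvM, hyM⟩
      have huv : u ≠ v := by
        rintro rfl
        exact hnu u hul huM ⟨K, hzK, hvK⟩
      have := (h.no_triangle hpu hpv huv hpl hul huM hvM hpl' hxl').1
      exact hyl (this ▸ hyM)
    exact hMK (h.no_triangle hyv hyx' hvx hyM hvM hvK hwK hyY hx1Y).1
  · rintro rfl
    exact hnm ⟨w, hwl', hwK⟩

private theorem Parity_even [Finite L] (h : IsGQ I s t) (hs : 1 ≤ s) {p y z : P}
    (hc : Coregular I s p) (h1 : ¬ Col I p y) (h2 : ¬ Col I p z) (h3 : ¬ Col I y z) :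
    Even (Parity_N I p y z).ncard := by
  classical
  have hfin : (Parity_N I p y z).Finite := Set.toFinite _
  rw [Set.ncard_eq_toFinset_card _ hfin]
  have hmem : ∀ l, l ∈ hfin.toFinset ↔ l ∈ Parity_N I p y z := fun l => hfin.mem_toFinset
  choose! f hf using fun l (hl : l ∈ Parity_N I p y z) => Parity_step h hs hc h1 h2 h3 hl
  have hsum : ∑ _l ∈ hfin.toFinset, (1 : ZMod 2) = 0 := by
    refine Finset.sum_involution (fun l _ => f l) ?_ ?_ ?_ ?_
    · intro l hl
      decide
    · intro l hl _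
      exact (hf l ((hmem l).mp hl)).2.2.2
    · intro l hl
      exact (hmem _).mpr (hf l ((hmem l).mp hl)).1
    · intro l hl
      have a := hf l ((hmem l).mp hl)
      have b := hf (f l) a.1
      exact Parity_fun h h1 h2 h3 b.2.1 a.2.2.1
  rw [Finset.sum_const, nsmul_eq_mul, mul_one] at hsum
  exact (ZMod.natCast_eq_zero_iff_even).mp hsum

theorem parity [Finite P] [Finite L] (h : IsGQ I s t) (hs : 1 ≤ s) {p y z : P}
    (hc : Coregular I s p) (h1 : ¬ Col I p y) (h2 : ¬ Col I p z) (h3 : ¬ Col I y z) :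
    Even ({w | Col I p w ∧ Col I y w ∧ Col I z w}.ncard + (t + 1)) := by
  classical
  have hev := Parity_even h hs hc h1 h2 h3
  -- the lines through p with a common neighbour
  have hcard : {w | Col I p w ∧ Col I y w ∧ Col I z w}.ncard =
      {l | I p l ∧ ∃ w, I w l ∧ Col I y w ∧ Col I z w}.ncard := by
    have hl : ∀ w ∈ {w | Col I p w ∧ Col I y w ∧ Col I z w}, ∃ l, I p l ∧ I w l := by
      intro w hw
      obtain ⟨l, h4, h5⟩ := hw.1
      exact ⟨l, h4, h5⟩
    haveI : Nonempty L := ⟨(h.exists_line p).choose⟩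
    choose! g hg using hl
    have hinj : Set.InjOn g {w | Col I p w ∧ Col I y w ∧ Col I z w} := by
      intro w hw w' hw' e
      have a := hg w hw
      have b := hg w' hw'
      rw [← e] at b
      exact h.col_unique (Parity_off h1 a.1) a.2 b.2 hw.2.1 hw'.2.1
    rw [← Set.ncard_image_of_injOn hinj]
    congr 1
    ext l
    constructor
    · rintro ⟨w, hw, rfl⟩
      exact ⟨(hg w hw).1, w, (hg w hw).2, hw.2.1, hw.2.2⟩
    · rintro ⟨hpl, w, hwl, hyw, hzw⟩
      have hw : w ∈ {w | Col I p w ∧ Col I y w ∧ Col I z w} := ⟨⟨l, hpl, hwl⟩, hyw, hzw⟩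
      refine ⟨w, hw, ?_⟩
      have hpw : p ≠ w := by
        rintro rfl
        exact h1 hyw.symm
      exact h.line_unique hpw (hg w hw).1 (hg w hw).2 hpl hwl
  have hun : {l | I p l}.ncard = (Parity_N I p y z).ncard +
      {l | I p l ∧ ∃ w, I w l ∧ Col I y w ∧ Col I z w}.ncard := by
    rw [← Set.ncard_union_eq]
    · congr 1
      ext l
      constructor
      · intro hl
        by_cases hw : ∃ w, I w l ∧ Col I y w ∧ Col I z w
        · exact Or.inr ⟨hl, hw⟩
        · exact Or.inl ⟨hl, hw⟩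
      · rintro (hl | hl)
        · exact hl.1
        · exact hl.1
    · rw [Set.disjoint_left]
      rintro l hl hl'
      exact hl.2 hl'.2
  rw [h.point_card] at hun
  rw [hcard, hun]
  obtain ⟨k, hk⟩ := hev
  rw [hk]
  exact ⟨k + {l | I p l ∧ ∃ w, I w l ∧ Col I y w ∧ Col I z w}.ncard, by ring⟩

end H60GQ
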