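import Pool.Agent.H60.GQ.AlphaLines

/-!
Project GQ (MP_a3aa3c_co), module RegLines: the lines with two α points when all reguli are closed.

`NN` = the lines not in L' containing two different α points.
* `nn_pts`: N in NN: exactly 3 α points and 2 H points (take two α points on N; the second case of
  `two_alpha` is impossible: for the m with Reg k l m (`reg_exists`) the α point α m d collinear
  with α k b is collinear with α l c by AllReg, so it is on N (`no_triangle`), and N contains an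
  α point of a line n with Spr k l n (`F11`), contradiction with `F9`, `αα_meet`).
  H points are not α points.
* `nn_all`: so every point of N is an α point or an H point.
* `nn_deg`: an α point is on exactly 4 lines of NN: it is collinear with exactly 8 α points not on its
  line ψ k (one for each line disjoint from k, `F8`, `αα_skew`, `αα_meet`); the line joining is in
  NN (not in L'), and each line of NN through it has exactly 2 further α points (none on ψ k).
* `nn_card`: flags (α point, line of NN): 30 * 4 = 3 |NN|, so |NN| = 40.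
-/

namespace H60GQ

universe u v

open Finset Classical

variable {P : Type u} {L : Type v} {I : P → L → Prop} {t : ℕ} {P' : Set P} {L' : Set L}

/-- the lines outside `L'` with at least two α points -/
def W22.NN (w : W22 I P' L') : Set L :=
  {N | N ∉ L' ∧ ∃ a a', a ≠ a' ∧ w.IsA a ∧ w.IsA a' ∧ I a N ∧ I a' N}

private theorem RegLines_case [Finite P] [Finite L] (h : IsGQ I 4 t) (ht : 2 ≤ t)
    (hs : SubGQ I P' L' 2 2) (w : W22 I P' L') (hw : w.AllReg) {N : L} (hN : N ∈ w.NN) :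
    ∃ a1 a2 a3, a1 ≠ a2 ∧ a1 ≠ a3 ∧ a2 ≠ a3 ∧ w.IsA a1 ∧ w.IsA a2 ∧ w.IsA a3 ∧
      I a1 N ∧ I a2 N ∧ I a3 N ∧
      ∀ x, I x N → x ≠ a1 → x ≠ a2 → x ≠ a3 → w.IsH x := by
  obtain ⟨hNL, a, a', hne, ⟨k, b, rfl⟩, ⟨l, c, rfl⟩, h1, h2⟩ := hN
  have hkl : ¬ (k = l ∧ b = c) := by
    rintro ⟨rfl, rfl⟩
    exact hne rfl
  obtain ⟨hsk, hcase⟩ := w.two_alpha h ht hs hkl h1 h2 hNL
  rcases hcase with ⟨m, d, hreg, h3, hH⟩ | ⟨hA, hspr⟩
  · have hne' : ∀ (x y : Fin 15) (b c : Bool), skew22 x y = true → w.α x b ≠ w.α y c := by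
      intro x y b c hxy e
      obtain ⟨e1, -⟩ := w.α_inj _ _ _ _ e
      rw [e1, skew22_irrefl] at hxy
      exact absurd hxy (by simp)
    exact ⟨w.α k b, w.α l c, w.α m d, hne' _ _ _ _ hreg.1, hne' _ _ _ _ hreg.2.1,
      hne' _ _ _ _ hreg.2.2.1, ⟨k, b, rfl⟩, ⟨l, c, rfl⟩, ⟨m, d, rfl⟩, h1, h2, h3, hH⟩
  · exfalso
    obtain ⟨m, hreg, -⟩ := reg_exists k l hsk
    have hn : (univ.filter (fun m => Spr k l m)).Nonempty := by
      rw [← Finset.card_pos, F11 k l hsk]
      norm_num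
    obtain ⟨n, hn⟩ := hn
    rw [Finset.mem_filter] at hn
    obtain ⟨e, he⟩ := hspr n hn.2
    obtain ⟨d, hd, -⟩ := w.αα_skew h hs hreg.2.1 b
    have hcol : Col I (w.α k b) (w.α l c) := ⟨N, h1, h2⟩
    have hd2 := hw k l m b c d hreg hcol hd
    have hmN : I (w.α m d) N := h.mem_of_col hne h1 h2 hd.symm hd2.symm
    obtain ⟨f1, f2⟩ := F9 k l m n hreg hn.2
    exact w.αα_meet h hs f2 f1 d e ⟨N, hmN, he⟩

private theorem RegLines_sets [Finite P] [Finite L] (h : IsGQ I 4 t) (w : W22 I P' L') {N : L}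
    {a1 a2 a3 : P} (h12 : a1 ≠ a2) (h13 : a1 ≠ a3) (h23 : a2 ≠ a3) (A1 : w.IsA a1)
    (A2 : w.IsA a2) (A3 : w.IsA a3) (i1 : I a1 N) (i2 : I a2 N) (i3 : I a3 N)
    (hH : ∀ x, I x N → x ≠ a1 → x ≠ a2 → x ≠ a3 → w.IsH x) :
    {a | w.IsA a ∧ I a N} = {a1, a2, a3} ∧
      {x | w.IsH x ∧ I x N} = {x | I x N} \ {a1, a2, a3} := by
  constructor
  · ext a
    simp only [Set.mem_ofPred_eq, Set.mem_insert_iff, Set.mem_singleton_iff]
    constructor
    · rintro ⟨hA, hI⟩
      by_contra hc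
      simp only [not_or] at hc
      exact (hH a hI hc.1 hc.2.1 hc.2.2).1.2 hA
    · rintro (rfl | rfl | rfl)
      · exact ⟨A1, i1⟩
      · exact ⟨A2, i2⟩
      · exact ⟨A3, i3⟩
  · ext x
    simp only [Set.mem_ofPred_eq, Set.mem_sdiff, Set.mem_insert_iff, Set.mem_singleton_iff, not_or]
    constructor
    · rintro ⟨hx, hI⟩
      refine ⟨hI, ?_, ?_, ?_⟩
      · rintro rfl; exact hx.1.2 A1
      · rintro rfl; exact hx.1.2 A2
      · rintro rfl; exact hx.1.2 A3
    · rintro ⟨hI, e1, e2, e3⟩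
      exact ⟨hH x hI e1 e2 e3, hI⟩

theorem W22.nn_pts [Finite P] [Finite L] (h : IsGQ I 4 t) (ht : 2 ≤ t) (hs : SubGQ I P' L' 2 2)
    (w : W22 I P' L') (hw : w.AllReg) {N : L} (hN : N ∈ w.NN) :
    {a | w.IsA a ∧ I a N}.ncard = 3 ∧ {x | w.IsH x ∧ I x N}.ncard = 2 := by
  obtain ⟨a1, a2, a3, h12, h13, h23, A1, A2, A3, i1, i2, i3, hH⟩ := RegLines_case h ht hs w hw hN
  obtain ⟨e1, e2⟩ := RegLines_sets h w h12 h13 h23 A1 A2 A3 i1 i2 i3 hH
  have h3 : ({a1, a2, a3} : Set P).ncard = 3 :=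
    Set.ncard_eq_three.2 ⟨a1, a2, a3, h12, h13, h23, rfl⟩
  have hsub : ({a1, a2, a3} : Set P) ⊆ {x | I x N} := by
    rintro x (rfl | rfl | rfl)
    · exact i1
    · exact i2
    · exact i3
  refine ⟨by rw [e1, h3], ?_⟩
  rw [e2, Set.ncard_sdiff hsub (Set.toFinite _), h.line_card, h3]

theorem W22.nn_all [Finite P] [Finite L] (h : IsGQ I 4 t) (ht : 2 ≤ t) (hs : SubGQ I P' L' 2 2)
    (w : W22 I P' L') (hw : w.AllReg) {N : L} (hN : N ∈ w.NN) {x : P} (hx : I x N) :
    w.IsA x ∨ w.IsH x := by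
  obtain ⟨a1, a2, a3, h12, h13, h23, A1, A2, A3, i1, i2, i3, hH⟩ := RegLines_case h ht hs w hw hN
  by_cases e1 : x = a1
  · left; rw [e1]; exact A1
  by_cases e2 : x = a2
  · left; rw [e2]; exact A2
  by_cases e3 : x = a3
  · left; rw [e3]; exact A3
  · right; exact hH x hx e1 e2 e3

end H60GQ
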