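import Pool.Agent.H60.GQ.RegLines

/-!
Project GQ (MP_a3aa3c_co), module RegLines2: `nn_deg`, `nn_card` (proof plan in RegLines.lean).
-/

namespace H60GQ

universe u v

open Finset Classical

variable {P : Type u} {L : Type v} {I : P → L → Prop} {t : ℕ} {P' : Set P} {L' : Set L}

/-- double counting -/
private theorem RegLines2_dc {α : Type u} {β : Type v} [Finite α] [Finite β] (S : Set α)
    (T : Set β) (r : α → β → Prop) (m n : ℕ) (h1 : ∀ a ∈ S, {b | b ∈ T ∧ r a b}.ncard = m)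
    (h2 : ∀ b ∈ T, {a | a ∈ S ∧ r a b}.ncard = n) : S.ncard * m = T.ncard * n := by
  cases nonempty_fintype α
  cases nonempty_fintype β
  rw [Set.ncard_eq_toFinset_card' S, Set.ncard_eq_toFinset_card' T]
  apply Finset.card_mul_eq_card_mul r
  · intro a ha
    rw [Set.mem_toFinset] at ha
    rw [← h1 a ha, Set.ncard_eq_toFinset_card']
    congr 1
    ext b
    simp [Finset.mem_bipartiteAbove]
  · intro b hb
    rw [Set.mem_toFinset] at hb
    rw [← h2 b hb, Set.ncard_eq_toFinset_card']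
    congr 1
    ext a
    simp [Finset.mem_bipartiteBelow]

/-- a line with two α points on different `ψ` is not in `L'` -/
private theorem RegLines2_notL (w : W22 I P' L') {k l : Fin 15} (hkl : k ≠ l) {b c : Bool} {N : L}
    (h1 : I (w.α k b) N) (h2 : I (w.α l c) N) : N ∉ L' := by
  intro hN
  obtain ⟨n, rfl⟩ := (w.memL N).1 hN
  have key : ∀ (x : Fin 15) (e : Bool), I (w.α x e) (w.ψ n) → x = n := by
    intro x e he
    rcases (w.pts n _).1 he with ⟨i, -, hi⟩ | ⟨f, hf⟩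
    · exact absurd ((w.memP _).2 ⟨i, hi⟩) (w.α_not x e)
    · exact (w.α_inj _ _ _ _ hf).1
  exact hkl ((key k b h1).trans (key l c h2).symm)

/-- the number of α points on a common line of `NN` with a given α point -/
private theorem RegLines2_eight [Finite P] [Finite L] (h : IsGQ I 4 t) (ht : 2 ≤ t)
    (hs : SubGQ I P' L' 2 2) (w : W22 I P' L') (k : Fin 15) (b : Bool) :
    {a' | w.IsA a' ∧ a' ≠ w.α k b ∧ ∃ N ∈ w.NN, I (w.α k b) N ∧ I a' N}.ncard = 8 := by
  have hex : ∀ l : Fin 15, ∃ c : Bool, skew22 k l = true → Col I (w.α k b) (w.α l c) := by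
    intro l
    by_cases hl : skew22 k l = true
    · obtain ⟨c, hc, -⟩ := w.αα_skew h hs hl b
      exact ⟨c, fun _ => hc⟩
    · exact ⟨true, fun hl' => absurd hl' hl⟩
  choose c hc using hex
  have hne : ∀ l, skew22 k l = true → k ≠ l := by
    intro l hl e
    rw [e, skew22_irrefl] at hl
    exact absurd hl (by simp)
  have hset : {a' | w.IsA a' ∧ a' ≠ w.α k b ∧ ∃ N ∈ w.NN, I (w.α k b) N ∧ I a' N} =
      (fun l => w.α l (c l)) '' ((univ.filter (fun m => skew22 k m = true) : Finset (Fin 15)) :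
        Set (Fin 15)) := by
    ext a'
    simp only [Set.mem_ofPred_eq, Set.mem_image, Finset.mem_coe, Finset.mem_filter,
      Finset.mem_univ, true_and]
    constructor
    · rintro ⟨⟨l, d, rfl⟩, hne', N, hN, h1, h2⟩
      have hkl : ¬ (k = l ∧ b = d) := by
        rintro ⟨rfl, rfl⟩
        exact hne' rfl
      obtain ⟨hsk, -⟩ := w.two_alpha h ht hs hkl h1 h2 hN.1
      refine ⟨l, hsk, ?_⟩
      have : c l = d := (w.αα_skew h hs hsk b).unique (hc l hsk) ⟨N, h1, h2⟩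
      rw [this]
    · rintro ⟨l, hl, rfl⟩
      obtain ⟨N, h1, h2⟩ := hc l hl
      have hne' : w.α l (c l) ≠ w.α k b := by
        intro e
        exact hne l hl (w.α_inj _ _ _ _ e).1.symm
      exact ⟨⟨l, c l, rfl⟩, hne', N, ⟨RegLines2_notL w (hne l hl) h1 h2, w.α k b, w.α l (c l),
        hne'.symm, ⟨k, b, rfl⟩, ⟨l, c l, rfl⟩, h1, h2⟩, h1, h2⟩
  rw [hset, Set.ncard_image_of_injective, Set.ncard_coe_finset, F8 k]
  intro l l' e
  exact (w.α_inj _ _ _ _ e).1

theorem W22.nn_deg [Finite P] [Finite L] (h : IsGQ I 4 t) (ht : 2 ≤ t) (hs : SubGQ I P' L' 2 2)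
    (w : W22 I P' L') (hw : w.AllReg) {a : P} (ha : w.IsA a) :
    {N | N ∈ w.NN ∧ I a N}.ncard = 4 := by
  obtain ⟨k, b, rfl⟩ := ha
  have h8 := RegLines2_eight h ht hs w k b
  have hdc := RegLines2_dc {a' | w.IsA a' ∧ a' ≠ w.α k b ∧ ∃ N ∈ w.NN, I (w.α k b) N ∧ I a' N}
    {N | N ∈ w.NN ∧ I (w.α k b) N} (fun a' N => I a' N) 1 2 ?_ ?_
  · rw [h8] at hdc
    omega
  · rintro a' ⟨hA, hne, N, hN, h1, h2⟩
    rw [Set.ncard_eq_one]
    refine ⟨N, ?_⟩
    ext N'
    simp only [Set.mem_ofPred_eq, Set.mem_singleton_iff]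
    constructor
    · rintro ⟨⟨_, h3⟩, h4⟩
      exact h.line_unique hne h4 h3 h2 h1
    · rintro rfl
      exact ⟨⟨hN, h1⟩, h2⟩
  · rintro N ⟨hN, h1⟩
    have h3 := (w.nn_pts h ht hs hw hN).1
    have hset : {a' | a' ∈ {a' | w.IsA a' ∧ a' ≠ w.α k b ∧ ∃ N ∈ w.NN, I (w.α k b) N ∧ I a' N} ∧
        I a' N} = {a | w.IsA a ∧ I a N} \ {w.α k b} := by
      ext a'
      simp only [Set.mem_ofPred_eq, Set.mem_sdiff, Set.mem_singleton_iff]
      constructor
      · rintro ⟨⟨hA, hne, _⟩, h2⟩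
        exact ⟨⟨hA, h2⟩, hne⟩
      · rintro ⟨⟨hA, h2⟩, hne⟩
        exact ⟨⟨hA, hne, N, hN, h1, h2⟩, h2⟩
    rw [hset, Set.ncard_sdiff_singleton_of_mem, h3]
    exact ⟨⟨k, b, rfl⟩, h1⟩

private theorem RegLines2_A (w : W22 I P' L') : {a | w.IsA a}.ncard = 30 := by
  have hset : {a | w.IsA a} = (fun x : Fin 15 × Bool => w.α x.1 x.2) '' Set.univ := by
    ext a
    simp only [Set.mem_ofPred_eq, Set.image_univ, Set.mem_range, Prod.exists, W22.IsA, eq_comm]
  rw [hset, Set.ncard_image_of_injective, Set.ncard_univ]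
  · simp
  · rintro ⟨k, b⟩ ⟨l, c⟩ e
    obtain ⟨e1, e2⟩ := w.α_inj _ _ _ _ e
    exact Prod.ext e1 e2

theorem W22.nn_card [Finite P] [Finite L] (h : IsGQ I 4 t) (ht : 2 ≤ t) (hs : SubGQ I P' L' 2 2)
    (w : W22 I P' L') (hw : w.AllReg) : w.NN.ncard = 40 := by
  have hdc := RegLines2_dc {a | w.IsA a} w.NN (fun a N => I a N) 4 3
    (fun a ha => w.nn_deg h ht hs hw ha) (fun N hN => (w.nn_pts h ht hs hw hN).1)
  rw [RegLines2_A w] at hdc
  omega

end H60GQ
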