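import Pool.Agent.H60.GQ.Counts

/-!
Project GQ (MP_a3aa3c_co), helper60: first lemmas on subquadrangles.
-/

namespace H60GQ

universe u v

variable {P : Type u} {L : Type v} {I : P → L → Prop} {s t s' t' : ℕ} {P' : Set P} {L' : Set L}

theorem SubGQ.lc (hs : SubGQ I P' L' s' t') {l : L} (hl : l ∈ L') :
    {p | p ∈ P' ∧ I p l}.ncard = s' + 1 := by
  rw [← hs.2.line_card ⟨l, hl⟩]
  have : {p | p ∈ P' ∧ I p l} = Subtype.val '' {p : P' | I p.1 l} := by
    ext p; simp [and_comm]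
  rw [this, Set.ncard_image_of_injective _ Subtype.val_injective]

theorem SubGQ.pc (hs : SubGQ I P' L' s' t') {p : P} (hp : p ∈ P') :
    {l | l ∈ L' ∧ I p l}.ncard = t' + 1 := by
  rw [← hs.2.point_card ⟨p, hp⟩]
  have : {l | l ∈ L' ∧ I p l} = Subtype.val '' {l : L' | I p l.1} := by
    ext l; simp [and_comm]
  rw [this, Set.ncard_image_of_injective _ Subtype.val_injective]

theorem SubGQ.pr (hs : SubGQ I P' L' s' t') {p : P} (hp : p ∈ P') {l : L} (hl : l ∈ L')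
    (hpl : ¬ I p l) : ∃ q ∈ P', ∃ m ∈ L', I q l ∧ I p m ∧ I q m := by
  obtain ⟨q, m, h1, h2, h3⟩ := hs.2.exists_proj (p := ⟨p, hp⟩) (l := ⟨l, hl⟩) hpl
  exact ⟨q.1, q.2, m.1, m.2, h1, h2, h3⟩

/-- conversely, a family of points and lines with the right local counts and projections -/
theorem SubGQ.mk' (h : IsGQ I s t) (hne : P'.Nonempty)
    (lc : ∀ l ∈ L', {p | p ∈ P' ∧ I p l}.ncard = s' + 1)
    (pc : ∀ p ∈ P', {l | l ∈ L' ∧ I p l}.ncard = t' + 1)
    (pr : ∀ p ∈ P', ∀ l ∈ L', ¬ I p l → ∃ q ∈ P', ∃ m ∈ L', I q l ∧ I p m ∧ I q m) :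
    SubGQ I P' L' s' t' := by
  refine ⟨hne, ?_, ?_, ?_, ?_⟩
  · rintro ⟨l, hl⟩
    rw [← lc l hl]
    have : {p | p ∈ P' ∧ I p l} = Subtype.val '' {p : P' | I p.1 l} := by
      ext p; simp [and_comm]
    rw [this, Set.ncard_image_of_injective _ Subtype.val_injective]
  · rintro ⟨p, hp⟩
    rw [← pc p hp]
    have : {l | l ∈ L' ∧ I p l} = Subtype.val '' {l : L' | I p l.1} := by
      ext l; simp [and_comm]
    rw [this, Set.ncard_image_of_injective _ Subtype.val_injective]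
  · rintro ⟨p, hp⟩ ⟨q, hq⟩ ⟨l, hl⟩ ⟨m, hm⟩ hpq h1 h2 h3 h4
    have := h.unique p q l m (by simpa using hpq) h1 h2 h3 h4
    simpa using this
  · rintro ⟨p, hp⟩ ⟨l, hl⟩ hpl
    obtain ⟨q, hq, m, hm, h1, h2, h3⟩ := pr p hp l hl hpl
    refine ⟨(⟨q, hq⟩, ⟨m, hm⟩), ⟨h1, h2, h3⟩, ?_⟩
    rintro ⟨⟨q', hq'⟩, ⟨m', hm'⟩⟩ ⟨h1', h2', h3'⟩
    obtain ⟨e1, e2⟩ := h.proj_unique hpl h1' h2' h3' h1 h2 h3
    subst e1; subst e2; rfl

/-- a line with two points of the subquadrangle belongs to it -/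
theorem SubGQ.line_mem (h : IsGQ I s t) (hs : SubGQ I P' L' s' t') {p q : P} (hp : p ∈ P')
    (hq : q ∈ P') (hpq : p ≠ q) {l : L} (h1 : I p l) (h2 : I q l) : l ∈ L' := by
  -- a line of L' through q
  have hne : {m | m ∈ L' ∧ I q m}.ncard ≠ 0 := by rw [hs.pc hq]; omega
  obtain ⟨m, hm, hqm⟩ := Set.nonempty_of_ncard_ne_zero hne
  by_cases hpm : I p m
  · rw [h.line_unique hpq h1 h2 hpm hqm]; exact hm
  · obtain ⟨r, hr, n, hn, h3, h4, h5⟩ := hs.pr hp hm hpm
    have := (h.proj_unique hpm h3 h4 h5 hqm h1 h2).2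
    rw [← this]; exact hn

/-- a point on two lines of the subquadrangle belongs to it -/
theorem SubGQ.pt_mem (h : IsGQ I s t) (hs : SubGQ I P' L' s' t') {l m : L} (hl : l ∈ L')
    (hm : m ∈ L') (hlm : l ≠ m) {x : P} (h1 : I x l) (h2 : I x m) : x ∈ P' := by
  have hne : {p | p ∈ P' ∧ I p l}.ncard ≠ 0 := by rw [hs.lc hl]; omega
  obtain ⟨p, hp, hpl⟩ := Set.nonempty_of_ncard_ne_zero hne
  by_cases hpm : I p m
  · rw [h.pt_unique hlm h1 hpl h2 hpm]; exact hp
  · obtain ⟨r, hr, n, hn, h3, h4, h5⟩ := hs.pr hp hm hpm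
    have := (h.proj_unique hpm h3 h4 h5 h2 hpl h1).1
    rw [← this]; exact hr

/-- the projection of a point of the subquadrangle on a line of it belongs to it -/
theorem SubGQ.proj_mem (h : IsGQ I s t) (hs : SubGQ I P' L' s' t') {p : P} (hp : p ∈ P') {l : L}
    (hl : l ∈ L') (hpl : ¬ I p l) {q : P} (h1 : I q l) (c : Col I p q) : q ∈ P' := by
  obtain ⟨r, hr, n, hn, h3, h4, h5⟩ := hs.pr hp hl hpl
  rw [h.col_unique hpl h1 h3 c ⟨n, h4, h5⟩]; exact hr

/-- a point outside `P'` on a line of `L'` is collinear with no other points of `P'` than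
those of the line -/
theorem SubGQ.alpha_col (h : IsGQ I s t) (hs : SubGQ I P' L' s' t') {x : P} (hx : x ∉ P') {l : L}
    (hl : l ∈ L') (h1 : I x l) {p : P} (hp : p ∈ P') (c : Col I p x) : I p l := by
  by_contra hpl
  exact hx (hs.proj_mem h hp hl hpl h1 c)

theorem SubGQ.fin_line (hs : SubGQ I P' L' s' t') {l : L} (hl : l ∈ L') :
    {p | p ∈ P' ∧ I p l}.Finite := Set.finite_of_ncard_ne_zero (by rw [hs.lc hl]; omega)

theorem IsGQ.fin_line (h : IsGQ I s t) (l : L) : {p | I p l}.Finite :=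
  Set.finite_of_ncard_ne_zero (by rw [h.line_card]; omega)

theorem IsGQ.fin_pt (h : IsGQ I s t) (p : P) : {l | I p l}.Finite :=
  Set.finite_of_ncard_ne_zero (by rw [h.point_card]; omega)

theorem SubGQ.exists_line (hs : SubGQ I P' L' s' t') {p : P} (hp : p ∈ P') :
    ∃ l ∈ L', I p l := by
  have hne : {m | m ∈ L' ∧ I p m}.ncard ≠ 0 := by rw [hs.pc hp]; omega
  obtain ⟨m, hm, hqm⟩ := Set.nonempty_of_ncard_ne_zero hne
  exact ⟨m, hm, hqm⟩

theorem SubGQ.s_le (h : IsGQ I s t) (hs : SubGQ I P' L' s' t') : s' ≤ s := by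
  obtain ⟨p, hp⟩ := hs.1
  obtain ⟨l, hl, -⟩ := hs.exists_line hp
  have h1 := hs.lc hl
  have h2 := h.line_card l
  have h3 : {p | p ∈ P' ∧ I p l}.ncard ≤ {p | I p l}.ncard :=
    Set.ncard_le_ncard (fun p hp => hp.2) (h.fin_line l)
  omega

theorem SubGQ.t_le (h : IsGQ I s t) (hs : SubGQ I P' L' s' t') : t' ≤ t := by
  obtain ⟨p, hp⟩ := hs.1
  have h1 := hs.pc hp
  have h2 := h.point_card p
  have h3 : {l | l ∈ L' ∧ I p l}.ncard ≤ {l | I p l}.ncard :=
    Set.ncard_le_ncard (fun p hp => hp.2) (h.fin_pt p)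
  omega

/-- if `s' = s` then the lines of `L'` consist of points of `P'` -/
theorem SubGQ.full (h : IsGQ I s t) (hs : SubGQ I P' L' s t') {l : L} (hl : l ∈ L') {x : P}
    (h1 : I x l) : x ∈ P' := by
  have h2 := hs.lc hl
  have h3 : {p | p ∈ P' ∧ I p l} = {p | I p l} :=
    Set.eq_of_subset_of_ncard_le (fun p hp => hp.2) (by rw [h2, h.line_card]) (h.fin_line l)
  have : x ∈ {p | p ∈ P' ∧ I p l} := by rw [h3]; exact h1
  exact this.1

theorem SubGQ.nonempty_sub (hs : SubGQ I P' L' s' t') : Nonempty P' := hs.1.to_subtype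

theorem SubGQ.card_pts [Finite P] [Finite L] (hs : SubGQ I P' L' s' t') :
    P'.ncard = (s' + 1) * (s' * t' + 1) := by
  have := hs.nonempty_sub
  rw [← Nat.card_coe_set_eq]
  exact hs.2.card_points

theorem SubGQ.card_lns [Finite P] [Finite L] (hs : SubGQ I P' L' s' t') :
    L'.ncard = (t' + 1) * (s' * t' + 1) := by
  have := hs.nonempty_sub
  rw [← Nat.card_coe_set_eq]
  exact hs.2.card_lines

/-- a subquadrangle of the same order is everything -/
theorem SubGQ.whole [Finite P] [Finite L] (h : IsGQ I s t) (hs : SubGQ I P' L' s t) :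
    P' = Set.univ ∧ L' = Set.univ := by
  have : Nonempty P := by obtain ⟨p, -⟩ := hs.1; exact ⟨p⟩
  constructor
  · apply Set.eq_of_subset_of_ncard_le (Set.subset_univ _) _ (Set.toFinite _)
    rw [Set.ncard_univ, h.card_points, hs.card_pts]
  · apply Set.eq_of_subset_of_ncard_le (Set.subset_univ _) _ (Set.toFinite _)
    rw [Set.ncard_univ, h.card_lines, hs.card_lns]

end H60GQ
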