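import Pool.Agent.H60.GQ.Sub

/-!
Project GQ (MP_a3aa3c_co), module SubCount: counting the points outside a subquadrangle.

`Beta` = the points outside `P'` which are on no line of `L'`.
`kk x` = number of points of `P'` collinear with `x`.

Proof plan (s' ≤ s; t' ≤ t by `SubGQ.t_le`).
* `beta_card`: every line of `L'` has `s - s'` points outside `P'` (`SubGQ.lc`, `IsGQ.line_card`),
  and no point outside `P'` is on two lines of `L'` (`SubGQ.pt_mem`).
* `beta_sum1`: count pairs (x, p), x in Beta, p in P', collinear. For p in P' there are `t - t'`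
  lines m through p not in L'; each of the s points x ≠ p of m is in Beta:
  x ∉ P' by `SubGQ.line_mem`; if x were on a line l of L', then (p on l would give m = l) p ∉ l and
  x would be the projection of p on l, hence in P' (`SubGQ.proj_mem`).
  Conversely x in Beta collinear with p is on exactly one such line.
* `beta_sum2`: count triples (x, p, q), p ≠ q in P' both collinear with x in Beta. Then p and q are
  not collinear (otherwise their common line is in L' (`line_mem`) and x is on it by `mem_of_col`).
  For non-collinear p, q in P' there are t + 1 common neighbours (`common_card`), t' + 1 of them in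
  P' (`common_card` for the quadrangle hs.2), and the others are in Beta (by `alpha_col`: if x is on
  a line l of L', x ∉ P', then p and q are both on l, so collinear).
  The number of ordered non-collinear pairs in P' is |P'| * s'^2 * t' (`noncol_card` for hs.2;
  note that collinearity in the subquadrangle = collinearity in the quadrangle for points of P'
  by `line_mem`).
* `kk_three`: for (s, t) = (4, t), (s', t') = (2, 2) the sums give ∑ (k - 3)^2 = 0.
* `params_lt`: for s = 4, t ∈ {11, 12}, s' ∈ {2, 3}, 2 ≤ t' ≤ t: Cauchy-Schwarz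
  (∑ k)^2 ≤ |Beta| ∑ k^2 leaves only (2, 2) (finite check).
-/

namespace H60GQ

universe u v

open Finset Classical

variable {P : Type u} {L : Type v} {I : P → L → Prop} {s t s' t' : ℕ} {P' : Set P} {L' : Set L}

/-- points outside `P'` on no line of `L'` -/
def Beta (I : P → L → Prop) (P' : Set P) (L' : Set L) : Set P :=
  {x | x ∉ P' ∧ ∀ l ∈ L', ¬ I x l}

/-- number of points of `P'` collinear with `x` -/
noncomputable def kk (I : P → L → Prop) (P' : Set P) (x : P) : ℕ := {p | p ∈ P' ∧ Col I p x}.ncard

theorem SubCount_nc {α : Type*} [Fintype α] (p : α → Prop) [DecidablePred p] :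
    {x | p x}.ncard = (univ.filter p).card := by
  rw [Set.ncard_eq_toFinset_card', Set.toFinset_ofPred]

/-- double counting -/
theorem SubCount_sum {α β : Type*} (A : Finset α) (B : Finset β) (R : α → β → Prop) :
    ∑ a ∈ A, (B.filter (fun b => R a b)).card = ∑ b ∈ B, (A.filter (fun a => R a b)).card := by
  have := Finset.sum_card_bipartiteAbove_eq_sum_card_bipartiteBelow (s := A) (t := B) R
  exact this

theorem SubCount_dc {α β : Type*} (A : Finset α) (B : Finset β) (R : α → β → Prop) (c : ℕ)
    (h1 : ∀ a ∈ A, (B.filter (fun b => R a b)).card = 1)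
    (h2 : ∀ b ∈ B, (A.filter (fun a => R a b)).card = c) : A.card = B.card * c := by
  have h := SubCount_sum A B R
  rw [Finset.sum_congr rfl h1, Finset.sum_congr rfl h2] at h
  simpa using h

theorem beta_card [Finite P] [Finite L] (h : IsGQ I s t) (hs : SubGQ I P' L' s' t') :
    (Beta I P' L').ncard + P'.ncard + L'.ncard * (s - s') = Nat.card P := by
  have := Fintype.ofFinite P
  have := Fintype.ofFinite L
  have hA : (univ.filter fun x : P => x ∉ P' ∧ ∃ l ∈ L', I x l).card =
      (univ.filter fun l : L => l ∈ L').card * (s - s') := by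
    refine SubCount_dc _ _ I (s - s') ?_ ?_
    · intro x hx
      rw [mem_filter] at hx
      obtain ⟨-, hx, l, hl, hxl⟩ := hx
      rw [card_eq_one]
      refine ⟨l, ?_⟩
      ext m
      simp only [mem_filter, mem_univ, true_and, mem_singleton]
      constructor
      · rintro ⟨hm, hxm⟩
        by_contra hne
        exact hx (hs.pt_mem h hm hl hne hxm hxl)
      · rintro rfl
        exact ⟨hl, hxl⟩
    · intro l hl
      rw [mem_filter] at hl
      have h1 := hs.lc hl.2
      have h2 := h.line_card l
      rw [SubCount_nc] at h1 h2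
      have h3 : (univ.filter fun p : P => I p l) =
          (univ.filter fun p : P => p ∈ P' ∧ I p l) ∪
            ((univ.filter fun x : P => x ∉ P' ∧ ∃ l ∈ L', I x l).filter fun x => I x l) := by
        ext p
        simp only [mem_filter, mem_univ, true_and, mem_union]
        constructor
        · intro hp
          by_cases hp' : p ∈ P'
          · exact Or.inl ⟨hp', hp⟩
          · exact Or.inr ⟨⟨hp', l, hl.2, hp⟩, hp⟩
        · rintro (hp | hp)
          · exact hp.2
          · exact hp.2
      have h4 : Disjoint (univ.filter fun p : P => p ∈ P' ∧ I p l)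
            ((univ.filter fun x : P => x ∉ P' ∧ ∃ l ∈ L', I x l).filter fun x => I x l) := by
        rw [Finset.disjoint_left]
        intro p hp hp'
        simp only [mem_filter, mem_univ, true_and] at hp hp'
        exact hp'.1.1 hp.1
      rw [h3, card_union_of_disjoint h4, h1] at h2
      omega
  have e1 : (Beta I P' L').ncard = (univ.filter fun x : P => x ∉ P' ∧ ∀ l ∈ L', ¬ I x l).card :=
    SubCount_nc _
  have e2 : P'.ncard = (univ.filter fun x : P => x ∈ P').card := by
    rw [← SubCount_nc]
    rfl
  have e3 : L'.ncard = (univ.filter fun x : L => x ∈ L').card := by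
    rw [← SubCount_nc]
    rfl
  rw [e1, e2, e3, ← hA, Nat.card_eq_fintype_card, ← card_univ]
  have h5 : (univ : Finset P) = ((univ.filter fun x : P => x ∉ P' ∧ ∀ l ∈ L', ¬ I x l) ∪
      (univ.filter fun x : P => x ∈ P')) ∪
      (univ.filter fun x : P => x ∉ P' ∧ ∃ l ∈ L', I x l) := by
    ext p
    simp only [mem_filter, mem_univ, true_and, mem_union, true_iff]
    by_cases hp : p ∈ P'
    · exact Or.inl (Or.inr hp)
    · by_cases hl : ∃ l ∈ L', I p l
      · exact Or.inr ⟨hp, hl⟩
      · push Not at hl
        exact Or.inl (Or.inl ⟨hp, hl⟩)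
  have h6 : Disjoint ((univ.filter fun x : P => x ∉ P' ∧ ∀ l ∈ L', ¬ I x l) ∪
      (univ.filter fun x : P => x ∈ P'))
      (univ.filter fun x : P => x ∉ P' ∧ ∃ l ∈ L', I x l) := by
    rw [Finset.disjoint_left]
    intro p hp hp'
    simp only [mem_filter, mem_univ, true_and, mem_union] at hp hp'
    rcases hp with hp | hp
    · obtain ⟨l, hl, hpl⟩ := hp'.2
      exact hp.2 l hl hpl
    · exact hp'.1 hp
  have h7 : Disjoint (univ.filter fun x : P => x ∉ P' ∧ ∀ l ∈ L', ¬ I x l)
      (univ.filter fun x : P => x ∈ P') := by
    rw [Finset.disjoint_left]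
    intro p hp hp'
    simp only [mem_filter, mem_univ, true_and] at hp hp'
    exact hp.1 hp'
  conv_rhs => rw [h5, card_union_of_disjoint h6, card_union_of_disjoint h7]

theorem SubCount_nbr [Fintype P] [Finite L] (h : IsGQ I s t) (hs : SubGQ I P' L' s' t') {p : P}
    (hp : p ∈ P') :
    ((univ.filter fun x : P => x ∈ Beta I P' L').filter fun x => Col I p x).card =
      (t - t') * s := by
  have := Fintype.ofFinite L
  have hM : (univ.filter fun m : L => I p m ∧ m ∉ L').card = t - t' := by
    have h1 := hs.pc hp
    have h2 := h.point_card p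
    rw [SubCount_nc] at h1 h2
    have h3 : (univ.filter fun m : L => I p m) =
        (univ.filter fun m : L => m ∈ L' ∧ I p m) ∪
          (univ.filter fun m : L => I p m ∧ m ∉ L') := by
      ext m
      simp only [mem_filter, mem_univ, true_and, mem_union]
      tauto
    have h4 : Disjoint (univ.filter fun m : L => m ∈ L' ∧ I p m)
        (univ.filter fun m : L => I p m ∧ m ∉ L') := by
      rw [Finset.disjoint_left]
      intro m hm hm'
      simp only [mem_filter, mem_univ, true_and] at hm hm'
      exact hm'.2 hm.1
    rw [h3, card_union_of_disjoint h4, h1] at h2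
    omega
  rw [← hM]
  refine SubCount_dc _ _ I s ?_ ?_
  · intro x hx
    simp only [mem_filter, mem_univ, true_and, Beta, Set.mem_ofPred_eq] at hx
    obtain ⟨⟨hx1, hx2⟩, m, hpm, hxm⟩ := hx
    have hpx : p ≠ x := by
      rintro rfl
      exact hx1 hp
    rw [card_eq_one]
    refine ⟨m, ?_⟩
    ext m'
    simp only [mem_filter, mem_univ, true_and, mem_singleton]
    constructor
    · rintro ⟨⟨h1, -⟩, h2⟩
      exact h.line_unique hpx h1 h2 hpm hxm
    · rintro rfl
      exact ⟨⟨hpm, fun hm => hx2 _ hm hxm⟩, hxm⟩
  · intro m hm
    simp only [mem_filter, mem_univ, true_and] at hm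
    obtain ⟨hpm, hm⟩ := hm
    have h1 := h.line_card m
    rw [SubCount_nc] at h1
    have h2 : ((univ.filter fun x : P => x ∈ Beta I P' L').filter fun x => Col I p x).filter
        (fun x => I x m) = (univ.filter fun x : P => I x m).erase p := by
      ext x
      simp only [mem_filter, mem_univ, true_and, mem_erase, Beta, Set.mem_ofPred_eq]
      constructor
      · rintro ⟨⟨⟨hx1, hx2⟩, -⟩, hxm⟩
        refine ⟨?_, hxm⟩
        rintro rfl
        exact hx1 hp
      · rintro ⟨hxp, hxm⟩
        refine ⟨⟨⟨?_, ?_⟩, m, hpm, hxm⟩, hxm⟩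
        · intro hx
          exact hm (hs.line_mem h hp hx (Ne.symm hxp) hpm hxm)
        · intro l hl hxl
          have hx : x ∉ P' := fun hx => hm (hs.line_mem h hp hx (Ne.symm hxp) hpm hxm)
          have hpl := hs.alpha_col h hx hl hxl hp ⟨m, hpm, hxm⟩
          have := h.line_unique hxp hxl hpl hxm hpm
          rw [this] at hl
          exact hm hl
    rw [h2, card_erase_of_mem (by simp [hpm]), h1]
    omega

theorem beta_sum1 [Fintype P] [Finite L] (h : IsGQ I s t) (hs : SubGQ I P' L' s' t') :
    ∑ x ∈ univ.filter (fun x => x ∈ Beta I P' L'), kk I P' x = P'.ncard * ((t - t') * s) := by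
  have e1 : ∀ x : P, kk I P' x = ((univ.filter fun p : P => p ∈ P').filter
      fun p => Col I p x).card := by
    intro x
    unfold kk
    rw [SubCount_nc, Finset.filter_filter]
  have e2 : P'.ncard = (univ.filter fun x : P => x ∈ P').card := by
    rw [← SubCount_nc]
    rfl
  simp only [e1]
  rw [SubCount_sum _ _ (fun x p => Col I p x), e2, Finset.sum_const_nat]
  intro p hp
  exact SubCount_nbr h hs (mem_filter.1 hp).2

end H60GQ
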