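import Pool.Agent.H60.GQ.SubCount

/-!
Project GQ (MP_a3aa3c_co), module SubCount2: see the proof plan in SubCount.lean (`beta_sum2`).
-/

namespace H60GQ

universe u v

open Finset Classical

variable {P : Type u} {L : Type v} {I : P → L → Prop} {s t s' t' : ℕ} {P' : Set P} {L' : Set L}

/-- double counting -/
theorem SubCount2_sum {α β : Type*} (A : Finset α) (B : Finset β) (R : α → β → Prop)
    [∀ a b, Decidable (R a b)] :
    ∑ a ∈ A, (B.filter (fun b => R a b)).card = ∑ b ∈ B, (A.filter (fun a => R a b)).card :=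
  Finset.sum_card_bipartiteAbove_eq_sum_card_bipartiteBelow (s := A) (t := B) R

theorem SubCount2_col (h : IsGQ I s t) (hs : SubGQ I P' L' s' t') (p q : P') :
    Col (fun (p : P') (l : L') => I p.1 l.1) p q ↔ Col I p.1 q.1 := by
  constructor
  · rintro ⟨l, h1, h2⟩
    exact ⟨l.1, h1, h2⟩
  · rintro ⟨l, h1, h2⟩
    by_cases hpq : p = q
    · subst hpq
      exact hs.2.col_refl p
    · exact ⟨⟨l, hs.line_mem h p.2 q.2 (fun e => hpq (Subtype.ext e)) h1 h2⟩, h1, h2⟩

theorem SubCount2_noncol [Fintype P] [Finite L] (h : IsGQ I s t) (hs : SubGQ I P' L' s' t')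
    {p : P} (hp : p ∈ P') :
    ((univ.filter fun q : P => q ∈ P').filter fun q => ¬ Col I p q).card = s' ^ 2 * t' := by
  rw [← hs.2.noncol_card ⟨p, hp⟩, Finset.filter_filter, ← SubCount_nc]
  have e : {q | q ∈ P' ∧ ¬ Col I p q} =
      Subtype.val '' {q : P' | ¬ Col (fun (p : P') (l : L') => I p.1 l.1) ⟨p, hp⟩ q} := by
    ext q
    simp only [Set.mem_ofPred_eq, Set.mem_image, Subtype.exists, exists_and_right, exists_eq_right]
    constructor
    · rintro ⟨hq, hc⟩
      exact ⟨hq, fun c => hc ((SubCount2_col h hs _ _).1 c)⟩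
    · rintro ⟨hq, hc⟩
      exact ⟨hq, fun c => hc ((SubCount2_col h hs ⟨p, hp⟩ ⟨q, hq⟩).2 c)⟩
  rw [e, Set.ncard_image_of_injective _ Subtype.val_injective]

theorem SubCount2_common [Fintype P] [Finite L] (h : IsGQ I s t) (hs : SubGQ I P' L' s' t')
    {p q : P} (hp : p ∈ P') (hq : q ∈ P') (hpq : ¬ Col I p q) :
    ((univ.filter fun x : P => x ∈ Beta I P' L').filter fun x => Col I p x ∧ Col I q x).card =
      t - t' := by
  have h1 := h.common_card hpq
  rw [SubCount_nc] at h1
  have hpq' : ¬ Col (fun (p : P') (l : L') => I p.1 l.1) ⟨p, hp⟩ ⟨q, hq⟩ :=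
    fun c => hpq ((SubCount2_col h hs _ _).1 c)
  have h2 := hs.2.common_card hpq'
  have e : {x | x ∈ P' ∧ Col I p x ∧ Col I q x} =
      Subtype.val '' {x : P' | Col (fun (p : P') (l : L') => I p.1 l.1) ⟨p, hp⟩ x ∧
        Col (fun (p : P') (l : L') => I p.1 l.1) ⟨q, hq⟩ x} := by
    ext x
    simp only [Set.mem_ofPred_eq, Set.mem_image, Subtype.exists, exists_and_right, exists_eq_right]
    constructor
    · rintro ⟨hx, c1, c2⟩
      exact ⟨hx, (SubCount2_col h hs ⟨p, hp⟩ ⟨x, hx⟩).2 c1, (SubCount2_col h hs ⟨q, hq⟩ ⟨x, hx⟩).2 c2⟩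
    · rintro ⟨hx, c1, c2⟩
      exact ⟨hx, (SubCount2_col h hs _ _).1 c1, (SubCount2_col h hs _ _).1 c2⟩
  rw [← Set.ncard_image_of_injective _ Subtype.val_injective, ← e, SubCount_nc] at h2
  have h3 : (univ.filter fun x : P => Col I p x ∧ Col I q x) =
      (univ.filter fun x : P => x ∈ P' ∧ Col I p x ∧ Col I q x) ∪
      ((univ.filter fun x : P => x ∈ Beta I P' L').filter fun x => Col I p x ∧ Col I q x) := by
    ext x
    simp only [mem_filter, mem_univ, true_and, mem_union, Beta, Set.mem_ofPred_eq]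
    constructor
    · rintro ⟨c1, c2⟩
      by_cases hx : x ∈ P'
      · exact Or.inl ⟨hx, c1, c2⟩
      · refine Or.inr ⟨⟨hx, ?_⟩, c1, c2⟩
        intro l hl hxl
        exact hpq ⟨l, hs.alpha_col h hx hl hxl hp c1, hs.alpha_col h hx hl hxl hq c2⟩
    · rintro (hx | hx)
      · exact hx.2
      · exact hx.2
  have h4 : Disjoint (univ.filter fun x : P => x ∈ P' ∧ Col I p x ∧ Col I q x)
      ((univ.filter fun x : P => x ∈ Beta I P' L').filter fun x => Col I p x ∧ Col I q x) := by
    rw [Finset.disjoint_left]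
    intro x hx hx'
    simp only [mem_filter, mem_univ, true_and, Beta, Set.mem_ofPred_eq] at hx hx'
    exact hx'.1.1 hx.1
  rw [h3, card_union_of_disjoint h4, h2] at h1
  omega

theorem beta_sum2 [Fintype P] [Finite L] (h : IsGQ I s t) (hs : SubGQ I P' L' s' t') :
    ∑ x ∈ univ.filter (fun x => x ∈ Beta I P' L'), kk I P' x * (kk I P' x - 1) =
      P'.ncard * (s' ^ 2 * t') * (t - t') := by
  set Q : Finset P := univ.filter fun p : P => p ∈ P' with hQ
  have e1 : ∀ x : P, kk I P' x = (Q.filter fun p => Col I p x).card := by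
    intro x
    unfold kk
    rw [SubCount_nc, hQ, Finset.filter_filter]
  have e2 : P'.ncard = Q.card := by
    rw [hQ, ← SubCount_nc]
    rfl
  have e3 : ∀ x : P, kk I P' x * (kk I P' x - 1) =
      (Q.offDiag.filter fun r => Col I r.1 x ∧ Col I r.2 x).card := by
    intro x
    have e4 : (Q.offDiag.filter fun r => Col I r.1 x ∧ Col I r.2 x) =
        (Q.filter fun p => Col I p x).offDiag := by
      ext r
      simp only [mem_filter, mem_offDiag]
      tauto
    rw [e4, offDiag_card, e1, Nat.mul_sub_one]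
  simp only [e3]
  rw [SubCount2_sum _ _ (fun x (r : P × P) => Col I r.1 x ∧ Col I r.2 x)]
  have e5 : ∀ r ∈ Q.offDiag,
      ((univ.filter fun x : P => x ∈ Beta I P' L').filter
        fun x => Col I r.1 x ∧ Col I r.2 x).card =
      if ¬ Col I r.1 r.2 then t - t' else 0 := by
    intro r hr
    rw [mem_offDiag] at hr
    obtain ⟨h1, h2, h3⟩ := hr
    have h1' : r.1 ∈ P' := (mem_filter.1 h1).2
    have h2' : r.2 ∈ P' := (mem_filter.1 h2).2
    by_cases hc : Col I r.1 r.2
    swap
    · rw [if_pos hc]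
      exact SubCount2_common h hs h1' h2' hc
    · rw [if_neg (fun h' => h' hc)]
      rw [card_eq_zero, filter_eq_empty_iff]
      rintro x hx ⟨c1, c2⟩
      simp only [mem_filter, mem_univ, true_and, Beta, Set.mem_ofPred_eq] at hx
      obtain ⟨l, hl1, hl2⟩ := hc
      have hl := hs.line_mem h h1' h2' h3 hl1 hl2
      exact hx.2 l hl (h.mem_of_col h3 hl1 hl2 c1.symm c2.symm)
  rw [Finset.sum_congr rfl e5, ← Finset.sum_filter, Finset.sum_const, smul_eq_mul]
  congr 1
  have e6 : (Q.offDiag.filter fun r => ¬ Col I r.1 r.2) =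
      (Q ×ˢ Q).filter fun r => ¬ Col I r.1 r.2 := by
    ext r
    simp only [mem_filter, mem_offDiag, mem_product]
    constructor
    · rintro ⟨⟨h1, h2, -⟩, h3⟩
      exact ⟨⟨h1, h2⟩, h3⟩
    · rintro ⟨⟨h1, h2⟩, h3⟩
      refine ⟨⟨h1, h2, ?_⟩, h3⟩
      intro h4
      rw [h4] at h3
      exact h3 (h.col_refl _)
  rw [e6, e2, card_filter, sum_product]
  have e7 : ∀ p ∈ Q, (∑ q ∈ Q, if ¬ Col I p q then 1 else 0) = s' ^ 2 * t' := by
    intro p hp
    rw [← card_filter]
    exact SubCount2_noncol h hs (mem_filter.1 hp).2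
  rw [Finset.sum_congr rfl e7, Finset.sum_const, smul_eq_mul]

end H60GQ
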