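import Pool.Agent.H60.GQ.N42p
import Pool.Agent.H60.GQ.Model

/-!
Project GQ (MP_a3aa3c_co), module Uniq22: the quadrangle of order (2, 2) is unique.

Proof plan. `exists_lab`, `a : Lab I 2`. 4 skew lines: one, D, meets the three C's (`n22`); the
others have n = 1. For i ≠ j let z i j be the point on A' i and B' j (`m9`) and D i j the third line
through z i j: it is skew (as in Uniq42), not D (D meets all C's so it meets no A', `meetA`), so
n = 1 and by `pairs22` its pair is {i, j}, so z j i is also on D i j, and D i j = D j i meets C k,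
{i, j, k} = {0, 1, 2}. The point w k ≠ x k, y k of C k is on C k and two skew lines: D and D i j.

Define g : Fin 15 → L by the numbering of `Model.lean` (0 = A, 1 = B, 2+i = C i, 5+i = A' i,
8+i = B' i, 11 = D, 12+k = D i j with {i,j,k} = {0,1,2}); surjective, |L| = 15 (`card_lines`), so
bijective; h : Fin 15 → P a point on the three lines of the model point; each point is on exactly 3
lines; conclude as in Uniq42.
-/

namespace H60GQ

universe u v

variable {P : Type u} {L : Type v} {I : P → L → Prop}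

private theorem Uniq22_third {t' : ℕ} (h : IsGQ I t' 2) {p : P} {l m : L} (hlm : l ≠ m)
    (h1 : I p l) (h2 : I p m) :
    ∃ n, n ≠ l ∧ n ≠ m ∧ I p n ∧ ∀ l', I p l' → l' = l ∨ l' = m ∨ l' = n := by
  have h3 := h.point_card p
  rw [Set.ncard_eq_three] at h3
  obtain ⟨x, y, z, hxy, hxz, hyz, he⟩ := h3
  have hmem : ∀ l', I p l' ↔ l' = x ∨ l' = y ∨ l' = z := by
    intro l'
    have : l' ∈ {l | I p l} ↔ l' ∈ ({x, y, z} : Set L) := by rw [he]
    simpa using this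
  have hl := (hmem l).mp h1
  have hm := (hmem m).mp h2
  rcases hl with rfl | rfl | rfl <;> rcases hm with rfl | rfl | rfl
  · exact absurd rfl hlm
  · exact ⟨z, hxz.symm, hyz.symm, (hmem z).mpr (by simp), fun l' hl' => (hmem l').mp hl'⟩
  · refine ⟨y, hxy.symm, hyz, (hmem y).mpr (by simp), fun l' hl' => ?_⟩
    rcases (hmem l').mp hl' with h | h | h
    · exact Or.inl h
    · exact Or.inr (Or.inr h)
    · exact Or.inr (Or.inl h)
  · refine ⟨z, hyz.symm, hxz.symm, (hmem z).mpr (by simp), fun l' hl' => ?_⟩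
    rcases (hmem l').mp hl' with h | h | h
    · exact Or.inr (Or.inl h)
    · exact Or.inl h
    · exact Or.inr (Or.inr h)
  · exact absurd rfl hlm
  · refine ⟨x, hxy, hxz, (hmem x).mpr (by simp), fun l' hl' => ?_⟩
    rcases (hmem l').mp hl' with h | h | h
    · exact Or.inr (Or.inr h)
    · exact Or.inl h
    · exact Or.inr (Or.inl h)
  · refine ⟨y, hyz, hxy.symm, (hmem y).mpr (by simp), fun l' hl' => ?_⟩
    rcases (hmem l').mp hl' with h | h | h
    · exact Or.inr (Or.inl h)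
    · exact Or.inr (Or.inr h)
    · exact Or.inl h
  · refine ⟨x, hxz, hxy, (hmem x).mpr (by simp), fun l' hl' => ?_⟩
    rcases (hmem l').mp hl' with h | h | h
    · exact Or.inr (Or.inr h)
    · exact Or.inr (Or.inl h)
    · exact Or.inl h
  · exact absurd rfl hlm

private theorem Uniq22_all (a : Lab I 2) {D : L} (hn : a.n D = 3) (k : Fin 3) :
    Meet I D (a.C k) := by
  by_contra hc
  have h1 : a.n D < Fintype.card (Fin (2 + 1)) := by
    classical
    unfold Lab.n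
    refine Finset.card_lt_univ_of_notMem (x := k) ?_
    rw [Finset.mem_filter]
    exact fun hm => hc hm.2
  rw [hn, Fintype.card_fin] at h1
  omega

/-- the third line through the point on `A' i` and `B' j` -/
private theorem Uniq22_D [Finite P] [Finite L] [Nonempty P] (h : IsGQ I 2 2) (a : Lab I 2)
    {i j : Fin 3} (hij : i ≠ j) {z z' : P} (hz : I z (a.A' i) ∧ I z (a.B' j))
    (hz' : I z' (a.A' j) ∧ I z' (a.B' i)) :
    ∃ D, a.Skew D ∧ I z D ∧ I z' D ∧ (∀ k, k ≠ i → k ≠ j → Meet I D (a.C k)) ∧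
      ∀ l, I z l → l = a.A' i ∨ l = a.B' j ∨ l = D := by
  have hxA : ∀ i, I (a.x i) a.A := fun i => (a.xA _).mpr ⟨i, rfl⟩
  have hyB : ∀ i, I (a.y i) a.B := fun i => (a.yB _).mpr ⟨i, rfl⟩
  have hxB : ∀ i, I (a.x i) (a.B' i) := fun i => (a.lx i _).mpr (Or.inr (Or.inr rfl))
  have hyA : ∀ i, I (a.y i) (a.A' i) := fun i => (a.ly i _).mpr (Or.inr (Or.inr rfl))
  have hAB : ∀ i j, a.A' i ≠ a.B' j := by
    intro i j he
    refine a.m2 h j ⟨a.y i, ?_, hyB i⟩
    rw [← he]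
    exact hyA i
  obtain ⟨D, hD1, hD2, hD3, hD4⟩ := Uniq22_third h (hAB i j) hz.1 hz.2
  have hzA : ¬ I z a.A := fun hc => a.m1 h i ⟨z, hz.1, hc⟩
  have hzB : ¬ I z a.B := fun hc => a.m2 h j ⟨z, hz.2, hc⟩
  have hsk : a.Skew D := by
    constructor
    · rintro ⟨q, hq1, hq2⟩
      exact hD2 (h.proj_unique hzA hq2 hD3 hq1 (hxA j) hz.2 (hxB j)).2
    · rintro ⟨q, hq1, hq2⟩
      exact hD1 (h.proj_unique hzB hq2 hD3 hq1 (hyB i) hz.1 (hyA i)).2
  have hci : ¬ Meet I D (a.C i) := (a.meetA h hsk i).mp ⟨z, hD3, hz.1⟩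
  have hcj : ¬ Meet I D (a.C j) := (a.meetB h hsk j).mp ⟨z, hD3, hz.2⟩
  have hn : a.n D = 1 := by
    rcases (a.n22 h).1 D hsk with h1 | h1
    · exact h1
    · exact absurd (Uniq22_all a h1 i) hci
  obtain ⟨i', j', hij', hC, ⟨q1, h1, h2, h3⟩, ⟨q2, h4, h5, h6⟩⟩ := a.pairs22 h hsk hn
  have hi : i = i' ∨ i = j' := by
    by_contra hc
    rw [not_or] at hc
    exact hci ((hC i).mpr hc)
  have hj : j = i' ∨ j = j' := by
    by_contra hc
    rw [not_or] at hc
    exact hcj ((hC j).mpr hc)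
  have hpt : ∃ q, I q D ∧ I q (a.A' j) ∧ I q (a.B' i) := by
    rcases hi with rfl | rfl <;> rcases hj with rfl | rfl
    · exact absurd rfl hij
    · exact ⟨q2, h4, h5, h6⟩
    · exact ⟨q1, h1, h2, h3⟩
    · exact absurd rfl hij
  obtain ⟨q, h7, h8, h9⟩ := hpt
  have hq : q = z' := h.pt_unique (hAB j i) h8 hz'.1 h9 hz'.2
  subst hq
  refine ⟨D, hsk, hD3, h7, ?_, hD4⟩
  intro k hki hkj
  rw [hC k]
  constructor
  · rintro rfl
    rcases hi with rfl | rfl
    · exact hki rfl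
    · rcases hj with rfl | rfl
      · exact hkj rfl
      · exact hij rfl
  · rintro rfl
    rcases hi with rfl | rfl
    · rcases hj with rfl | rfl
      · exact hij rfl
      · exact hkj rfl
    · exact hki rfl

/-- all points of a line of the third type -/
private theorem Uniq22_w (h : IsGQ I 2 2) (a : Lab I 2) {k : Fin 3} {w : P} {D D' : L}
    (hD' : a.Skew D') (hD : a.Skew D) (h1 : I w D) (h2 : I w (a.C k))
    (h3 : Meet I D' (a.C k)) : I w D' := by
  have hxA : ∀ i, I (a.x i) a.A := fun i => (a.xA _).mpr ⟨i, rfl⟩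
  have hyB : ∀ i, I (a.y i) a.B := fun i => (a.yB _).mpr ⟨i, rfl⟩
  have hxC : ∀ i, I (a.x i) (a.C i) := fun i => (a.lx i _).mpr (Or.inr (Or.inl rfl))
  have hyC : ∀ i, I (a.y i) (a.C i) := fun i => (a.ly i _).mpr (Or.inr (Or.inl rfl))
  have hxy : a.x k ≠ a.y k := by
    intro he
    refine a.disj ⟨a.x k, hxA k, ?_⟩
    rw [he]
    exact hyB k
  obtain ⟨n, hn1, hn2, hn3, hn4⟩ := Uniq22_third h.dual hxy (hxC k) (hyC k)
  obtain ⟨q, hq1, hq2⟩ := h3
  have e1 : w = n := by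
    rcases hn4 w h2 with rfl | rfl | h5
    · exact absurd ⟨_, h1, hxA k⟩ hD.1
    · exact absurd ⟨_, h1, hyB k⟩ hD.2
    · exact h5
  have e2 : q = n := by
    rcases hn4 q hq2 with rfl | rfl | h5
    · exact absurd ⟨_, hq1, hxA k⟩ hD'.1
    · exact absurd ⟨_, hq1, hyB k⟩ hD'.2
    · exact h5
  rw [e1, ← e2]
  exact hq1

/-- a surjective labelling of the lines and a compatible map of the points -/
private theorem Uniq22_concl [Finite P] [Finite L] [Nonempty P] (h : IsGQ I 2 2)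
    (g : Fin 15 → L) (q : Fin 15 → P) (hg : Function.Surjective g)
    (hI : ∀ p l, inc22 p l = true → I (q p) (g l)) :
    ∃ (e : P ≃ Fin 15) (f : L ≃ Fin 15), ∀ p l, I p l ↔ inc22 (e p) (f l) = true := by
  classical
  have hL : Nat.card L = 15 := by rw [h.card_lines]
  have hP : Nat.card P = 15 := by rw [h.card_points]
  have hgb : Function.Bijective g := by
    have := Fintype.ofFinite L
    rw [Fintype.bijective_iff_surjective_and_card]
    refine ⟨hg, ?_⟩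
    rw [← Nat.card_eq_fintype_card, ← Nat.card_eq_fintype_card (α := L), hL]
    simp
  have hiff : ∀ p l, I (q p) (g l) ↔ inc22 p l = true := by
    intro p
    have hsub : g '' {l | inc22 p l = true} ⊆ {m | I (q p) m} := by
      rintro m ⟨l, hl, rfl⟩
      exact hI p l hl
    have hfin : {m | I (q p) m}.Finite := Set.toFinite _
    have hcard : (g '' {l | inc22 p l = true}).ncard = 3 := by
      rw [Set.ncard_image_of_injective _ hgb.1]
      have h1 := point22_card p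
      rw [← h1, ← Set.ncard_coe_finset]
      congr 1
      ext l
      simp
    have heq : g '' {l | inc22 p l = true} = {m | I (q p) m} := by
      refine Set.eq_of_subset_of_ncard_le hsub ?_ hfin
      rw [hcard, h.point_card]
    intro l
    constructor
    · intro h1
      have h2 : g l ∈ g '' {l | inc22 p l = true} := by
        rw [heq]
        exact h1
      obtain ⟨l', hl', he⟩ := h2
      rw [← hgb.1 he]
      exact hl'
    · exact hI p l
  have hqi : Function.Injective q := by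
    intro p p' he
    have h1 : ∀ l, inc22 p l = inc22 p' l := by
      intro l
      rw [Bool.eq_iff_iff, ← hiff, ← hiff, he]
    have h2 : ∀ p p' : Fin 15, (∀ l, inc22 p l = inc22 p' l) → p = p' := by
      decide +kernel
    exact h2 p p' h1
  have hqb : Function.Bijective q := by
    have := Fintype.ofFinite P
    rw [Fintype.bijective_iff_injective_and_card]
    refine ⟨hqi, ?_⟩
    rw [← Nat.card_eq_fintype_card, ← Nat.card_eq_fintype_card (α := P), hP]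
    simp
  refine ⟨(Equiv.ofBijective q hqb).symm, (Equiv.ofBijective g hgb).symm, ?_⟩
  intro p l
  obtain ⟨p', rfl⟩ := hqb.2 p
  obtain ⟨l', rfl⟩ := hgb.2 l
  have e1 : (Equiv.ofBijective q hqb).symm (q p') = p' :=
    (Equiv.ofBijective q hqb).symm_apply_apply p'
  have e2 : (Equiv.ofBijective g hgb).symm (g l') = l' :=
    (Equiv.ofBijective g hgb).symm_apply_apply l'
  rw [e1, e2]
  exact hiff p' l'

theorem uniq22 [Finite P] [Finite L] [Nonempty P] (h : IsGQ I 2 2) :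
    ∃ (e : P ≃ Fin 15) (f : L ≃ Fin 15), ∀ p l, I p l ↔ inc22 (e p) (f l) = true := by
  obtain ⟨a⟩ := exists_lab h (by norm_num : 1 ≤ 2)
  have hxA : ∀ i, I (a.x i) a.A := fun i => (a.xA _).mpr ⟨i, rfl⟩
  have hyB : ∀ i, I (a.y i) a.B := fun i => (a.yB _).mpr ⟨i, rfl⟩
  have hxC : ∀ i, I (a.x i) (a.C i) := fun i => (a.lx i _).mpr (Or.inr (Or.inl rfl))
  have hyC : ∀ i, I (a.y i) (a.C i) := fun i => (a.ly i _).mpr (Or.inr (Or.inl rfl))
  have hxB : ∀ i, I (a.x i) (a.B' i) := fun i => (a.lx i _).mpr (Or.inr (Or.inr rfl))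
  have hyA : ∀ i, I (a.y i) (a.A' i) := fun i => (a.ly i _).mpr (Or.inr (Or.inr rfl))
  have hAB : ∀ i j, a.A' i ≠ a.B' j := by
    intro i j he
    refine a.m2 h j ⟨a.y i, ?_, hyB i⟩
    rw [← he]
    exact hyA i
  have hzex : ∀ i j : Fin (2 + 1), ∃ p, i ≠ j → I p (a.A' i) ∧ I p (a.B' j) := by
    intro i j
    by_cases hij : i = j
    · exact ⟨a.x 0, fun hc => absurd hij hc⟩
    · obtain ⟨p, hp1, hp2⟩ := a.m9 h hij
      exact ⟨p, fun _ => ⟨hp1, hp2⟩⟩
  choose z hz using hzex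
  have hzA : ∀ i j, i ≠ j → I (z i j) (a.A' i) := fun i j hij => (hz i j hij).1
  have hzB : ∀ i j, i ≠ j → I (z i j) (a.B' j) := fun i j hij => (hz i j hij).2
  obtain ⟨⟨hn, D, ⟨hDs, hDn⟩, hDu⟩⟩ : Nonempty _ := ⟨a.n22 h⟩
  have hDC : ∀ k, Meet I D (a.C k) := Uniq22_all a hDn
  choose w hwD hwC using hDC
  obtain ⟨D0, hs0, hz12, hz21, hm0, ht0⟩ := Uniq22_D h a (i := 1) (j := 2) (by decide)
    (hz 1 2 (by decide)) (hz 2 1 (by decide))
  obtain ⟨D1, hs1, hz02, hz20, hm1, ht1⟩ := Uniq22_D h a (i := 0) (j := 2) (by decide)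
    (hz 0 2 (by decide)) (hz 2 0 (by decide))
  obtain ⟨D2, hs2, hz01, hz10, hm2, ht2⟩ := Uniq22_D h a (i := 0) (j := 1) (by decide)
    (hz 0 1 (by decide)) (hz 1 0 (by decide))
  have hw0 : I (w 0) D0 := Uniq22_w h a hs0 hDs (hwD 0) (hwC 0) (hm0 0 (by decide) (by decide))
  have hw1 : I (w 1) D1 := Uniq22_w h a hs1 hDs (hwD 1) (hwC 1) (hm1 1 (by decide) (by decide))
  have hw2 : I (w 2) D2 := Uniq22_w h a hs2 hDs (hwD 2) (hwC 2) (hm2 2 (by decide) (by decide))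
  have hsurj : ∀ l : L, l = a.A ∨ l = a.B ∨ (∃ i, l = a.C i) ∨ (∃ i, l = a.A' i) ∨
      (∃ i, l = a.B' i) ∨ l = D ∨ l = D0 ∨ l = D1 ∨ l = D2 := by
    intro l
    by_cases h1 : Meet I l a.A
    · obtain ⟨p, hp1, hp2⟩ := h1
      obtain ⟨i, rfl⟩ := (a.xA p).mp hp2
      rcases (a.lx i l).mp hp1 with h2 | h2 | h2
      · exact Or.inl h2
      · exact Or.inr (Or.inr (Or.inl ⟨i, h2⟩))
      · exact Or.inr (Or.inr (Or.inr (Or.inr (Or.inl ⟨i, h2⟩))))
    by_cases h2 : Meet I l a.B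
    · obtain ⟨p, hp1, hp2⟩ := h2
      obtain ⟨i, rfl⟩ := (a.yB p).mp hp2
      rcases (a.ly i l).mp hp1 with h2 | h2 | h2
      · exact Or.inr (Or.inl h2)
      · exact Or.inr (Or.inr (Or.inl ⟨i, h2⟩))
      · exact Or.inr (Or.inr (Or.inr (Or.inl ⟨i, h2⟩)))
    have hsk : a.Skew l := ⟨h1, h2⟩
    right; right; right; right; right
    rcases hn l hsk with h3 | h3
    · right
      obtain ⟨i, j, hij, -, hp, hp'⟩ := a.pairs22 h hsk h3
      have key : ∀ i j : Fin (2 + 1), i < j → (∃ p, I p l ∧ I p (a.A' i) ∧ I p (a.B' j)) →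
          l = D0 ∨ l = D1 ∨ l = D2 := by
        intro i j hlt ⟨p, hp1, hp2, hp3⟩
        have hne : i ≠ j := hlt.ne
        have e : p = z i j := h.pt_unique (hAB i j) hp2 (hzA i j hne) hp3 (hzB i j hne)
        subst e
        have hA' : l ≠ a.A' i := by
          rintro rfl
          exact h2 ⟨a.y i, hyA i, hyB i⟩
        have hB' : l ≠ a.B' j := by
          rintro rfl
          exact h1 ⟨a.x j, hxB j, hxA j⟩
        have hcases : ∀ i j : Fin 3, i < j → (i = 1 ∧ j = 2) ∨ (i = 0 ∧ j = 2) ∨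
            (i = 0 ∧ j = 1) := by decide
        rcases hcases i j hlt with ⟨rfl, rfl⟩ | ⟨rfl, rfl⟩ | ⟨rfl, rfl⟩
        · rcases ht0 l hp1 with h4 | h4 | h4
          · exact absurd h4 hA'
          · exact absurd h4 hB'
          · exact Or.inl h4
        · rcases ht1 l hp1 with h4 | h4 | h4
          · exact absurd h4 hA'
          · exact absurd h4 hB'
          · exact Or.inr (Or.inl h4)
        · rcases ht2 l hp1 with h4 | h4 | h4
          · exact absurd h4 hA'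
          · exact absurd h4 hB'
          · exact Or.inr (Or.inr h4)
      rcases lt_or_gt_of_ne hij with h4 | h4
      · exact key i j h4 hp
      · exact key j i h4 hp'
    · left
      exact hDu l ⟨hsk, h3⟩
  refine Uniq22_concl h
    (![a.A, a.B, a.C 0, a.C 1, a.C 2, a.A' 0, a.A' 1, a.A' 2, a.B' 0, a.B' 1, a.B' 2, D, D0, D1,
      D2] : Fin 15 → L)
    (![a.x 0, a.x 1, a.x 2, a.y 0, a.y 1, a.y 2, w 0, w 1, w 2, z 0 1, z 0 2, z 1 0, z 1 2,
      z 2 0, z 2 1] : Fin 15 → P) ?_ ?_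
  · intro l
    have hfin : ∀ i : Fin 3, i = 0 ∨ i = 1 ∨ i = 2 := by decide
    rcases hsurj l with rfl | rfl | ⟨i, rfl⟩ | ⟨i, rfl⟩ | ⟨i, rfl⟩ | rfl | rfl | rfl | rfl
    · exact ⟨0, rfl⟩
    · exact ⟨1, rfl⟩
    · rcases hfin i with rfl | rfl | rfl
      · exact ⟨2, rfl⟩
      · exact ⟨3, rfl⟩
      · exact ⟨4, rfl⟩
    · rcases hfin i with rfl | rfl | rfl
      · exact ⟨5, rfl⟩
      · exact ⟨6, rfl⟩
      · exact ⟨7, rfl⟩
    · rcases hfin i with rfl | rfl | rfl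
      · exact ⟨8, rfl⟩
      · exact ⟨9, rfl⟩
      · exact ⟨10, rfl⟩
    · exact ⟨11, rfl⟩
    · exact ⟨12, rfl⟩
    · exact ⟨13, rfl⟩
    · exact ⟨14, rfl⟩
  · intro p l hpl
    have hlist : ∀ p l : Fin 15, inc22 p l = true → (p, l) ∈ ([(0, 0), (0, 2), (0, 8), (1, 0), (1, 3), (1, 9), (2, 0), (2, 4), (2, 10), (3, 1), (3, 2), (3, 5), (4, 1), (4, 3), (4, 6), (5, 1), (5, 4), (5, 7), (6, 2), (6, 11), (6, 12), (7, 3), (7, 11), (7, 13), (8, 4), (8, 11), (8, 14), (9, 5), (9, 9), (9, 14), (10, 5), (10, 10), (10, 13), (11, 6), (11, 8), (11, 14), (12, 6), (12, 10), (12, 12), (13, 7), (13, 8), (13, 13), (14, 7), (14, 9), (14, 12)] : List (Fin 15 × Fin 15)) := by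
      decide +kernel
    have h1 := hlist p l hpl
    simp only [List.mem_cons, Prod.mk.injEq, List.not_mem_nil, or_false] at h1
    rcases h1 with ⟨rfl, rfl⟩ | ⟨rfl, rfl⟩ | ⟨rfl, rfl⟩ | ⟨rfl, rfl⟩ | ⟨rfl, rfl⟩ | ⟨rfl, rfl⟩ | ⟨rfl, rfl⟩ | ⟨rfl, rfl⟩ | ⟨rfl, rfl⟩ | ⟨rfl, rfl⟩ | ⟨rfl, rfl⟩ | ⟨rfl, rfl⟩ | ⟨rfl, rfl⟩ | ⟨rfl, rfl⟩ | ⟨rfl, rfl⟩ | ⟨rfl, rfl⟩ | ⟨rfl, rfl⟩ | ⟨rfl, rfl⟩ | ⟨rfl, rfl⟩ | ⟨rfl, rfl⟩ | ⟨rfl, rfl⟩ | ⟨rfl, rfl⟩ | ⟨rfl, rfl⟩ | ⟨rfl, rfl⟩ | ⟨rfl, rfl⟩ | ⟨rfl, rfl⟩ | ⟨rfl, rfl⟩ | ⟨rfl, rfl⟩ | ⟨rfl, rfl⟩ | ⟨rfl, rfl⟩ | ⟨rfl, rfl⟩ | ⟨rfl, rfl⟩ | ⟨rfl, rfl⟩ | ⟨rfl, rfl⟩ | ⟨rfl, rfl⟩ | ⟨rfl, rfl⟩ | ⟨rfl, rfl⟩ | ⟨rfl, rfl⟩ | ⟨rfl, rfl⟩ | ⟨rfl, rfl⟩ | ⟨rfl, rfl⟩ | ⟨rfl, rfl⟩ | ⟨rfl, rfl⟩ | ⟨rfl, rfl⟩ | ⟨rfl, rfl⟩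
    exacts [hxA 0,
      hxC 0,
      hxB 0,
      hxA 1,
      hxC 1,
      hxB 1,
      hxA 2,
      hxC 2,
      hxB 2,
      hyB 0,
      hyC 0,
      hyA 0,
      hyB 1,
      hyC 1,
      hyA 1,
      hyB 2,
      hyC 2,
      hyA 2,
      hwC 0,
      hwD 0,
      hw0,
      hwC 1,
      hwD 1,
      hw1,
      hwC 2,
      hwD 2,
      hw2,
      hzA 0 1 (by decide),
      hzB 0 1 (by decide),
      hz01,
      hzA 0 2 (by decide),
      hzB 0 2 (by decide),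
      hz02,
      hzA 1 0 (by decide),
      hzB 1 0 (by decide),
      hz10,
      hzA 1 2 (by decide),
      hzB 1 2 (by decide),
      hz12,
      hzA 2 0 (by decide),
      hzB 2 0 (by decide),
      hz20,
      hzA 2 1 (by decide),
      hzB 2 1 (by decide),
      hz21]

end H60GQ
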