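import Pool.Agent.H60.GQ.N42p
import Pool.Agent.H60.GQ.Model

/-!
Project GQ (MP_a3aa3c_co), module Uniq42: the quadrangle of order (4, 2) is unique.

Proof plan. `exists_lab`, `a : Lab I 4`. For i ≠ j let z i j be the point on A' i and B' j (`m9`) and
D i j the third line through z i j. D i j is skew: it meets neither A nor B (a point x k of A on
D i j would be collinear with z i j; the only point of A collinear with z i j is x j, by B' j; etc.).
By `pairs42` for l = D i j: its pair is {i, j} (the indices with Meet l (A' k): i and j, since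
z i j is on A' i and B' j and `meetA`, `meetB`), so z j i is on D i j and D j i = D i j.
Every skew line l is D i j for its pair from `pairs42`.
The line D i j meets C k for k ∉ {i, j} in a point w; the third line E through w is skew (as in
LabSums) with pair {l, m}; k ∉ {l, m} since E meets C k; if i ∈ {l, m} then E and D i j both meet
A' i, in points different from w (w on C k, `m6`), and no triangles forces a common point of E and
D i j on A' i, so E = D i j, contradiction; same for j. So {l, m} is the complement of {i, j, k}.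

Now define g : Fin 27 → L by the numbering of `Model.lean` (0 = A, 1 = B, 2+i = C i, 7+i = A' i,
12+i = B' i, 17.. = D i j for ij = 01 02 03 04 12 13 14 23 24 34). g is surjective (a line meeting A
in x i is A, C i or B' i; a line meeting B in y i is B, C i or A' i; the others are skew), and
|L| = 27 (`card_lines`), so g is bijective. For each of the 45 points p of the model there is a point
h p of P on the three lines g l, l with inc42 p l: this defines h : Fin 45 → P; each point of P is on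
exactly 3 lines, so I (h p) (g l) ↔ inc42 p l; h is injective because different points of the model
are on different sets of lines (decide), hence bijective (|P| = 45, `card_points`).
-/

namespace H60GQ

universe u v

variable {P : Type u} {L : Type v} {I : P → L → Prop}

/-- the third line through a point -/
private theorem third {s : ℕ} (h : IsGQ I s 2) {p : P} {l1 l2 : L} (h12 : l1 ≠ l2) (h1 : I p l1)
    (h2 : I p l2) : ∃ l3, l3 ≠ l1 ∧ l3 ≠ l2 ∧ ∀ l, I p l ↔ (l = l1 ∨ l = l2 ∨ l = l3) := by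
  obtain ⟨a, b, c, hab, hac, hbc, hS⟩ := Set.ncard_eq_three.mp (h.point_card p)
  have hS' : ∀ l, I p l ↔ (l = a ∨ l = b ∨ l = c) := by
    intro l
    have : l ∈ {l | I p l} ↔ l ∈ ({a, b, c} : Set L) := by rw [hS]
    simpa using this
  have e1 := (hS' l1).1 h1
  have e2 := (hS' l2).1 h2
  rcases e1 with rfl | rfl | rfl <;> rcases e2 with rfl | rfl | rfl
  · exact absurd rfl h12
  · exact ⟨c, hac.symm, hbc.symm, fun l => hS' l⟩
  · refine ⟨b, hab.symm, hbc, fun l => ?_⟩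
    rw [hS']; tauto
  · refine ⟨c, hbc.symm, hac.symm, fun l => ?_⟩
    rw [hS']; tauto
  · exact absurd rfl h12
  · refine ⟨a, hab, hac, fun l => ?_⟩
    rw [hS']; tauto
  · refine ⟨b, hbc, hab.symm, fun l => ?_⟩
    rw [hS']; tauto
  · refine ⟨a, hac, hab, fun l => ?_⟩
    rw [hS']; tauto
  · exact absurd rfl h12

/-- the property of the line `D i j` -/
private def QQ (a : Lab I 4) (i j : Fin 5) (l : L) : Prop :=
  a.Skew l ∧ (∀ k, Meet I l (a.C k) ↔ (k ≠ i ∧ k ≠ j)) ∧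
    (∃ p, I p l ∧ I p (a.A' i) ∧ I p (a.B' j)) ∧ ∃ p, I p l ∧ I p (a.A' j) ∧ I p (a.B' i)

private theorem QQ_symm {a : Lab I 4} {i j : Fin 5} {l : L} (h : QQ a i j l) : QQ a j i l :=
  ⟨h.1, fun k => (h.2.1 k).trans and_comm, h.2.2.2, h.2.2.1⟩

private theorem meet_A'_B (a : Lab I 4) (i : Fin 5) : I (a.y i) (a.A' i) ∧ I (a.y i) a.B ∧
    I (a.y i) (a.C i) :=
  ⟨(a.ly i _).2 (Or.inr (Or.inr rfl)), (a.ly i _).2 (Or.inl rfl), (a.ly i _).2 (Or.inr (Or.inl rfl))⟩

private theorem meet_B'_A (a : Lab I 4) (i : Fin 5) : I (a.x i) (a.B' i) ∧ I (a.x i) a.A ∧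
    I (a.x i) (a.C i) :=
  ⟨(a.lx i _).2 (Or.inr (Or.inr rfl)), (a.lx i _).2 (Or.inl rfl), (a.lx i _).2 (Or.inr (Or.inl rfl))⟩

private theorem skew_ne_A' {a : Lab I 4} {l : L} (hl : a.Skew l) (i : Fin 5) : l ≠ a.A' i := by
  rintro rfl
  exact hl.2 ⟨a.y i, (meet_A'_B a i).1, (meet_A'_B a i).2.1⟩

private theorem skew_ne_B' {a : Lab I 4} {l : L} (hl : a.Skew l) (i : Fin 5) : l ≠ a.B' i := by
  rintro rfl
  exact hl.1 ⟨a.x i, (meet_B'_A a i).1, (meet_B'_A a i).2.1⟩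

private theorem skew_ne_C {a : Lab I 4} {l : L} (hl : a.Skew l) (i : Fin 5) : l ≠ a.C i := by
  rintro rfl
  exact hl.1 ⟨a.x i, (meet_B'_A a i).2.2, (meet_B'_A a i).2.1⟩

private theorem QQ_unique (h : IsGQ I 4 2) {a : Lab I 4} {i j : Fin 5} {l l' : L}
    (hl : QQ a i j l) (hl' : QQ a i j l') : l = l' := by
  obtain ⟨p, hp1, hp2, hp3⟩ := hl.2.2.1
  obtain ⟨p', hp1', hp2', hp3'⟩ := hl'.2.2.1
  have hne : a.A' i ≠ a.B' j := by
    intro he
    have := a.m2 h j
    rw [← he] at this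
    exact this ⟨a.y i, (meet_A'_B a i).1, (meet_A'_B a i).2.1⟩
  have hpp : p = p' := h.pt_unique hne hp2 hp2' hp3 hp3'
  subst hpp
  obtain ⟨l3, -, -, h3⟩ := third h hne hp2 hp3
  have e1 := (h3 l).1 hp1
  have e2 := (h3 l').1 hp1'
  have e1' : l = l3 := by
    rcases e1 with e | e | e
    · exact absurd e (skew_ne_A' hl.1 i)
    · exact absurd e (skew_ne_B' hl.1 j)
    · exact e
  have e2' : l' = l3 := by
    rcases e2 with e | e | e
    · exact absurd e (skew_ne_A' hl'.1 i)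
    · exact absurd e (skew_ne_B' hl'.1 j)
    · exact e
  rw [e1', e2']

private theorem QQ_exists [Finite P] [Finite L] [Nonempty P] (h : IsGQ I 4 2) (a : Lab I 4)
    {i j : Fin 5} (hij : i ≠ j) : ∃ l, QQ a i j l := by
  obtain ⟨z, hz1, hz2⟩ := a.m9 h hij
  have hne : a.A' i ≠ a.B' j := by
    intro he
    have := a.m2 h j
    rw [← he] at this
    exact this ⟨a.y i, (meet_A'_B a i).1, (meet_A'_B a i).2.1⟩
  obtain ⟨l, hl1, hl2, hl⟩ := third h hne hz1 hz2
  have hzl : I z l := (hl l).2 (Or.inr (Or.inr rfl))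
  have hzA : ¬ I z a.A := fun hz => a.m1 h i ⟨z, hz1, hz⟩
  have hzB : ¬ I z a.B := fun hz => a.m2 h j ⟨z, hz2, hz⟩
  have hsk : a.Skew l := by
    constructor
    · rintro ⟨p, hp1, hp2⟩
      have := (h.proj_unique hzA (meet_B'_A a j).2.1 hz2 (meet_B'_A a j).1 hp2 hzl hp1).2
      exact hl2 this.symm
    · rintro ⟨p, hp1, hp2⟩
      have := (h.proj_unique hzB (meet_A'_B a i).2.1 hz1 (meet_A'_B a i).1 hp2 hzl hp1).2
      exact hl1 this.symm
  obtain ⟨i', j', hij', hC, hp, hp'⟩ := a.pairs42 h hsk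
  have hi : i = i' ∨ i = j' := by
    have h1 : ¬ Meet I l (a.C i) := (a.meetA h hsk i).1 ⟨z, hzl, hz1⟩
    rw [hC] at h1
    tauto
  have hj : j = i' ∨ j = j' := by
    have h1 : ¬ Meet I l (a.C j) := (a.meetB h hsk j).1 ⟨z, hzl, hz2⟩
    rw [hC] at h1
    tauto
  have hQ : QQ a i' j' l := ⟨hsk, hC, hp, hp'⟩
  refine ⟨l, ?_⟩
  rcases hi with rfl | rfl <;> rcases hj with rfl | rfl
  · exact absurd rfl hij
  · exact hQ
  · exact QQ_symm hQ
  · exact absurd rfl hij

private theorem fin5_aux0 : ∀ i j l m : Fin 5, (i ≠ j ∧ l ≠ m ∧ i ≠ l ∧ i ≠ m ∧ j ≠ l ∧ j ≠ m) →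
    ∃ k, (k ≠ i ∧ k ≠ j) ∧ ∀ n, n = i ∨ n = j ∨ n = k ∨ n = l ∨ n = m := by
  decide +kernel

private theorem fin5_aux (i j l m : Fin 5) (h1 : i ≠ j) (h2 : l ≠ m) (h3 : i ≠ l) (h4 : i ≠ m)
    (h5 : j ≠ l) (h6 : j ≠ m) :
    ∃ k, k ≠ i ∧ k ≠ j ∧ ∀ n, n ≠ i → n ≠ j → n ≠ k → n = l ∨ n = m := by
  obtain ⟨k, hk, hn⟩ := fin5_aux0 i j l m ⟨h1, h2, h3, h4, h5, h6⟩
  refine ⟨k, hk.1, hk.2, fun n n1 n2 n3 => ?_⟩
  have := hn n
  tauto

private theorem QQ_meet [Finite P] [Finite L] [Nonempty P] (h : IsGQ I 4 2) {a : Lab I 4}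
    {i j l m : Fin 5} {d e : L} (hd : QQ a i j d) (he : QQ a l m e) (hij : i ≠ j) (hlm : l ≠ m)
    (hil : i ≠ l) (him : i ≠ m) (hjl : j ≠ l) (hjm : j ≠ m) : Meet I d e := by
  obtain ⟨k, hki, hkj, hk⟩ := fin5_aux i j l m hij hlm hil him hjl hjm
  obtain ⟨w, hw1, hw2⟩ := (hd.2.1 k).2 ⟨hki, hkj⟩
  obtain ⟨f, hf1, hf2, hf⟩ := third h (skew_ne_C hd.1 k) hw1 hw2
  have hwf : I w f := (hf f).2 (Or.inr (Or.inr rfl))
  have hwA : ¬ I w a.A := fun hw => hd.1.1 ⟨w, hw1, hw⟩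
  have hwB : ¬ I w a.B := fun hw => hd.1.2 ⟨w, hw1, hw⟩
  have hsk : a.Skew f := by
    constructor
    · rintro ⟨p, hp1, hp2⟩
      have := (h.proj_unique hwA (meet_B'_A a k).2.1 hw2 (meet_B'_A a k).2.2 hp2 hwf hp1).2
      exact hf2 this.symm
    · rintro ⟨p, hp1, hp2⟩
      have := (h.proj_unique hwB (meet_A'_B a k).2.1 hw2 (meet_A'_B a k).2.2 hp2 hwf hp1).2
      exact hf2 this.symm
  have key : ∀ n, n ≠ k → Meet I d (a.A' n) → ¬ Meet I f (a.A' n) := by
    rintro n hn ⟨p2, hp2, hp2'⟩ ⟨p1, hp1, hp1'⟩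
    have hw1' : p1 ≠ w := by
      rintro rfl
      exact a.m6 h hn ⟨p1, hp1', hw2⟩
    have hw2' : p2 ≠ w := by
      rintro rfl
      exact a.m6 h hn ⟨p2, hp2', hw2⟩
    by_cases hpp : p1 = p2
    · subst hpp
      exact hf1 (h.line_unique hw1' hp1 hwf hp2 hw1)
    · have := (h.no_triangle hpp hw1' hw2' hp1' hp2' hp2 hw1 hp1 hwf).1
      exact skew_ne_A' hd.1 n this.symm
  obtain ⟨i', j', hij', hC, hp, hp'⟩ := a.pairs42 h hsk
  have hk' := (hC k).1 ⟨w, hwf, hw2⟩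
  have mi : Meet I f (a.A' i') := ⟨hp.choose, hp.choose_spec.1, hp.choose_spec.2.1⟩
  have mj : Meet I f (a.A' j') := ⟨hp'.choose, hp'.choose_spec.1, hp'.choose_spec.2.1⟩
  have di : Meet I d (a.A' i) :=
    ⟨hd.2.2.1.choose, hd.2.2.1.choose_spec.1, hd.2.2.1.choose_spec.2.1⟩
  have dj : Meet I d (a.A' j) :=
    ⟨hd.2.2.2.choose, hd.2.2.2.choose_spec.1, hd.2.2.2.choose_spec.2.1⟩
  have ki := key i hki.symm di
  have kj := key j hkj.symm dj
  have h1 : i' = l ∨ i' = m := hk i' (fun e => ki (e ▸ mi)) (fun e => kj (e ▸ mi)) hk'.1.symm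
  have h2 : j' = l ∨ j' = m := hk j' (fun e => ki (e ▸ mj)) (fun e => kj (e ▸ mj)) hk'.2.symm
  have hQ : QQ a i' j' f := ⟨hsk, hC, hp, hp'⟩
  have hef : e = f := by
    rcases h1 with rfl | rfl <;> rcases h2 with rfl | rfl
    · exact absurd rfl hij'
    · exact QQ_unique h he hQ
    · exact QQ_unique h he (QQ_symm hQ)
    · exact absurd rfl hij'
  exact ⟨w, hw1, hef ▸ hwf⟩

/-- names of the lines -/
inductive Uniq42_Nm
  | A | B
  | C (i : Fin 5) | A' (i : Fin 5) | B' (i : Fin 5)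
  | D (i j : Fin 5)
  deriving DecidableEq

/-- the numbering -/
def Uniq42_nm : Fin 27 → Uniq42_Nm :=
  ![.A, .B, .C 0, .C 1, .C 2, .C 3, .C 4, .A' 0, .A' 1, .A' 2, .A' 3, .A' 4,
    .B' 0, .B' 1, .B' 2, .B' 3, .B' 4,
    .D 0 1, .D 0 2, .D 0 3, .D 0 4, .D 1 2, .D 1 3, .D 1 4, .D 2 3, .D 2 4, .D 3 4]

/-- the names of meeting lines (in one order) -/
def Uniq42_rel : Uniq42_Nm → Uniq42_Nm → Bool
  | .A, .C _ => true
  | .A, .B' _ => true
  | .B, .C _ => true
  | .B, .A' _ => true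
  | .C i, .A' j => decide (i = j)
  | .C i, .B' j => decide (i = j)
  | .A' i, .B' j => decide (i ≠ j)
  | .D i j, .C k => decide (i ≠ j ∧ k ≠ i ∧ k ≠ j)
  | .D i j, .A' k => decide (i ≠ j ∧ (k = i ∨ k = j))
  | .D i j, .B' k => decide (i ≠ j ∧ (k = i ∨ k = j))
  | .D i j, .D l m => decide (i ≠ j ∧ l ≠ m ∧ i ≠ l ∧ i ≠ m ∧ j ≠ l ∧ j ≠ m)
  | _, _ => false

private theorem rel_table : ∀ l m : Fin 27, l ≠ m → (∃ p, inc42 p l = true ∧ inc42 p m = true) →
    (Uniq42_rel (Uniq42_nm l) (Uniq42_nm m) = true ∨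
      Uniq42_rel (Uniq42_nm m) (Uniq42_nm l) = true) := by
  decide +kernel

private theorem name_table1 : (∃ n, Uniq42_nm n = .A) ∧ (∃ n, Uniq42_nm n = .B) ∧
    (∀ i, ∃ n, Uniq42_nm n = .C i) ∧ (∀ i, ∃ n, Uniq42_nm n = .A' i) ∧
    (∀ i, ∃ n, Uniq42_nm n = .B' i) ∧
    (∀ i j, i ≠ j → (∃ n, Uniq42_nm n = .D i j) ∨ (∃ n, Uniq42_nm n = .D j i)) := by
  decide +kernel

private theorem card_table : ∀ p : Fin 45,
    (Finset.univ.filter (fun l : Fin 27 => inc42 p l = true)).card = 3 := by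
  decide +kernel

private theorem inj_table : ∀ p p' : Fin 45, (∀ l, inc42 p l = true ↔ inc42 p' l = true) →
    p = p' := by
  decide +kernel

/-- the line with a name -/
private def ev (a : Lab I 4) (D : Fin 5 → Fin 5 → L) : Uniq42_Nm → L
  | .A => a.A
  | .B => a.B
  | .C i => a.C i
  | .A' i => a.A' i
  | .B' i => a.B' i
  | .D i j => D i j

private theorem meet_symm {l m : L} (h : Meet I l m) : Meet I m l := by
  obtain ⟨p, h1, h2⟩ := h
  exact ⟨p, h2, h1⟩

private theorem rel_meet [Finite P] [Finite L] [Nonempty P] (h : IsGQ I 4 2) (a : Lab I 4)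
    {D : Fin 5 → Fin 5 → L} (hD : ∀ i j, i ≠ j → QQ a i j (D i j)) (t t' : Uniq42_Nm)
    (ht : Uniq42_rel t t' = true) : Meet I (ev a D t) (ev a D t') := by
  cases t <;> cases t' <;> simp only [Uniq42_rel, decide_eq_true_eq, Bool.false_eq_true] at ht
  case A.C i => exact ⟨a.x i, (meet_B'_A a i).2.1, (meet_B'_A a i).2.2⟩
  case A.B' i => exact ⟨a.x i, (meet_B'_A a i).2.1, (meet_B'_A a i).1⟩
  case B.C i => exact ⟨a.y i, (meet_A'_B a i).2.1, (meet_A'_B a i).2.2⟩
  case B.A' i => exact ⟨a.y i, (meet_A'_B a i).2.1, (meet_A'_B a i).1⟩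
  case C.A' i j => subst ht; exact ⟨a.y i, (meet_A'_B a i).2.2, (meet_A'_B a i).1⟩
  case C.B' i j => subst ht; exact ⟨a.x i, (meet_B'_A a i).2.2, (meet_B'_A a i).1⟩
  case A'.B' i j => exact a.m9 h ht
  case D.C i j k => exact ((hD i j ht.1).2.1 k).2 ht.2
  case D.A' i j k =>
    obtain ⟨p, hp1, hp2, hp3⟩ := (hD i j ht.1).2.2.1
    obtain ⟨p', hp1', hp2', hp3'⟩ := (hD i j ht.1).2.2.2
    rcases ht.2 with rfl | rfl
    · exact ⟨p, hp1, hp2⟩
    · exact ⟨p', hp1', hp2'⟩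
  case D.B' i j k =>
    obtain ⟨p, hp1, hp2, hp3⟩ := (hD i j ht.1).2.2.1
    obtain ⟨p', hp1', hp2', hp3'⟩ := (hD i j ht.1).2.2.2
    rcases ht.2 with rfl | rfl
    · exact ⟨p', hp1', hp3'⟩
    · exact ⟨p, hp1, hp3⟩
  case D.D i j l m =>
    exact QQ_meet h (hD i j ht.1) (hD l m ht.2.1) ht.1 ht.2.1 ht.2.2.1 ht.2.2.2.1 ht.2.2.2.2.1
      ht.2.2.2.2.2

/-- three pairwise meeting lines have a common point -/
private theorem common3 {s t : ℕ} (h : IsGQ I s t) {l m n : L} (hln : l ≠ n) (h1 : Meet I l m) (h2 : Meet I l n) (h3 : Meet I m n) :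
    ∃ p, I p l ∧ I p m ∧ I p n := by
  obtain ⟨p, hp1, hp2⟩ := h1
  obtain ⟨q, hq1, hq2⟩ := h2
  obtain ⟨r, hr1, hr2⟩ := h3
  by_cases hpq : p = q
  · subst hpq
    exact ⟨p, hp1, hp2, hq2⟩
  by_cases hpr : p = r
  · subst hpr
    exact ⟨p, hp1, hp2, hr2⟩
  by_cases hqr : q = r
  · subst hqr
    exact ⟨q, hq1, hr1, hq2⟩
  · exact absurd (h.no_triangle hpq hpr hqr hp1 hq1 hq2 hr2 hp2 hr1).1 hln

theorem uniq42 [Finite P] [Finite L] [Nonempty P] (h : IsGQ I 4 2) :
    ∃ (e : P ≃ Fin 45) (f : L ≃ Fin 27), ∀ p l, I p l ↔ inc42 (e p) (f l) = true := by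
  classical
  obtain ⟨a⟩ := exists_lab h (by norm_num)
  have hDex : ∀ i j : Fin 5, ∃ l, i ≠ j → QQ a i j l := by
    intro i j
    by_cases hij : i = j
    · exact ⟨a.A, fun h => absurd hij h⟩
    · obtain ⟨l, hl⟩ := QQ_exists h a hij
      exact ⟨l, fun _ => hl⟩
  choose D hD using hDex
  have hDs : ∀ i j, i ≠ j → D i j = D j i := fun i j hij =>
    QQ_unique h (hD i j hij) (QQ_symm (hD j i hij.symm))
  let g : Fin 27 → L := fun n => ev a D (Uniq42_nm n)
  obtain ⟨nA, nB, nC, nA', nB', nD⟩ := name_table1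
  have gsurj : Function.Surjective g := by
    intro l
    by_cases hA : Meet I l a.A
    · obtain ⟨p, hp1, hp2⟩ := hA
      obtain ⟨i, rfl⟩ := (a.xA p).1 hp2
      rcases (a.lx i l).1 hp1 with rfl | rfl | rfl
      · obtain ⟨n, hn⟩ := nA
        exact ⟨n, by simp only [g, hn, ev]⟩
      · obtain ⟨n, hn⟩ := nC i
        exact ⟨n, by simp only [g, hn, ev]⟩
      · obtain ⟨n, hn⟩ := nB' i
        exact ⟨n, by simp only [g, hn, ev]⟩
    by_cases hB : Meet I l a.B
    · obtain ⟨p, hp1, hp2⟩ := hB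
      obtain ⟨i, rfl⟩ := (a.yB p).1 hp2
      rcases (a.ly i l).1 hp1 with rfl | rfl | rfl
      · obtain ⟨n, hn⟩ := nB
        exact ⟨n, by simp only [g, hn, ev]⟩
      · obtain ⟨n, hn⟩ := nC i
        exact ⟨n, by simp only [g, hn, ev]⟩
      · obtain ⟨n, hn⟩ := nA' i
        exact ⟨n, by simp only [g, hn, ev]⟩
    · have hsk : a.Skew l := ⟨hA, hB⟩
      obtain ⟨i, j, hij, hC, hp, hp'⟩ := a.pairs42 h hsk
      have hQ : QQ a i j l := ⟨hsk, hC, hp, hp'⟩
      have hl : l = D i j := QQ_unique h hQ (hD i j hij)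
      rcases nD i j hij with ⟨n, hn⟩ | ⟨n, hn⟩
      · exact ⟨n, by simp only [g, hn, ev, hl]⟩
      · exact ⟨n, by simp only [g, hn, ev, hl]; exact (hDs i j hij).symm⟩
  have hL : Nat.card L = 27 := by rw [h.card_lines]
  have hP : Nat.card P = 45 := by rw [h.card_points]
  have gbij : Function.Bijective g := by
    have := Fintype.ofFinite L
    rw [Fintype.bijective_iff_surjective_and_card]
    refine ⟨gsurj, ?_⟩
    rw [Nat.card_eq_fintype_card] at hL
    rw [hL, Fintype.card_fin]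
  have gmeet : ∀ l m : Fin 27, l ≠ m → (∃ p, inc42 p l = true ∧ inc42 p m = true) →
      Meet I (g l) (g m) := by
    intro l m hlm hp
    rcases rel_table l m hlm hp with hr | hr
    · exact rel_meet h a hD _ _ hr
    · exact meet_symm (rel_meet h a hD _ _ hr)
  have hpt : ∀ p : Fin 45, ∃ q : P, ∀ l, I q (g l) ↔ inc42 p l = true := by
    intro p
    obtain ⟨l1, l2, l3, h12, h13, h23, hS⟩ := Finset.card_eq_three.mp (card_table p)
    have hS' : ∀ l, inc42 p l = true ↔ (l = l1 ∨ l = l2 ∨ l = l3) := by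
      intro l
      have : l ∈ Finset.univ.filter (fun l : Fin 27 => inc42 p l = true) ↔
          l ∈ ({l1, l2, l3} : Finset (Fin 27)) := by rw [hS]
      simpa using this
    have i1 := (hS' l1).2 (Or.inl rfl)
    have i2 := (hS' l2).2 (Or.inr (Or.inl rfl))
    have i3 := (hS' l3).2 (Or.inr (Or.inr rfl))
    have g12 : g l1 ≠ g l2 := fun e => h12 (gbij.1 e)
    have g13 : g l1 ≠ g l3 := fun e => h13 (gbij.1 e)
    have g23 : g l2 ≠ g l3 := fun e => h23 (gbij.1 e)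
    obtain ⟨q, hq1, hq2, hq3⟩ := common3 h g13 (gmeet l1 l2 h12 ⟨p, i1, i2⟩)
      (gmeet l1 l3 h13 ⟨p, i1, i3⟩) (gmeet l2 l3 h23 ⟨p, i2, i3⟩)
    refine ⟨q, fun l => ?_⟩
    obtain ⟨m, hm1, hm2, hm⟩ := third h g12 hq1 hq2
    have e3 : g l3 = m := by
      rcases (hm (g l3)).1 hq3 with e | e | e
      · exact absurd e.symm g13
      · exact absurd e.symm g23
      · exact e
    rw [hm, hS', ← e3]
    constructor
    · rintro (e | e | e)
      · exact Or.inl (gbij.1 e)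
      · exact Or.inr (Or.inl (gbij.1 e))
      · exact Or.inr (Or.inr (gbij.1 e))
    · rintro (rfl | rfl | rfl)
      · exact Or.inl rfl
      · exact Or.inr (Or.inl rfl)
      · exact Or.inr (Or.inr rfl)
  choose k hk using hpt
  have kinj : Function.Injective k := by
    intro p p' hpp
    refine inj_table p p' fun l => ?_
    rw [← hk p l, ← hk p' l, hpp]
  have kbij : Function.Bijective k := by
    have := Fintype.ofFinite P
    rw [Fintype.bijective_iff_injective_and_card]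
    refine ⟨kinj, ?_⟩
    rw [Nat.card_eq_fintype_card] at hP
    rw [hP, Fintype.card_fin]
  refine ⟨(Equiv.ofBijective k kbij).symm, (Equiv.ofBijective g gbij).symm, ?_⟩
  intro p l
  have e1 : k ((Equiv.ofBijective k kbij).symm p) = p := (Equiv.ofBijective k kbij).apply_symm_apply p
  have e2 : g ((Equiv.ofBijective g gbij).symm l) = l := (Equiv.ofBijective g gbij).apply_symm_apply l
  have := hk ((Equiv.ofBijective k kbij).symm p) ((Equiv.ofBijective g gbij).symm l)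
  rw [e1, e2] at this
  exact this

end H60GQ
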