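import Pool.Agent.H60.GQ.Uniq22
import Pool.Agent.H60.GQ.Params
import Pool.Agent.H60.GQ.Facts22

/-!
Project GQ (MP_a3aa3c_co), module W22: coordinates of a subquadrangle (P', L') of order (2, 2) of a
quadrangle of order (4, t): `φ` its points, `ψ` its lines, `α k b` the two further points of the
line `ψ k`.

`exists_W22`: `uniq22` for the quadrangle hs.2 on the subtypes; φ i = (e.symm i).1,
ψ k = (f.symm k).1; each line of L' has 5 points, 3 of them in P' (`lc`), so 2 others: α k true,
α k false; α's on different lines are different by `SubGQ.pt_mem`.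
-/

namespace H60GQ

universe u v

open Finset Classical

variable {P : Type u} {L : Type v} {I : P → L → Prop} {t : ℕ} {P' : Set P} {L' : Set L}

structure W22 (I : P → L → Prop) (P' : Set P) (L' : Set L) where
  φ : Fin 15 → P
  ψ : Fin 15 → L
  α : Fin 15 → Bool → P
  φ_inj : Function.Injective φ
  ψ_inj : Function.Injective ψ
  memP : ∀ p, p ∈ P' ↔ ∃ i, p = φ i
  memL : ∀ l, l ∈ L' ↔ ∃ k, l = ψ k
  inc : ∀ i k, I (φ i) (ψ k) ↔ inc22 i k = true
  α_not : ∀ k b, α k b ∉ P'
  α_inj : ∀ k k' b b', α k b = α k' b' → k = k' ∧ b = b'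
  pts : ∀ k x, I x (ψ k) ↔ (∃ i, inc22 i k = true ∧ x = φ i) ∨ ∃ b, x = α k b

theorem exists_W22 [Finite P] [Finite L] (h : IsGQ I 4 t) (hs : SubGQ I P' L' 2 2) :
    Nonempty (W22 I P' L') := by
  have hne := hs.nonempty_sub
  obtain ⟨e, f, hef⟩ := uniq22 hs.2
  have hα : ∀ k : Fin 15, ∃ a b : P, a ≠ b ∧
      {x | x ∉ P' ∧ I x (f.symm k).1} = {a, b} := by
    intro k
    rw [← Set.ncard_eq_two]
    have h1 := hs.lc (f.symm k).2
    have h2 := h.line_card (f.symm k).1
    have hu : {x | I x (f.symm k).1} =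
        {x | x ∈ P' ∧ I x (f.symm k).1} ∪ {x | x ∉ P' ∧ I x (f.symm k).1} := by
      ext x
      simp only [Set.mem_union, Set.mem_ofPred_eq]
      tauto
    have hd : Disjoint {x | x ∈ P' ∧ I x (f.symm k).1} {x | x ∉ P' ∧ I x (f.symm k).1} := by
      rw [Set.disjoint_left]
      rintro x ⟨h3, -⟩ ⟨h4, -⟩
      exact h4 h3
    have h5 := Set.ncard_union_eq hd (Set.toFinite _) (Set.toFinite _)
    rw [← hu, h1, h2] at h5
    omega
  choose a b hab hset using hα
  have hmem : ∀ k x, (x ∉ P' ∧ I x (f.symm k).1) ↔ x = a k ∨ x = b k := by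
    intro k x
    have h1 : x ∈ {x | x ∉ P' ∧ I x (f.symm k).1} ↔ x ∈ ({a k, b k} : Set P) := by rw [hset k]
    simpa using h1
  have hc : ∀ k (c : Bool), (if c then a k else b k) ∉ P' ∧
      I (if c then a k else b k) (f.symm k).1 := by
    intro k c
    cases c
    · exact (hmem k _).mpr (Or.inr rfl)
    · exact (hmem k _).mpr (Or.inl rfl)
  refine ⟨⟨fun i => (e.symm i).1, fun k => (f.symm k).1, fun k c => if c then a k else b k,
    Subtype.val_injective.comp e.symm.injective, Subtype.val_injective.comp f.symm.injective,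
    ?_, ?_, ?_, fun k c => (hc k c).1, ?_, ?_⟩⟩
  · intro p
    constructor
    · intro hp
      exact ⟨e ⟨p, hp⟩, by simp⟩
    · rintro ⟨i, rfl⟩
      exact (e.symm i).2
  · intro l
    constructor
    · intro hl
      exact ⟨f ⟨l, hl⟩, by simp⟩
    · rintro ⟨i, rfl⟩
      exact (f.symm i).2
  · intro i k
    have h1 := hef (e.symm i) (f.symm k)
    simpa using h1
  · intro k k' c c' he
    have h1 := hc k c
    have h2 := hc k' c'
    rw [← he] at h2
    have hk : k = k' := by
      by_contra hne'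
      have h3 : (f.symm k).1 ≠ (f.symm k').1 := fun h4 =>
        hne' (f.symm.injective (Subtype.val_injective h4))
      exact h1.1 (hs.pt_mem h (f.symm k).2 (f.symm k').2 h3 h1.2 h2.2)
    subst hk
    refine ⟨rfl, ?_⟩
    cases c <;> cases c'
    · rfl
    · exact absurd he.symm (hab k)
    · exact absurd he (hab k)
    · rfl
  · intro k x
    constructor
    · intro hx
      by_cases hxP : x ∈ P'
      · left
        refine ⟨e ⟨x, hxP⟩, ?_, by simp⟩
        have h1 := hef ⟨x, hxP⟩ (f.symm k)
        rw [f.apply_symm_apply] at h1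
        exact h1.mp hx
      · right
        rcases (hmem k x).mp ⟨hxP, hx⟩ with h1 | h1
        · exact ⟨true, h1⟩
        · exact ⟨false, h1⟩
    · rintro (⟨i, hi, rfl⟩ | ⟨c, rfl⟩)
      · have h1 := hef (e.symm i) (f.symm k)
        rw [e.apply_symm_apply, f.apply_symm_apply] at h1
        exact h1.mpr hi
      · exact (hc k c).2

/-- indices of the points of `P'` collinear with `x` -/
noncomputable def W22.T (w : W22 I P' L') (x : P) : Finset (Fin 15) :=
  univ.filter (fun i => Col I (w.φ i) x)

/-- `x` is one of the 30 points `α k b` -/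
def W22.IsA (w : W22 I P' L') (x : P) : Prop := ∃ k b, x = w.α k b

/-- the points outside `P'` on no line of `L'` -/
def W22.IsB (w : W22 I P' L') (x : P) : Prop := x ∉ P' ∧ ¬ w.IsA x

/-- the points subtending a hyperbolic triad -/
def W22.IsH (w : W22 I P' L') (x : P) : Prop := w.IsB x ∧ IsHyp (w.T x)

theorem W22.mem_T (w : W22 I P' L') (x : P) (i : Fin 15) : i ∈ w.T x ↔ Col I (w.φ i) x := by
  simp [W22.T]

end H60GQ
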