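import Pool.Agent.H60.GQ.W22

/-!
Project GQ (MP_a3aa3c_co), module W22Basic: first facts on the points outside a subquadrangle of
order (2, 2). All use `SubGQ.line_mem`, `SubGQ.alpha_col`, `SubGQ.proj_mem`, `col_unique`,
`mem_of_col`, `exists_unique_col`, `unique22`, `skew22_iff`, `col22_iff`.

* `isB_beta`: x is a B point iff x ∈ Beta.
* `T_B`: |T x| = 3 by `kk_three` (kk = ncard of P' points collinear with x = card (T x) since φ is
  injective with range P'); pairwise non-collinear: if i ≠ j ∈ T x with col22 i j then the line ψ k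
  through φ i, φ j contains x (`mem_of_col`), so x ∈ P' or x is an α point.
* `line_cases`: a line with two points φ i ≠ φ j is some ψ k (`line_mem`).
-/

namespace H60GQ

universe u v

open Finset Classical

variable {P : Type u} {L : Type v} {I : P → L → Prop} {t : ℕ} {P' : Set P} {L' : Set L}

private theorem W22Basic_φP (w : W22 I P' L') (i : Fin 15) : w.φ i ∈ P' := (w.memP _).2 ⟨i, rfl⟩

private theorem W22Basic_ψL (w : W22 I P' L') (k : Fin 15) : w.ψ k ∈ L' := (w.memL _).2 ⟨k, rfl⟩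

private theorem W22Basic_αψ (w : W22 I P' L') (k : Fin 15) (b : Bool) : I (w.α k b) (w.ψ k) :=
  (w.pts k _).2 (Or.inr ⟨b, rfl⟩)

private theorem W22Basic_refl : ∀ i : Fin 15, col22 i i = true := by decide +kernel

theorem W22.isB_beta (w : W22 I P' L') (x : P) : w.IsB x ↔ x ∈ Beta I P' L' := by
  constructor
  · rintro ⟨h1, h2⟩
    refine ⟨h1, fun l hl hxl => ?_⟩
    obtain ⟨k, rfl⟩ := (w.memL l).1 hl
    rcases (w.pts k x).1 hxl with ⟨i, -, rfl⟩ | ⟨b, rfl⟩
    · exact h1 (W22Basic_φP w i)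
    · exact h2 ⟨k, b, rfl⟩
  · rintro ⟨h1, h2⟩
    refine ⟨h1, ?_⟩
    rintro ⟨k, b, rfl⟩
    exact h2 _ (W22Basic_ψL w k) (W22Basic_αψ w k b)

theorem W22.col_φ (h : IsGQ I 4 t) (hs : SubGQ I P' L' 2 2) (w : W22 I P' L') (i j : Fin 15) :
    Col I (w.φ i) (w.φ j) ↔ col22 i j = true := by
  constructor
  · rintro ⟨l, h1, h2⟩
    by_cases hij : i = j
    · subst hij
      exact W22Basic_refl i
    · have h3 := hs.line_mem h (W22Basic_φP w i) (W22Basic_φP w j)
        (fun e => hij (w.φ_inj e)) h1 h2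
      obtain ⟨k, rfl⟩ := (w.memL l).1 h3
      exact (col22_iff i j).2 ⟨k, (w.inc i k).1 h1, (w.inc j k).1 h2⟩
  · intro hc
    obtain ⟨k, h1, h2⟩ := (col22_iff i j).1 hc
    exact ⟨w.ψ k, (w.inc i k).2 h1, (w.inc j k).2 h2⟩

theorem W22.line_cases (h : IsGQ I 4 t) (hs : SubGQ I P' L' 2 2) (w : W22 I P' L') {i j : Fin 15}
    (hij : i ≠ j) {m : L} (h1 : I (w.φ i) m) (h2 : I (w.φ j) m) :
    ∃ k, m = w.ψ k ∧ inc22 i k = true ∧ inc22 j k = true := by
  have h3 := hs.line_mem h (W22Basic_φP w i) (W22Basic_φP w j)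
    (fun e => hij (w.φ_inj e)) h1 h2
  obtain ⟨k, rfl⟩ := (w.memL m).1 h3
  exact ⟨k, rfl, (w.inc i k).1 h1, (w.inc j k).1 h2⟩

theorem W22.T_α (h : IsGQ I 4 t) (hs : SubGQ I P' L' 2 2) (w : W22 I P' L') (k : Fin 15)
    (b : Bool) : w.T (w.α k b) = lineSet k := by
  ext i
  rw [w.mem_T]
  unfold lineSet
  rw [Finset.mem_filter]
  constructor
  · intro hc
    refine ⟨Finset.mem_univ i, (w.inc i k).1 ?_⟩
    exact hs.alpha_col h (w.α_not k b) (W22Basic_ψL w k) (W22Basic_αψ w k b) (W22Basic_φP w i) hc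
  · rintro ⟨-, hi⟩
    exact ⟨w.ψ k, (w.inc i k).2 hi, W22Basic_αψ w k b⟩

theorem W22.T_B [Finite P] [Finite L] (h : IsGQ I 4 t) (ht : 2 ≤ t) (hs : SubGQ I P' L' 2 2)
    (w : W22 I P' L') {x : P} (hx : w.IsB x) : IsTriad (w.T x) := by
  have hb := (w.isB_beta x).1 hx
  refine ⟨?_, ?_⟩
  · have h1 := kk_three h ht hs hb
    unfold kk at h1
    have h2 : {p | p ∈ P' ∧ Col I p x} = w.φ '' (w.T x : Set (Fin 15)) := by
      ext p
      constructor
      · rintro ⟨h3, h4⟩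
        obtain ⟨i, rfl⟩ := (w.memP p).1 h3
        exact ⟨i, Finset.mem_coe.2 ((w.mem_T x i).2 h4), rfl⟩
      · rintro ⟨i, h3, rfl⟩
        exact ⟨W22Basic_φP w i, (w.mem_T x i).1 (Finset.mem_coe.1 h3)⟩
    rw [h2, Set.ncard_image_of_injective _ w.φ_inj, Set.ncard_coe_finset] at h1
    exact h1
  · intro a ha b hb' hab
    by_contra hcon
    rw [Bool.not_eq_false] at hcon
    obtain ⟨k, h1, h2⟩ := (col22_iff a b).1 hcon
    have h3 : w.φ a ≠ w.φ b := fun e => hab (w.φ_inj e)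
    have h4 := h.mem_of_col h3 ((w.inc a k).2 h1) ((w.inc b k).2 h2)
      ((w.mem_T x a).1 ha).symm ((w.mem_T x b).1 hb').symm
    exact hb.2 _ (W22Basic_ψL w k) h4

end H60GQ
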