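import Pool.Agent.H60.GQ.W22Basic

/-!
Project GQ (MP_a3aa3c_co), module W22Basic2: second part of W22Basic.
All use `SubGQ.line_mem`, `SubGQ.alpha_col`, `SubGQ.proj_mem`, `SubGQ.pt_mem`, `col_unique`,
`mem_of_col`, `exists_unique_col`, `line_cases`, `unique22`, `skew22_iff`, `col22_iff`.
For `αα_skew`: α k b is not on ψ l; its projection on ψ l is not in P' (`alpha_col`), so it is an
α point of ψ l.
-/

namespace H60GQ

universe u v

open Finset Classical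

variable {P : Type u} {L : Type v} {I : P → L → Prop} {t : ℕ} {P' : Set P} {L' : Set L}

private theorem W22Basic2_φP (w : W22 I P' L') (i : Fin 15) : w.φ i ∈ P' := (w.memP _).2 ⟨i, rfl⟩

private theorem W22Basic2_ψL (w : W22 I P' L') (k : Fin 15) : w.ψ k ∈ L' := (w.memL _).2 ⟨k, rfl⟩

private theorem W22Basic2_αψ (w : W22 I P' L') (k : Fin 15) (b : Bool) : I (w.α k b) (w.ψ k) :=
  (w.pts k _).2 (Or.inr ⟨b, rfl⟩)

private theorem W22Basic2_ne (w : W22 I P' L') (i k : Fin 15) (b : Bool) : w.φ i ≠ w.α k b :=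
  fun e => w.α_not k b (e ▸ W22Basic2_φP w i)

/-- a line without points of `P'`: each point of `P'` is collinear with exactly one point of it -/
theorem W22.ext_part (h : IsGQ I 4 t) (w : W22 I P' L') {N : L} (hN : ∀ i, ¬ I (w.φ i) N)
    (i : Fin 15) : ∃! x, I x N ∧ i ∈ w.T x := by
  obtain ⟨q, ⟨h1, h2⟩, hu⟩ := h.exists_unique_col (hN i)
  exact ⟨q, ⟨h1, (w.mem_T q i).2 h2⟩, fun y hy => hu y ⟨hy.1, (w.mem_T y i).1 hy.2⟩⟩

/-- a line through `φ p` not in `L'`: the triads of its other points meet pairwise in `p` -/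
theorem W22.tan_part (h : IsGQ I 4 t) (hs : SubGQ I P' L' 2 2) (w : W22 I P' L') {p : Fin 15}
    {m : L} (h1 : I (w.φ p) m) (h2 : m ∉ L') {x y : P} (hx : I x m) (hy : I y m) (hxy : x ≠ y)
    (hxp : x ≠ w.φ p) (hyp : y ≠ w.φ p) : w.IsB x ∧ w.T x ∩ w.T y = {p} := by
  have _hyp := hyp
  refine ⟨⟨fun hxP => ?_, ?_⟩, ?_⟩
  · exact h2 (hs.line_mem h hxP (W22Basic2_φP w p) hxp hx h1)
  · rintro ⟨k, b, rfl⟩
    have h3 := hs.alpha_col h (w.α_not k b) (W22Basic2_ψL w k) (W22Basic2_αψ w k b)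
      (W22Basic2_φP w p) ⟨m, h1, hx⟩
    have h4 := h.line_unique hxp hx h1 (W22Basic2_αψ w k b) h3
    exact h2 (h4 ▸ W22Basic2_ψL w k)
  · ext i
    rw [Finset.mem_inter, w.mem_T, w.mem_T, Finset.mem_singleton]
    constructor
    · rintro ⟨h3, h4⟩
      have h5 := h.mem_of_col hxy hx hy h3 h4
      by_contra hip
      exact h2 (hs.line_mem h (W22Basic2_φP w i) (W22Basic2_φP w p) (fun e => hip (w.φ_inj e)) h5 h1)
    · rintro rfl
      exact ⟨⟨m, h1, hx⟩, ⟨m, h1, hy⟩⟩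

/-- α points on two meeting lines are not collinear -/
theorem W22.αα_meet (h : IsGQ I 4 t) (hs : SubGQ I P' L' 2 2) (w : W22 I P' L') {k l : Fin 15}
    (hkl : k ≠ l) (hm : skew22 k l = false) (b c : Bool) : ¬ Col I (w.α k b) (w.α l c) := by
  intro hc
  have h1 : ¬ skew22 k l = true := by rw [hm]; exact Bool.false_ne_true
  rw [skew22_iff] at h1
  push Not at h1
  obtain ⟨p, hp1, hp2⟩ := h1
  have hψ : w.ψ k ≠ w.ψ l := fun e => hkl (w.ψ_inj e)
  have h2 : ¬ I (w.α k b) (w.ψ l) := fun h3 =>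
    w.α_not k b (hs.pt_mem h (W22Basic2_ψL w k) (W22Basic2_ψL w l) hψ (W22Basic2_αψ w k b) h3)
  have h3 := h.col_unique h2 ((w.inc p l).2 hp2) (W22Basic2_αψ w l c)
    ⟨w.ψ k, W22Basic2_αψ w k b, (w.inc p k).2 hp1⟩ hc
  exact W22Basic2_ne w p l c h3

/-- α points on two disjoint lines: a perfect matching -/
theorem W22.αα_skew (h : IsGQ I 4 t) (hs : SubGQ I P' L' 2 2) (w : W22 I P' L') {k l : Fin 15}
    (hm : skew22 k l = true) (b : Bool) : ∃! c, Col I (w.α k b) (w.α l c) := by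
  have hkl : k ≠ l := by
    rintro rfl
    rw [skew22_irrefl] at hm
    exact Bool.false_ne_true hm
  have hψ : w.ψ k ≠ w.ψ l := fun e => hkl (w.ψ_inj e)
  have h2 : ¬ I (w.α k b) (w.ψ l) := fun h3 =>
    w.α_not k b (hs.pt_mem h (W22Basic2_ψL w k) (W22Basic2_ψL w l) hψ (W22Basic2_αψ w k b) h3)
  obtain ⟨q, ⟨h3, h4⟩, hu⟩ := h.exists_unique_col h2
  rcases (w.pts l q).1 h3 with ⟨i, hi, rfl⟩ | ⟨c, rfl⟩
  · exfalso
    have h5 := hs.alpha_col h (w.α_not k b) (W22Basic2_ψL w k) (W22Basic2_αψ w k b)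
      (W22Basic2_φP w i) h4.symm
    have h6 := (skew22_iff k l).1 hm
    exact h6 i ⟨(w.inc i k).1 h5, hi⟩
  · refine ⟨c, h4, fun c' hc' => ?_⟩
    exact (w.α_inj _ _ _ _ (hu _ ⟨W22Basic2_αψ w l c', hc'⟩)).2

/-- a B point and a line missing its triad -/
theorem W22.Bα_miss (h : IsGQ I 4 t) (hs : SubGQ I P' L' 2 2) (w : W22 I P' L') {x : P}
    (hx : w.IsB x) {k : Fin 15} (hk : Disjoint (lineSet k) (w.T x)) :
    ∃! b, Col I x (w.α k b) := by
  have _hs := hs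
  have h2 : ¬ I x (w.ψ k) := ((w.isB_beta x).1 hx).2 _ (W22Basic2_ψL w k)
  obtain ⟨q, ⟨h3, h4⟩, hu⟩ := h.exists_unique_col h2
  rcases (w.pts k q).1 h3 with ⟨i, hi, rfl⟩ | ⟨b, rfl⟩
  · exfalso
    have h5 : i ∈ lineSet k := by
      unfold lineSet
      exact Finset.mem_filter.2 ⟨Finset.mem_univ i, hi⟩
    exact Finset.disjoint_left.1 hk h5 ((w.mem_T x i).2 h4.symm)
  · refine ⟨b, h4, fun b' hb' => ?_⟩
    exact (w.α_inj _ _ _ _ (hu _ ⟨W22Basic2_αψ w k b', hb'⟩)).2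

/-- a B point and a line meeting its triad -/
theorem W22.Bα_meet (h : IsGQ I 4 t) (hs : SubGQ I P' L' 2 2) (w : W22 I P' L') {x : P}
    (hx : w.IsB x) {k : Fin 15} (hk : ¬ Disjoint (lineSet k) (w.T x)) (b : Bool) :
    ¬ Col I x (w.α k b) := by
  have _hs := hs
  intro hc
  rw [Finset.not_disjoint_iff] at hk
  obtain ⟨i, hi1, hi2⟩ := hk
  have h2 : ¬ I x (w.ψ k) := ((w.isB_beta x).1 hx).2 _ (W22Basic2_ψL w k)
  unfold lineSet at hi1
  have h3 := (w.inc i k).2 (Finset.mem_filter.1 hi1).2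
  have h4 := h.col_unique h2 h3 (W22Basic2_αψ w k b) ((w.mem_T x i).1 hi2).symm hc
  exact W22Basic2_ne w i k b h4

/-- a line not in `L'` with an α point has no point of `P'` -/
theorem W22.α_line (h : IsGQ I 4 t) (hs : SubGQ I P' L' 2 2) (w : W22 I P' L') {k : Fin 15}
    {b : Bool} {N : L} (h1 : I (w.α k b) N) (h2 : N ∉ L') (i : Fin 15) : ¬ I (w.φ i) N := by
  intro h3
  have h4 := hs.alpha_col h (w.α_not k b) (W22Basic2_ψL w k) (W22Basic2_αψ w k b)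
    (W22Basic2_φP w i) ⟨N, h3, h1⟩
  have h5 := h.line_unique (W22Basic2_ne w i k b) h3 h1 h4 (W22Basic2_αψ w k b)
  exact h2 (h5 ▸ W22Basic2_ψL w k)

end H60GQ
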